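import Pool.Agent.Lib.MP_3fe454_an.PD.Defs
import Pool.Agent.Shared.Ergodic.Birkhoff

/-!
Consequences of the Birkhoff theorem.
-/

set_option autoImplicit false

open Set Metric Filter Topology MeasureTheory Function
open scoped ComplexConjugate ENNReal

namespace Pool.Agent.Lib.MP_3fe454_an.PD

open Pool.Agent.Shared.Ergodic

variable {Y : Type} [MeasurableSpace Y]

private theorem tendsto_upper (μ : Measure Y) [IsProbabilityMeasure μ] {T : Y → Y}
    (h : MeasurePreserving T μ μ) {f : Y → ℝ} (hf : Measurable f) (C : ℝ)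
    (hC : ∀ x, |f x| ≤ C) : ∀ᵐ x ∂μ, Tendsto (avg T f x) atTop (𝓝 (upper T f x)) := by
  filter_upwards [birkhoff_real h hf C hC] with x ⟨L, hL⟩
  have : upper T f x = L := hL.limsup_eq
  rw [this]; exact hL

private theorem integral_comp_mp (μ : Measure Y) {T : Y → Y}
    (h : MeasurePreserving T μ μ) {f : Y → ℝ} (hf : Measurable f) :
    ∫ x, f (T x) ∂μ = ∫ x, f x ∂μ := by
  have := integral_map (μ := μ) h.measurable.aemeasurable (f := f) hf.aestronglyMeasurable
  rw [h.map_eq] at this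
  exact this.symm

private theorem integral_avg (μ : Measure Y) [IsProbabilityMeasure μ] {T : Y → Y}
    (h : MeasurePreserving T μ μ) {f : Y → ℝ} (hf : Measurable f) (C : ℝ)
    (hC : ∀ x, |f x| ≤ C) {N : ℕ} (hN : 1 ≤ N) : ∫ x, avg T f x N ∂μ = ∫ x, f x ∂μ := by
  unfold avg
  rw [integral_const_mul, integral_finsetSum]
  · have : ∀ n ∈ Finset.range N, ∫ x, f (T^[n] x) ∂μ = ∫ x, f x ∂μ := fun n _ =>
      integral_comp_mp μ (h.iterate n) hf
    rw [Finset.sum_congr rfl this, Finset.sum_const, Finset.card_range, nsmul_eq_mul,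
      ← mul_assoc, inv_mul_cancel₀ (by exact_mod_cast (by omega : N ≠ 0)), one_mul]
  · intro n _
    exact integrable_of_bdd (hf.comp (h.measurable.iterate n)) C fun x => hC _

private theorem integral_limit (μ : Measure Y) [IsProbabilityMeasure μ] {T : Y → Y}
    (h : MeasurePreserving T μ μ) {f g : Y → ℝ} (hf : Measurable f) (C : ℝ)
    (hC : ∀ x, |f x| ≤ C) (hg : ∀ᵐ x ∂μ, Tendsto (avg T f x) atTop (𝓝 (g x))) :
    ∫ x, g x ∂μ = ∫ x, f x ∂μ := by
  have h1 : Tendsto (fun N => ∫ x, avg T f x N ∂μ) atTop (𝓝 (∫ x, g x ∂μ)) :=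
    tendsto_integral_of_dominated_convergence (fun _ => C)
      (fun N => (measurable_avg h.measurable hf N).aestronglyMeasurable) (integrable_const C)
      (fun N => Eventually.of_forall fun x => abs_avg_le T C hC x N) hg
  have h2 : Tendsto (fun N => ∫ x, avg T f x N ∂μ) atTop (𝓝 (∫ x, f x ∂μ)) := by
    refine tendsto_const_nhds.congr' ?_
    filter_upwards [eventually_ge_atTop 1] with N hN
    exact (integral_avg μ h hf C hC hN).symm
  exact tendsto_nhds_unique h1 h2

omit [MeasurableSpace Y] in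
private theorem abs_ind_le (A : Set Y) (x : Y) : |A.indicator (fun _ => (1 : ℝ)) x| ≤ 1 := by
  by_cases hx : x ∈ A
  · simp [hx]
  · simp [hx]

omit [MeasurableSpace Y] in
private theorem ind_nonneg (A : Set Y) (x : Y) : 0 ≤ A.indicator (fun _ => (1 : ℝ)) x :=
  Set.indicator_nonneg (fun _ _ => zero_le_one) x

omit [MeasurableSpace Y] in
private theorem avg_ind_nonneg (T : Y → Y) (A : Set Y) (x : Y) (N : ℕ) :
    0 ≤ avg T (A.indicator fun _ => (1 : ℝ)) x N :=
  mul_nonneg (by positivity) (Finset.sum_nonneg fun _ _ => ind_nonneg A _)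

private theorem integral_ind (μ : Measure Y) {A : Set Y} (hA : MeasurableSet A) :
    ∫ x, A.indicator (fun _ => (1 : ℝ)) x ∂μ = μ.real A := by
  rw [integral_indicator hA]; simp

/-- almost every point of A has a positive frequency of returns -/
private theorem ae_pos_freq (μ : Measure Y) [IsProbabilityMeasure μ] {T : Y → Y}
    (h : MeasurePreserving T μ μ) {A : Set Y} (hA : MeasurableSet A) :
    ∀ᵐ x ∂μ, x ∈ A → ∃ L : ℝ, 0 < L ∧
      Tendsto (avg T (A.indicator fun _ => (1 : ℝ)) x) atTop (𝓝 L) := by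
  have hf : Measurable (A.indicator fun _ => (1 : ℝ)) := measurable_const.indicator hA
  have hu := measurable_upper h.measurable hf
  set φ := upper T (A.indicator fun _ => (1 : ℝ)) with hφ
  have hA0 : MeasurableSet (A ∩ {x | φ x ≤ 0}) := hA.inter (measurableSet_le hu measurable_const)
  have hf0 : Measurable ((A ∩ {x | φ x ≤ 0}).indicator fun _ => (1 : ℝ)) :=
    measurable_const.indicator hA0
  have ht := tendsto_upper μ h hf 1 (abs_ind_le A)
  have h0 : ∀ᵐ x ∂μ, Tendsto (avg T ((A ∩ {x | φ x ≤ 0}).indicator fun _ => (1 : ℝ)) x) atTop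
      (𝓝 ((fun _ => (0 : ℝ)) x)) := by
    filter_upwards [ht] with x hx
    by_cases hp : φ x ≤ 0
    · have h1 : 0 ≤ φ x := ge_of_tendsto' hx (avg_ind_nonneg T A x)
      have h2 : φ x = 0 := le_antisymm hp h1
      rw [← hφ, h2] at hx
      refine squeeze_zero (avg_ind_nonneg T _ x) (fun N => ?_) hx
      refine mul_le_mul_of_nonneg_left (Finset.sum_le_sum fun n _ => ?_) (by positivity)
      exact Set.indicator_le_indicator_of_subset inter_subset_left (fun _ => zero_le_one) _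
    · refine tendsto_const_nhds.congr fun N => ?_
      unfold avg
      rw [Finset.sum_eq_zero, mul_zero]
      intro n _
      apply Set.indicator_of_notMem
      intro hn
      apply hp
      have := hn.2
      simp only [mem_ofPred_eq, hφ] at this
      rwa [upper_iterate T 1 (abs_ind_le A)] at this
  have h1 := integral_limit μ h hf0 1 (abs_ind_le _) h0
  rw [integral_ind μ hA0, integral_zero] at h1
  have h2 : μ (A ∩ {x | φ x ≤ 0}) = 0 := (measureReal_eq_zero_iff).1 h1.symm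
  have h3 : ∀ᵐ x ∂μ, x ∉ A ∩ {x | φ x ≤ 0} := measure_eq_zero_iff_ae_notMem.1 h2
  filter_upwards [ht, h3] with x hx hx' hxA
  refine ⟨φ x, ?_, hx⟩
  by_contra hc
  exact hx' ⟨hxA, not_lt.1 hc⟩

omit [MeasurableSpace Y] in
private theorem windows_of_pos {T : Y → Y} {A : Set Y} {x : Y} {L : ℝ} (hL : 0 < L)
    (hx : Tendsto (avg T (A.indicator fun _ => (1 : ℝ)) x) atTop (𝓝 L)) :
    ∃ T0 : ℕ, ∀ N ≥ T0, ∃ s, N < s ∧ s ≤ 2 * N ∧ T^[s] x ∈ A := by
  have h1 : ∀ᶠ N in atTop, 3 / 4 * L < avg T (A.indicator fun _ => (1 : ℝ)) x N :=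
    hx.eventually (lt_mem_nhds (by linarith))
  have h2 : ∀ᶠ N in atTop, avg T (A.indicator fun _ => (1 : ℝ)) x N < 5 / 4 * L :=
    hx.eventually (gt_mem_nhds (by linarith))
  obtain ⟨T0, hT0⟩ := eventually_atTop.1 (h1.and h2)
  refine ⟨T0 + 2, fun N hN => ?_⟩
  by_contra hc
  push Not at hc
  have h3 := (hT0 (2 * N + 1) (by omega)).1
  have h4 := (hT0 (N + 1) (by omega)).2
  have h5 : ∑ n ∈ Finset.range (2 * N + 1), A.indicator (fun _ => (1 : ℝ)) (T^[n] x) =
      ∑ n ∈ Finset.range (N + 1), A.indicator (fun _ => (1 : ℝ)) (T^[n] x) := by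
    symm
    apply Finset.sum_subset
    · intro n hn
      simp only [Finset.mem_range] at hn ⊢
      omega
    · intro n hn hn'
      simp only [Finset.mem_range] at hn hn'
      exact Set.indicator_of_notMem (hc n (by omega) (by omega)) _
  unfold avg at h3 h4
  rw [h5, lt_inv_mul_iff₀ (by positivity)] at h3
  rw [inv_mul_lt_iff₀ (by positivity)] at h4
  have h6 : (2 : ℝ) ≤ N := by exact_mod_cast (by omega : 2 ≤ N)
  push_cast at h3 h4
  nlinarith

/-- returns in all late dyadic windows -/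
theorem ae_windows (ν : Measure Y) [IsFiniteMeasure ν] {T : Y → Y}
    (h : MeasurePreserving T ν ν) {A : Set Y} (hA : MeasurableSet A) :
    ∀ᵐ x ∂ν, x ∈ A → ∃ T0 : ℕ, ∀ N ≥ T0, ∃ s, N < s ∧ s ≤ 2 * N ∧ T^[s] x ∈ A := by
  rcases eq_zero_or_neZero ν with rfl | hν
  · simp
  have hne : (ν univ)⁻¹ ≠ 0 := ENNReal.inv_ne_zero.2 (measure_ne_top ν univ)
  have h1 := ae_pos_freq ((ν univ)⁻¹ • ν) (h.smul_measure _) hA
  filter_upwards [(Measure.absolutelyContinuous_smul hne).ae_le h1] with x hx hxA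
  obtain ⟨L, hL, hx⟩ := hx hxA
  exact windows_of_pos hL hx

private theorem ergodic_limit (μ : Measure Y) [IsProbabilityMeasure μ] {T : Y → Y}
    (h : Ergodic T μ) {f : Y → ℝ} (hf : Measurable f) (C : ℝ) (hC : ∀ x, |f x| ≤ C) :
    ∀ᵐ x ∂μ, Tendsto (avg T f x) atTop (𝓝 (∫ y, f y ∂μ)) := by
  have hT := h.toMeasurePreserving
  have hu := measurable_upper hT.measurable hf
  have ht := tendsto_upper μ hT hf C hC
  obtain ⟨c, hc⟩ := h.ae_eq_const_of_ae_eq_comp hu (funext fun x => upper_shift T C hC x)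
  have h1 := integral_limit μ hT hf C hC ht
  rw [integral_congr_ae hc] at h1
  simp only [Function.const, integral_const, probReal_univ, smul_eq_mul, one_mul] at h1
  filter_upwards [ht, hc] with x hx hx'
  rw [hx'] at hx
  rw [← h1]
  exact hx

open Classical in
/-- frequency of the visits of a large set -/
theorem ae_freq (μ : Measure Y) [IsProbabilityMeasure μ] {T : Y → Y} (h : Ergodic T μ)
    {A : Set Y} (hA : MeasurableSet A) (hμ : μ Aᶜ ≤ ENNReal.ofReal (1 / 8)) :
    ∀ᵐ x ∂μ, ∃ N0 : ℕ, ∀ N ≥ N0,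
      6 * ((Finset.range N).filter fun t => T^[t] x ∉ A).card ≤ N := by
  have hf : Measurable (Aᶜ.indicator fun _ => (1 : ℝ)) := measurable_const.indicator hA.compl
  have h1 := ergodic_limit μ h hf 1 (abs_ind_le _)
  rw [integral_ind μ hA.compl] at h1
  have h2 : μ.real Aᶜ ≤ 1 / 8 := ENNReal.toReal_le_of_le_ofReal (by norm_num) hμ
  filter_upwards [h1] with x hx
  have h3 : ∀ᶠ N in atTop, avg T (Aᶜ.indicator fun _ => (1 : ℝ)) x N < 1 / 6 :=
    hx.eventually (gt_mem_nhds (by linarith))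
  obtain ⟨N0, hN0⟩ := eventually_atTop.1 h3
  refine ⟨N0 + 1, fun N hN => ?_⟩
  have h4 := hN0 N (by omega)
  have hN' : (0 : ℝ) < N := by exact_mod_cast (by omega : 0 < N)
  have h5 : ∑ n ∈ Finset.range N, Aᶜ.indicator (fun _ => (1 : ℝ)) (T^[n] x) =
      (((Finset.range N).filter fun t => T^[t] x ∉ A).card : ℝ) := by
    rw [Finset.card_filter]
    push_cast
    refine Finset.sum_congr rfl fun n _ => ?_
    by_cases hn : T^[n] x ∈ A
    · simp [hn]
    · simp [hn]
  unfold avg at h4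
  rw [h5, inv_mul_lt_iff₀ hN'] at h4
  have h6 : (6 : ℝ) * (((Finset.range N).filter fun t => T^[t] x ∉ A).card : ℝ) ≤ N := by
    linarith
  exact_mod_cast h6

omit [MeasurableSpace Y] in
open Classical in
theorem pair_windows {T : Y → Y} {A : Set Y} {N0 : ℕ} {x y : Y}
    (hx : ∀ N ≥ N0, 6 * ((Finset.range N).filter fun t => T^[t] x ∉ A).card ≤ N)
    (hy : ∀ N ≥ N0, 6 * ((Finset.range N).filter fun t => T^[t] y ∉ A).card ≤ N) :
    ∀ N ≥ N0 + 2, ∃ s, N < s ∧ s ≤ 2 * N ∧ T^[s] x ∈ A ∧ T^[s] y ∈ A := by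
  intro N hN
  by_contra hc
  push Not at hc
  have h1 := hx (2 * N + 1) (by omega)
  have h2 := hy (2 * N + 1) (by omega)
  have h3 : Finset.Ioc N (2 * N) ⊆
      ((Finset.range (2 * N + 1)).filter fun t => T^[t] x ∉ A) ∪
        ((Finset.range (2 * N + 1)).filter fun t => T^[t] y ∉ A) := by
    intro s hs
    rw [Finset.mem_Ioc] at hs
    simp only [Finset.mem_union, Finset.mem_filter, Finset.mem_range]
    by_cases hsx : T^[s] x ∈ A
    · exact Or.inr ⟨by omega, hc s hs.1 hs.2 hsx⟩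
    · exact Or.inl ⟨by omega, hsx⟩
  have h4 := (Finset.card_le_card h3).trans (Finset.card_union_le _ _)
  rw [Nat.card_Ioc] at h4
  omega

theorem ae_visit (μ : Measure Y) [IsProbabilityMeasure μ] {T : Y → Y} (h : Ergodic T μ)
    {A : Set Y} (hA : MeasurableSet A) (hμ : μ A ≠ 0) :
    ∀ᵐ x ∂μ, ∀ N : ℕ, ∃ n ≥ N, T^[n] x ∈ A := by
  have hf : Measurable (A.indicator fun _ => (1 : ℝ)) := measurable_const.indicator hA
  have h1 := ergodic_limit μ h hf 1 (abs_ind_le _)
  rw [integral_ind μ hA] at h1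
  have h2 : 0 < μ.real A := ENNReal.toReal_pos hμ (measure_ne_top μ A)
  filter_upwards [h1] with x hx N
  obtain ⟨T0, hT0⟩ := windows_of_pos h2 hx
  obtain ⟨s, hs, -, hs'⟩ := hT0 (T0 + N) (by omega)
  exact ⟨s, by omega, hs'⟩

theorem ae_dense [TopologicalSpace Y] [SecondCountableTopology Y] [OpensMeasurableSpace Y]
    (μ : Measure Y) [IsProbabilityMeasure μ] {T : Y → Y} (h : Ergodic T μ) :
    ∀ᵐ x ∂μ, ∀ V, IsOpen V → μ V ≠ 0 → ∃ n : ℕ, 1 ≤ n ∧ T^[n] x ∈ V := by
  have hc := TopologicalSpace.countable_countableBasis Y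
  have hb := TopologicalSpace.isBasis_countableBasis Y
  have h1 : ∀ᵐ x ∂μ, ∀ W ∈ TopologicalSpace.countableBasis Y,
      μ W ≠ 0 → ∃ n : ℕ, 1 ≤ n ∧ T^[n] x ∈ W := by
    rw [ae_ball_iff hc]
    intro W hW
    by_cases h0 : μ W = 0
    · exact Eventually.of_forall fun x hx => absurd h0 hx
    · filter_upwards [ae_visit μ h (hb.isOpen hW).measurableSet h0] with x hx _
      exact hx 1
  filter_upwards [h1] with x hx V hV hV0
  have h2 : ∃ W ∈ TopologicalSpace.countableBasis Y, W ⊆ V ∧ μ W ≠ 0 := by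
    by_contra hcon
    push Not at hcon
    apply hV0
    rw [hb.open_eq_sUnion' hV]
    rw [measure_sUnion_null_iff (hc.mono (sep_subset _ _))]
    intro W hW
    exact hcon W hW.1 hW.2
  obtain ⟨W, hW, hWV, hW0⟩ := h2
  obtain ⟨n, hn, hn'⟩ := hx W hW hW0
  exact ⟨n, hn, hWV hn'⟩

theorem two_sided (m : Measure Y) [IsProbabilityMeasure m] {T S : Y → Y}
    (hT : MeasurePreserving T m m) (hS : MeasurePreserving S m m)
    (hST : ∀ᵐ y ∂m, S (T y) = y) {φ : Y → ℝ} (hφ : Measurable φ) (C : ℝ)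
    (hC : ∀ y, |φ y| ≤ C) :
    ∀ᵐ y ∂m, ∃ l : ℝ,
      Tendsto (fun n : ℕ => (n : ℝ)⁻¹ * ∑ i ∈ Finset.range n, φ (T^[i] y)) atTop (𝓝 l) ∧
      Tendsto (fun n : ℕ => (n : ℝ)⁻¹ * ∑ i ∈ Finset.range n, φ (S^[i + 1] y)) atTop (𝓝 l) := by
  have hψ : Measurable fun y => φ (S y) := hφ.comp hS.measurable
  have hC' : ∀ y, |(fun y => φ (S y)) y| ≤ C := fun y => hC _
  have hp := tendsto_upper m hT hφ C hC
  have hm := tendsto_upper m hS hψ C hC'
  have hup := measurable_upper hT.measurable hφ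
  have hum := measurable_upper hS.measurable hψ
  set P := upper T φ with hP
  set Q := upper S (fun y => φ (S y)) with hQ
  have hall : ∀ᵐ y ∂m, ∀ n : ℕ, S (T (T^[n] y)) = T^[n] y := by
    rw [ae_all_iff]
    intro n
    exact (hT.iterate n).quasiMeasurePreserving.ae hST
  have hkey : ∀ᵐ y ∂m, ∀ n : ℕ, avg S (fun y => φ (S y)) (T^[n] y) n = avg T φ y n ∧
      Q (T^[n] y) = Q y := by
    filter_upwards [hall] with y hy n
    have h1 : ∀ k j : ℕ, S^[k] (T^[j + k] y) = T^[j] y := by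
      intro k
      induction k with
      | zero => intro j; rfl
      | succ k ih =>
        intro j
        rw [← add_assoc, Function.iterate_succ_apply, Function.iterate_succ_apply', hy, ih]
    constructor
    · unfold avg
      congr 1
      rw [← Finset.sum_range_reflect (fun i => φ (T^[i] y)) n]
      refine Finset.sum_congr rfl fun i hi => ?_
      rw [Finset.mem_range] at hi
      have h2 := h1 (i + 1) (n - 1 - i)
      rw [show n - 1 - i + (i + 1) = n by omega, Function.iterate_succ_apply'] at h2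
      simp only [h2]
    · have h2 := h1 n 0
      rw [zero_add] at h2
      have h3 := upper_iterate S C hC' n (T^[n] y)
      rw [h2] at h3
      exact h3.symm
  have hbd : ∀ a b : ℝ, |a| ≤ C → |b| ≤ C → ‖|a - b|‖ ≤ C + C := fun a b ha hb => by
    rw [Real.norm_eq_abs, abs_abs]
    exact (abs_sub a b).trans (add_le_add ha hb)
  have hmB : ∀ n, Measurable fun y => |avg S (fun y => φ (S y)) y n - Q y| := fun n =>
    ((measurable_avg hS.measurable hψ n).sub hum).abs
  have hmA : ∀ n, Measurable fun y => |avg T φ y n - Q y| := fun n =>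
    ((measurable_avg hT.measurable hφ n).sub hum).abs
  have h1 : Tendsto (fun n => ∫ y, |avg S (fun y => φ (S y)) y n - Q y| ∂m) atTop
      (𝓝 (∫ _y, (0 : ℝ) ∂m)) := by
    refine tendsto_integral_of_dominated_convergence (fun _ => C + C)
      (fun n => (hmB n).aestronglyMeasurable) (integrable_const _)
      (fun n => Eventually.of_forall fun y =>
        hbd _ _ (abs_avg_le S C hC' y n) (abs_upper_le S C hC' y)) ?_
    filter_upwards [hm] with y hy
    simpa using (hy.sub_const (Q y)).abs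
  have h2 : Tendsto (fun n => ∫ y, |avg T φ y n - Q y| ∂m) atTop (𝓝 (∫ y, |P y - Q y| ∂m)) := by
    refine tendsto_integral_of_dominated_convergence (fun _ => C + C)
      (fun n => (hmA n).aestronglyMeasurable) (integrable_const _)
      (fun n => Eventually.of_forall fun y =>
        hbd _ _ (abs_avg_le T C hC y n) (abs_upper_le S C hC' y)) ?_
    filter_upwards [hp] with y hy
    exact (hy.sub_const (Q y)).abs
  have h3 : ∀ n, ∫ y, |avg S (fun y => φ (S y)) y n - Q y| ∂m = ∫ y, |avg T φ y n - Q y| ∂m := by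
    intro n
    rw [← integral_comp_mp m (hT.iterate n) (hmB n)]
    refine integral_congr_ae ?_
    filter_upwards [hkey] with y hy
    rw [(hy n).1, (hy n).2]
  simp only [h3, integral_zero] at h1
  have h4 : ∫ y, |P y - Q y| ∂m = 0 := tendsto_nhds_unique h2 h1
  have h5 : Integrable (fun y => |P y - Q y|) m :=
    integrable_of_bdd (hup.sub hum).abs (C + C) fun y =>
      hbd _ _ (abs_upper_le T C hC y) (abs_upper_le S C hC' y)
  have h6 := (integral_eq_zero_iff_of_nonneg (fun y => abs_nonneg _) h5).1 h4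
  filter_upwards [hp, hm, h6] with y h7 h8 h9
  have h10 : P y = Q y := sub_eq_zero.1 (abs_eq_zero.1 h9)
  refine ⟨P y, h7, ?_⟩
  rw [h10]
  refine h8.congr fun n => ?_
  simp only [avg, Function.iterate_succ_apply']

private theorem lin_bound {v : ℕ → ℝ} {l : ℝ}
    (h : Tendsto (fun n : ℕ => (n : ℝ)⁻¹ * ∑ i ∈ Finset.range n, v i) atTop (𝓝 l))
    {ε : ℝ} (hε : 0 < ε) :
    ∃ C, 0 ≤ C ∧ ∀ n : ℕ, |∑ i ∈ Finset.range n, (v i - l)| ≤ ε * n + C := by
  obtain ⟨N, hN⟩ := Metric.tendsto_atTop.1 h ε hε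
  refine ⟨∑ n ∈ Finset.range (N + 1), |∑ i ∈ Finset.range n, (v i - l)|,
    Finset.sum_nonneg fun _ _ => abs_nonneg _, fun n => ?_⟩
  have h0 : 0 ≤ ∑ n ∈ Finset.range (N + 1), |∑ i ∈ Finset.range n, (v i - l)| :=
    Finset.sum_nonneg fun _ _ => abs_nonneg _
  by_cases hn : n < N + 1
  · have h1 := Finset.single_le_sum (f := fun n => |∑ i ∈ Finset.range n, (v i - l)|)
      (fun _ _ => abs_nonneg _) (Finset.mem_range.2 hn)
    have h2 : 0 ≤ ε * n := by positivity
    linarith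
  · have h1 := hN n (by omega)
    have hn' : (0 : ℝ) < n := by exact_mod_cast (by omega : 0 < n)
    rw [Real.dist_eq] at h1
    have h2 : ∑ i ∈ Finset.range n, (v i - l) =
        n * ((n : ℝ)⁻¹ * ∑ i ∈ Finset.range n, v i - l) := by
      rw [Finset.sum_sub_distrib, mul_sub, ← mul_assoc, mul_inv_cancel₀ hn'.ne']
      simp
    rw [h2, abs_mul, abs_of_pos hn']
    nlinarith

private theorem sum_Ico_split (g : ℤ → ℝ) {a b c : ℤ} (hab : a ≤ b) (hbc : b ≤ c) :
    ∑ t ∈ Finset.Ico a c, g t = ∑ t ∈ Finset.Ico a b, g t + ∑ t ∈ Finset.Ico b c, g t := by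
  rw [← Finset.sum_union (Finset.Ico_disjoint_Ico_consecutive a b c),
    Finset.Ico_union_Ico_eq_Ico hab hbc]

private theorem sum_Ico_pos (g : ℤ → ℝ) (n : ℕ) :
    ∑ t ∈ Finset.Ico (0 : ℤ) n, g t = ∑ i ∈ Finset.range n, g i := by
  refine Finset.sum_nbij' (fun t => t.toNat) (fun i => (i : ℤ)) ?_ ?_ ?_ ?_ ?_
  · intro t ht; simp only [Finset.mem_Ico, Finset.mem_range] at ht ⊢; omega
  · intro t ht; simp only [Finset.mem_Ico, Finset.mem_range] at ht ⊢; omega
  · intro t ht; simp only [Finset.mem_Ico] at ht ⊢; omega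
  · intro t _; simp
  · intro t ht
    simp only [Finset.mem_Ico] at ht
    rw [Int.toNat_of_nonneg ht.1]

private theorem sum_Ico_neg (g : ℤ → ℝ) (n : ℕ) :
    ∑ t ∈ Finset.Ico (-(n : ℤ)) 0, g t = ∑ i ∈ Finset.range n, g (-((i : ℤ) + 1)) := by
  refine Finset.sum_nbij' (fun t => (-t - 1).toNat) (fun i => -((i : ℤ) + 1)) ?_ ?_ ?_ ?_ ?_
  · intro t ht; simp only [Finset.mem_Ico, Finset.mem_range] at ht ⊢; omega
  · intro t ht; simp only [Finset.mem_Ico, Finset.mem_range] at ht ⊢; omega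
  · intro t ht; simp only [Finset.mem_Ico] at ht ⊢; omega
  · intro t _; omega
  · intro t ht
    simp only [Finset.mem_Ico] at ht
    congr 1
    omega

omit [MeasurableSpace Y] in
theorem Bd_of_tendsto {u : ℤ → ℝ} {l : ℝ}
    (h1 : Tendsto (fun n : ℕ => (n : ℝ)⁻¹ * ∑ i ∈ Finset.range n, u i) atTop (𝓝 l))
    (h2 : Tendsto (fun n : ℕ => (n : ℝ)⁻¹ * ∑ i ∈ Finset.range n, u (-((i : ℤ) + 1))) atTop
      (𝓝 l)) {ε : ℝ} (hε : 0 < ε) : ∃ C, Bd u l ε C := by
  obtain ⟨C1, hC1, b1⟩ := lin_bound h1 hε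
  obtain ⟨C2, hC2, b2⟩ := lin_bound h2 hε
  have p : ∀ j : ℤ, 0 ≤ j → |∑ t ∈ Finset.Ico 0 j, (u t - l)| ≤ ε * |(j : ℝ)| + (C1 + C2) := by
    intro j hj
    obtain ⟨n, rfl⟩ := Int.eq_ofNat_of_zero_le hj
    rw [sum_Ico_pos (fun t => u t - l) n]
    have := b1 n
    simp only [Int.cast_natCast, Nat.abs_cast]
    linarith
  have q : ∀ j : ℤ, j ≤ 0 → |∑ t ∈ Finset.Ico j 0, (u t - l)| ≤ ε * |(j : ℝ)| + (C1 + C2) := by
    intro j hj
    obtain ⟨n, rfl⟩ := Int.exists_eq_neg_ofNat hj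
    rw [sum_Ico_neg (fun t => u t - l) n]
    have := b2 n
    simp only [Int.cast_neg, Int.cast_natCast, abs_neg, Nat.abs_cast]
    linarith
  refine ⟨2 * (C1 + C2), fun i j hij => ?_⟩
  rcases le_total 0 i with hi | hi
  · have e := sum_Ico_split (fun t => u t - l) hi hij
    have a := abs_le.1 (p i hi)
    have b := abs_le.1 (p j (hi.trans hij))
    rw [abs_le]
    constructor <;> linarith [a.1, a.2, b.1, b.2]
  · rcases le_total 0 j with hj | hj
    · have e := sum_Ico_split (fun t => u t - l) hi hj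
      have a := abs_le.1 (q i hi)
      have b := abs_le.1 (p j hj)
      rw [abs_le]
      constructor <;> linarith [a.1, a.2, b.1, b.2]
    · have e := sum_Ico_split (fun t => u t - l) hij hj
      have a := abs_le.1 (q i hi)
      have b := abs_le.1 (q j hj)
      rw [abs_le]
      constructor <;> linarith [a.1, a.2, b.1, b.2]

end Pool.Agent.Lib.MP_3fe454_an.PD
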