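import Pool.Agent.Lib.MP_3fe454_an.PD.Leaf2
import Pool.Agent.Lib.MP_3fe454_an.PD.Meas2

/-!
Accumulation from both sides.
-/

set_option autoImplicit false

open Set Metric Filter Topology MeasureTheory Function
open scoped ComplexConjugate ENNReal

namespace Pool.Agent.Lib.MP_3fe454_an.PD

/-- if all level sets of h on E are null, almost every point of E lies below a set of
positive measure -/
theorem null_top {X : Type} [MeasurableSpace X] (μ : Measure X) (E : Set X) (h : X → ℝ)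
    (hl : ∀ c, μ {x | x ∈ E ∧ h x = c} = 0) :
    μ {x | x ∈ E ∧ μ {x' | x' ∈ E ∧ h x < h x'} = 0} = 0 := by
  set U : Set X := ⋃ q : {q : ℚ // μ {x' | x' ∈ E ∧ (q : ℝ) < h x'} = 0},
    {x' | x' ∈ E ∧ ((q.1 : ℚ) : ℝ) < h x'} with hU
  have hU0 : μ U = 0 := measure_iUnion_null fun q => q.2
  have key : ∀ x y, x ∈ E → μ {x' | x' ∈ E ∧ h x < h x'} = 0 → y ∈ E → h x < h y → y ∈ U := by
    intro x y _ hx hy hxy
    obtain ⟨q, hq1, hq2⟩ := exists_rat_btwn hxy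
    refine mem_iUnion.2 ⟨⟨q, ?_⟩, hy, hq2⟩
    refine measure_mono_null ?_ hx
    intro w hw
    exact ⟨hw.1, hq1.trans hw.2⟩
  by_cases hne : ∃ x, x ∈ E ∧ μ {x' | x' ∈ E ∧ h x < h x'} = 0 ∧ x ∉ U
  · obtain ⟨x0, hx0, hm0, hU0'⟩ := hne
    refine measure_mono_null (t := U ∪ {x | x ∈ E ∧ h x = h x0}) ?_
      (measure_union_null hU0 (hl _))
    intro x hx
    by_cases hxU : x ∈ U
    · exact Or.inl hxU
    · refine Or.inr ⟨hx.1, ?_⟩
      rcases lt_trichotomy (h x) (h x0) with h1 | h1 | h1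
      · exact absurd (key x x0 hx.1 hx.2 hx0 h1) hU0'
      · exact h1
      · exact absurd (key x0 x hx0 hm0 hx.1 h1) hxU
  · refine measure_mono_null ?_ hU0
    intro x hx
    by_contra hxU
    exact hne ⟨x, hx.1, hx.2, hxU⟩

namespace Blk

variable {F : Dis} (B : Blk F)

theorem rad_lt (n : ℕ) : B.η / ((n : ℝ) + 2) < B.η := by
  have h := B.η_pos
  have hn : (0 : ℝ) ≤ n := Nat.cast_nonneg n
  rw [div_lt_iff₀ (by linarith)]
  nlinarith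

theorem rad_le (n : ℕ) : B.η / ((n : ℝ) + 2) ≤ B.η / 2 := by
  have h := B.η_pos
  have hn : (0 : ℝ) ≤ n := Nat.cast_nonneg n
  exact div_le_div_of_nonneg_left h.le (by norm_num) (by linarith)

theorem box_level (μ : Measure ℂ) (hn : F.NullCl μ) (A : Set ℂ) {z0 e0 : ℂ} (he : ‖e0‖ = 1)
    {ρ : ℝ} (hρ : ρ < B.η) (c : ℝ) :
    μ {x | x ∈ A ∩ B.Box z0 e0 ρ ∧ B.psi x z0 e0 0 = c} = 0 := by
  by_cases hne : ∃ x0, x0 ∈ A ∩ B.Box z0 e0 ρ ∧ B.psi x0 z0 e0 0 = c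
  · obtain ⟨x0, hx0, hc⟩ := hne
    obtain ⟨a0, ha0⟩ := B.Box_sadm he hρ hx0.2
    refine measure_mono_null ?_ (hn x0)
    intro x hx
    obtain ⟨a, ha⟩ := B.Box_sadm he hρ hx.1.2
    exact (B.psi_eq ha0.adm ha.adm (v0 := 0) (hc.trans hx.2.symm)).1
  · have : {x | x ∈ A ∩ B.Box z0 e0 ρ ∧ B.psi x z0 e0 0 = c} = ∅ :=
      eq_empty_of_forall_notMem fun x hx => hne ⟨x, hx⟩
    rw [this, measure_empty]

theorem ae_acc (μ : Measure ℂ) (hn : F.NullCl μ) {A : Set ℂ} (hA : A ⊆ B.P) :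
    ∀ᵐ x ∂μ, x ∈ A → ∀ e, (x, e) ∈ B.K → ∀ κ > 0,
      μ {x' | x' ∈ A ∧ ‖x' - x‖ < κ ∧ 0 < B.ht x x e x'} ≠ 0 := by
  have _ := hA
  obtain ⟨T, hTc, hT1, hT⟩ := B.Box_cover
  have hall : ∀ᵐ x ∂μ, ∀ p ∈ T, ∀ n : ℕ,
      ¬ (x ∈ A ∩ B.Box p.1 p.2 (B.η / ((n : ℝ) + 2)) ∧
        μ {x' | x' ∈ A ∩ B.Box p.1 p.2 (B.η / ((n : ℝ) + 2)) ∧
          B.psi x p.1 p.2 0 < B.psi x' p.1 p.2 0} = 0) := by
    rw [ae_ball_iff hTc]
    intro p hp
    rw [ae_all_iff]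
    intro n
    rw [ae_iff]
    simp only [not_not]
    exact null_top μ _ (fun x => B.psi x p.1 p.2 0)
      (B.box_level μ hn A (hT1 p hp) (B.rad_lt n))
  filter_upwards [hall] with x hx hxA e he κ hκ
  have hη := B.η_pos
  obtain ⟨n, hn'⟩ := exists_nat_gt (2 * B.η / κ)
  have hn0 : (0 : ℝ) ≤ n := Nat.cast_nonneg n
  have hρκ : 2 * (B.η / ((n : ℝ) + 2)) ≤ κ := by
    rw [div_lt_iff₀ hκ] at hn'
    rw [← mul_div_assoc, div_le_iff₀ (by linarith)]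
    nlinarith
  have hρ0 : 0 < B.η / ((n : ℝ) + 2) := div_pos hη (by linarith)
  have hρ2 := B.rad_le n
  set ρ := B.η / ((n : ℝ) + 2) with hρ
  obtain ⟨p, hp, hpe, hpx⟩ := hT x e he ρ hρ0
  have hxE : x ∈ A ∩ B.Box p.1 p.2 ρ := ⟨hxA, e, he, hpe, hpx.le⟩
  have had : B.Adm x e p.1 p.2 := ⟨he, hT1 p hp, by linarith, by linarith⟩
  intro h0
  refine hx p hp n ⟨hxE, measure_mono_null ?_ h0⟩
  rintro x' ⟨⟨hx'A, e', he', he'e, hx'z⟩, hlt⟩
  have had' : B.Adm x' e' p.1 p.2 := ⟨he', hT1 p hp, by linarith, by linarith⟩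
  have hd : ‖x' - x‖ < 2 * ρ := by
    have h1 : x' - x = (x' - p.1) - (x - p.1) := by ring
    rw [h1]
    have h2 := norm_sub_le (x' - p.1) (x - p.1)
    linarith
  refine ⟨hx'A, by linarith, ?_⟩
  have hre : |(co p.1 p.2 x').re| ≤ 8 * B.η := by
    have h1 := Complex.abs_re_le_norm (co p.1 p.2 x')
    rw [norm_co (hT1 p hp)] at h1
    linarith
  have hz := B.ht_zero had' (B.self_mem_S x') hre
  have hl := B.psi_lt had had' hlt (co p.1 p.2 x').re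
  refine B.ht_frame had (B.adm_self he) (by linarith) ?_
  unfold ht at hz ⊢
  linarith

theorem measurableSet_Win (T0 : ℕ) : MeasurableSet {x | B.Win T0 x} := by
  have hP : MeasurableSet B.P := B.P_compact.isClosed.measurableSet
  have h1 : {x | B.Win T0 x} = ⋂ T : ℕ, ⋂ _ : T ≥ T0, ⋃ s : ℕ, ⋃ _ : T < s ∧ s ≤ 2 * T,
      F.f^[s] ⁻¹' B.P := by
    ext x
    simp only [Win, mem_ofPred_eq, mem_iInter, mem_iUnion, mem_preimage, exists_prop, and_assoc]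
  rw [h1]
  refine MeasurableSet.iInter fun T => MeasurableSet.iInter fun _ =>
    MeasurableSet.iUnion fun s => MeasurableSet.iUnion fun _ => ?_
  exact (F.cf.iterate s).measurable hP

theorem ae_typ_all (ν : Measure ℂ) (hn : F.NullCl ν) :
    ∀ᵐ z ∂ν, ∀ T0 : ℕ, z ∈ B.P → B.Win T0 z → ∀ x e, (z, e) ∈ B.K → B.Acc T0 x z e := by
  rw [ae_all_iff]
  intro T0
  filter_upwards [B.ae_acc ν hn (A := B.P ∩ {x | B.Win T0 x}) inter_subset_left] with z hz hP hW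
    x e he κ hκ
  have h1 := hz ⟨hP, hW⟩ e he κ hκ
  by_contra hc
  refine h1 (measure_mono_null ?_ (hn x))
  rintro x' ⟨⟨h2, h3⟩, h4, h5⟩
  by_contra h6
  exact hc ⟨x', h2, h3, h6, h4, h5⟩

theorem ae_win (ν : Measure ℂ) [IsFiniteMeasure ν] (h : MeasurePreserving F.f ν ν) :
    ∀ᵐ z ∂ν, z ∈ B.P → ∃ T0, B.Win T0 z :=
  ae_windows ν h B.P_compact.isClosed.measurableSet

theorem ae_typ (ν : Measure ℂ) [IsFiniteMeasure ν] (h : MeasurePreserving F.f ν ν)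
    (hn : F.NullCl ν) :
    ∀ᵐ z ∂ν, z ∈ B.P → ∃ T0, B.Win T0 z ∧ ∀ x e, (z, e) ∈ B.K → B.Acc T0 x z e := by
  filter_upwards [B.ae_typ_all ν hn, B.ae_win ν h] with z h1 h2 hz
  obtain ⟨T0, hT0⟩ := h2 hz
  exact ⟨T0, hT0, h1 T0 hz hT0⟩

theorem Win_mono {T0 T1 : ℕ} (h : T0 ≤ T1) {x : ℂ} (hx : B.Win T0 x) : B.Win T1 x :=
  fun T hT => hx T (h.trans hT)

theorem Acc_mono {T0 T1 : ℕ} (h : T0 ≤ T1) {x z e : ℂ} (hx : B.Acc T0 x z e) :
    B.Acc T1 x z e := by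
  intro κ hκ
  obtain ⟨x', h1, h2, h3⟩ := hx κ hκ
  exact ⟨x', h1, B.Win_mono h h2, h3⟩

/-- a measurable part of the block of almost full measure with uniform constants -/
theorem exists_good (μ : Measure ℂ) [IsProbabilityMeasure μ] (h : MeasurePreserving F.f μ μ)
    (hn : F.NullCl μ) {ε : ℝ≥0∞} (hε : 0 < ε) :
    ∃ (T0 : ℕ) (G : Set ℂ), MeasurableSet G ∧ G ⊆ B.P ∧ μ (B.P \ G) ≤ ε ∧
      ∀ z ∈ G, B.Win T0 z ∧ ∀ x e, (z, e) ∈ B.K → B.Acc T0 x z e := by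
  have hP : MeasurableSet B.P := B.P_compact.isClosed.measurableSet
  have h1 := B.ae_typ_all μ hn
  rw [ae_iff] at h1
  obtain ⟨N, hN1, hN2, hN3⟩ := exists_measurable_superset_of_null h1
  have hlim : Tendsto (fun T : ℕ => μ (B.P \ {x | B.Win T x})) atTop
      (𝓝 (μ (⋂ T : ℕ, B.P \ {x | B.Win T x}))) := by
    refine tendsto_measure_iInter_atTop
      (fun T => (hP.diff (B.measurableSet_Win T)).nullMeasurableSet) ?_ ⟨0, measure_ne_top _ _⟩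
    intro T T' hT x hx
    exact ⟨hx.1, fun hW => hx.2 (B.Win_mono hT hW)⟩
  have h0 : μ (⋂ T : ℕ, B.P \ {x | B.Win T x}) = 0 := by
    have h2 := B.ae_win μ h
    rw [ae_iff] at h2
    refine measure_mono_null ?_ h2
    intro x hx hc
    rw [mem_iInter] at hx
    obtain ⟨T, hT⟩ := hc (hx 0).1
    exact (hx T).2 hT
  rw [h0] at hlim
  obtain ⟨T0, hT0⟩ := (hlim.eventually (ge_mem_nhds hε)).exists
  refine ⟨T0, (B.P ∩ {x | B.Win T0 x}) \ N, (hP.inter (B.measurableSet_Win T0)).diff hN2,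
    fun x hx => hx.1.1, ?_, ?_⟩
  · have hsub : B.P \ ((B.P ∩ {x | B.Win T0 x}) \ N) ⊆ (B.P \ {x | B.Win T0 x}) ∪ N := by
      intro x hx
      by_cases hxN : x ∈ N
      · exact Or.inr hxN
      · exact Or.inl ⟨hx.1, fun hW => hx.2 ⟨⟨hx.1, hW⟩, hxN⟩⟩
    calc μ (B.P \ ((B.P ∩ {x | B.Win T0 x}) \ N))
        ≤ μ ((B.P \ {x | B.Win T0 x}) ∪ N) := measure_mono hsub
      _ ≤ μ (B.P \ {x | B.Win T0 x}) + μ N := measure_union_le _ _
      _ ≤ ε := by rw [hN3, add_zero]; exact hT0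
  · rintro z ⟨⟨hz1, hz2⟩, hz3⟩
    refine ⟨hz2, ?_⟩
    by_contra hc
    exact hz3 (hN1 fun hall => hc (hall T0 hz1 hz2))


end Blk

end Pool.Agent.Lib.MP_3fe454_an.PD
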