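import Pool.Agent.Lib.MP_3fe454_an.PD.Step

/-!
The arch lemma and the crossing lemma.
-/

set_option autoImplicit false

open Set Metric Filter Topology MeasureTheory Function
open scoped ComplexConjugate ENNReal

namespace Pool.Agent.Lib.MP_3fe454_an.PD

namespace Blk

variable {F : Dis} (B : Blk F)

/-- the invariant of the arch lemma at time S -/
private def Inv (x : ℂ) (P : Set ℂ) (S : ℕ) (κ : ℝ) : Prop :=
  ∃ e q₁ q₂, (F.f^[S] x, e) ∈ B.K ∧ q₁ ∈ F.f^[S] '' P ∧ q₂ ∈ F.f^[S] '' P ∧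
    B.Up (F.f^[S] x) e κ q₁ ∧ B.Up (F.f^[S] x) (-e) κ q₂

private theorem arch_one : ∃ (s0 : ℕ) (ξ c0 : ℝ), 0 < ξ ∧ 0 < c0 ∧ ∀ (x : ℂ) (P : Set ℂ),
    F.StC P → (∀ w ∈ P, ¬ F.Asy w x) → ∀ (S s : ℕ) (κ : ℝ), B.Inv x P S κ → s0 ≤ s →
      F.f^[s + S] x ∈ B.P → B.C2 * B.G ^ s * κ ≤ ξ →
      B.Inv x P (s + S) (c0 * F.b ^ s) ∧
        ∃ a ∈ P, ∃ b ∈ P, 3 * B.η / 8 ≤ ‖F.f^[s + S] a - F.f^[s + S] b‖ := by
  obtain ⟨s0, ξ, c0, hξ, -, hc0, H⟩ := B.step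
  refine ⟨s0, ξ, c0, hξ, hc0, ?_⟩
  intro x P hP hna S s κ hI hs hmem hκ
  obtain ⟨e, q₁, q₂, hK, hq₁, hq₂, hu₁, hu₂⟩ := hI
  have hP' := F.StC_image hP S
  have hit : ∀ w : ℂ, F.f^[s] (F.f^[S] w) = F.f^[s + S] w := fun w =>
    (Function.iterate_add_apply _ _ _ _).symm
  have hav : ∀ w ∈ F.f^[S] '' P, F.f^[s] w ∉ B.S (F.f^[s] (F.f^[S] x)) := by
    rintro _ ⟨w, hw, rfl⟩ hS
    have h1 := B.S_asy hS
    rw [F.Asy_iter, F.Asy_iter] at h1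
    exact hna w hw h1
  obtain ⟨e', hK', hq, p₁, hp₁, p₂, hp₂, h1, h2, h3, h4, h5, h6, h7⟩ :=
    H (F.f^[S] x) e hK s hs (by rw [hit]; exact hmem) (F.f^[S] '' P) hP'.1 hP'.2.1 hP'.2.2.1
      κ q₁ q₂ hq₁ hq₂ hu₁ hu₂ hκ hav
  obtain ⟨a₁, ha₁, rfl⟩ := hp₁
  obtain ⟨a₂, ha₂, rfl⟩ := hp₂
  obtain ⟨b₁, hb₁, rfl⟩ := hq₁
  simp only [hit] at hK' hq h1 h2 h3 h4 h5 h6 h7
  have hη := B.η_pos
  have hadm := B.adm_self hK'
  refine ⟨⟨e', F.f^[s + S] a₁, F.f^[s + S] a₂, hK', ⟨a₁, ha₁, rfl⟩, ⟨a₂, ha₂, rfl⟩, ?_, ?_⟩,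
    a₁, ha₁, b₁, hb₁, ?_⟩
  · exact B.up_of_ht hadm (by linarith) h4 h5
  · exact B.down_of_ht hadm (by linarith) h6 h7
  · have he : ‖e'‖ = 1 := B.unit _ hK'
    have h8 : |(co (F.f^[s + S] x) e' (F.f^[s + S] a₁)).re| ≤ ‖F.f^[s + S] a₁ - F.f^[s + S] x‖ := by
      rw [← norm_co he]
      exact Complex.abs_re_le_norm _
    have h9 : ‖F.f^[s + S] a₁ - F.f^[s + S] x‖ ≤
        ‖F.f^[s + S] a₁ - F.f^[s + S] b₁‖ + ‖F.f^[s + S] b₁ - F.f^[s + S] x‖ :=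
      norm_sub_le_norm_sub_add_norm_sub _ _ _
    linarith

theorem arch (T0 : ℕ) : ∃ w0 > 0, ∀ x e, (x, e) ∈ B.K → B.Win T0 x → ∀ P, F.StC P →
    (∀ w ∈ P, ¬ F.Asy w x) → ∀ q₁ ∈ P, ∀ q₂ ∈ P, B.Up x e w0 q₁ → B.Up x (-e) w0 q₂ → False := by
  obtain ⟨s0, ξ, c0, hξ, hc0, H⟩ := B.arch_one
  obtain ⟨N, hN⟩ := B.small_prod (B.C2 * c0) hξ
  set T1 : ℕ := T0 + s0 + N with hT1
  have hC2 : 0 < B.C2 := lt_of_lt_of_le one_pos B.one_le_C2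
  have hG : 0 < B.G := lt_of_lt_of_le one_pos B.one_le_G
  have hden : 0 < B.C2 * B.G ^ (2 * T1) := mul_pos hC2 (pow_pos hG _)
  refine ⟨ξ / (B.C2 * B.G ^ (2 * T1)), div_pos hξ hden, ?_⟩
  intro x e hK hW P hP hna q₁ hq₁ q₂ hq₂ hu₁ hu₂
  have hsm : ∀ s, N ≤ s → ∀ t, t ≤ 64 * s → B.C2 * B.G ^ t * (c0 * F.b ^ s) ≤ ξ := by
    intro s hs t ht
    have := hN s hs t ht
    calc B.C2 * B.G ^ t * (c0 * F.b ^ s) = B.C2 * c0 * B.G ^ t * F.b ^ s := by ring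
      _ ≤ ξ := this
  have J : ∀ k : ℕ, ∃ S, k ≤ S ∧ T1 < S ∧ (∃ κ, B.Inv x P S κ ∧
      ∀ t, t ≤ 3 * S → B.C2 * B.G ^ t * κ ≤ ξ) ∧
      ∃ a ∈ P, ∃ b ∈ P, 3 * B.η / 8 ≤ ‖F.f^[S] a - F.f^[S] b‖ := by
    intro k
    induction k with
    | zero =>
      obtain ⟨s, hs1, hs2, hs3⟩ := hW T1 (by omega)
      have h0 : B.Inv x P 0 (ξ / (B.C2 * B.G ^ (2 * T1))) :=
        ⟨e, q₁, q₂, hK, ⟨q₁, hq₁, rfl⟩, ⟨q₂, hq₂, rfl⟩, hu₁, hu₂⟩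
      have hle : B.C2 * B.G ^ s * (ξ / (B.C2 * B.G ^ (2 * T1))) ≤ ξ := by
        have h1 : B.G ^ s ≤ B.G ^ (2 * T1) := pow_le_pow_right₀ B.one_le_G hs2
        have h2 : B.C2 * B.G ^ s ≤ B.C2 * B.G ^ (2 * T1) := mul_le_mul_of_nonneg_left h1 hC2.le
        calc B.C2 * B.G ^ s * (ξ / (B.C2 * B.G ^ (2 * T1)))
            ≤ B.C2 * B.G ^ (2 * T1) * (ξ / (B.C2 * B.G ^ (2 * T1))) :=
              mul_le_mul_of_nonneg_right h2 (div_pos hξ hden).le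
          _ = ξ := by field_simp
      obtain ⟨hI, hd⟩ := H x P hP hna 0 s _ h0 (by omega) hs3 hle
      refine ⟨s, Nat.zero_le _, hs1, ⟨_, hI, ?_⟩, hd⟩
      intro t ht
      exact hsm s (by omega) t (by omega)
    | succ k ih =>
      obtain ⟨S, hS1, hS2, ⟨κ, hI, hκ⟩, -⟩ := ih
      obtain ⟨S', hs1, hs2, hs3⟩ := hW (2 * S) (by omega)
      obtain ⟨s, rfl⟩ : ∃ s, S' = s + S := ⟨S' - S, by omega⟩
      obtain ⟨hI', hd⟩ := H x P hP hna S s κ hI (by omega) hs3 (hκ s (by omega))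
      refine ⟨s + S, by omega, by omega, ⟨_, hI', ?_⟩, hd⟩
      intro t ht
      exact hsm s (by omega) t (by omega)
  have hη := B.η_pos
  obtain ⟨N0, hN0⟩ := hP.2.2.2 (B.η / 4) (by positivity)
  obtain ⟨S, hS, -, -, a, ha, b, hb, hab⟩ := J N0
  have := hN0 S hS a ha b hb
  linarith

theorem cross (T0 : ℕ) : ∃ w1 > 0, w1 ≤ B.η ∧ ∀ z e z0 e0 x, B.SAdm z e z0 e0 →
    B.Acc T0 x z e → z ∈ closure (F.Gam x) → ∀ w ∈ F.Gam x, |(co z0 e0 w).re| ≤ 4 * B.η →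
      0 < B.ht z z0 e0 w → B.ht z z0 e0 w ≤ w1 → False := by
  obtain ⟨w0, hw0, H⟩ := B.arch T0
  have hη := B.η_pos
  refine ⟨min w0 B.η, lt_min hw0 hη, min_le_right _ _, ?_⟩
  intro z e z0 e0 x hs hacc hcl w hw hre hpos hle
  have hle0 : B.ht z z0 e0 w ≤ w0 := hle.trans (min_le_left _ _)
  have hadm : B.Adm z e z0 e0 := SAdm.adm B hs
  have he0 : ‖e0‖ = 1 := hs.2.1
  obtain ⟨ζ1, hζ1, H1⟩ := B.sadm_near hs
  obtain ⟨ζ2, hζ2, H2⟩ := B.psi_unif (κ := B.ht z z0 e0 w / 2) (by linarith)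
  obtain ⟨x', hx'P, hWin, hna, hd, hup⟩ := hacc (min ζ1 (min ζ2 B.η)) (lt_min hζ1 (lt_min hζ2 hη))
  have hd1 : ‖x' - z‖ < ζ1 := hd.trans_le (min_le_left _ _)
  have hd2 : ‖x' - z‖ < ζ2 := hd.trans_le ((min_le_right _ _).trans (min_le_left _ _))
  have hd3 : ‖x' - z‖ < B.η := hd.trans_le ((min_le_right _ _).trans (min_le_right _ _))
  obtain ⟨e', hs'⟩ := H1 x' hx'P hd1
  have hadm' : B.Adm x' e' z0 e0 := SAdm.adm B hs'
  have hre' : ∀ y : ℂ, |(co z0 e0 y).re| ≤ ‖y - z0‖ := fun y => by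
    rw [← norm_co he0]
    exact Complex.abs_re_le_norm _
  have h1 : 0 < B.ht z z0 e0 x' := B.ht_frame (B.adm_self hs.1) hadm hd3.le hup
  have h2 : B.ht x' z0 e0 x' = 0 :=
    B.ht_zero hadm' (B.self_mem_S x') (by have := hre' x'; have := hs'.2.2.2; linarith)
  have h3 : B.psi z z0 e0 (co z0 e0 x').re < B.psi x' z0 e0 (co z0 e0 x').re := by
    unfold ht at h1 h2
    linarith
  have h4 := B.psi_lt hadm hadm' h3
  have h5 := H2 z e x' e' z0 e0 hadm hadm' (by rw [norm_sub_rev]; exact hd2.le)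
  have h6 : B.ht z z0 e0 z = 0 :=
    B.ht_zero hadm (B.self_mem_S z) (by have := hre' z; have := hs.2.2.2; linarith)
  have hA : 0 < B.ht x' z0 e0 w ∧ B.ht x' z0 e0 w ≤ w0 := by
    have a1 := h4 (co z0 e0 w).re
    have a2 := abs_le.1 (h5 (co z0 e0 w).re)
    have a3 : B.ht x' z0 e0 w = B.ht z z0 e0 w +
        (B.psi z z0 e0 (co z0 e0 w).re - B.psi x' z0 e0 (co z0 e0 w).re) := by
      unfold ht
      ring
    constructor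
    · rw [a3]
      linarith [a2.1]
    · rw [a3]
      linarith
  have hB : -w0 < B.ht x' z0 e0 z ∧ B.ht x' z0 e0 z < 0 := by
    have a1 := h4 (co z0 e0 z).re
    have a2 := abs_le.1 (h5 (co z0 e0 z).re)
    have a3 : B.ht x' z0 e0 z = B.ht z z0 e0 z +
        (B.psi z z0 e0 (co z0 e0 z).re - B.psi x' z0 e0 (co z0 e0 z).re) := by
      unfold ht
      ring
    constructor
    · rw [a3]
      linarith [a2.1]
    · rw [a3]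
      linarith
  have hcont := B.continuous_ht hadm'
  have hcre : Continuous fun y : ℂ => |(co z0 e0 y).re| :=
    (Complex.continuous_re.comp (continuous_co z0 e0)).abs
  have hV : IsOpen {y : ℂ | (-w0 < B.ht x' z0 e0 y ∧ B.ht x' z0 e0 y < 0) ∧
      |(co z0 e0 y).re| < 4 * B.η} :=
    ((isOpen_lt continuous_const hcont).inter (isOpen_lt hcont continuous_const)).inter
      (isOpen_lt hcre continuous_const)
  obtain ⟨w', ⟨⟨hb1, hb2⟩, hb3⟩, hw'⟩ := _root_.mem_closure_iff.1 hcl _ hV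
    ⟨hB, by have := hre' z; have := hs.2.2.2; linarith⟩
  obtain ⟨P, hP, hwP, hw'P, hPG⟩ := F.Gam_pair hw hw'
  refine H x' e' hs'.1 hWin P hP ?_ w hwP w' hw'P (B.up_of_ht hadm' hre hA.1 hA.2)
    (B.down_of_ht hadm' hb3.le hb2 hb1.le)
  intro y hy hy'
  exact hna (F.Asy_trans (F.Asy_symm hy') (F.Gam_asy (hPG hy)))

private theorem cross_two (T0 : ℕ) : ∃ w1 > 0, w1 ≤ B.η ∧ ∀ z e z0 e0 x, B.SAdm z e z0 e0 →
    (∀ e, (z, e) ∈ B.K → B.Acc T0 x z e) → z ∈ closure (F.Gam x) → ∀ w ∈ F.Gam x,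
      |(co z0 e0 w).re| ≤ 4 * B.η → |B.ht z z0 e0 w| ≤ w1 → B.ht z z0 e0 w = 0 := by
  obtain ⟨w1, hw1, hle, H⟩ := B.cross T0
  refine ⟨w1, hw1, hle, ?_⟩
  intro z e z0 e0 x hs hacc hcl w hw hre hht
  have hht' := abs_le.1 hht
  rcases lt_trichotomy (B.ht z z0 e0 w) 0 with h | h | h
  · exfalso
    have hneg := B.ht_neg (SAdm.adm B hs) w
    refine H z (-e) z0 (-e0) x (SAdm.neg B hs) (hacc _ (B.neg _ _ hs.1)) hcl w hw ?_ ?_ ?_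
    · rw [co_neg, Complex.neg_re, abs_neg]
      exact hre
    · rw [hneg]
      linarith
    · rw [hneg]
      linarith [hht'.1]
  · exact h
  · exact (H z e z0 e0 x hs (hacc _ hs.1) hcl w hw hre h hht'.2).elim

theorem nr (T0 : ℕ) : ∃ w1 > 0, w1 ≤ B.η ∧
    ∀ x, (∀ e, (x, e) ∈ B.K → B.Acc T0 x x e) → B.NR w1 x := by
  obtain ⟨w1, hw1, hle, H⟩ := B.cross_two T0
  refine ⟨w1, hw1, hle, ?_⟩
  intro x hacc e z0 e0 hs w hw hre hht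
  have hx : x ∈ F.Gam x := F.Gam_self (F.Λ_sub_Disc (B.lam _ hs.1))
  exact H x e z0 e0 x hs hacc (subset_closure hx) w hw hre hht

theorem caseB {T0 : ℕ} {z x : ℂ} (hz : z ∈ B.P) (ha : ∀ e, (z, e) ∈ B.K → B.Acc T0 x z e)
    (hc : z ∈ closure (F.Gam x)) : F.Asy z x := by
  obtain ⟨w1, hw1, hle, H⟩ := B.cross_two T0
  obtain ⟨⟨z', e⟩, hK, rfl⟩ := hz
  have hη := B.η_pos
  have he : ‖e‖ = 1 := B.unit _ hK
  have hadm := B.adm_self hK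
  obtain ⟨w, hw, hd⟩ := Metric.mem_closure_iff.1 hc (w1 / 2) (by linarith)
  have hd' : ‖w - z'‖ < w1 / 2 := by
    rw [← dist_eq_norm, dist_comm]
    exact hd
  have hre : |(co z' e w).re| ≤ ‖w - z'‖ := by
    rw [← norm_co he]
    exact Complex.abs_re_le_norm _
  have h0 : B.ht z' z' e w = 0 :=
    H z' e z' e x (B.sadm_self hK) ha hc w hw (by linarith)
      (by have := B.abs_ht_le hadm w; linarith)
  have h1 : w ∈ B.S z' := by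
    rw [B.eq_lf he h0]
    exact B.lf_mem hadm (by linarith)
  exact F.Asy_trans (F.Asy_symm (B.S_asy h1)) (F.Gam_asy hw)


end Blk

end Pool.Agent.Lib.MP_3fe454_an.PD
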