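import Pool.Agent.Lib.MP_3fe454_an.PD.Defs

/-!
The attractor, asymptotic points, stable continua.
-/

set_option autoImplicit false

open Set Metric Filter Topology MeasureTheory Function
open scoped ComplexConjugate ENNReal

namespace Pool.Agent.Lib.MP_3fe454_an.PD

namespace Dis

variable (F : Dis)


theorem f_mem_Disc (z : ℂ) : F.f z ∈ Disc := by
  have h1 := F.maps z
  have h2 := F.r0_lt
  simp only [mem_closedBall, dist_zero_right]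
  linarith

theorem iter_mem_Disc {z : ℂ} (hz : z ∈ Disc) (n : ℕ) : F.f^[n] z ∈ Disc := by
  cases n with
  | zero => exact hz
  | succ n =>
    rw [iterate_succ_apply']
    exact F.f_mem_Disc _

theorem Ω_compact (n : ℕ) : IsCompact (F.Ω n) :=
  (isCompact_closedBall (0 : ℂ) 1).image (F.cf.iterate n)

theorem Ω_anti : Antitone F.Ω := by
  refine antitone_nat_of_succ_le fun n => ?_
  rintro _ ⟨z, -, rfl⟩
  exact ⟨F.f z, F.f_mem_Disc z, rfl⟩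

theorem iter_succ_mem_Ω (z : ℂ) (n : ℕ) : F.f^[n + 1] z ∈ F.Ω (n + 1) := by
  obtain ⟨w, hw, h⟩ := F.range z
  refine ⟨w, hw, ?_⟩
  rw [iterate_succ_apply, iterate_succ_apply, h]

theorem Λ_compact : IsCompact F.Λ :=
  (F.Ω_compact 0).of_isClosed_subset (isClosed_iInter fun n => (F.Ω_compact n).isClosed)
    (iInter_subset _ 0)

theorem Λ_norm {z : ℂ} (hz : z ∈ F.Λ) : ‖z‖ ≤ F.r0 := by
  obtain ⟨w, -, rfl⟩ := mem_iInter.1 hz 1
  exact F.maps w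

theorem Λ_sub_Disc : F.Λ ⊆ Disc := by
  intro z hz
  obtain ⟨w, hw, rfl⟩ := mem_iInter.1 hz 0
  exact hw

theorem f_mem_Λ {z : ℂ} (hz : z ∈ F.Λ) : F.f z ∈ F.Λ := by
  refine mem_iInter.2 fun n => ?_
  obtain ⟨w, -, rfl⟩ := mem_iInter.1 hz n
  refine ⟨F.f w, F.f_mem_Disc w, ?_⟩
  rw [← iterate_succ_apply, iterate_succ_apply']

theorem g_mem_Λ {z : ℂ} (hz : z ∈ F.Λ) : F.g z ∈ F.Λ := by
  refine mem_iInter.2 fun n => ?_
  obtain ⟨w, hw, rfl⟩ := mem_iInter.1 hz (n + 1)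
  refine ⟨w, hw, ?_⟩
  rw [iterate_succ_apply', F.gf _ (F.iter_mem_Disc hw n)]

theorem f_g {z : ℂ} (hz : z ∈ F.Λ) : F.f (F.g z) = z := by
  obtain ⟨w, hw, rfl⟩ := mem_iInter.1 hz 1
  show F.f (F.g (F.f w)) = F.f w
  rw [F.gf w hw]

theorem iter_f_mem_Λ {z : ℂ} (hz : z ∈ F.Λ) (n : ℕ) : F.f^[n] z ∈ F.Λ := by
  induction n with
  | zero => exact hz
  | succ n ih =>
    rw [iterate_succ_apply']
    exact F.f_mem_Λ ih

theorem iter_g_mem_Λ {z : ℂ} (hz : z ∈ F.Λ) (n : ℕ) : F.g^[n] z ∈ F.Λ := by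
  induction n with
  | zero => exact hz
  | succ n ih =>
    rw [iterate_succ_apply']
    exact F.g_mem_Λ ih

theorem iter_f_g {z : ℂ} (hz : z ∈ F.Λ) (n : ℕ) : F.f^[n] (F.g^[n] z) = z := by
  induction n with
  | zero => rfl
  | succ n ih =>
    rw [iterate_succ_apply, iterate_succ_apply', F.f_g (F.iter_g_mem_Λ hz n), ih]

theorem iter_g_f {z : ℂ} (hz : z ∈ Disc) (n : ℕ) : F.g^[n] (F.f^[n] z) = z := by
  induction n with
  | zero => rfl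
  | succ n ih =>
    rw [iterate_succ_apply, iterate_succ_apply', F.gf _ (F.iter_mem_Disc hz n), ih]

theorem Ω_pull {z : ℂ} {n : ℕ} (hz : z ∈ F.Ω n) :
    F.g^[n] z ∈ Disc ∧ F.f^[n] (F.g^[n] z) = z := by
  obtain ⟨w, hw, rfl⟩ := hz
  rw [F.iter_g_f hw n]
  exact ⟨hw, rfl⟩

theorem periodic_mem_Λ {p : ℂ} (hp : p ∈ periodicPts F.f) : p ∈ F.Λ := by
  obtain ⟨k, hk, hp⟩ := hp
  refine mem_iInter.2 fun n => ?_
  have h1 : F.f^[k * (n + 1)] p = p := hp.mul_const (n + 1)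
  obtain ⟨j, hj⟩ : ∃ j, k * (n + 1) = j + 1 := ⟨k * (n + 1) - 1, by
    have : 0 < k * (n + 1) := Nat.mul_pos hk (Nat.succ_pos n)
    omega⟩
  have h2 : n ≤ j + 1 := by
    have : n + 1 ≤ k * (n + 1) := Nat.le_mul_of_pos_left _ hk
    omega
  have h3 := F.iter_succ_mem_Ω p j
  rw [← hj, h1, hj] at h3
  exact F.Ω_anti h2 h3

theorem measurableSet_periodic : MeasurableSet (periodicPts F.f) := by
  have h : periodicPts F.f = ⋃ n : ℕ, {p | F.f^[n + 1] p = p} := by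
    ext p
    simp only [mem_iUnion, mem_ofPred_eq]
    constructor
    · rintro ⟨k, hk, hp⟩
      obtain ⟨j, rfl⟩ : ∃ j, k = j + 1 := ⟨k - 1, by omega⟩
      exact ⟨j, hp⟩
    · rintro ⟨j, hp⟩
      exact ⟨j + 1, Nat.succ_pos j, hp⟩
  rw [h]
  exact MeasurableSet.iUnion fun n =>
    (isClosed_eq (F.cf.iterate (n + 1)) continuous_id).measurableSet

theorem Asy_refl (x : ℂ) : F.Asy x x := by
  simp [Asy]

theorem Asy_symm {x y : ℂ} (h : F.Asy x y) : F.Asy y x := by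
  unfold Asy at h ⊢
  simpa only [norm_sub_rev] using h

theorem Asy_trans {x y z : ℂ} (h : F.Asy x y) (h' : F.Asy y z) : F.Asy x z := by
  unfold Asy at h h' ⊢
  have h2 := h.add h'
  rw [add_zero] at h2
  exact squeeze_zero (fun _ => norm_nonneg _) (fun n => norm_sub_le_norm_sub_add_norm_sub _ _ _) h2

theorem Asy_iter {x y : ℂ} (n : ℕ) : F.Asy (F.f^[n] x) (F.f^[n] y) ↔ F.Asy x y := by
  unfold Asy
  simp only [← iterate_add_apply]
  exact tendsto_add_atTop_iff_nat (f := fun k : ℕ => ‖F.f^[k] x - F.f^[k] y‖) n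

theorem measurableSet_Asy : MeasurableSet {p : ℂ × ℂ | F.Asy p.1 p.2} := by
  refine measurableSet_tendsto (𝓝 (0 : ℝ))
    (f := fun (n : ℕ) (p : ℂ × ℂ) => ‖F.f^[n] p.1 - F.f^[n] p.2‖) fun n => ?_
  exact (((F.cf.iterate n).comp continuous_fst).sub
    ((F.cf.iterate n).comp continuous_snd)).norm.measurable

theorem measurableSet_Asy' (x : ℂ) : MeasurableSet {w : ℂ | F.Asy w x} :=
  (measurable_id.prodMk (measurable_const (a := x))) F.measurableSet_Asy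

theorem StC_asy {P : Set ℂ} (h : F.StC P) {x y : ℂ} (hx : x ∈ P) (hy : y ∈ P) : F.Asy x y := by
  refine Metric.tendsto_atTop.2 fun ε hε => ?_
  obtain ⟨N, hN⟩ := h.2.2.2 (ε / 2) (by linarith)
  refine ⟨N, fun n hn => ?_⟩
  have := hN n hn x hx y hy
  rw [Real.dist_eq, sub_zero, abs_norm]
  linarith

theorem StC_union {P P' : Set ℂ} (h : F.StC P) (h' : F.StC P') (hn : (P ∩ P').Nonempty) :
    F.StC (P ∪ P') := by
  obtain ⟨q, hq, hq'⟩ := hn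
  refine ⟨h.1.union h'.1, h.2.1.union q hq hq' h'.2.1, union_subset h.2.2.1 h'.2.2.1,
    fun ε hε => ?_⟩
  obtain ⟨N, hN⟩ := h.2.2.2 (ε / 2) (by linarith)
  obtain ⟨N', hN'⟩ := h'.2.2.2 (ε / 2) (by linarith)
  refine ⟨max N N', fun n hn x hx y hy => ?_⟩
  have key : ∀ x ∈ P ∪ P', ‖F.f^[n] x - F.f^[n] q‖ ≤ ε / 2 := by
    rintro x (hx | hx)
    · exact hN n (le_trans (le_max_left _ _) hn) x hx q hq
    · exact hN' n (le_trans (le_max_right _ _) hn) x hx q hq'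
  have h1 := key x hx
  have h2 := key y hy
  rw [norm_sub_rev] at h2
  have h3 := norm_sub_le_norm_sub_add_norm_sub (F.f^[n] x) (F.f^[n] q) (F.f^[n] y)
  linarith

theorem StC_image {P : Set ℂ} (h : F.StC P) (n : ℕ) : F.StC (F.f^[n] '' P) := by
  refine ⟨h.1.image (F.cf.iterate n), h.2.1.image _ (F.cf.iterate n).continuousOn, ?_,
    fun ε hε => ?_⟩
  · rintro _ ⟨x, hx, rfl⟩
    exact F.iter_mem_Disc (h.2.2.1 hx) n
  · obtain ⟨N, hN⟩ := h.2.2.2 ε hε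
    refine ⟨N, fun k hk => ?_⟩
    rintro _ ⟨x, hx, rfl⟩ _ ⟨y, hy, rfl⟩
    rw [← iterate_add_apply, ← iterate_add_apply]
    exact hN (k + n) (by omega) x hx y hy

theorem StC_pull {P : Set ℂ} (h : F.StC P) {n : ℕ} (hP : P ⊆ F.Ω n) : F.StC (F.g^[n] '' P) := by
  refine ⟨h.1.image (F.cg.iterate n), h.2.1.image _ (F.cg.iterate n).continuousOn, ?_,
    fun ε hε => ?_⟩
  · rintro _ ⟨x, hx, rfl⟩
    exact (F.Ω_pull (hP hx)).1
  · obtain ⟨N, hN⟩ := h.2.2.2 ε hε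
    refine ⟨N + n, fun k hk => ?_⟩
    rintro _ ⟨x, hx, rfl⟩ _ ⟨y, hy, rfl⟩
    obtain ⟨j, rfl⟩ : ∃ j, k = j + n := ⟨k - n, by omega⟩
    rw [iterate_add_apply, iterate_add_apply, (F.Ω_pull (hP hx)).2, (F.Ω_pull (hP hy)).2]
    exact hN j (by omega) x hx y hy

theorem Gam_self {x : ℂ} (hx : x ∈ Disc) : x ∈ F.Gam x := by
  refine ⟨{x}, ⟨isCompact_singleton, isPreconnected_singleton, singleton_subset_iff.2 hx,
    fun ε hε => ⟨0, ?_⟩⟩, rfl, rfl⟩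
  rintro n - _ rfl _ rfl
  simpa using hε.le

theorem Gam_sub_Disc (x : ℂ) : F.Gam x ⊆ Disc := by
  rintro w ⟨P, hP, -, hw⟩
  exact hP.2.2.1 hw

theorem Gam_asy {x w : ℂ} (h : w ∈ F.Gam x) : F.Asy w x := by
  obtain ⟨P, hP, hx, hw⟩ := h
  exact F.StC_asy hP hw hx

theorem Gam_eq {x w : ℂ} (h : w ∈ F.Gam x) : F.Gam w = F.Gam x := by
  obtain ⟨P, hP, hx, hw⟩ := h
  ext v
  constructor
  · rintro ⟨P', hP', h1, h2⟩
    exact ⟨P ∪ P', F.StC_union hP hP' ⟨w, hw, h1⟩, Or.inl hx, Or.inr h2⟩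
  · rintro ⟨P', hP', h1, h2⟩
    exact ⟨P ∪ P', F.StC_union hP hP' ⟨x, hx, h1⟩, Or.inl hw, Or.inr h2⟩

theorem Gam_pair {x w w' : ℂ} (h : w ∈ F.Gam x) (h' : w' ∈ F.Gam x) :
    ∃ P, F.StC P ∧ w ∈ P ∧ w' ∈ P ∧ P ⊆ F.Gam x := by
  obtain ⟨P, hP, hx, hw⟩ := h
  obtain ⟨P', hP', hx', hw'⟩ := h'
  have hU := F.StC_union hP hP' ⟨x, hx, hx'⟩
  exact ⟨P ∪ P', hU, Or.inl hw, Or.inr hw', fun v hv => ⟨P ∪ P', hU, Or.inl hx, hv⟩⟩

theorem Gam_iter {x w : ℂ} (h : w ∈ F.Gam x) (n : ℕ) : F.f^[n] w ∈ F.Gam (F.f^[n] x) := by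
  obtain ⟨P, hP, hx, hw⟩ := h
  exact ⟨_, F.StC_image hP n, mem_image_of_mem _ hx, mem_image_of_mem _ hw⟩

theorem StC_sub_Gam {P : Set ℂ} (h : F.StC P) {x : ℂ} (hx : x ∈ P) : P ⊆ F.Gam x :=
  fun _ hv => ⟨P, h, hx, hv⟩

theorem isOpen_Sink : IsOpen F.Sink := by
  refine Metric.isOpen_iff.2 ?_
  rintro z ⟨ρ, hρ, h⟩
  refine ⟨ρ, hρ, fun z' hz' => ?_⟩
  obtain ⟨ρ', hρ', hs⟩ := Metric.isOpen_iff.1 isOpen_ball z' hz'
  exact ⟨ρ', hρ', fun w hw => F.Asy_trans (h w (hs hw)) (F.Asy_symm (h z' hz'))⟩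

theorem β_pos : 0 < F.β := by
  have := Real.log_neg F.b_pos F.b_lt
  unfold β
  linarith

theorem ε0_pos : 0 < F.ε0 := by
  have h1 := F.β_pos
  have h2 := F.α_pos
  unfold ε0
  positivity

theorem δ0_pos : 0 < F.δ0 := by
  have h1 := F.β_pos
  unfold δ0
  exact lt_min (by norm_num) (by positivity)

theorem one_le_Θmin : 1 ≤ F.Θmin := by
  have h1 := F.δ0_pos
  have h2 := F.m_pos
  have h3 := F.m_le
  have h4 := F.one_le_M
  have h5 : F.δ0 ≤ 1 / 4 := min_le_left _ _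
  unfold Θmin
  rw [le_div_iff₀ (mul_pos h1 h2)]
  nlinarith


end Dis

end Pool.Agent.Lib.MP_3fe454_an.PD
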