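import Pool.Agent.Lib.MP_3fe454_an.PD.Basic1

/-!
Area of the iterated disc, open mapping, coordinates.
-/

set_option autoImplicit false

open Set Metric Filter Topology MeasureTheory Function
open scoped ComplexConjugate ENNReal

namespace Pool.Agent.Lib.MP_3fe454_an.PD

private theorem b2_mul_conj {e : ℂ} (he : ‖e‖ = 1) : e * conj e = 1 := by
  rw [Complex.mul_conj, Complex.normSq_eq_norm_sq, he]
  simp

theorem co_pt {z e : ℂ} (he : ‖e‖ = 1) (v u : ℝ) :
    co z e (pt z e v u) = (v : ℂ) + (u : ℂ) * Complex.I := by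
  rw [co, pt, add_sub_cancel_left, mul_assoc, b2_mul_conj he, mul_one]

theorem pt_co {z e : ℂ} (he : ‖e‖ = 1) (w : ℂ) : pt z e (co z e w).re (co z e w).im = w := by
  rw [pt, Complex.re_add_im, co, mul_assoc, mul_comm (conj e), b2_mul_conj he, mul_one,
    add_sub_cancel]

theorem norm_co {z e : ℂ} (he : ‖e‖ = 1) (w : ℂ) : ‖co z e w‖ = ‖w - z‖ := by
  rw [co, norm_mul, Complex.norm_conj, he, mul_one]

theorem co_sub (z e w w' : ℂ) : co z e w - co z e w' = co w' e w := by
  simp only [co]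
  ring

theorem co_neg (z e w : ℂ) : co z (-e) w = -co z e w := by
  simp only [co, map_neg, mul_neg]

theorem continuous_co (z e : ℂ) : Continuous (co z e) := by
  unfold co
  fun_prop

theorem volume_co_image {z e : ℂ} (he : ‖e‖ = 1) (A : Set ℂ) :
    volume (co z e '' A) = volume A := by
  let a : Circle := ⟨e, by simpa [Submonoid.unitSphere] using he⟩
  have h1 : co z e '' A = rotation a ⁻¹' ((fun w => z + w) ⁻¹' A) := by
    ext w
    have ha : rotation a w = e * w := rfl
    simp only [mem_image, mem_preimage, ha]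
    constructor
    · rintro ⟨x, hx, rfl⟩
      rwa [co, mul_left_comm, b2_mul_conj he, mul_one, add_sub_cancel]
    · intro hw
      refine ⟨_, hw, ?_⟩
      rw [co, add_sub_cancel_left, mul_right_comm, b2_mul_conj he, one_mul]
  rw [h1, (rotation a).measurePreserving.measure_preimage_emb
    (rotation a).toHomeomorph.measurableEmbedding, measure_preimage_add]

theorem det_eq (A : ℂ →L[ℝ] ℂ) {e : ℂ} (he : ‖e‖ = 1) :
    A.det = (conj (A e) * A (Complex.I * e)).im := by
  have h : ∀ w : ℂ, A w = (w.re : ℂ) * A 1 + (w.im : ℂ) * A Complex.I := fun w => by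
    rw [← Complex.real_smul, ← Complex.real_smul, ← map_smul, ← map_smul, ← map_add,
      Complex.real_smul, Complex.real_smul, mul_one, Complex.re_add_im]
  have h1 : e.re ^ 2 + e.im ^ 2 = 1 := by
    have := Complex.sq_norm e
    rw [he, Complex.normSq_apply] at this
    linarith
  rw [ContinuousLinearMap.det, ← LinearMap.det_toMatrix Complex.basisOneI, Matrix.det_fin_two,
    h e, h (Complex.I * e)]
  simp [LinearMap.toMatrix_apply]
  linear_combination (-((A 1).re * (A Complex.I).im - (A Complex.I).re * (A 1).im)) * h1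

/-- directions of a compact line field are uniformly continuous up to sign -/
theorem dir_unif {K : Set (ℂ × ℂ)} (hK : IsCompact K)
    (hu : ∀ z e e', (z, e) ∈ K → (z, e') ∈ K → e' = e ∨ e' = -e) {κ : ℝ} (hκ : 0 < κ) :
    ∃ ζ > 0, ∀ z e z' e', (z, e) ∈ K → (z', e') ∈ K → ‖z - z'‖ ≤ ζ →
      ‖e' - e‖ ≤ κ ∨ ‖e' + e‖ ≤ κ := by
  have hC : IsCompact (K ×ˢ K ∩ ({p : (ℂ × ℂ) × ℂ × ℂ | κ ≤ ‖p.2.2 - p.1.2‖} ∩
      {p : (ℂ × ℂ) × ℂ × ℂ | κ ≤ ‖p.2.2 + p.1.2‖})) :=
    (hK.prod hK).inter_right ((isClosed_le continuous_const (by fun_prop)).inter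
      (isClosed_le continuous_const (by fun_prop)))
  obtain ⟨a, ha, h⟩ := hC.exists_forall_le' (f := fun p => ‖p.1.1 - p.2.1‖) (a := 0)
    (by fun_prop) (by
      rintro ⟨⟨z, e⟩, z', e'⟩ ⟨⟨h1, h2⟩, h3, h4⟩
      refine norm_pos_iff.2 fun h0 => ?_
      obtain rfl : z = z' := sub_eq_zero.1 h0
      rcases hu z e e' h1 h2 with rfl | rfl
      · simp at h3
        linarith
      · simp at h4
        linarith)
  refine ⟨a / 2, by positivity, fun z e z' e' h1 h2 h3 => ?_⟩
  by_contra h4
  rw [not_or, not_le, not_le] at h4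
  have := h ((z, e), z', e') ⟨⟨h1, h2⟩, h4.1.le, h4.2.le⟩
  linarith

namespace Dis

variable (F : Dis)


theorem volume_Ω (n : ℕ) : volume (F.Ω n) ≤ ENNReal.ofReal (Real.pi * F.b ^ n) := by
  induction n with
  | zero =>
    rw [Ω, iterate_zero, image_id, Complex.volume_closedBall, pow_zero, mul_one]
    simp only [ENNReal.ofReal_one, one_pow, one_mul]
    rw [← NNReal.coe_real_pi, ENNReal.ofReal_coe_nnreal]
  | succ n ih =>
    have hs : F.Ω n ⊆ Disc := by
      rintro _ ⟨z, hz, rfl⟩
      exact F.iter_mem_Disc hz n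
    have h1 : F.Ω (n + 1) = F.f '' F.Ω n := by
      rw [Ω, Ω, iterate_succ', image_comp]
    have hm := (F.Ω_compact n).measurableSet
    rw [h1]
    refine (addHaar_image_le_lintegral_abs_det_fderiv volume hm
      fun z hz => (F.deriv z (hs hz)).mono hs).trans ?_
    refine (setLIntegral_mono' hm (g := fun _ => ENNReal.ofReal F.b)
      fun z hz => ENNReal.ofReal_le_ofReal (F.det_le z (hs hz))).trans ?_
    rw [setLIntegral_const, pow_succ, ← mul_assoc, mul_comm _ F.b, ENNReal.ofReal_mul F.b_pos.le]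
    exact mul_le_mul_right ih _

private theorem b2_map {z : ℂ} (hz : ‖z‖ < 1) : map F.f (𝓝 z) = 𝓝 (F.f z) := by
  have hb : ball (0 : ℂ) 1 ∈ 𝓝 z := isOpen_ball.mem_nhds (mem_ball_zero_iff.2 hz)
  have h1 : HasStrictFDerivAt F.f (F.D z) z :=
    hasStrictFDerivAt_of_hasFDerivAt_of_continuousAt (mem_of_superset hb fun y hy =>
      (F.deriv y (ball_subset_closedBall hy)).hasFDerivAt
        (mem_of_superset (isOpen_ball.mem_nhds hy) ball_subset_closedBall)) F.cD.continuousAt
  have hd : (F.D z).det ≠ 0 := fun h => by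
    have := F.det_ge z (mem_closedBall_zero_iff.2 hz.le)
    rw [h, abs_zero] at this
    nlinarith [F.m_pos, F.one_le_M]
  have h2 : HasStrictFDerivAt F.f
      ((F.D z).toContinuousLinearEquivOfDetNeZero hd : ℂ →L[ℝ] ℂ) z := by
    rwa [ContinuousLinearMap.coe_toContinuousLinearEquivOfDetNeZero]
  exact h2.map_nhds_eq_of_equiv

theorem Ω_mem_nhds {z : ℂ} (hz : ‖z‖ < 1) (n : ℕ) : F.Ω n ∈ 𝓝 (F.f^[n] z) := by
  induction n with
  | zero => exact mem_of_superset (isOpen_ball.mem_nhds (mem_ball_zero_iff.2 hz)) fun y hy =>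
      ⟨y, ball_subset_closedBall hy, rfl⟩
  | succ n ih =>
    have h1 : ‖F.f^[n] z‖ < 1 := by
      cases n with
      | zero => exact hz
      | succ n =>
        rw [iterate_succ_apply']
        exact (F.maps _).trans_lt F.r0_lt
    rw [Ω, iterate_succ', image_comp, comp_apply, ← F.b2_map h1]
    exact image_mem_map ih


end Dis

end Pool.Agent.Lib.MP_3fe454_an.PD
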