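import Pool.Agent.Lib.MP_3fe454_an.PD.Defs

/-!
Sides of chords: elementary algebra.
-/

set_option autoImplicit false

open Set Metric Filter Topology MeasureTheory Function
open scoped ComplexConjugate ENNReal

namespace Pool.Agent.Lib.MP_3fe454_an.PD

namespace Chords

variable {X : Type} [TopologicalSpace X] (c : Chords X)

theorem cc1_γ {x : X} (hx : x ∈ c.X1) (z : X) : z ∈ c.γ x ↔ z ∈ c.L x ∧ z ∈ c.R x := by
  rw [← c.inter x hx]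
  rfl

theorem cc1_LR {x : X} (hx : x ∈ c.X1) (z : X) : z ∈ c.L x ∨ z ∈ c.R x := by
  have : z ∈ c.L x ∪ c.R x := c.union x hx ▸ mem_univ z
  exact this

theorem iter_mem {x : X} (hx : x ∈ c.X1) (n : ℕ) : c.f^[n] x ∈ c.X1 := by
  induction n with
  | zero => exact hx
  | succ n ih => rw [iterate_succ_apply']; exact c.fwd _ ih

theorem iter_img {x z : X} (hx : x ∈ c.X1) (hz : z ∈ c.γ x) (n : ℕ) :
    c.f^[n] z ∈ c.γ (c.f^[n] x) := by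
  induction n with
  | zero => exact hz
  | succ n ih =>
    rw [iterate_succ_apply', iterate_succ_apply']
    exact c.img _ (c.iter_mem hx n) _ ih

theorem Fc_closed {x : X} (hx : x ∈ c.X1) (y : X) : IsClosed (c.Fc x y) := by
  unfold Fc
  split_ifs
  · exact c.cR x hx
  · exact c.cL x hx

theorem γ_closed {x : X} (hx : x ∈ c.X1) : IsClosed (c.γ x) := by
  rw [← c.inter x hx]
  exact (c.cL x hx).inter (c.cR x hx)

theorem γ_sub_Fc {x : X} (hx : x ∈ c.X1) (y : X) : c.γ x ⊆ c.Fc x y := by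
  intro z hz
  have h1 := (c.cc1_γ hx z).1 hz
  unfold Fc
  split_ifs
  · exact h1.2
  · exact h1.1

theorem not_mem_Fc {x y : X} (hx : x ∈ c.X1) (hy : y ∉ c.γ x) : y ∉ c.Fc x y := by
  have h1 := c.cc1_γ hx y
  unfold Fc
  split_ifs with h
  · exact fun h2 => hy (h1.2 ⟨h, h2⟩)
  · exact h

theorem Fc_congr {x y y' : X} (hx : x ∈ c.X1) (hy' : y' ∉ c.Fc x y) : c.Fc x y' = c.Fc x y := by
  have h1 := c.cc1_LR hx y'
  unfold Fc at hy' ⊢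
  by_cases h : y ∈ c.L x
  · rw [if_pos h] at hy' ⊢
    rw [if_pos (h1.resolve_right hy')]
  · rw [if_neg h] at hy' ⊢
    rw [if_neg hy']

theorem Fc_opp {x y y' : X} (hx : x ∈ c.X1) (h : y' ∈ c.Fc x y) (hy' : y' ∉ c.γ x) (z : X) :
    z ∈ c.Fc x y' ↔ (z ∉ c.Fc x y ∨ z ∈ c.γ x) := by
  have h1 := c.cc1_LR hx z
  have h2 := c.cc1_γ hx z
  have h3 := c.cc1_γ hx y'
  unfold Fc at h ⊢
  by_cases h4 : y ∈ c.L x
  · rw [if_pos h4] at h ⊢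
    rw [if_neg fun h5 => hy' (h3.2 ⟨h5, h⟩)]
    tauto
  · rw [if_neg h4] at h ⊢
    rw [if_pos h]
    tauto

theorem same_chord {x x' : X} (hx : x ∈ c.X1) (hx' : x' ∈ c.X1) (h : x' ∈ c.γ x) :
    c.γ x' = c.γ x ∧ ∀ y, c.Fc x' y = c.Fc x y := by
  obtain ⟨h1, h2, h3⟩ := c.same x' hx' x hx ⟨x', c.mem x' hx', h⟩
  refine ⟨h1, fun y => ?_⟩
  unfold Fc
  rw [h2, h3]

theorem notMem_symm {x y : X} (hx : x ∈ c.X1) (hy : y ∈ c.X1) (h : y ∉ c.γ x) : x ∉ c.γ y := by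
  intro h1
  exact h ((c.same_chord hy hx h1).1 ▸ c.mem y hy)

theorem γ_disj {x y : X} (hx : x ∈ c.X1) (hy : y ∈ c.X1) (h : y ∉ c.γ x) :
    Disjoint (c.γ x) (c.γ y) := by
  refine Set.disjoint_left.2 fun z h1 h2 => h ?_
  rw [(c.same x hx y hy ⟨z, h1, h2⟩).1]
  exact c.mem y hy

theorem cc1_side {x y : X} (hx : x ∈ c.X1) (hy : y ∈ c.X1) (h : y ∉ c.γ x) :
    c.γ y ⊆ c.L x ∨ c.γ y ⊆ c.R x := by
  refine isPreconnected_iff_subset_of_disjoint_closed.1 (c.conn y hy) _ _ (c.cL x hx) (c.cR x hx)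
    (fun z _ => c.cc1_LR hx z) ?_
  rw [c.inter x hx]
  exact (c.γ_disj hx hy h).symm.inter_eq

theorem chord_sub_Fc {x y u : X} (hx : x ∈ c.X1) (hy : y ∈ c.X1) (h : y ∈ c.Fc x u) :
    c.γ y ⊆ c.Fc x u := by
  by_cases h1 : y ∈ c.γ x
  · rw [(c.same_chord hx hy h1).1]
    exact c.γ_sub_Fc hx u
  · have h2 := c.cc1_side hx hy h1
    have h3 := c.cc1_γ hx y
    have h4 := c.mem y hy
    unfold Fc at h ⊢
    by_cases h5 : u ∈ c.L x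
    · rw [if_pos h5] at h ⊢
      exact h2.resolve_left fun h6 => h1 (h3.2 ⟨h6 h4, h⟩)
    · rw [if_neg h5] at h ⊢
      exact h2.resolve_right fun h6 => h1 (h3.2 ⟨h, h6 h4⟩)

theorem chord_disj_Fc {x y u : X} (hx : x ∈ c.X1) (hy : y ∈ c.X1) (h : y ∉ c.Fc x u) :
    Disjoint (c.γ y) (c.Fc x u) := by
  have h1 : y ∉ c.γ x := fun h1 => h (c.γ_sub_Fc hx u h1)
  have h2 := c.cc1_side hx hy h1
  have h4 := c.mem y hy
  refine Set.disjoint_left.2 fun z hz hz' => Set.disjoint_left.1 (c.γ_disj hx hy h1) ?_ hz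
  have h3 := c.cc1_γ hx z
  unfold Fc at h hz'
  by_cases h5 : u ∈ c.L x
  · rw [if_pos h5] at h hz'
    exact h3.2 ⟨(h2.resolve_right fun h6 => h (h6 h4)) hz, hz'⟩
  · rw [if_neg h5] at h hz'
    exact h3.2 ⟨hz', (h2.resolve_left fun h6 => h (h6 h4)) hz⟩

theorem cc1_open {x : X} (hx : x ∈ c.X1) (y : X) : IsOpen (c.Fc x y \ c.γ x) := by
  unfold Fc
  split_ifs
  · have : c.R x \ c.γ x = (c.L x)ᶜ := by
      ext z
      have h1 := c.cc1_LR hx z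
      have h2 := c.cc1_γ hx z
      rw [Set.mem_sdiff, mem_compl_iff]
      tauto
    rw [this]
    exact (c.cL x hx).isOpen_compl
  · have : c.L x \ c.γ x = (c.R x)ᶜ := by
      ext z
      have h1 := c.cc1_LR hx z
      have h2 := c.cc1_γ hx z
      rw [Set.mem_sdiff, mem_compl_iff]
      tauto
    rw [this]
    exact (c.cR x hx).isOpen_compl

theorem Fc_disj [PreconnectedSpace X] {x y : X} (hx : x ∈ c.X1) (hy : y ∈ c.X1)
    (h : y ∉ c.γ x) : Disjoint (c.Fc x y) (c.Fc y x) := by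
  have h1 : y ∉ c.Fc x y := c.not_mem_Fc hx h
  have h2 : x ∉ c.Fc y x := c.not_mem_Fc hy (c.notMem_symm hx hy h)
  have h3 := Set.disjoint_left.1 (c.chord_disj_Fc hx hy h1)
  have h4 := Set.disjoint_left.1 (c.chord_disj_Fc hy hx h2)
  have h5 : c.Fc x y ∩ c.Fc y x = (c.Fc x y \ c.γ x) ∩ (c.Fc y x \ c.γ y) := by
    ext z
    constructor
    · rintro ⟨a, b⟩
      exact ⟨⟨a, fun d => h4 d b⟩, b, fun d => h3 d a⟩
    · rintro ⟨a, b⟩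
      exact ⟨a.1, b.1⟩
  have h6 : IsClopen (c.Fc x y ∩ c.Fc y x) :=
    ⟨(c.Fc_closed hx y).inter (c.Fc_closed hy x),
      h5 ▸ (c.cc1_open hx y).inter (c.cc1_open hy x)⟩
  rcases isClopen_iff.1 h6 with h7 | h7
  · exact Set.disjoint_iff_inter_eq_empty.2 h7
  · have : y ∈ c.Fc x y ∩ c.Fc y x := h7 ▸ mem_univ y
    exact absurd this.1 h1

theorem Sep_symm {v u w : X} (hv : v ∈ c.X1) (h : c.Sep v u w) : c.Sep v w u :=
  ⟨h.2.1, h.1, (c.Fc_opp hv h.2.2 h.2.1 u).2 (Or.inl (c.not_mem_Fc hv h.1))⟩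

theorem Sep_Fc [PreconnectedSpace X] {v u w : X} (hv : v ∈ c.X1) (hu : u ∈ c.X1)
    (hw : w ∈ c.X1) (h : c.Sep v u w) :
    w ∉ c.γ u ∧ c.Fc u w = c.Fc u v ∧ c.Fc w u = c.Fc w v ∧ c.Fc w v ⊆ c.Fc v u ∧
      c.Fc u v ⊆ c.Fc v w := by
  have h' := c.Sep_symm hv h
  have d1 := Set.disjoint_left.1 (c.Fc_disj hv hu h.1)
  have d2 := Set.disjoint_left.1 (c.Fc_disj hv hw h.2.1)
  refine ⟨fun h1 => ?_, c.Fc_congr hu (d1 h.2.2), c.Fc_congr hw (d2 h'.2.2), fun z hz => ?_,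
    fun z hz => ?_⟩
  · exact Set.disjoint_left.1 (c.chord_disj_Fc hv hu (c.not_mem_Fc hv h.1)) h1 h.2.2
  · exact (c.Fc_opp hv h'.2.2 h.1 z).2 (Or.inl fun h1 => d2 h1 hz)
  · exact (c.Fc_opp hv h.2.2 h.2.1 z).2 (Or.inl fun h1 => d1 h1 hz)

theorem reach_near {x y : X} (hx : x ∈ c.X1) (hy : y ∈ c.X1) (u : X) {V : Set X}
    (hV : IsOpen V) (hyV : y ∈ V) (N : ℕ) :
    ∃ n : ℕ, N ≤ n ∧ c.f^[n] x ∈ V ∧ c.f^[n] x ∉ c.Fc y u := by
  unfold Fc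
  split_ifs
  · obtain ⟨n, -, h1, h2⟩ := c.reachR _ (c.iter_mem hx N) y hy V hV hyV
    rw [← iterate_add_apply] at h1 h2
    exact ⟨n + N, Nat.le_add_left _ _, h1, h2⟩
  · obtain ⟨n, -, h1, h2⟩ := c.reachL _ (c.iter_mem hx N) y hy V hV hyV
    rw [← iterate_add_apply] at h1 h2
    exact ⟨n + N, Nat.le_add_left _ _, h1, h2⟩

theorem reach_far {x y : X} (hx : x ∈ c.X1) (hy : y ∈ c.X1) (u : X) {V : Set X}
    (hV : IsOpen V) (hyV : y ∈ V) (N : ℕ) :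
    ∃ n : ℕ, N ≤ n ∧ c.f^[n] x ∈ V ∧ c.f^[n] x ∈ c.Fc y u ∧ c.f^[n] x ∉ c.γ y := by
  unfold Fc
  split_ifs
  · obtain ⟨n, -, h1, h2⟩ := c.reachL _ (c.iter_mem hx N) y hy V hV hyV
    rw [← iterate_add_apply] at h1 h2
    exact ⟨n + N, Nat.le_add_left _ _, h1, (c.cc1_LR hy _).resolve_left h2,
      fun h3 => h2 ((c.cc1_γ hy _).1 h3).1⟩
  · obtain ⟨n, -, h1, h2⟩ := c.reachR _ (c.iter_mem hx N) y hy V hV hyV
    rw [← iterate_add_apply] at h1 h2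
    exact ⟨n + N, Nat.le_add_left _ _, h1, (c.cc1_LR hy _).resolve_right h2,
      fun h3 => h2 ((c.cc1_γ hy _).1 h3).2⟩

theorem Lev_iter {Q : ℕ} {π : X → ZMod Q} (h : c.Lev Q π) {x : X} (hx : x ∈ c.X1) (n : ℕ) :
    π (c.f^[n] x) = π x + (n : ZMod Q) := by
  induction n with
  | zero => simp
  | succ n ih =>
    rw [iterate_succ_apply', h.1 _ (c.iter_mem hx n), ih]
    push_cast
    ring

theorem Lev_refine {Q Q' : ℕ} {π : X → ZMod Q} {π' : X → ZMod Q'} (h : c.Lev Q π)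
    (h' : c.Lev Q' π') (hd : Q ∣ Q') {x y : X} (hx : x ∈ c.X1) (hy : y ∈ c.X1)
    (hxy : π' x = π' y) : π x = π y := by
  obtain ⟨V, hV, hyV, h1⟩ := h.2.1 y hy
  obtain ⟨V', hV', hyV', h1'⟩ := h'.2.1 y hy
  obtain ⟨n, -, h2, -⟩ := c.reach_near hx hy y (hV.inter hV') ⟨hyV, hyV'⟩ 0
  have h3 := h1 _ ⟨h2.1, c.iter_mem hx n⟩
  have h4 := h1' _ ⟨h2.2, c.iter_mem hx n⟩
  rw [c.Lev_iter h hx] at h3
  rw [c.Lev_iter h' hx, hxy, add_eq_left, ZMod.natCast_eq_zero_iff] at h4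
  rw [(ZMod.natCast_eq_zero_iff n Q).2 (hd.trans h4), add_zero] at h3
  exact h3

theorem not_mem_Bk {Q : ℕ} (hQ : 1 ≤ Q) {x : X} (hx : x ∈ c.X1) : c.f^[Q] x ∉ c.Bk Q x :=
  c.not_mem_Fc hx (c.aper x hx Q hQ)

theorem Fc_eq_Bk {Q : ℕ} {x y : X} (hx : x ∈ c.X1) (hy : y ∉ c.Bk Q x) :
    c.Fc x y = c.Bk Q x :=
  c.Fc_congr hx hy


end Chords

end Pool.Agent.Lib.MP_3fe454_an.PD
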