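import Pool.Agent.Lib.MP_3fe454_an.PD.CC1

/-!
Thin strips and the number of bad cells.
-/

set_option autoImplicit false

open Set Metric Filter Topology MeasureTheory Function
open scoped ComplexConjugate ENNReal

namespace Pool.Agent.Lib.MP_3fe454_an.PD

namespace Chords

variable {X : Type} [TopologicalSpace X] (c : Chords X)

private theorem net_Fc {K : Set X} {N : Finset X} (hN : c.NetK K N) {x : X}
    (hx : x ∈ K ∩ c.X1) (y : X) : ∃ n ∈ N, n ∈ c.Fc x y := by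
  obtain ⟨⟨n1, hn1, h1⟩, ⟨n2, hn2, h2⟩, -⟩ := hN x hx
  have hu := c.union x hx.2
  by_cases hy : y ∈ c.L x
  · refine ⟨n1, hn1, ?_⟩
    have h : n1 ∈ c.L x ∪ c.R x := hu ▸ mem_univ n1
    unfold Fc
    rw [if_pos hy]
    exact h.resolve_left h1
  · refine ⟨n2, hn2, ?_⟩
    have h : n2 ∈ c.L x ∪ c.R x := hu ▸ mem_univ n2
    unfold Fc
    rw [if_neg hy]
    exact h.resolve_right h2

private theorem off_chord {Q : ℕ} {π : X → ZMod Q} (hπ : c.Lev Q π) {x y : X} (hx : x ∈ c.X1)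
    (hy : y ∈ c.X1) (h : π y ≠ π x) : y ∉ c.γ x := fun hm => h (hπ.2.2 x hx y hy hm)

private theorem same_side {Q : ℕ} {π : X → ZMod Q} (hπ : c.Lev Q π) (hcv : c.Cvx Q π)
    {x y y' u : X} (hx : x ∈ c.X1) (hy : y ∈ c.X1) (hy' : y' ∈ c.X1) (h1 : π y' = π y)
    (h2 : π y ≠ π x) (h : y ∈ c.Fc x u) : y' ∈ c.Fc x u := by
  by_contra hn
  have he := c.Fc_congr hx hn
  have h3 : π y' ≠ π x := h1 ▸ h2
  exact hcv x hx y' hy' y hy h1 h3
    ⟨c.off_chord hπ hx hy' h3, c.off_chord hπ hx hy h2, he ▸ h⟩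

private theorem cross [PreconnectedSpace X] {a a' b b' z : X} (ha : a ∈ c.X1) (hb : b ∈ c.X1)
    (hab : b ∉ c.γ a) (h1 : b ∈ c.Fc a a') (h2 : a ∈ c.Fc b b') (hz1 : z ∉ c.Fc a a')
    (hz2 : z ∉ c.Fc b b') : False := by
  have e1 : z ∈ c.Fc a b := (c.Fc_opp ha h1 hab z).2 (Or.inl hz1)
  have e2 : z ∈ c.Fc b a := (c.Fc_opp hb h2 (c.notMem_symm ha hb hab) z).2 (Or.inl hz2)
  exact Set.disjoint_left.1 (c.Fc_disj ha hb hab) e1 e2

private theorem meet [PreconnectedSpace X] {a a' b b' z : X} (ha : a ∈ c.X1) (hb : b ∈ c.X1)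
    (hab : b ∉ c.γ a) (hz1 : z ∈ c.Fc a a') (hz2 : z ∈ c.Fc b b') :
    b ∈ c.Fc a a' ∨ a ∈ c.Fc b b' := by
  by_contra hn
  rw [not_or] at hn
  have e1 := c.Fc_congr ha hn.1
  have e2 := c.Fc_congr hb hn.2
  exact Set.disjoint_left.1 (c.Fc_disj ha hb hab) (e1 ▸ hz1) (e2 ▸ hz2)

theorem thin [PreconnectedSpace X] {K : Set X} {N : Finset X} (hN : c.NetK K N) {a a' b : X}
    (ha : a ∈ K ∩ c.X1) (ha' : a' ∈ K ∩ c.X1) (hb : b ∈ K ∩ c.X1) (haa : a' ∉ c.γ a)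
    (hth : ∀ n ∈ N, n ∉ c.strip a a') (hbs : b ∈ c.strip a a') : c.Sep b a a' := by
  have hb1 : b ∉ c.Fc a a' := hbs.1
  have hb2 : b ∉ c.Fc a' a := hbs.2
  have g1 : b ∉ c.γ a := fun h => hb1 (c.γ_sub_Fc ha.2 a' h)
  have g2 : b ∉ c.γ a' := fun h => hb2 (c.γ_sub_Fc ha'.2 a h)
  refine ⟨c.notMem_symm ha.2 hb.2 g1, c.notMem_symm ha'.2 hb.2 g2, ?_⟩
  by_contra hn
  obtain ⟨n, hnN, hnF⟩ := c.net_Fc hN hb a
  have hns := hth n hnN
  by_cases k1 : n ∈ c.Fc a a'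
  · rcases c.meet ha.2 hb.2 g1 k1 hnF with h | h
    · exact hb1 h
    · exact c.not_mem_Fc hb.2 (c.notMem_symm ha.2 hb.2 g1) h
  · by_cases k2 : n ∈ c.Fc a' a
    · rcases c.meet ha'.2 hb.2 g2 k2 hnF with h | h
      · exact hb2 h
      · exact hn h
    · exact hns ⟨k1, k2⟩

private theorem bad_aux [PreconnectedSpace X] {Q : ℕ} {π : X → ZMod Q} (hπ : c.Lev Q π)
    (hcv : c.Cvx Q π) {x y x' y' n n2 : X} (hx : x ∈ c.X1) (hy : y ∈ c.X1) (hx' : x' ∈ c.X1)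
    (hy' : y' ∈ c.X1) (h1 : π y = π x) (h2 : π y' = π x') (h3 : π x ≠ π x')
    (hxy' : y' ∉ c.γ x') (hn : n ∈ c.strip x y) (hn' : n ∈ c.strip x' y')
    (k1 : n2 ∈ c.Fc y x) (k2 : n2 ∈ c.Fc y' x') (hA : x ∈ c.Fc x' y') : False := by
  have hyA : y ∈ c.Fc x' y' := c.same_side hπ hcv hx' hx hy h1 h3 hA
  have d1 : π y' ≠ π y := by rw [h1, h2]; exact h3.symm
  have d2 : π x' ≠ π y := by rw [h1]; exact h3.symm
  rcases c.meet hy hy' (c.off_chord hπ hy hy' d1) k1 k2 with h | h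
  · have hxB : x' ∈ c.Fc y x := c.same_side hπ hcv hy hy' hx' h2.symm d1 h
    exact c.cross hy hx' (c.off_chord hπ hy hx' d2) hxB hyA hn.2 hn'.1
  · exact Set.disjoint_left.1 (c.Fc_disj hx' hy' hxy') hyA h

theorem bad_card [PreconnectedSpace X] {K : Set X} {N : Finset X} (hN : c.NetK K N) {Q : ℕ}
    (hQ : 1 ≤ Q) {π : X → ZMod Q} (hπ : c.Lev Q π) (hcv : c.Cvx Q π) :
    ∃ S : Finset (ZMod Q), S.card ≤ N.card ^ 3 ∧ ∀ i, c.Bad K N Q π i → i ∈ S := by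
  classical
  let P : ZMod Q → X × X × X → Prop := fun i t =>
    ∃ x ∈ c.X1, ∃ y ∈ c.X1, π x = i ∧ π y = i ∧ y ∉ c.γ x ∧ t.1 ∈ c.strip x y ∧
      t.2.1 ∈ c.Fc x y ∧ t.2.2 ∈ c.Fc y x
  have huniq : ∀ i j t, P i t → P j t → i = j := by
    rintro i j t ⟨x, hx, y, hy, e1, e2, hxy, hn, k1, k2⟩ ⟨x', hx', y', hy', e1', e2', hxy', hn', k1', k2'⟩
    by_contra hij
    have h3 : π x ≠ π x' := by rw [e1, e1']; exact hij
    rcases c.meet hx hx' (c.off_chord hπ hx hx' h3.symm) k1 k1' with h | h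
    · exact c.bad_aux hπ hcv hx' hy' hx hy (e2'.trans e1'.symm) (e2.trans e1.symm) h3.symm hxy
        hn' hn k2' k2 h
    · exact c.bad_aux hπ hcv hx hy hx' hy' (e2.trans e1.symm) (e2'.trans e1'.symm) h3 hxy'
        hn hn' k2 k2' h
  let φ : X × X × X → ZMod Q := fun t => if h : ∃ i, P i t then h.choose else 0
  refine ⟨(N ×ˢ N ×ˢ N).image φ, ?_, ?_⟩
  · refine Finset.card_image_le.trans ?_
    rw [Finset.card_product, Finset.card_product]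
    exact le_of_eq (by ring)
  · rintro i ⟨x, hx, y, hy, e1, e2, hxy, n, hnN, hn⟩
    obtain ⟨n1, hn1, k1⟩ := c.net_Fc hN hx y
    obtain ⟨n2, hn2, k2⟩ := c.net_Fc hN hy x
    have hP : P i (n, n1, n2) := ⟨x, hx.2, y, hy.2, e1, e2, hxy, hn, k1, k2⟩
    have hex : ∃ i, P i (n, n1, n2) := ⟨i, hP⟩
    refine Finset.mem_image.2 ⟨(n, n1, n2), ?_, ?_⟩
    · simp only [Finset.mem_product]
      exact ⟨hnN, hn1, hn2⟩
    · show (if h : ∃ i, P i (n, n1, n2) then h.choose else 0) = i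
      rw [dif_pos hex]
      exact huniq _ _ _ hex.choose_spec hP

theorem strips_disj [PreconnectedSpace X] {K : Set X} {N : Finset X} (hN : c.NetK K N) {Q : ℕ}
    {π : X → ZMod Q} (hπ : c.Lev Q π) (hcv : c.Cvx Q π) {a a' b b' : X} (ha : a ∈ K ∩ c.X1)
    (ha' : a' ∈ K ∩ c.X1) (hb : b ∈ K ∩ c.X1) (hb' : b' ∈ K ∩ c.X1) (haa : a' ∉ c.γ a)
    (hbb : b' ∉ c.γ b) (h1 : π a' = π a) (h2 : π b' = π b) (h3 : π a ≠ π b)
    (h4 : ¬ c.Bad K N Q π (π a)) (h5 : ¬ c.Bad K N Q π (π b)) :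
    Disjoint (c.strip a a') (c.strip b b') := by
  have ta : ∀ n ∈ N, n ∉ c.strip a a' := fun n hn hs =>
    h4 ⟨a, ha, a', ha', rfl, h1, haa, n, hn, hs⟩
  have tb : ∀ n ∈ N, n ∉ c.strip b b' := fun n hn hs =>
    h5 ⟨b, hb, b', hb', rfl, h2, hbb, n, hn, hs⟩
  have nb : b ∉ c.strip a a' := fun hs =>
    hcv b hb.2 a ha.2 a' ha'.2 h1.symm h3 (c.thin hN ha ha' hb haa ta hs)
  have na : a ∉ c.strip b b' := fun hs =>
    hcv a ha.2 b hb.2 b' hb'.2 h2.symm h3.symm (c.thin hN hb hb' ha hbb tb hs)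
  have d1 : π b ≠ π a := h3.symm
  have d2 : π b' ≠ π a := by rw [h2]; exact d1
  have d3 : π b ≠ π a' := by rw [h1]; exact d1
  have d4 : π b' ≠ π a' := by rw [h1, h2]; exact d1
  rw [Set.disjoint_left]
  intro z hz1 hz2
  by_cases k1 : b ∈ c.Fc a a'
  · by_cases k2 : a ∈ c.Fc b b'
    · exact c.cross ha.2 hb.2 (c.off_chord hπ ha.2 hb.2 d1) k1 k2 hz1.1 hz2.1
    · have k3 : a ∈ c.Fc b' b := by
        by_contra k3
        exact na ⟨k2, k3⟩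
      have k4 : b' ∈ c.Fc a a' := c.same_side hπ hcv ha.2 hb.2 hb'.2 h2 d1 k1
      exact c.cross ha.2 hb'.2 (c.off_chord hπ ha.2 hb'.2 d2) k4 k3 hz1.1 hz2.2
  · have k1' : b ∈ c.Fc a' a := by
      by_contra k3
      exact nb ⟨k1, k3⟩
    by_cases k2 : a ∈ c.Fc b b'
    · have k4 : a' ∈ c.Fc b b' := c.same_side hπ hcv hb.2 ha.2 ha'.2 h1 h3 k2
      exact c.cross ha'.2 hb.2 (c.off_chord hπ ha'.2 hb.2 d3) k1' k4 hz1.2 hz2.1
    · have k3 : a ∈ c.Fc b' b := by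
        by_contra k3
        exact na ⟨k2, k3⟩
      have k4 : a' ∈ c.Fc b' b := c.same_side hπ hcv hb'.2 ha.2 ha'.2 h1 d2.symm k3
      have k5 : b' ∈ c.Fc a' a := c.same_side hπ hcv ha'.2 hb.2 hb'.2 h2 d3 k1'
      exact c.cross ha'.2 hb'.2 (c.off_chord hπ ha'.2 hb'.2 d4) k5 k4 hz1.2 hz2.2


end Chords

end Pool.Agent.Lib.MP_3fe454_an.PD
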