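import Pool.Agent.Lib.MP_3fe454_an.PD.CC6
import Pool.Agent.Lib.MP_3fe454_an.PD.CC7

/-!
Doubling in a thin cell and the periodic point of a level.
-/

set_option autoImplicit false

open Set Metric Filter Topology MeasureTheory Function
open scoped ComplexConjugate ENNReal

namespace Pool.Agent.Lib.MP_3fe454_an.PD

namespace Chords

variable {X : Type} [TopologicalSpace X] [T2Space X] (c : Chords X)

omit [T2Space X] in
theorem cc9_add (x : X) (m n : ℕ) : c.f^[m] (c.f^[n] x) = c.f^[n + m] x := by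
  rw [Nat.add_comm, iterate_add_apply]

omit [T2Space X] in
theorem cc9_ne {x : X} (hx : x ∈ c.X1) {m n : ℕ} (h : m ≠ n) :
    c.f^[m] x ∉ c.γ (c.f^[n] x) := by
  have key : ∀ i j : ℕ, i < j → c.f^[j] x ∉ c.γ (c.f^[i] x) := by
    intro i j hij
    obtain ⟨d, rfl⟩ := Nat.exists_eq_add_of_lt hij
    have := c.aper _ (c.iter_mem hx i) (d + 1) (by omega)
    rwa [cc9_add, ← Nat.add_assoc] at this
  rcases lt_or_gt_of_ne h with h | h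
  · exact c.notMem_symm (c.iter_mem hx m) (c.iter_mem hx n) (key m n h)
  · exact key n m h

omit [T2Space X] in
theorem cc9_lev {Q : ℕ} {π : X → ZMod Q} (hπ : c.Lev Q π) {x : X} (hx : x ∈ c.X1) (m n : ℕ) :
    π (c.f^[m] x) = π (c.f^[n] x) ↔ m ≡ n [MOD Q] := by
  rw [c.Lev_iter hπ hx, c.Lev_iter hπ hx, add_right_inj, ZMod.natCast_eq_natCast_iff]

theorem cc9_not_modEq {M m d : ℕ} (h0 : 0 < d) (h1 : d < M) : ¬ m ≡ m + d [MOD M] := by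
  intro h
  have h2 : M ∣ m + d - m := (Nat.modEq_iff_dvd' (Nat.le_add_right m d)).1 h
  rw [Nat.add_sub_cancel_left] at h2
  exact absurd (Nat.le_of_dvd h0 h2) (by omega)

theorem cc9_modEq {M m d : ℕ} (h : M ∣ d) : m ≡ m + d [MOD M] :=
  (Nat.modEq_iff_dvd' (Nat.le_add_right m d)).2 (by rwa [Nat.add_sub_cancel_left])

omit [T2Space X] in
theorem cc9_cvx {M : ℕ} {π : X → ZMod M} (hπ : c.Lev M π) (hcv : c.Cvx M π) {x : X}
    (hx : x ∈ c.X1) {l m n : ℕ} (h1 : m ≡ n [MOD M]) (h2 : ¬ m ≡ l [MOD M]) :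
    c.f^[n] x ∉ c.Fc (c.f^[l] x) (c.f^[m] x) := fun h =>
  hcv _ (c.iter_mem hx l) _ (c.iter_mem hx m) _ (c.iter_mem hx n) ((c.cc9_lev hπ hx m n).2 h1)
    (fun e => h2 ((c.cc9_lev hπ hx m l).1 e))
    ⟨c.cc9_ne hx fun e => h2 (e ▸ Nat.ModEq.refl _), c.cc9_ne hx fun e => h2 (e ▸ h1), h⟩

theorem double [PreconnectedSpace X] (hno : ¬ HS c.f) {K : Set X} {N : Finset X}
    (hN : c.NetK K N) {Q : ℕ} (hQ : 1 ≤ Q) {π : X → ZMod Q} (hπ : c.Lev Q π)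
    (hcv : c.Cvx Q π) {x : X} (hx : x ∈ c.X1) (h0 : x ∈ K) (h1 : c.f^[Q] x ∈ K)
    (h2 : c.f^[2 * Q] x ∈ K) (hb : ¬ c.Bad K N Q π (π x)) :
    ∃ π' : X → ZMod (Q * 2), c.Lev (Q * 2) π' ∧ c.Cvx (Q * 2) π' := by
  obtain ⟨s, hs, π', hl, hc, hk⟩ := c.next_level hno hQ hπ hcv hx
  rcases hs.eq_or_lt with rfl | hs3
  · exact ⟨π', hl, hc⟩
  exfalso
  have hlt : 2 * Q < Q * s := by nlinarith
  have cell : ∀ n, Q ∣ n → π (c.f^[n] x) = π x := fun n hn => by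
    have := (c.cc9_lev hπ hx 0 (0 + n)).2 (cc9_modEq hn)
    rw [Nat.zero_add] at this
    exact this.symm
  have nb : ∀ m n, Q ∣ m → Q ∣ n → ¬ m ≡ n [MOD Q * s] →
      c.f^[n] x ∉ c.Bk Q (c.f^[m] x) := fun m n hm hn h =>
    hk _ (c.iter_mem hx m) _ (c.iter_mem hx n) (cell m hm) (cell n hn)
      fun e => h ((c.cc9_lev hl hx m n).1 e)
  have d0 : Q ∣ 0 := dvd_zero Q
  have d1 : Q ∣ Q := dvd_rfl
  have d2 : Q ∣ 2 * Q := dvd_mul_left Q 2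
  have n01 : ¬ 0 ≡ Q [MOD Q * s] := by
    have := cc9_not_modEq (M := Q * s) (m := 0) (d := Q) (by omega) (by omega)
    rwa [Nat.zero_add] at this
  have n02 : ¬ 0 ≡ 2 * Q [MOD Q * s] := by
    have := cc9_not_modEq (M := Q * s) (m := 0) (d := 2 * Q) (by omega) hlt
    rwa [Nat.zero_add] at this
  have n12 : ¬ Q ≡ 2 * Q [MOD Q * s] := by
    have := cc9_not_modEq (M := Q * s) (m := Q) (d := Q) (by omega) (by omega)
    rwa [← Nat.two_mul] at this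
  have x1 := c.iter_mem hx Q
  have x2 := c.iter_mem hx (2 * Q)
  have a01 : c.f^[Q] x ∉ c.γ x := c.aper x hx Q hQ
  have hst : c.f^[2 * Q] x ∈ c.strip x (c.f^[Q] x) := by
    refine ⟨nb 0 (2 * Q) d0 d2 n02, ?_⟩
    have e : c.Fc (c.f^[Q] x) x = c.Bk Q (c.f^[Q] x) :=
      c.Fc_eq_Bk x1 (nb Q 0 d1 d0 fun h => n01 h.symm)
    rw [e]
    exact nb Q (2 * Q) d1 d2 n12
  have hsep := c.thin hN ⟨h0, hx⟩ ⟨h1, x1⟩ ⟨h2, x2⟩ a01
    (fun n hn hns => hb ⟨x, ⟨h0, hx⟩, _, ⟨h1, x1⟩, rfl, cell Q d1, a01, n, hn, hns⟩) hst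
  have e : c.Fc (c.f^[2 * Q] x) x = c.Bk Q (c.f^[2 * Q] x) :=
    c.Fc_eq_Bk x2 (nb (2 * Q) 0 d2 d0 fun h => n02 h.symm)
  exact nb (2 * Q) Q d2 d1 (fun h => n12 h.symm) (e ▸ hsep.2.2)

omit [T2Space X] in
theorem cc9_cov [PreconnectedSpace X] {Q : ℕ} (hQ : 1 ≤ Q) {a : X} (ha : a ∈ c.X1) (i : ℕ) :
    Cov c.f (c.γ a) (c.γ (c.f^[Q] a)) (c.γ (c.f^[i] a)) (c.γ (c.f^[i + Q] a)) i
      {z | ∀ t ≤ i, c.f^[t] z ∈ c.strip (c.f^[t] a) (c.f^[t + Q] a)} := by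
  have clip : ∀ t : ℕ, Cov c.f (c.γ (c.f^[t] a)) (c.γ (c.f^[t + Q] a)) (c.γ (c.f^[t] a))
      (c.γ (c.f^[t + Q] a)) 0 (c.strip (c.f^[t] a) (c.f^[t + Q] a)) := fun t =>
    (c.cov_clip (c.iter_mem ha t) (c.iter_mem ha (t + Q)) (c.cc9_ne ha (by omega))).mono
      (c.γ_sub_Fc (c.iter_mem ha t) _) (c.γ_sub_Fc (c.iter_mem ha (t + Q)) _) subset_rfl
  induction i with
  | zero =>
    have h := clip 0
    rw [Nat.zero_add] at h ⊢
    refine h.mono subset_rfl subset_rfl fun z hz t ht => ?_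
    obtain rfl : t = 0 := by omega
    rw [Nat.zero_add]
    exact hz
  | succ i ih =>
    have hp := c.cov_push (c.iter_mem ha i) (c.iter_mem ha (i + Q)) 1
    rw [cc9_add, cc9_add, show i + Q + 1 = i + 1 + Q by omega] at hp
    refine ((ih.trans hp subset_rfl subset_rfl).trans (clip (i + 1)) subset_rfl subset_rfl).mono
      subset_rfl subset_rfl fun z hz t ht => ?_
    rcases ht.eq_or_lt with rfl | ht'
    · exact hz.2
    · exact hz.1.1 t (by omega)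

theorem orbit_fix [PreconnectedSpace X] {Q : ℕ} (hQ : 1 ≤ Q) {a : X} (ha : a ∈ c.X1)
    (h : c.f^[2 * Q] a ∈ c.Fc a (c.f^[Q] a)) :
    ∃ z, c.f^[Q] z = z ∧ ∀ t ≤ Q, c.f^[t] z ∈ c.strip (c.f^[t] a) (c.f^[t + Q] a) := by
  have a1 := c.iter_mem ha Q
  have hne : c.f^[Q] a ∉ c.γ a := c.aper a ha Q hQ
  have h1 := c.cc9_cov hQ ha Q
  have h2 := c.cov_clip' a1 ha a1 (c.iter_mem ha (Q + Q)) (c.notMem_symm ha a1 hne)
    (c.γ_sub_Fc a1 _ (c.mem _ a1)) (by rwa [← Nat.two_mul])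
  obtain ⟨z, hz, e⟩ := (h1.trans h2 subset_rfl subset_rfl).fix c.fpp (c.γ_disj ha a1 hne)
  exact ⟨z, e, hz.1⟩

theorem per_point [PreconnectedSpace X] {K : Set X} {N : Finset X} (hN : c.NetK K N) {Q : ℕ}
    (hQ : 1 ≤ Q) {π : X → ZMod Q} (hπ : c.Lev Q π) (hcv : c.Cvx Q π)
    {π2 : X → ZMod (Q * 2)} (hπ2 : c.Lev (Q * 2) π2) (hcv2 : c.Cvx (Q * 2) π2)
    {π4 : X → ZMod (Q * 2 * 2)} (hπ4 : c.Lev (Q * 2 * 2) π4) (hcv4 : c.Cvx (Q * 2 * 2) π4)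
    {x : X} (hx : x ∈ c.X1)
    (h0 : ∀ i ≤ 3, c.f^[i * Q] x ∈ K ∧ ¬ c.Bad K N Q π (π (c.f^[i * Q] x)))
    (h1 : ∀ r : ℕ, r.Prime → r ∣ Q → ∀ i ≤ 3, c.f^[i * Q + Q / r] x ∈ K ∧
      ¬ c.Bad K N Q π (π (c.f^[i * Q + Q / r] x))) :
    ∃ z, minimalPeriod c.f z = Q := by
  have mem : ∀ n, c.f^[n] x ∈ c.X1 := c.iter_mem hx
  have md : ∀ {M m n d : ℕ}, M ∣ d → n = m + d → m ≡ n [MOD M] := fun h e => e ▸ cc9_modEq h
  have nm : ∀ {M m n d : ℕ}, 0 < d → d < M → n = m + d → ¬ m ≡ n [MOD M] :=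
    fun h h' e => e ▸ cc9_not_modEq h h'
  -- a starting point whose second image lies behind it
  obtain ⟨j, hj, hs⟩ : ∃ j ≤ 2, c.f^[(j + 2) * Q] x ∈
      c.Fc (c.f^[j * Q] x) (c.f^[(j + 1) * Q] x) := by
    by_cases hc : c.f^[2 * Q] x ∈ c.Fc (c.f^[0 * Q] x) (c.f^[1 * Q] x)
    · exact ⟨0, by omega, hc⟩
    refine ⟨2, le_rfl, ?_⟩
    have hst : c.f^[2 * Q] x ∈ c.strip (c.f^[0 * Q] x) (c.f^[1 * Q] x) :=
      ⟨hc, c.cc9_cvx hπ2 hcv2 hx (md (d := Q * 2) dvd_rfl (by ring))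
        (nm (d := Q) (by omega) (by omega) (by ring))⟩
    have a01 : c.f^[1 * Q] x ∉ c.γ (c.f^[0 * Q] x) := c.cc9_ne hx (by omega)
    have hsep := c.thin hN ⟨(h0 0 (by omega)).1, mem _⟩ ⟨(h0 1 (by omega)).1, mem _⟩
      ⟨(h0 2 (by omega)).1, mem _⟩ a01
      (fun n hn hns => (h0 0 (by omega)).2 ⟨_, ⟨(h0 0 (by omega)).1, mem _⟩, _,
        ⟨(h0 1 (by omega)).1, mem _⟩, rfl,
        ((c.cc9_lev hπ hx _ _).2 (md (d := Q) dvd_rfl (by ring))).symm, a01, n, hn, hns⟩) hst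
    have e3 : c.Fc (c.f^[2 * Q] x) (c.f^[(2 + 1) * Q] x) =
        c.Fc (c.f^[2 * Q] x) (c.f^[1 * Q] x) :=
      c.Fc_congr (mem _) (c.cc9_cvx hπ2 hcv2 hx (md (d := Q * 2) dvd_rfl (by ring))
        (nm (d := Q) (by omega) (by omega) (by ring)))
    have e4 : c.f^[(2 + 2) * Q] x ∉ c.Fc (c.f^[2 * Q] x) (c.f^[0 * Q] x) :=
      c.cc9_cvx hπ4 hcv4 hx (md (d := Q * 2 * 2) dvd_rfl (by ring))
        (nm (d := 2 * Q) (by omega) (by omega) (by ring))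
    rw [e3]
    exact (c.Fc_opp (mem _) hsep.2.2 hsep.2.1 _).2 (Or.inl e4)
  obtain ⟨z, hz, hstr⟩ := c.orbit_fix hQ (mem (j * Q)) (by
    rw [cc9_add, cc9_add, show j * Q + 2 * Q = (j + 2) * Q by ring,
      show j * Q + Q = (j + 1) * Q by ring]
    exact hs)
  refine ⟨z, ?_⟩
  by_contra hne
  have hper : IsPeriodicPt c.f Q z := hz
  obtain ⟨k, hk⟩ := hper.minimalPeriod_dvd
  have hk1 : k ≠ 1 := fun e => hne (by rw [e, Nat.mul_one] at hk; exact hk.symm)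
  obtain ⟨r, hr, l, rfl⟩ := Nat.exists_prime_and_dvd hk1
  have hQr : Q = r * (minimalPeriod c.f z * l) := by rw [← Nat.mul_left_comm]; exact hk
  have hdiv : Q / r = minimalPeriod c.f z * l := by
    rw [Nat.div_eq_iff_eq_mul_right hr.pos ⟨_, hQr⟩]; exact hQr
  have hrQ : r ∣ Q := ⟨_, hQr⟩
  have t0 : 0 < Q / r := Nat.div_pos (Nat.le_of_dvd hQ hrQ) hr.pos
  have t1 : Q / r < Q := Nat.div_lt_self hQ hr.one_lt
  have hfix : c.f^[Q / r] z = z := by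
    rw [hdiv]
    exact (isPeriodicPt_minimalPeriod c.f z).mul_const l
  have s0 := hstr 0 (Nat.zero_le _)
  have s1 := hstr (Q / r) t1.le
  rw [hfix, cc9_add, cc9_add, show j * Q + (Q / r + Q) = (j + 1) * Q + Q / r by ring] at s1
  rw [cc9_add, cc9_add, Nat.add_zero, show j * Q + (0 + Q) = (j + 1) * Q by ring] at s0
  have b0 := h0 j (by omega)
  have b1 := h0 (j + 1) (by omega)
  have b2 := h1 r hr hrQ j (by omega)
  have b3 := h1 r hr hrQ (j + 1) (by omega)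
  have hd := c.strips_disj hN hπ hcv ⟨b0.1, mem _⟩ ⟨b1.1, mem _⟩ ⟨b2.1, mem _⟩ ⟨b3.1, mem _⟩
    (c.cc9_ne hx (by rw [Nat.add_mul]; omega)) (c.cc9_ne hx (by rw [Nat.add_mul]; omega))
    ((c.cc9_lev hπ hx _ _).2 (md (d := Q) dvd_rfl (by ring))).symm
    ((c.cc9_lev hπ hx _ _).2 (md (d := Q) dvd_rfl (by ring))).symm
    (fun e => nm t0 t1 rfl ((c.cc9_lev hπ hx _ _).1 e)) b0.2 b2.2
  exact Set.disjoint_left.1 hd s0 s1

end Chords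

end Pool.Agent.Lib.MP_3fe454_an.PD
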