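import Pool.Agent.Lib.MP_3fe454_an.PD.CC8
import Pool.Agent.Lib.MP_3fe454_an.PD.CC9

/-!
The cascade for an abstract system of chords.
-/

set_option autoImplicit false

open Set Metric Filter Topology MeasureTheory Function
open scoped ComplexConjugate ENNReal

namespace Pool.Agent.Lib.MP_3fe454_an.PD

/-- a convex level of order Q exists -/
def Chords.cc10LC {X : Type} [TopologicalSpace X] (c : Chords X) (Q : ℕ) : Prop :=
  ∃ π : X → ZMod Q, c.Lev Q π ∧ c.Cvx Q π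

theorem cc10_one {X : Type} [TopologicalSpace X] (c : Chords X) : c.cc10LC 1 :=
  ⟨fun _ => 0, ⟨fun _ _ => Subsingleton.elim _ _,
    fun _ _ => ⟨univ, isOpen_univ, mem_univ _, fun _ _ => rfl⟩, fun _ _ _ _ _ => rfl⟩,
    fun _ _ _ _ _ _ _ h => absurd rfl h⟩

theorem cc10_big {X : Type} [TopologicalSpace X] [T2Space X] [PreconnectedSpace X] (c : Chords X)
    (hno : ¬ HS c.f) {x0 : X} (hx0 : x0 ∈ c.X1) (n : ℕ) : ∃ Q, n < Q ∧ c.cc10LC Q := by
  induction n with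
  | zero => exact ⟨1, one_pos, cc10_one c⟩
  | succ n ih =>
    obtain ⟨Q, h1, π, h2, h3⟩ := ih
    obtain ⟨s, h4, π', h5, h6, -⟩ := c.next_level hno (by omega) h2 h3 hx0
    exact ⟨Q * s, by nlinarith, π', h5, h6⟩

theorem cc10_pick {X : Type} [TopologicalSpace X] [PreconnectedSpace X]
    [MeasurableSpace X] [OpensMeasurableSpace X] (c : Chords X) (μ : Measure X)
    [IsProbabilityMeasure μ] (hf : MeasurePreserving c.f μ μ) (hX : ∀ᵐ x ∂μ, x ∈ c.X1)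
    (hK : ∀ ε : ℝ≥0∞, 0 < ε → ∃ (K : Set X) (N : Finset X), MeasurableSet K ∧ μ Kᶜ ≤ ε ∧
      c.NetK K N) {L : ℕ} (hL : 0 < L) :
    ∃ (K : Set X) (N : Finset X), c.NetK K N ∧ ∀ Q : ℕ, 2 * L * N.card ^ 3 < Q →
      ∀ π : X → ZMod Q, c.Lev Q π → c.Cvx Q π → ∀ T : Finset ℕ, T.card ≤ L →
        ∃ x ∈ c.X1, ∀ n ∈ T, c.f^[n] x ∈ K ∧ ¬ c.Bad K N Q π (π (c.f^[n] x)) := by
  have hL' : (0 : ℝ) < L := by exact_mod_cast hL
  have hε : (0 : ℝ) < 1 / (2 * L) := by positivity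
  obtain ⟨K, N, h1, h2, h3⟩ := hK _ (ENNReal.ofReal_pos.2 hε)
  refine ⟨K, N, h3, fun Q hQ π h4 h5 T hT => ?_⟩
  have hQ1 : 1 ≤ Q := by omega
  obtain ⟨S, h6, h7⟩ := c.bad_card h3 hQ1 h4 h5
  have hQ' : (0 : ℝ) < Q := by exact_mod_cast hQ1
  have h8 : 2 * L * S.card < Q := (Nat.mul_le_mul_left _ h6).trans_lt hQ
  have h9 : (2 : ℝ) * L * S.card < Q := by exact_mod_cast h8
  have h10 : (T.card : ℝ) ≤ L := by exact_mod_cast hT
  have h11 : (L : ℝ) * (1 / (2 * L) + (S.card : ℝ) / Q) < 1 := by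
    have e1 : (L : ℝ) * (1 / (2 * L)) = 1 / 2 := by field_simp
    have e2 : (L : ℝ) * ((S.card : ℝ) / Q) < 1 / 2 := by
      rw [← mul_div_assoc, div_lt_iff₀ hQ']
      linarith
    rw [mul_add, e1]
    linarith
  obtain ⟨x, hx, h12⟩ := c.pick μ hf hX h1 hε.le h2 hQ1 h4 S T
    ((mul_le_mul_of_nonneg_right h10 (by positivity)).trans_lt h11)
  exact ⟨x, hx, fun n hn => ⟨(h12 n hn).1, fun hb => (h12 n hn).2 (h7 _ hb)⟩⟩

theorem cc_main {X : Type} [TopologicalSpace X] [T2Space X] [PreconnectedSpace X]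
    [MeasurableSpace X] [OpensMeasurableSpace X] (c : Chords X) (μ : Measure X) [IsProbabilityMeasure μ]
    (hf : MeasurePreserving c.f μ μ) (hX : ∀ᵐ x ∂μ, x ∈ c.X1)
    (hK : ∀ ε : ℝ≥0∞, 0 < ε → ∃ (K : Set X) (N : Finset X), MeasurableSet K ∧ μ Kᶜ ≤ ε ∧
      c.NetK K N) (hno : ¬ HS c.f) : Cascade c.f := by
  obtain ⟨x0, hx0⟩ := hX.exists
  obtain ⟨K, N, h1, h2⟩ := cc10_pick c μ hf hX hK (L := 3) (by norm_num)
  have dbl : ∀ Q, 2 * 3 * N.card ^ 3 < Q → c.cc10LC Q → c.cc10LC (Q * 2) := by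
    rintro Q hQ ⟨π, h3, h4⟩
    obtain ⟨x, hx, h5⟩ := h2 Q hQ π h3 h4 {0, Q, 2 * Q} Finset.card_le_three
    exact c.double hno h1 (by omega) h3 h4 hx (h5 0 (by simp)).1 (h5 Q (by simp)).1
      (h5 (2 * Q) (by simp)).1 (h5 0 (by simp)).2
  obtain ⟨Q0, h3, h4⟩ := cc10_big c hno hx0 (2 * 3 * N.card ^ 3)
  have h5 : ∀ k, c.cc10LC (Q0 * 2 ^ k) := fun k => by
    induction k with
    | zero => rwa [pow_zero, mul_one]
    | succ k ih =>
      rw [pow_succ, ← mul_assoc]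
      exact dbl _ (h3.trans_le (Nat.le_mul_of_pos_right _ (by positivity))) ih
  have h0 : 0 < Q0 := by omega
  obtain ⟨K2, N2, h6, h7⟩ := cc10_pick c μ hf hX hK
    (L := 4 + 4 * (Q0.primeFactors.card + 1)) (by omega)
  generalize hk : 2 * (4 + 4 * (Q0.primeFactors.card + 1)) * N2.card ^ 3 = k1 at h7
  refine ⟨Q0 * 2 ^ k1, Nat.succ_le_of_lt (by positivity), fun k => ?_⟩
  rw [mul_assoc, ← pow_add]
  have a1 := h5 (k1 + k)
  have a2 := h5 (k1 + k + 1)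
  have a3 := h5 (k1 + k + 1 + 1)
  rw [pow_succ, ← mul_assoc] at a2
  rw [pow_succ, pow_succ, ← mul_assoc, ← mul_assoc] at a3
  have a4 : k1 < Q0 * 2 ^ (k1 + k) :=
    ((Nat.le_add_right k1 k).trans_lt Nat.lt_two_pow_self).trans_le (Nat.le_mul_of_pos_left _ h0)
  have a5 : ∀ r : ℕ, r.Prime → r ∣ Q0 * 2 ^ (k1 + k) → r ∈ insert 2 Q0.primeFactors :=
    fun r hr hd => by
      rcases (Nat.Prime.dvd_mul hr).1 hd with h | h
      · exact Finset.mem_insert_of_mem (Nat.mem_primeFactors.2 ⟨hr, h, h0.ne'⟩)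
      · rw [(Nat.prime_dvd_prime_iff_eq hr Nat.prime_two).1 (hr.dvd_of_dvd_pow h)]
        exact Finset.mem_insert_self _ _
  generalize Q0 * 2 ^ (k1 + k) = Q at *
  obtain ⟨π, b1, b2⟩ := a1
  obtain ⟨π2, b3, b4⟩ := a2
  obtain ⟨π4, b5, b6⟩ := a3
  obtain ⟨x, hx, h8⟩ := h7 Q a4 π b1 b2 ((Finset.range 4).image (fun i => i * Q) ∪
    (Finset.range 4 ×ˢ insert 2 Q0.primeFactors).image fun p => p.1 * Q + Q / p.2) (by
      refine (Finset.card_union_le _ _).trans (Nat.add_le_add ?_ ?_)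
      · exact Finset.card_image_le.trans (Finset.card_range 4).le
      · refine Finset.card_image_le.trans ?_
        rw [Finset.card_product, Finset.card_range]
        exact Nat.mul_le_mul_left _ (Finset.card_insert_le _ _))
  refine c.per_point h6 (by omega) b1 b2 b3 b4 b5 b6 hx (fun i hi => h8 _ ?_)
    fun r hr hd i hi => h8 _ ?_
  · exact Finset.mem_union_left _
      (Finset.mem_image.2 ⟨i, Finset.mem_range.2 (by omega), rfl⟩)
  · exact Finset.mem_union_right _ (Finset.mem_image.2 ⟨(i, r),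
      Finset.mem_product.2 ⟨Finset.mem_range.2 (by omega), a5 r hr hd⟩, rfl⟩)

theorem HS.cascade {X : Type} {f : X → X} (h : HS f) : Cascade f := by
  obtain ⟨n, hn, h⟩ := h
  refine ⟨n * n, Nat.succ_le_of_lt (by positivity), fun k => ?_⟩
  obtain ⟨p, hp⟩ := h (n * 2 ^ k) (Nat.succ_le_of_lt (by positivity))
  refine ⟨p, ?_⟩
  rw [minimalPeriod_iterate_eq_div_gcd (by omega)] at hp
  have h1 := Nat.div_mul_cancel (Nat.gcd_dvd_left (minimalPeriod f p) n)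
  rw [hp] at h1
  have h2 : n ∣ minimalPeriod f p := ⟨_, by rw [← mul_assoc]; exact h1.symm⟩
  rw [Nat.gcd_eq_right h2] at h1
  rw [← h1]
  ring

end Pool.Agent.Lib.MP_3fe454_an.PD
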