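import Pool.Agent.Lib.MP_3fe454_an.PD.CC1

/-!
Calculus of coverings and the criterion for periodic points of all periods.
-/

set_option autoImplicit false

open Set Metric Filter Topology MeasureTheory Function
open scoped ComplexConjugate ENNReal

namespace Pool.Agent.Lib.MP_3fe454_an.PD

section
variable {X : Type} [TopologicalSpace X] {f : X → X}

theorem Cov.swap {A B C D Z : Set X} {n : ℕ} (h : Cov f A B C D n Z) : Cov f B A D C n Z := by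
  obtain ⟨g, hg, h1, h2, h3⟩ := h
  exact ⟨g, hg, h2, h1, fun z hD hC => h3 z hC hD⟩

theorem Cov.mono {A B C D Z A' B' Z' : Set X} {n : ℕ} (h : Cov f A B C D n Z) (hA : A' ⊆ A)
    (hB : B' ⊆ B) (hZ : Z ⊆ Z') : Cov f A' B' C D n Z' := by
  obtain ⟨g, hg, h1, h2, h3⟩ := h
  exact ⟨g, hg, h1.mono_left hA, h2.mono_left hB,
    fun z hC hD => ⟨(h3 z hC hD).1, hZ (h3 z hC hD).2⟩⟩

theorem Cov.trans {A B C D Z A' B' C' D' Z' : Set X} {n n' : ℕ} (h : Cov f A B C D n Z)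
    (h' : Cov f A' B' C' D' n' Z') (hC : C ⊆ A') (hD : D ⊆ B') :
    Cov f A B C' D' (n + n') (Z ∩ f^[n] ⁻¹' Z') := by
  obtain ⟨g, hg, h1, h2, h3⟩ := h
  obtain ⟨g', hg', h1', h2', h3'⟩ := h'
  refine ⟨g' ∘ g, hg'.comp hg, fun z hz => h1' (hC (h1 hz)), fun z hz => h2' (hD (h2 hz)),
    fun z hc hd => ?_⟩
  obtain ⟨e1, e2⟩ := h3 z (fun h => hc (h1' (hC h))) (fun h => hd (h2' (hD h)))
  obtain ⟨e3, e4⟩ := h3' (g z) hc hd
  refine ⟨?_, e2, ?_⟩
  · rw [add_comm, iterate_add_apply, ← e1]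
    exact e3
  · rw [mem_preimage, ← e1]
    exact e4

theorem Cov.fix (fpp : ∀ h : X → X, Continuous h → ∃ z, h z = z) {A B Z : Set X} {n : ℕ}
    (h : Cov f A B B A n Z) (hd : Disjoint A B) : ∃ z ∈ Z, f^[n] z = z := by
  obtain ⟨g, hg, h1, h2, h3⟩ := h
  obtain ⟨z, hz⟩ := fpp g hg
  have hA : z ∉ A := fun h => disjoint_left.1 hd h (hz ▸ h1 h)
  have hB : z ∉ B := fun h => disjoint_left.1 hd (hz ▸ h2 h) h
  obtain ⟨e1, e2⟩ := h3 z (hz.symm ▸ hB) (hz.symm ▸ hA)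
  exact ⟨z, e2, e1.symm.trans hz⟩

theorem cc2_fact [T2Space X] {g h : X → X} (hg : Continuous g) (hh : Continuous h) {U W : Set X}
    (hU : IsClosed U) (hd : Disjoint U W) (e : ∀ z, h z ∉ U → h z ∉ W → h z = g z) {z : X}
    (hz : z ∈ closure {z | h z ∉ W}) (hW : h z ∈ W) : g z ∈ W := by
  have ho : IsOpen {z | h z ∉ U} := hU.isOpen_compl.preimage hh
  have h1 : z ∈ closure ({z | h z ∉ U} ∩ {z | h z ∉ W}) :=
    ho.inter_closure ⟨fun h => disjoint_left.1 hd h hW, hz⟩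
  have h2 : h z = g z :=
    closure_minimal (t := {z | h z = g z}) (fun y hy => e y hy.1 hy.2) (isClosed_eq hh hg) h1
  exact h2 ▸ hW

/-- the orientation reversing branch between two orientation preserving ones -/
theorem cc2_flip [T2Space X] {g h1 h2 : X → X} (hg : Continuous g) (c1 : Continuous h1)
    (c2 : Continuous h2) {U W : Set X} (hU : IsClosed U) (hW : IsClosed W) (hd : Disjoint U W)
    (rU : ∃ ρ : X → X, Continuous ρ ∧ (∀ z, ρ z ∈ U) ∧ ∀ z ∈ U, ρ z = z)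
    (rW : ∃ ρ : X → X, Continuous ρ ∧ (∀ z, ρ z ∈ W) ∧ ∀ z ∈ W, ρ z = z)
    (e1 : ∀ z, h1 z ∉ U → h1 z ∉ W → h1 z = g z) (e2 : ∀ z, h2 z ∉ U → h2 z ∉ W → h2 z = g z)
    (m1 : MapsTo h1 U U) (m2 : MapsTo h2 W W) (hcov : ∀ z, h1 z ∈ W ∨ h2 z ∈ U) :
    ∃ q : X → X, Continuous q ∧ MapsTo q U W ∧ MapsTo q W U ∧
      ∀ z, q z ∉ W → q z ∉ U → q z = g z ∧ h1 z ∈ W := by
  classical
  obtain ⟨ρU, cU, a1, a2⟩ := rU
  obtain ⟨ρW, cW, b1, b2⟩ := rW
  set T1 : Set X := closure {z | h1 z ∉ W} with hT1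
  set T2 : Set X := closure {z | h2 z ∉ U} with hT2
  have f1 : ∀ z ∈ T1, h1 z ∈ W → g z ∈ W := fun z hz h => cc2_fact hg c1 hU hd e1 hz h
  have f2 : ∀ z ∈ T2, h2 z ∈ U → g z ∈ U := fun z hz h =>
    cc2_fact hg c2 hW hd.symm (fun y hy hy' => e2 y hy' hy) hz h
  have f3 : ∀ z ∈ T1, z ∉ T2 := by
    intro z z1 z2
    have i1 : h1 z ∈ W := by
      by_contra hc
      obtain ⟨y, y1, y2⟩ := mem_closure_iff.1 z2 _ (hW.isOpen_compl.preimage c1) hc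
      exact (hcov y).elim y1 y2
    have i2 : h2 z ∈ U := by
      by_contra hc
      obtain ⟨y, y1, y2⟩ := mem_closure_iff.1 z1 _ (hU.isOpen_compl.preimage c2) hc
      exact (hcov y).elim y2 y1
    exact disjoint_left.1 hd (f2 z z2 i2) (f1 z z1 i1)
  let q : X → X := fun z => if z ∈ T1 then ρW (g z) else if z ∈ T2 then ρU (g z) else g z
  have q1 : ∀ z ∈ T1, q z = ρW (g z) := fun z hz => if_pos hz
  have q2 : ∀ z ∈ T2, q z = ρU (g z) := fun z hz =>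
    (if_neg fun h => f3 z h hz).trans (if_pos hz)
  have q3 : ∀ z, z ∉ T1 → z ∉ T2 → q z = g z := fun z z1 z2 => (if_neg z1).trans (if_neg z2)
  have q4 : ∀ z ∈ h1 ⁻¹' W ∩ h2 ⁻¹' U, q z = g z := by
    intro z hz
    by_cases z1 : z ∈ T1
    · rw [q1 z z1, b2 _ (f1 z z1 hz.1)]
    · by_cases z2 : z ∈ T2
      · rw [q2 z z2, a2 _ (f2 z z2 hz.2)]
      · exact q3 z z1 z2
  refine ⟨q, ?_, fun z hz => ?_, fun z hz => ?_, fun z z1 z2 => ?_⟩
  · have k1 : ContinuousOn q T1 := (cW.comp hg).continuousOn.congr q1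
    have k2 : ContinuousOn q T2 := (cU.comp hg).continuousOn.congr q2
    have k3 : ContinuousOn q (h1 ⁻¹' W ∩ h2 ⁻¹' U) := hg.continuousOn.congr q4
    have k4 := (k1.union_of_isClosed k2 isClosed_closure isClosed_closure).union_of_isClosed k3
      (isClosed_closure.union isClosed_closure) ((hW.preimage c1).inter (hU.preimage c2))
    have k5 : T1 ∪ T2 ∪ h1 ⁻¹' W ∩ h2 ⁻¹' U = univ := by
      refine eq_univ_of_forall fun z => ?_
      by_cases z1 : h1 z ∈ W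
      · by_cases z2 : h2 z ∈ U
        · exact Or.inr ⟨z1, z2⟩
        · exact Or.inl (Or.inr (subset_closure z2))
      · exact Or.inl (Or.inl (subset_closure z1))
    rwa [k5, continuousOn_univ] at k4
  · rw [q1 z (subset_closure fun h => disjoint_left.1 hd (m1 hz) h)]
    exact b1 _
  · rw [q2 z (subset_closure fun h => disjoint_left.1 hd h (m2 hz))]
    exact a1 _
  · have n1 : z ∉ T1 := fun h => z1 (q1 z h ▸ b1 _)
    have n2 : z ∉ T2 := fun h => z2 (q2 z h ▸ a1 _)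
    refine ⟨q3 z n1 n2, ?_⟩
    by_contra hc
    exact n1 (subset_closure hc)

theorem cc2_pow {A B U W : Set X} {n : ℕ} (h : Cov f A B U W n univ) (hU : U ⊆ A) (hW : W ⊆ B)
    (k : ℕ) : Cov f A B U W (n * (k + 1)) univ := by
  induction k with
  | zero => simpa using h
  | succ k ih =>
    rw [Nat.mul_succ]
    exact (ih.trans h hU hW).mono Subset.rfl Subset.rfl (subset_univ _)

theorem cc2_sq {A B U W : Set X} {n : ℕ} (h : Cov f A B U W n univ ∨ Cov f A B W U n univ)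
    (hU : U ⊆ A) (hW : W ⊆ B) : Cov f A B U W (n + n) univ := by
  rcases h with h | h
  · exact (h.trans h hU hW).mono Subset.rfl Subset.rfl (subset_univ _)
  · exact (h.trans h.swap hW hU).mono Subset.rfl Subset.rfl (subset_univ _)

theorem cc2_clip {F S Γ : Set X} (hF : IsClosed F) (hS : IsClosed S) (hu : F ∪ S = univ)
    (hi : F ∩ S ⊆ Γ) (hr : ∃ ρ : X → X, Continuous ρ ∧ (∀ z, ρ z ∈ Γ) ∧ ∀ z ∈ Γ, ρ z = z) :
    ∃ r : X → X, Continuous r ∧ (∀ z ∈ F, r z ∈ Γ) ∧ ∀ z, z ∉ F → r z = z := by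
  classical
  obtain ⟨ρ, cρ, a1, a2⟩ := hr
  let r : X → X := fun z => if z ∈ F then ρ z else z
  have r1 : ∀ z ∈ F, r z = ρ z := fun z hz => if_pos hz
  have r2 : ∀ z, z ∉ F → r z = z := fun z hz => if_neg hz
  refine ⟨r, ?_, fun z hz => r1 z hz ▸ a1 z, r2⟩
  have k1 : ContinuousOn r F := cρ.continuousOn.congr r1
  have k2 : ContinuousOn r S := by
    refine continuous_id.continuousOn.congr fun z hz => ?_
    by_cases h : z ∈ F
    · exact (r1 z h).trans (a2 z (hi ⟨h, hz⟩))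
    · exact r2 z h
  have k3 := k1.union_of_isClosed k2 hF hS
  rwa [hu, continuousOn_univ] at k3

/-- two ordered orientation preserving branches give periodic points of all periods -/
theorem hs_of_two [T2Space X] (hf : Continuous f) (fpp : ∀ h : X → X, Continuous h → ∃ z, h z = z)
    {U W A1 B1 A2 B2 : Set X} {N : ℕ} (hN : 1 ≤ N) (hU : IsClosed U) (hW : IsClosed W)
    (hd : Disjoint U W)
    (rU : ∃ ρ : X → X, Continuous ρ ∧ (∀ z, ρ z ∈ U) ∧ ∀ z ∈ U, ρ z = z)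
    (rW : ∃ ρ : X → X, Continuous ρ ∧ (∀ z, ρ z ∈ W) ∧ ∀ z ∈ W, ρ z = z)
    (h1 : Cov f A1 B1 U W N univ) (h2 : Cov f A2 B2 U W N univ) (hU1 : U ⊆ A1) (hU2 : U ⊆ A2)
    (hW1 : W ⊆ B1) (hW2 : W ⊆ B2) (hcov : B1 ∪ A2 = univ) : HS f := by
  obtain ⟨g1, c1, a1, a2, a3⟩ := h1
  obtain ⟨g2, c2, b1, b2, b3⟩ := h2
  have hQ : Cov f U W W U N {z | g1 z ∈ W} :=
    cc2_flip (hf.iterate N) c1 c2 hU hW hd rU rW (fun z x y => (a3 z x y).1)
      (fun z x y => (b3 z x y).1) (a1.mono_left hU1) (b2.mono_left hW2) fun z =>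
        (eq_univ_iff_forall.1 hcov z).imp (fun h => a2 h) fun h => b1 h
  have hP : Cov f W U W U N {z | g1 z ∉ W} :=
    ⟨g1, c1, a2.mono_left hW1, a1.mono_left hU1, fun z x y => ⟨(a3 z y x).1, x⟩⟩
  have key : ∀ j : ℕ, Cov f U W W U (N * (j + 1))
      {z | g1 z ∈ W ∧ ∀ i, 1 ≤ i → i < j + 1 → g1 (f^[N * i] z) ∉ W} := by
    intro j
    induction j with
    | zero =>
      rw [zero_add, mul_one]
      exact hQ.mono Subset.rfl Subset.rfl fun z hz => ⟨hz, fun i i1 i2 => by omega⟩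
    | succ j ih =>
      rw [Nat.mul_succ]
      refine (ih.trans hP Subset.rfl Subset.rfl).mono Subset.rfl Subset.rfl fun z hz =>
        ⟨hz.1.1, fun i i1 i2 => ?_⟩
      rcases Nat.lt_succ_iff_lt_or_eq.1 i2 with h | rfl
      · exact hz.1.2 i i1 h
      · exact hz.2
  refine ⟨N, hN, fun j hj => ?_⟩
  obtain ⟨j, rfl⟩ : ∃ k, j = k + 1 := ⟨j - 1, by omega⟩
  obtain ⟨z, hz, e⟩ := (key j).fix fpp hd
  have hp : IsPeriodicPt (f^[N]) (j + 1) z := by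
    rw [iterate_mul] at e
    exact e
  refine ⟨z, le_antisymm (hp.minimalPeriod_le hj) ?_⟩
  by_contra hc
  have h3 := hz.2 _ (hp.minimalPeriod_pos hj) (not_le.1 hc)
  rw [iterate_mul, iterate_minimalPeriod] at h3
  exact h3 hz.1

end

namespace Chords

variable {X : Type} [TopologicalSpace X] (c : Chords X)


theorem cov_push {a b : X} (ha : a ∈ c.X1) (hb : b ∈ c.X1) (n : ℕ) :
    Cov c.f (c.γ a) (c.γ b) (c.γ (c.f^[n] a)) (c.γ (c.f^[n] b)) n univ :=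
  ⟨c.f^[n], c.cf.iterate n, fun _ hz => c.iter_img ha hz n, fun _ hz => c.iter_img hb hz n,
    fun _ _ _ => ⟨rfl, mem_univ _⟩⟩

theorem cc2_side {a : X} (ha : a ∈ c.X1) (b : X) :
    ∃ r : X → X, Continuous r ∧ (∀ z ∈ c.Fc a b, r z ∈ c.γ a) ∧ ∀ z, z ∉ c.Fc a b → r z = z := by
  unfold Fc
  split_ifs
  · exact cc2_clip (c.cR a ha) (c.cL a ha) ((union_comm _ _).trans (c.union a ha))
      ((inter_comm _ _).trans (c.inter a ha)).subset (c.retr a ha)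
  · exact cc2_clip (c.cL a ha) (c.cR a ha) (c.union a ha) (c.inter a ha).subset (c.retr a ha)

theorem cov_clip [PreconnectedSpace X] {a b : X} (ha : a ∈ c.X1) (hb : b ∈ c.X1)
    (h : b ∉ c.γ a) : Cov c.f (c.Fc a b) (c.Fc b a) (c.γ a) (c.γ b) 0 (c.strip a b) := by
  obtain ⟨ra, ca, a1, a2⟩ := c.cc2_side ha b
  obtain ⟨rb, cb, b1, b2⟩ := c.cc2_side hb a
  have d1 := c.Fc_disj ha hb h
  have d2 := c.chord_disj_Fc hb ha (c.not_mem_Fc hb (c.notMem_symm ha hb h))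
  have m1 : MapsTo (rb ∘ ra) (c.Fc a b) (c.γ a) := fun z hz => by
    rw [comp_apply, b2 _ (disjoint_left.1 d2 (a1 z hz))]
    exact a1 z hz
  have m2 : MapsTo (rb ∘ ra) (c.Fc b a) (c.γ b) := fun z hz => by
    rw [comp_apply, a2 z (disjoint_right.1 d1 hz)]
    exact b1 z hz
  refine ⟨rb ∘ ra, cb.comp ca, m1, m2, fun z z1 z2 => ?_⟩
  have n1 : z ∉ c.Fc a b := fun hz => z1 (m1 hz)
  have n2 : z ∉ c.Fc b a := fun hz => z2 (m2 hz)
  exact ⟨by rw [comp_apply, a2 z n1, b2 z n2, iterate_zero_apply], n1, n2⟩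

theorem cov_clip' [PreconnectedSpace X] {a b a' b' : X} (ha : a ∈ c.X1) (hb : b ∈ c.X1)
    (ha' : a' ∈ c.X1) (hb' : b' ∈ c.X1) (h : b ∉ c.γ a) (h1 : a' ∈ c.Fc a b)
    (h2 : b' ∈ c.Fc b a) : Cov c.f (c.γ a') (c.γ b') (c.γ a) (c.γ b) 0 univ :=
  (c.cov_clip ha hb h).mono (c.chord_sub_Fc ha ha' h1) (c.chord_sub_Fc hb hb' h2) (subset_univ _)

theorem cc2_to [PreconnectedSpace X] {a b u w : X} (ha : a ∈ c.X1) (hb : b ∈ c.X1)
    (h : b ∉ c.γ a) (hu : c.γ u ⊆ c.Fc a b) (hw : c.γ w ⊆ c.Fc b a) (ht : c.To a b u w) :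
    ∃ n : ℕ, ∀ k : ℕ,
      Cov c.f (c.Fc a b) (c.Fc b a) (c.γ u) (c.γ w) ((n + 1 + (n + 1)) * (k + 1)) univ := by
  obtain ⟨n, hn, ht⟩ := ht
  obtain ⟨n, rfl⟩ : ∃ k, n = k + 1 := ⟨n - 1, by omega⟩
  refine ⟨n, cc2_pow (cc2_sq (ht.imp (fun h1 => ?_) fun h1 => ?_) hu hw) hu hw⟩
  · have := ((c.cov_clip ha hb h).trans h1 Subset.rfl Subset.rfl).mono Subset.rfl Subset.rfl
      (subset_univ _)
    rwa [zero_add] at this
  · have := ((c.cov_clip ha hb h).trans h1 Subset.rfl Subset.rfl).mono Subset.rfl Subset.rfl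
      (subset_univ _)
    rwa [zero_add] at this

/-- the criterion (T) -/
theorem hs_of_sep [T2Space X] [PreconnectedSpace X] {u v w : X} (hu : u ∈ c.X1) (hv : v ∈ c.X1)
    (hw : w ∈ c.X1) (hs : c.Sep v u w) (h1 : c.To u v u w) (h2 : c.To v w u w) : HS c.f := by
  have s1 : c.γ u ⊆ c.Fc u v := c.γ_sub_Fc hu v
  have s2 : c.γ w ⊆ c.Fc v u := c.chord_sub_Fc hv hw hs.2.2
  have s3 : c.γ u ⊆ c.Fc v w := c.chord_sub_Fc hv hu (c.Sep_symm hv hs).2.2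
  have s4 : c.γ w ⊆ c.Fc w v := c.γ_sub_Fc hw v
  obtain ⟨n1, k1⟩ := c.cc2_to hu hv (c.notMem_symm hv hu hs.1) s1 s2 h1
  obtain ⟨n2, k2⟩ := c.cc2_to hv hw hs.2.1 s3 s4 h2
  have e : (n2 + 1 + (n2 + 1)) * (n1 + 1) = (n1 + 1 + (n1 + 1)) * (n2 + 1) := by ring
  refine hs_of_two c.cf c.fpp (N := (n1 + 1 + (n1 + 1)) * (n2 + 1)) (Nat.mul_pos (by omega) (by omega))
    (c.γ_closed hu) (c.γ_closed hw) (c.γ_disj hu hw (c.Sep_Fc hv hu hw hs).1) (c.retr u hu)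
    (c.retr w hw) (k1 n2) (e ▸ k2 n1) s1 s3 s2 s4 (eq_univ_of_forall fun z => ?_)
  by_cases hz : z ∈ c.Fc v u
  · exact Or.inl hz
  · exact Or.inr ((c.Fc_opp hv hs.2.2 hs.2.1 z).2 (Or.inl hz))


end Chords

end Pool.Agent.Lib.MP_3fe454_an.PD
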