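import Pool.Agent.Lib.MP_3fe454_an.PD.CC2

/-!
Waiting lemma, absence of back to back pairs, existence of stars.
-/

set_option autoImplicit false

open Set Metric Filter Topology MeasureTheory Function
open scoped ComplexConjugate ENNReal

namespace Pool.Agent.Lib.MP_3fe454_an.PD

private theorem cc3_trans {X : Type} [TopologicalSpace X] {f : X → X} {A B C D C' D' : Set X}
    {n n' : ℕ} (h : Cov f A B C D n univ) (h' : Cov f C D C' D' n' univ) :
    Cov f A B C' D' (n + n') univ :=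
  (h.trans h' subset_rfl subset_rfl).mono subset_rfl subset_rfl (subset_univ _)

private theorem cc3_max {ι : Type} [Fintype ι] (r : ι → ι → Prop) (hrefl : ∀ a, r a a)
    (htr : ∀ a b d, r a b → r b d → r a d) (a : ι) :
    ∃ b, r a b ∧ ∀ d, r b d → r d b := by
  classical
  obtain ⟨b, hb, hmax⟩ := Finset.exists_max_image (Finset.univ.filter fun b => r a b)
    (fun b => (Finset.univ.filter fun d => r d b).card) ⟨a, by simp [hrefl]⟩
  have hab : r a b := by simpa using hb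
  refine ⟨b, hab, fun d hd => ?_⟩
  have h1 : (Finset.univ.filter fun e => r e b) ⊆ Finset.univ.filter fun e => r e d := by
    intro e he
    have : r e b := by simpa using he
    simpa using htr _ _ _ this hd
  have h2 := hmax d (by simpa using htr _ _ _ hab hd)
  have h3 := Finset.eq_of_subset_of_card_le h1 h2
  have h4 : d ∈ Finset.univ.filter fun e => r e d := by simp [hrefl]
  rw [← h3] at h4
  simpa using h4

private theorem cc3_per {ι : Type} [Finite ι] (φ : ι → ι) (a0 : ι) :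
    ∃ a, a ∈ periodicPts φ := by
  obtain ⟨m, n, hmn, h⟩ := Finite.exists_ne_map_eq_of_infinite (fun n : ℕ => φ^[n] a0)
  have key : ∀ m n : ℕ, m < n → φ^[m] a0 = φ^[n] a0 → ∃ a, a ∈ periodicPts φ := by
    intro m n hlt h
    refine ⟨φ^[m] a0, n - m, by omega, ?_⟩
    show φ^[n - m] (φ^[m] a0) = φ^[m] a0
    rw [← iterate_add_apply, Nat.sub_add_cancel hlt.le, h]
  rcases lt_or_gt_of_ne hmn with h1 | h1
  · exact key m n h1 h
  · exact key n m h1 h.symm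

namespace Chords

variable {X : Type} [TopologicalSpace X] [T2Space X] (c : Chords X)

omit [T2Space X] in
private theorem self_mem_Fc {x : X} (hx : x ∈ c.X1) (y : X) : x ∈ c.Fc x y :=
  c.γ_sub_Fc hx y (c.mem x hx)

omit [T2Space X] in
private theorem iter_succ_mul (Q t : ℕ) (w : X) :
    c.f^[Q] (c.f^[Q * t] w) = c.f^[Q * (t + 1)] w := by
  rw [← iterate_add_apply]
  congr 1
  ring

omit [T2Space X] in
private theorem reach_mul {Q : ℕ} {π : X → ZMod Q} (hπ : c.Lev Q π) {x y : X} (hx : x ∈ c.X1)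
    (hy : y ∈ c.X1) (hxy : π x = π y) (u : X) :
    ∃ j : ℕ, 1 ≤ j ∧ c.f^[Q * j] x ∈ c.Fc y u := by
  obtain ⟨V, hV, hyV, hc⟩ := hπ.2.1 y hy
  obtain ⟨n, hn, h1, h2, -⟩ := c.reach_far hx hy u hV hyV 1
  have h3 := hc _ ⟨h1, c.iter_mem hx n⟩
  rw [c.Lev_iter hπ hx n, hxy] at h3
  have h4 : (n : ZMod Q) = 0 := by simpa using h3
  obtain ⟨j, rfl⟩ := (ZMod.natCast_eq_zero_iff n Q).1 h4
  refine ⟨j, ?_, h2⟩
  rcases Nat.eq_zero_or_pos j with h | h
  · subst h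
    simp at hn
  · exact h

theorem wait [PreconnectedSpace X] (Q : ℕ) {w : X} (hw : w ∈ c.X1) (u : ℕ → X)
    (A : ℕ → Set X) (hu : ∀ t, u t ∈ c.X1) (hA : ∀ t, ∃ y, A t = c.Fc (u t) y)
    (hstep : ∀ t, c.f^[Q] (u t) ∈ A (t + 1)) {i T : ℕ} (hiT : i ≤ T)
    (hout : ∀ t, i < t → t ≤ T → c.f^[Q * t] w ∉ A t) :
    Cov c.f (c.γ (c.f^[Q * i] w)) (c.γ (u i)) (c.γ (c.f^[Q * T] w)) (c.γ (u T))
      (Q * (T - i)) univ := by
  induction T, hiT using Nat.le_induction with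
  | base =>
    have h := c.cov_push (c.iter_mem hw (Q * i)) (hu i) 0
    simpa using h
  | succ T hiT ih =>
    have h0 := ih (fun t h1 h2 => hout t h1 (by omega))
    have h1 := c.cov_push (c.iter_mem hw (Q * T)) (hu T) Q
    rw [c.iter_succ_mul] at h1
    obtain ⟨y, hy⟩ := hA (T + 1)
    have hw1 : c.f^[Q * (T + 1)] w ∈ c.X1 := c.iter_mem hw _
    have hn : c.f^[Q * (T + 1)] w ∉ c.Fc (u (T + 1)) y := by
      rw [← hy]
      exact hout (T + 1) (by omega) le_rfl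
    have hn' : c.f^[Q * (T + 1)] w ∉ c.γ (u (T + 1)) :=
      fun h => hn (c.γ_sub_Fc (hu _) y h)
    have hs : c.f^[Q] (u T) ∈ c.Fc (u (T + 1)) (c.f^[Q * (T + 1)] w) := by
      rw [c.Fc_congr (hu _) hn, ← hy]
      exact hstep T
    have h2 := c.cov_clip' hw1 (hu (T + 1)) hw1 (c.iter_mem (hu T) Q)
      (c.notMem_symm (hu _) hw1 hn') (c.self_mem_Fc hw1 _) hs
    have h3 := cc3_trans (cc3_trans h0 h1) h2
    have he : Q * (T - i) + Q + 0 = Q * (T + 1 - i) := by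
      rw [Nat.sub_add_comm hiT]
      ring
    rwa [he] at h3

theorem no_back [PreconnectedSpace X] (hno : ¬ HS c.f) {Q : ℕ} (hQ : 1 ≤ Q) {π : X → ZMod Q}
    (hπ : c.Lev Q π) {x y : X} (hx : x ∈ c.X1) (hy : y ∈ c.X1) (hxy : π x = π y)
    (h1 : y ∈ c.Bk Q x) (h2 : x ∈ c.Bk Q y) : y ∈ c.γ x := by
  classical
  by_contra hyx
  have hxy' : x ∉ c.γ y := c.notMem_symm hx hy hyx
  have hHx : c.f^[Q] x ∈ c.X1 := c.iter_mem hx Q
  have hHy : c.f^[Q] y ∈ c.X1 := c.iter_mem hy Q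
  have a1 : c.f^[Q] x ∈ c.Fc x y :=
    (c.Fc_opp hx h1 hyx _).2 (Or.inl (c.not_mem_Bk hQ hx))
  have a2 : c.f^[Q] y ∈ c.Fc y x :=
    (c.Fc_opp hy h2 hxy' _).2 (Or.inl (c.not_mem_Bk hQ hy))
  have hs : c.Sep y x (c.f^[Q] y) := ⟨hxy', c.aper y hy Q hQ, a2⟩
  obtain ⟨b1, b2, -⟩ := c.Sep_Fc hy hx hHy hs
  have p1 : Cov c.f (c.γ x) (c.γ y) (c.γ x) (c.γ (c.f^[Q] y)) (Q + 0) univ :=
    cc3_trans (c.cov_push hx hy Q)
      (c.cov_clip' hx hHy hHx hHy b1 (by rw [b2]; exact a1) (c.self_mem_Fc hHy _))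
  obtain ⟨j, hj, hjx⟩ := c.reach_mul hπ hy hx hxy.symm y
  have hd := c.Fc_disj hx hy hyx
  have hjy : c.f^[Q * j] y ∉ c.Fc y x := fun h => Set.disjoint_left.1 hd hjx h
  obtain ⟨i, hi, hij, hout⟩ : ∃ i, c.f^[Q * i] y ∈ c.Fc y x ∧ i < j ∧
      ∀ t, i < t → t ≤ j → c.f^[Q * t] y ∉ c.Fc y x := by
    let P : ℕ → Prop := fun t => c.f^[Q * t] y ∈ c.Fc y x
    have hP0 : P 0 := by
      show c.f^[Q * 0] y ∈ c.Fc y x
      simpa using c.self_mem_Fc hy x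
    have hP : P (Nat.findGreatest P j) := Nat.findGreatest_spec (Nat.zero_le j) hP0
    refine ⟨Nat.findGreatest P j, hP, ?_, fun t h1 h2 => Nat.findGreatest_is_greatest h1 h2⟩
    refine lt_of_le_of_ne (Nat.findGreatest_le j) (fun h => hjy ?_)
    rw [h] at hP
    exact hP
  have hi1 : c.f^[Q * (i + 1)] y ∈ c.X1 := c.iter_mem hy _
  have hn : c.f^[Q * (i + 1)] y ∉ c.Fc y x := hout (i + 1) (by omega) (by omega)
  have q1 := c.cov_push hy hHy (Q * i)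
  have e1 : c.f^[Q * i] (c.f^[Q] y) = c.f^[Q * (i + 1)] y := by
    rw [← iterate_add_apply]
    congr 1
  rw [e1] at q1
  have q2 := c.cov_clip' hy hi1 (c.iter_mem hy (Q * i)) hi1
    (fun h => hn (c.γ_sub_Fc hy x h)) (by rw [c.Fc_congr hy hn]; exact hi)
    (c.self_mem_Fc hi1 _)
  have q3 := (c.wait Q hy (fun _ => y) (fun _ => c.Fc y x) (fun _ => hy) (fun _ => ⟨x, rfl⟩)
    (fun _ => a2) (i := i + 1) (T := j) (by omega)
    (fun t h1 h2 => hout t (by omega) h2)).swap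
  have q4 := c.cov_clip' hy hx hy (c.iter_mem hy (Q * j)) hxy' (c.self_mem_Fc hy _) hjx
  have q5 := cc3_trans (cc3_trans (cc3_trans (cc3_trans q1 q2) q3) q4) p1.swap
  exact hno (c.hs_of_sep hx hy hHy hs ⟨Q + 0, by omega, Or.inl p1⟩
    ⟨_, by omega, Or.inr q5⟩)

theorem Bk_trans [PreconnectedSpace X] (hno : ¬ HS c.f) {Q : ℕ} (hQ : 1 ≤ Q) {π : X → ZMod Q}
    (hπ : c.Lev Q π) {y z : X} (hy : y ∈ c.X1) (hz : z ∈ c.X1) (hyz : π y = π z)
    (h : y ∈ c.Bk Q z) : c.Bk Q y ⊆ c.Bk Q z := by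
  by_cases hyz' : y ∈ c.γ z
  · have h1 := (c.same_chord hz hy hyz').2 (c.f^[Q] y)
    have h2 := c.chord_disj_Fc hz (c.iter_mem hz Q) (c.not_mem_Bk hQ hz)
    have h3 : c.f^[Q] y ∉ c.Fc z (c.f^[Q] z) :=
      fun h' => Set.disjoint_left.1 h2 (c.iter_img hz hyz' Q) h'
    have h4 : c.Bk Q y = c.Bk Q z := h1.trans (c.Fc_congr hz h3)
    exact h4.subset
  · have h1 : z ∉ c.Bk Q y := fun h' => hyz' (c.no_back hno hQ hπ hz hy hyz.symm h h')
    have h2 := c.Fc_eq_Bk hy h1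
    have h3 := c.Fc_disj hz hy hyz'
    intro p hp
    rw [← h2] at hp
    by_contra hp'
    exact Set.disjoint_left.1 h3 ((c.Fc_opp hz h hyz' p).2 (Or.inl hp')) hp

theorem star_exists [PreconnectedSpace X] (hno : ¬ HS c.f) {Q : ℕ} (hQ : 1 ≤ Q)
    {π : X → ZMod Q} (hπ : c.Lev Q π) {x : X} (hx : x ∈ c.X1) :
    ∃ (s : ℕ) (e : ℕ → X), c.Star Q π (π x) s e ∧ ∀ i, e i ∈ c.Bk Q x → e i ∈ c.γ x := by
  obtain ⟨k, hk, hkx⟩ := c.reach_mul hπ hx hx rfl (c.f^[Q] x)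
  let p : ℕ → X := fun t => c.f^[Q * t] x
  have hp1 : ∀ t, p t ∈ c.X1 := fun t => c.iter_mem hx _
  have hpπ : ∀ t, π (p t) = π x := by
    intro t
    show π (c.f^[Q * t] x) = π x
    rw [c.Lev_iter hπ hx]
    simp
  have hp0 : p 0 = x := by
    show c.f^[Q * 0] x = x
    simp
  have hlt : ∀ a b, a < b → p b ∉ c.γ (p a) := by
    intro a b hab
    have e1 : p b = c.f^[Q * (b - a)] (p a) := by
      show c.f^[Q * b] x = c.f^[Q * (b - a)] (c.f^[Q * a] x)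
      rw [← iterate_add_apply, ← Nat.mul_add, Nat.sub_add_cancel hab.le]
    rw [e1]
    exact c.aper _ (hp1 a) _ (Nat.mul_pos hQ (by omega))
  have hinj : ∀ a b, p b ∈ c.γ (p a) → a = b := by
    intro a b h
    rcases lt_trichotomy a b with h1 | h1 | h1
    · exact absurd h (hlt a b h1)
    · exact h1
    · exact absurd h (c.notMem_symm (hp1 b) (hp1 a) (hlt b a h1))
  have htr : ∀ a b, p a ∈ c.Bk Q (p b) → c.Bk Q (p a) ⊆ c.Bk Q (p b) := fun a b h =>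
    c.Bk_trans hno hQ hπ (hp1 a) (hp1 b) ((hpπ a).trans (hpπ b).symm) h
  have hmax : ∀ a : Fin k, ∃ b : Fin k, p a ∈ c.Bk Q (p b) ∧
      ∀ d : Fin k, p b ∈ c.Bk Q (p d) → b = d := by
    intro a
    obtain ⟨b, h1, h2⟩ := cc3_max (fun a b : Fin k => p a ∈ c.Bk Q (p b))
      (fun a => c.self_mem_Fc (hp1 a) _) (fun a b d h h' => htr b d h' h) a
    refine ⟨b, h1, fun d hd => Fin.ext (hinj _ _ ?_)⟩
    exact c.no_back hno hQ hπ (hp1 b) (hp1 d) ((hpπ b).trans (hpπ d).symm) (h2 d hd) hd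
  have hφ : ∀ a : Fin k, ∃ b : Fin k, c.f^[Q] (p a) ∈ c.Bk Q (p b) ∧
      ∀ d : Fin k, p b ∈ c.Bk Q (p d) → b = d := by
    intro a
    have e1 : c.f^[Q] (p a) = p (a + 1) := c.iter_succ_mul Q a x
    rw [e1]
    by_cases h : (a : ℕ) + 1 < k
    · exact hmax ⟨a + 1, h⟩
    · have e2 : (a : ℕ) + 1 = k := by have := a.2; omega
      obtain ⟨b, h1, h2⟩ := hmax ⟨0, hk⟩
      refine ⟨b, htr 0 b h1 ?_, h2⟩
      rw [e2, hp0]
      exact hkx
  choose φ hφ1 hφ2 using hφ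
  obtain ⟨a, ha⟩ := cc3_per φ ⟨0, hk⟩
  have hs : 0 < minimalPeriod φ a := minimalPeriod_pos_of_mem_periodicPts ha
  have hper : ∀ i, φ^[i + minimalPeriod φ a] a = φ^[i] a := fun i =>
    iterate_add_minimalPeriod_eq
  have hm : ∀ i, ∀ d : Fin k, p (φ^[i] a) ∈ c.Bk Q (p d) → φ^[i] a = d := by
    intro i
    have e1 : φ^[i] a = φ (φ^[i + minimalPeriod φ a - 1] a) := by
      rw [← hper i, ← iterate_succ_apply' φ]
      congr 1
      omega
    rw [e1]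
    exact hφ2 _
  refine ⟨minimalPeriod φ a, fun i => p (φ^[i] a), ⟨?_, ?_, ?_, ?_, ?_⟩, ?_⟩
  · by_contra h
    have h1 : minimalPeriod φ a = 1 := by omega
    have h2 : φ a = a := minimalPeriod_eq_one_iff_isFixedPt.1 h1
    have h3 := hφ1 a
    rw [h2] at h3
    exact c.not_mem_Bk hQ (hp1 a) h3
  · intro i
    show p (φ^[i + minimalPeriod φ a] a) = p (φ^[i] a)
    rw [hper]
  · exact fun i => ⟨hp1 _, hpπ _⟩
  · intro i
    show c.f^[Q] (p (φ^[i] a)) ∈ c.Bk Q (p (φ^[i + 1] a))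
    rw [iterate_succ_apply']
    exact hφ1 _
  · intro i j hij h
    have h1 : φ^[j] a = φ^[i] a := hm j _ h
    rw [← iterate_mod_minimalPeriod_eq (n := j), ← iterate_mod_minimalPeriod_eq (n := i)] at h1
    exact hij ((iterate_eq_iterate_iff_of_lt_minimalPeriod (Nat.mod_lt _ hs)
      (Nat.mod_lt _ hs)).1 h1).symm
  · intro i h
    have h1 : φ^[i] a = ⟨0, hk⟩ := hm i ⟨0, hk⟩ (by rw [hp0]; exact h)
    show p (φ^[i] a) ∈ c.γ x
    rw [h1, hp0]
    exact c.mem x hx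


end Chords

end Pool.Agent.Lib.MP_3fe454_an.PD
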