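import Pool.Agent.Lib.MP_3fe454_an.PD.CC3

/-!
Stars: rotation, no phase violation, the phase function.
-/

set_option autoImplicit false

open Set Metric Filter Topology MeasureTheory Function
open scoped ComplexConjugate ENNReal

namespace Pool.Agent.Lib.MP_3fe454_an.PD

namespace Chords

variable {X : Type} [TopologicalSpace X] [T2Space X] (c : Chords X)


omit [T2Space X] in
private theorem cc4_tr {A B C D E F : Set X} {n m : ℕ} (h : Cov c.f A B C D n univ)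
    (h' : Cov c.f C D E F m univ) : Cov c.f A B E F (n + m) univ :=
  (h.trans h' subset_rfl subset_rfl).mono subset_rfl subset_rfl (subset_univ _)

omit [T2Space X] in
private theorem cc4_notγ {Q : ℕ} {x y : X} (hx : x ∈ c.X1) (hy : y ∉ c.Bk Q x) : y ∉ c.γ x :=
  fun h => hy (c.γ_sub_Fc hx _ h)

theorem star_disj [PreconnectedSpace X] {Q : ℕ} {π : X → ZMod Q} {i0 : ZMod Q} {s : ℕ}
    {e : ℕ → X} (hs : c.Star Q π i0 s e) {i j : ℕ} (hij : ¬ i ≡ j [MOD s]) :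
    Disjoint (c.Bk Q (e i)) (c.Bk Q (e j)) := by
  obtain ⟨-, -, h1, -, h2⟩ := hs
  have a := h2 i j hij
  have b := h2 j i fun h => hij h.symm
  rw [← c.Fc_eq_Bk (h1 i).1 a, ← c.Fc_eq_Bk (h1 j).1 b]
  exact c.Fc_disj (h1 i).1 (h1 j).1 (c.cc4_notγ (h1 i).1 a)

theorem star_mod {Q : ℕ} {π : X → ZMod Q} {i0 : ZMod Q} {s : ℕ} {e : ℕ → X}
    (hs : c.Star Q π i0 s e) {i j : ℕ} (hij : i ≡ j [MOD s]) : e i = e j := by
  have hp : Function.Periodic e s := hs.2.1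
  rw [← hp.map_mod_nat i, ← hp.map_mod_nat j, hij]

/-- clipping onto two members of the star -/
private theorem cc4_clip [PreconnectedSpace X] {Q : ℕ} {π : X → ZMod Q} {i0 : ZMod Q} {s : ℕ}
    {e : ℕ → X} (hs : c.Star Q π i0 s e) {i j : ℕ} (hij : ¬ i ≡ j [MOD s]) {a b : X}
    (ha : a ∈ c.X1) (hb : b ∈ c.X1) (h1 : a ∈ c.Bk Q (e i)) (h2 : b ∈ c.Bk Q (e j)) :
    Cov c.f (c.γ a) (c.γ b) (c.γ (e i)) (c.γ (e j)) 0 univ := by
  obtain ⟨-, -, h3, -, h4⟩ := hs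
  have p := h4 i j hij
  have q := h4 j i fun h => hij h.symm
  refine c.cov_clip' (h3 i).1 (h3 j).1 ha hb (c.cc4_notγ (h3 i).1 p) ?_ ?_
  · rwa [c.Fc_eq_Bk (h3 i).1 p]
  · rwa [c.Fc_eq_Bk (h3 j).1 q]

theorem star_rot [PreconnectedSpace X] {Q : ℕ} {π : X → ZMod Q} {i0 : ZMod Q} {s : ℕ}
    {e : ℕ → X} (hs : c.Star Q π i0 s e) {i j : ℕ} (hij : ¬ i ≡ j [MOD s]) (k : ℕ) :
    Cov c.f (c.γ (e i)) (c.γ (e j)) (c.γ (e (i + k))) (c.γ (e (j + k))) (Q * k) univ := by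
  have h1 := fun i => (hs.2.2.1 i).1
  induction k with
  | zero => exact c.cov_push (h1 i) (h1 j) 0
  | succ k ih =>
    have hk : ¬ i + (k + 1) ≡ j + (k + 1) [MOD s] := fun h => hij (Nat.ModEq.add_right_cancel' _ h)
    have := c.cc4_tr (c.cc4_tr ih (c.cov_push (h1 _) (h1 _) Q))
      (c.cc4_clip hs hk (c.iter_mem (h1 _) Q) (c.iter_mem (h1 _) Q) (hs.2.2.2.1 (i + k))
        (hs.2.2.2.1 (j + k)))
    exact this

/-- rotating back to the start -/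
private theorem cc4_back [PreconnectedSpace X] {Q : ℕ} (hQ : 1 ≤ Q) {π : X → ZMod Q}
    {i0 : ZMod Q} {s : ℕ} {e : ℕ → X} (hs : c.Star Q π i0 s e) {i j : ℕ}
    (hij : ¬ i ≡ j [MOD s]) (t : ℕ) : ∃ n, 1 ≤ n ∧
      Cov c.f (c.γ (e (i + t))) (c.γ (e (j + t))) (c.γ (e i)) (c.γ (e j)) n univ := by
  have h2 := hs.1
  obtain ⟨k, hk⟩ : ∃ k, s * (t + 1) = t + (k + 1) := ⟨s * (t + 1) - t - 1, by
    have : 2 * (t + 1) ≤ s * (t + 1) := Nat.mul_le_mul_right _ h2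
    omega⟩
  have hm : ∀ a, a + t + (k + 1) ≡ a [MOD s] := fun a => by
    rw [add_assoc, ← hk]
    exact Nat.add_mul_mod_self_left a s (t + 1)
  have h := c.star_rot hs (i := i + t) (j := j + t)
    (fun h => hij (Nat.ModEq.add_right_cancel' _ h)) (k + 1)
  rw [c.star_mod hs (hm i), c.star_mod hs (hm j)] at h
  exact ⟨_, Nat.mul_pos hQ (Nat.succ_pos k), h⟩

theorem star_phase [PreconnectedSpace X] (hno : ¬ HS c.f) {Q : ℕ} (hQ : 1 ≤ Q)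
    {π : X → ZMod Q} {i0 : ZMod Q} {s : ℕ} {e : ℕ → X} (hs : c.Star Q π i0 s e) (m b l : ℕ)
    (h : c.f^[Q * m] (e b) ∈ c.Bk Q (e l)) : l ≡ b + m [MOD s] := by
  classical
  have h1 := fun i => (hs.2.2.1 i).1
  induction m using Nat.strong_induction_on generalizing b l with
  | _ m ih =>
  by_contra hl
  obtain ⟨a, ha⟩ : ∃ a, a + m ≡ l [MOD s] := ⟨l + (s - 1) * m, by
    obtain ⟨s', rfl⟩ : ∃ s', s = s' + 1 := ⟨s - 1, by have := hs.1; omega⟩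
    rw [Nat.add_sub_cancel, add_assoc, ← add_one_mul]
    exact Nat.add_mul_mod_self_left l (s' + 1) m⟩
  have hab : ¬ a ≡ b [MOD s] := fun h' => hl (ha.symm.trans (h'.add_right m))
  have hab' : ∀ t, ¬ a + t ≡ b + t [MOD s] := fun t h' => hab (Nat.ModEq.add_right_cancel' _ h')
  have hw := fun t => c.iter_mem (h1 b) (Q * t)
  have path : ∀ t, t < m → Cov c.f (c.γ (e b)) (c.γ (e a)) (c.γ (c.f^[Q * t] (e b)))
      (c.γ (e (a + t))) (Q * t) univ := fun t ht =>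
    c.wait Q (h1 b) (fun t => e (a + t)) (fun t => c.Bk Q (e (a + t))) (fun _ => h1 _)
      (fun _ => ⟨_, rfl⟩) (fun t => hs.2.2.2.1 (a + t)) (Nat.zero_le t)
      fun t' _ h2 h3 => hab' t' (ih t' (h2.trans_lt ht) b _ h3)
  obtain ⟨i, him, hi, hi'⟩ : ∃ i, i < m ∧ c.f^[Q * i] (e b) ∈ c.Bk Q (e (b + i)) ∧
      ∀ t, i < t → t ≤ m → c.f^[Q * t] (e b) ∉ c.Bk Q (e (b + t)) := by
    let P : ℕ → Prop := fun t => c.f^[Q * t] (e b) ∈ c.Bk Q (e (b + t))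
    have p0 : P 0 := c.γ_sub_Fc (h1 _) _ (c.mem _ (h1 _))
    have p1 : P (Nat.findGreatest P m) := Nat.findGreatest_spec (Nat.zero_le m) p0
    refine ⟨Nat.findGreatest P m, (Nat.findGreatest_le m).lt_of_ne fun h' => ?_, p1,
      fun t h2 h3 => Nat.findGreatest_is_greatest h2 h3⟩
    rw [h'] at p1
    exact Set.disjoint_left.1 (c.star_disj hs hl) h p1
  have hγ : c.f^[Q * i] (e b) ∉ c.γ (e (b + i)) := fun h' => by
    refine hi' (i + 1) (Nat.lt_succ_self i) him ?_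
    rw [mul_add_one, add_comm (Q * i), iterate_add_apply]
    exact c.chord_sub_Fc (h1 _) (c.iter_mem (h1 _) Q) (hs.2.2.2.1 (b + i))
      (c.iter_img (h1 _) h' Q)
  have hout := hs.2.2.2.2 (b + i) (a + i) fun h' => hab' i h'.symm
  refine hno (c.hs_of_sep (hw i) (h1 (b + i)) (h1 (a + i))
    ⟨hγ, c.cc4_notγ (h1 _) hout, (c.Fc_opp (h1 _) hi hγ _).2 (Or.inl hout)⟩ ?_ ?_)
  · obtain ⟨n, hn, p3⟩ := c.cc4_back hQ hs hab m
    have p1 := c.wait Q (h1 b) (fun t => e (b + t)) (fun t => c.Bk Q (e (b + t))) (fun _ => h1 _)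
      (fun _ => ⟨_, rfl⟩) (fun t => hs.2.2.2.1 (b + t)) him.le hi'
    have p2 := c.cc4_clip hs (hab' m) (hw m) (h1 (b + m)) (c.star_mod hs ha ▸ h)
      (c.γ_sub_Fc (h1 _) _ (c.mem _ (h1 _)))
    exact ⟨_, by omega, Or.inr (c.cc4_tr (c.cc4_tr (c.cc4_tr p1 p2) p3) (path i him).swap)⟩
  · obtain ⟨n, hn, p3⟩ := c.cc4_back hQ hs (fun h' => hab h'.symm) i
    exact ⟨_, by omega, Or.inl (c.cc4_tr p3 (path i him))⟩

/-- witnesses for the phase -/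
private def cc4W {Q : ℕ} (π : X → ZMod Q) (i0 : ZMod Q) (e : ℕ → X) (x : X) (n j : ℕ) : Prop :=
  π (c.f^[n] x) = i0 ∧ c.f^[n] x ∈ c.Bk Q (e j) ∧ c.f^[n] x ∉ c.γ (e j)

omit [T2Space X] in
private theorem cc4_open {Q : ℕ} {π : X → ZMod Q} (hπ : c.Lev Q π) {i0 : ZMod Q} {s : ℕ}
    {e : ℕ → X} (hs : c.Star Q π i0 s e) {x : X} (hx : x ∈ c.X1) {n j : ℕ}
    (h : c.cc4W π i0 e x n j) :
    ∃ V, IsOpen V ∧ x ∈ V ∧ ∀ y ∈ V ∩ c.X1, c.cc4W π i0 e y n j := by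
  have h1 := (hs.2.2.1 j).1
  obtain ⟨V, hV, hxV, hc⟩ := hπ.2.1 _ (c.iter_mem hx n)
  refine ⟨c.f^[n] ⁻¹' (V ∩ (c.Fc (e j) (c.f^[n] x))ᶜ),
    (hV.inter (c.Fc_closed h1 _).isOpen_compl).preimage (c.cf.iterate n),
    ⟨hxV, c.not_mem_Fc h1 h.2.2⟩, fun y hy => ?_⟩
  have h2 : ¬ _ := fun h' => hy.1.2 ((c.Fc_opp h1 h.2.1 h.2.2 (c.f^[n] y)).2 h')
  rw [not_or, not_not] at h2
  exact ⟨(hc _ ⟨hy.1.1, c.iter_mem hy.2 n⟩).trans h.1, h2⟩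

omit [T2Space X] in
private theorem cc4_ex {Q : ℕ} {π : X → ZMod Q} (hπ : c.Lev Q π) {i0 : ZMod Q} {s : ℕ}
    {e : ℕ → X} (hs : c.Star Q π i0 s e) {x : X} (hx : x ∈ c.X1) :
    ∃ n j, c.cc4W π i0 e x (n + 1) j := by
  obtain ⟨h1, h2⟩ := hs.2.2.1 0
  obtain ⟨V, hV, hxV, hc⟩ := hπ.2.1 _ h1
  obtain ⟨n, hn, h3, h4, h5⟩ := c.reach_far hx h1 (c.f^[Q] (e 0)) hV hxV 1
  obtain ⟨n, rfl⟩ : ∃ n', n = n' + 1 := ⟨n - 1, by omega⟩
  exact ⟨n, 0, (hc _ ⟨h3, c.iter_mem hx _⟩).trans h2, h4, h5⟩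

omit [T2Space X] in
private theorem cc4_dvd {Q : ℕ} {π : X → ZMod Q} (hπ : c.Lev Q π) {x : X} (hx : x ∈ c.X1) {n : ℕ}
    (h : π (c.f^[n] x) = π x) : ∃ k, n = Q * k := by
  rw [c.Lev_iter hπ hx, add_eq_left] at h
  exact (ZMod.natCast_eq_zero_iff _ _).1 h

private theorem cc4_cast {Q s l j : ℕ} (h : l ≡ j [MOD s]) :
    ((l * Q : ℕ) : ZMod (Q * s)) = ((j * Q : ℕ) : ZMod (Q * s)) := by
  rw [ZMod.natCast_eq_natCast_iff, mul_comm Q s]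
  exact h.mul_right' Q

private theorem cc4_key [PreconnectedSpace X] (hno : ¬ HS c.f) {Q : ℕ} (hQ : 1 ≤ Q)
    {π : X → ZMod Q} (hπ : c.Lev Q π) {i0 : ZMod Q} {s : ℕ} {e : ℕ → X}
    (hs : c.Star Q π i0 s e) {x : X} (hx : x ∈ c.X1) {n d j j' : ℕ}
    (h : c.cc4W π i0 e x n j) (h' : c.cc4W π i0 e x (d + n) j') :
    ((j * Q : ℕ) : ZMod (Q * s)) - n =
      ((j' * Q : ℕ) : ZMod (Q * s)) - ((d + n : ℕ) : ZMod (Q * s)) := by
  obtain ⟨h1, h2⟩ := hs.2.2.1 0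
  have hy := c.iter_mem hx n
  obtain ⟨V, hV, hyV, hc⟩ := c.cc4_open hπ hs hy (n := 0) (j := j) h
  obtain ⟨V', hV', hyV', hc'⟩ := c.cc4_open hπ hs hy (n := d) (j := j')
    (by simpa only [cc4W, iterate_add_apply] using h')
  obtain ⟨m, -, h3, -⟩ := c.reach_near h1 hy x (hV.inter hV') ⟨hyV, hyV'⟩ 0
  have hz := c.iter_mem h1 m
  obtain ⟨a1, a2, -⟩ := hc _ ⟨h3.1, hz⟩
  obtain ⟨b1, b2, -⟩ := hc' _ ⟨h3.2, hz⟩
  obtain ⟨m1, rfl⟩ := c.cc4_dvd hπ h1 (n := m) (a1.trans h2.symm)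
  obtain ⟨d1, rfl⟩ := c.cc4_dvd hπ hz (n := d) (b1.trans a1.symm)
  rw [← iterate_add_apply, ← mul_add] at b2
  rw [cc4_cast (c.star_phase hno hQ hs _ _ _ a2), cc4_cast (c.star_phase hno hQ hs _ _ _ b2)]
  push_cast
  ring

theorem phase_exists [PreconnectedSpace X] (hno : ¬ HS c.f) {Q : ℕ} (hQ : 1 ≤ Q)
    {π : X → ZMod Q} (hπ : c.Lev Q π) {i0 : ZMod Q} {s : ℕ} {e : ℕ → X}
    (hs : c.Star Q π i0 s e) :
    ∃ π' : X → ZMod (Q * s), c.Lev (Q * s) π' ∧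
      ∀ x ∈ c.X1, ∀ j : ℕ, π x = i0 → x ∈ c.Bk Q (e j) → π' x = ((j * Q : ℕ) : ZMod (Q * s)) := by
  have key : ∀ x, ∃ p : ZMod (Q * s), x ∈ c.X1 → ∀ n j, c.cc4W π i0 e x n j →
      p = ((j * Q : ℕ) : ZMod (Q * s)) - n := fun x => by
    by_cases hx : x ∈ c.X1
    · obtain ⟨n, j, h⟩ := c.cc4_ex hπ hs hx
      refine ⟨((j * Q : ℕ) : ZMod (Q * s)) - ((n + 1 : ℕ) : ZMod (Q * s)), fun _ n' j' h' => ?_⟩
      rcases le_total (n + 1) n' with h1 | h1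
      · obtain ⟨d, rfl⟩ := Nat.exists_eq_add_of_le' h1
        exact c.cc4_key hno hQ hπ hs hx h h'
      · obtain ⟨d, hd⟩ := Nat.exists_eq_add_of_le' h1
        rw [hd] at h ⊢
        exact (c.cc4_key hno hQ hπ hs hx h' h).symm
    · exact ⟨0, fun h => absurd h hx⟩
  choose π' hπ' using key
  have h3 : ∀ x ∈ c.X1, ∀ y ∈ c.X1, y ∈ c.γ x → π' y = π' x := fun x hx y hy hyx => by
    obtain ⟨n, j, h⟩ := c.cc4_ex hπ hs hx
    have h1 := (hs.2.2.1 j).1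
    have h2 := c.iter_img hx hyx (n + 1)
    have hx' := c.iter_mem hx (n + 1)
    rw [hπ' x hx _ _ h, hπ' y hy (n + 1) j ⟨(hπ.2.2 _ hx' _ (c.iter_mem hy _) h2).trans h.1,
      c.chord_sub_Fc h1 hx' h.2.1 h2, Set.disjoint_right.1 (c.γ_disj h1 hx' h.2.2) h2⟩]
  refine ⟨π', ⟨fun x hx => ?_, fun x hx => ?_, h3⟩, fun x hx j h1 h2 => ?_⟩
  · obtain ⟨n, j, h⟩ := c.cc4_ex hπ hs hx
    rw [hπ' x hx _ _ h, hπ' _ (c.fwd x hx) n j h]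
    push_cast
    ring
  · obtain ⟨n, j, h⟩ := c.cc4_ex hπ hs hx
    obtain ⟨V, hV, hxV, hc⟩ := c.cc4_open hπ hs hx h
    exact ⟨V, hV, hxV, fun y hy => by rw [hπ' x hx _ _ h, hπ' y hy.2 _ _ (hc y hy)]⟩
  · by_cases h4 : x ∈ c.γ (e j)
    · obtain ⟨h5, h6⟩ := hs.2.2.1 j
      obtain ⟨n, l, h⟩ := c.cc4_ex hπ hs h5
      rw [h3 _ h5 x hx h4, hπ' _ h5 _ _ h]
      obtain ⟨n1, hn⟩ := c.cc4_dvd hπ h5 (h.1.trans h6.symm)
      rw [hn] at h ⊢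
      rw [cc4_cast (c.star_phase hno hQ hs _ _ _ h.2.1)]
      push_cast
      ring
    · rw [hπ' x hx 0 j ⟨h1, h2, h4⟩, Nat.cast_zero, sub_zero]


end Chords

end Pool.Agent.Lib.MP_3fe454_an.PD
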