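import Pool.Agent.Lib.MP_3fe454_an.PD.CC4

/-!
Convexity of the cells defined by a star.
-/

set_option autoImplicit false

open Set Metric Filter Topology MeasureTheory Function
open scoped ComplexConjugate ENNReal

namespace Pool.Agent.Lib.MP_3fe454_an.PD

namespace Chords

variable {X : Type} [TopologicalSpace X] [T2Space X] (c : Chords X)

/-- a path of length at least `k` between ordered pairs -/
private def CP (k : ℕ) (a b u w : X) : Prop :=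
  ∃ n : ℕ, k ≤ n ∧ Cov c.f (c.γ a) (c.γ b) (c.γ u) (c.γ w) n univ

omit [T2Space X] in
private theorem cp_of {n : ℕ} {a b u w : X}
    (h : Cov c.f (c.γ a) (c.γ b) (c.γ u) (c.γ w) n univ) : c.CP 0 a b u w := ⟨n, Nat.zero_le _, h⟩

omit [T2Space X] in
private theorem cp_trans {k l : ℕ} {a b u w u' w' : X} (h : c.CP k a b u w)
    (h' : c.CP l u w u' w') : c.CP (k + l) a b u' w' := by
  obtain ⟨n, h1, h2⟩ := h
  obtain ⟨m, h3, h4⟩ := h'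
  exact ⟨n + m, add_le_add h1 h3,
    (h2.trans h4 Subset.rfl Subset.rfl).mono Subset.rfl Subset.rfl (subset_univ _)⟩

omit [T2Space X] in
private theorem bk_self {Q : ℕ} {x : X} (hx : x ∈ c.X1) : x ∈ c.Bk Q x :=
  c.γ_sub_Fc hx _ (c.mem x hx)

private theorem ne_add {s a : ℕ} (ha : ¬ 0 ≡ a [MOD s]) (t : ℕ) : ¬ t ≡ a + t [MOD s] :=
  fun h => ha (Nat.ModEq.add_right_cancel' t (by rwa [zero_add]))

private theorem cp_rot [PreconnectedSpace X] {Q : ℕ} (hQ : 1 ≤ Q) {π : X → ZMod Q} {i0 : ZMod Q}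
    {s : ℕ} {e : ℕ → X} (hs : c.Star Q π i0 s e) {a : ℕ} (ha : ¬ 0 ≡ a [MOD s]) (t : ℕ) :
    c.CP 1 (e t) (e (a + t)) (e 0) (e a) := by
  have h1 : t + 1 ≤ s * (t + 1) := Nat.le_mul_of_pos_left _ (by have := hs.1; omega)
  obtain ⟨k, hk⟩ : ∃ k, s * (t + 1) = t + (k + 1) := ⟨s * (t + 1) - (t + 1), by omega⟩
  have h2 : t + (k + 1) ≡ 0 [MOD s] := hk ▸ (Nat.modEq_zero_iff_dvd.2 (dvd_mul_right _ _))
  have h3 := c.star_rot hs (ne_add ha t) (k + 1)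
  rw [c.star_mod hs h2, add_assoc, c.star_mod hs (h2.add_left a)] at h3
  exact ⟨_, Nat.mul_pos hQ (Nat.succ_pos _), h3⟩

section phase

variable {Q : ℕ} (hQ : 1 ≤ Q) {π : X → ZMod Q} (hπ : c.Lev Q π)
  {i0 : ZMod Q} {s : ℕ} {e : ℕ → X} (hs : c.Star Q π i0 s e) {π' : X → ZMod (Q * s)}
  (hπ' : c.Lev (Q * s) π')
  (hph : ∀ x ∈ c.X1, ∀ j : ℕ, π x = i0 → x ∈ c.Bk Q (e j) → π' x = ((j * Q : ℕ) : ZMod (Q * s)))

omit [T2Space X]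

include hs hph in
private theorem ph_e (j : ℕ) : π' (e j) = ((j * Q : ℕ) : ZMod (Q * s)) :=
  hph _ (hs.2.2.1 j).1 j (hs.2.2.1 j).2 (c.bk_self (hs.2.2.1 j).1)

include hQ hπ hs hπ' hph in
private theorem ph_mod {z : X} (hz : z ∈ c.X1) {k : ℕ} (hk : π' z = ((k * Q : ℕ) : ZMod (Q * s)))
    (t j : ℕ) (h : c.f^[Q * t] z ∈ c.Bk Q (e j)) : j ≡ k + t [MOD s] := by
  have h0 := c.iter_mem hz (Q * t)
  have h1 : π' (c.f^[Q * t] z) = (((k + t) * Q : ℕ) : ZMod (Q * s)) := by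
    rw [c.Lev_iter hπ' hz, hk, ← Nat.cast_add, add_mul, mul_comm Q t]
  have h2 := c.Lev_refine hπ hπ' (dvd_mul_right _ _) h0 (hs.2.2.1 (k + t)).1
    (h1.trans (c.ph_e hs hph _).symm)
  have h3 := (hph _ h0 j (h2.trans (hs.2.2.1 _).2) h).symm.trans h1
  rw [ZMod.natCast_eq_natCast_iff, mul_comm j, mul_comm (k + t)] at h3
  exact Nat.ModEq.mul_left_cancel' (by omega) h3

include hQ hπ hs hπ' hph in
private theorem ph_reach {z : X} (hz : z ∈ c.X1) {k : ℕ}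
    (hk : π' z = ((k * Q : ℕ) : ZMod (Q * s))) (N : ℕ) :
    ∃ T, N ≤ T ∧ c.f^[Q * T] z ∈ c.Bk Q (e 0) := by
  obtain ⟨V, v1, v2, v3⟩ := hπ.2.1 _ (hs.2.2.1 0).1
  obtain ⟨n, n1, n2, n3, -⟩ := c.reach_far hz (hs.2.2.1 0).1 (c.f^[Q] (e 0)) v1 v2 (Q * N)
  have h1 := v3 _ ⟨n2, c.iter_mem hz n⟩
  have h2 := c.Lev_refine hπ hπ' (dvd_mul_right _ _) hz (hs.2.2.1 k).1
    (hk.trans (c.ph_e hs hph _).symm)
  rw [c.Lev_iter hπ hz, h2, (hs.2.2.1 k).2, (hs.2.2.1 0).2, add_eq_left,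
    ZMod.natCast_eq_zero_iff] at h1
  obtain ⟨T, rfl⟩ := h1
  exact ⟨T, Nat.le_of_mul_le_mul_left n1 hQ, n3⟩

end phase

theorem to_star [PreconnectedSpace X] {Q : ℕ} (hQ : 1 ≤ Q) {π : X → ZMod Q} (hπ : c.Lev Q π)
    {i0 : ZMod Q} {s : ℕ} {e : ℕ → X} (hs : c.Star Q π i0 s e) {π' : X → ZMod (Q * s)}
    (hπ' : c.Lev (Q * s) π')
    (hph : ∀ x ∈ c.X1, ∀ j : ℕ, π x = i0 → x ∈ c.Bk Q (e j) →
      π' x = ((j * Q : ℕ) : ZMod (Q * s)))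
    {x y : X} (hx : x ∈ c.X1) (hy : y ∈ c.X1) (i a : ℕ)
    (hyp : π' y = ((i : ℕ) : ZMod (Q * s))) (hxp : π' x = ((a * Q + i : ℕ) : ZMod (Q * s)))
    (ha : ¬ 0 ≡ a [MOD s]) :
    ∃ n : ℕ, 1 ≤ n ∧ Cov c.f (c.γ y) (c.γ x) (c.γ (e 0)) (c.γ (e a)) n univ := by
  have he := fun j => (hs.2.2.1 j).1
  have h1 : i + 1 ≤ Q * s * (i + 1) :=
    Nat.le_mul_of_pos_left _ (Nat.mul_pos hQ (by have := hs.1; omega))
  obtain ⟨n, hn⟩ : ∃ n, Q * s * (i + 1) = i + n := ⟨Q * s * (i + 1) - i, by omega⟩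
  have h2 : (i : ZMod (Q * s)) + n = 0 := by
    rw [← Nat.cast_add, ← hn, Nat.cast_mul (Q * s), ZMod.natCast_self, zero_mul]
  have y1 := c.iter_mem hy n
  have x1 := c.iter_mem hx n
  have py : π' (c.f^[n] y) = ((0 * Q : ℕ) : ZMod (Q * s)) := by
    rw [c.Lev_iter hπ' hy, hyp, h2, zero_mul, Nat.cast_zero]
  have px : π' (c.f^[n] x) = ((a * Q : ℕ) : ZMod (Q * s)) := by
    rw [c.Lev_iter hπ' hx, hxp, Nat.cast_add, add_assoc, h2, add_zero]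
  obtain ⟨t, -, t1⟩ := c.ph_reach hQ hπ hs hπ' hph y1 py 0
  obtain ⟨T, T0, T1⟩ := c.ph_reach hQ hπ hs hπ' hph x1 px t
  have t2 := c.ph_mod hQ hπ hs hπ' hph y1 py t 0 t1
  rw [c.star_mod hs (c.ph_mod hQ hπ hs hπ' hph x1 px T 0 T1)] at T1
  rw [c.star_mod hs t2, zero_add] at t1
  have out : ∀ t', c.f^[Q * t'] (c.f^[n] x) ∉ c.Bk Q (e t') := fun t' h =>
    ne_add ha t' (c.ph_mod hQ hπ hs hπ' hph x1 px t' t' h)
  have x2 := c.iter_mem x1 (Q * t)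
  have p1 := c.cp_of (c.cov_push hy hx n)
  have p2 := c.cp_of (c.cov_push y1 x1 (Q * t))
  have p3 := c.cp_of (c.cov_clip' (he t) x2 (c.iter_mem y1 (Q * t)) x2
    (fun h => out t (c.γ_sub_Fc (he t) _ h)) (c.Fc_eq_Bk (he t) (out t) ▸ t1)
    (c.γ_sub_Fc x2 _ (c.mem _ x2)))
  have p4 := c.cp_of (c.wait Q x1 e (fun t => c.Bk Q (e t)) he (fun t => ⟨_, rfl⟩) hs.2.2.2.1 T0
    fun t' _ _ => out t').swap
  have p5 := c.cp_of (c.cov_clip' (he T) (he (a + T)) (he T) (c.iter_mem x1 (Q * T))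
    (fun h => hs.2.2.2.2 _ _ (ne_add ha T) (c.γ_sub_Fc (he T) _ h))
    (c.γ_sub_Fc (he T) _ (c.mem _ (he T)))
    (c.Fc_eq_Bk (he _) (hs.2.2.2.2 _ _ fun h => ne_add ha T h.symm) ▸ T1))
  exact c.cp_trans (c.cp_trans (c.cp_trans (c.cp_trans (c.cp_trans p1 p2) p3) p4) p5)
    (c.cp_rot hQ hs ha T)

private theorem cvx_claim [PreconnectedSpace X] (hno : ¬ HS c.f) {Q : ℕ} (hQ : 1 ≤ Q)
    {π : X → ZMod Q} (hπ : c.Lev Q π) {i0 : ZMod Q} {s : ℕ} {e : ℕ → X}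
    (hs : c.Star Q π i0 s e) {π' : X → ZMod (Q * s)} (hπ' : c.Lev (Q * s) π')
    (hph : ∀ x ∈ c.X1, ∀ j : ℕ, π x = i0 → x ∈ c.Bk Q (e j) →
      π' x = ((j * Q : ℕ) : ZMod (Q * s)))
    {x y : X} (hx : x ∈ c.X1) (hy : y ∈ c.X1) (i a : ℕ)
    (hyp : π' y = ((i : ℕ) : ZMod (Q * s))) (hxp : π' x = ((a * Q + i : ℕ) : ZMod (Q * s)))
    (ha : ¬ 0 ≡ a [MOD s]) (hyx : y ∉ c.γ x) : c.f^[i] (e 0) ∉ c.Fc x y := by
  classical
  intro hin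
  have he := fun j => (hs.2.2.1 j).1
  have e1 := c.iter_mem (he 0) i
  have hw := fun t => c.iter_mem (he 0) (Q * t)
  obtain ⟨V, v1, v2, v3⟩ := hπ'.2.1 _ hy
  obtain ⟨n, -, n2, n3, -⟩ := c.reach_far e1 hy x v1 v2 0
  have h1 := v3 _ ⟨n2, c.iter_mem e1 n⟩
  rw [c.Lev_iter hπ' e1, c.Lev_iter hπ' (he 0), c.ph_e hs hph, hyp, zero_mul, Nat.cast_zero,
    zero_add, add_eq_left, ZMod.natCast_eq_zero_iff] at h1
  obtain ⟨m, rfl⟩ := h1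
  rw [mul_assoc, ← iterate_add_apply, add_comm, iterate_add_apply] at n3
  have eT : e (s * m) = e 0 := c.star_mod hs (Nat.modEq_zero_iff_dvd.2 (dvd_mul_right _ _))
  generalize s * m = T at n3 eT
  obtain ⟨k, k1, k2, k3⟩ : ∃ k, k ≤ T ∧ c.f^[Q * k] (e 0) ∈ c.Bk Q (e k) ∧
      ∀ t, k < t → t ≤ T → c.f^[Q * t] (e 0) ∉ c.Bk Q (e t) :=
    ⟨Nat.findGreatest (fun t => c.f^[Q * t] (e 0) ∈ c.Bk Q (e t)) T, Nat.findGreatest_le T,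
      Nat.findGreatest_spec (P := fun t => c.f^[Q * t] (e 0) ∈ c.Bk Q (e t)) (Nat.zero_le T)
        (c.bk_self (he 0)),
      fun t h1 h2 => Nat.findGreatest_is_greatest h1 h2⟩
  have u1 : c.f^[Q * k] (e 0) ∉ c.γ (e k) := by
    intro h
    rcases k1.lt_or_eq with hk | rfl
    · refine k3 (k + 1) (Nat.lt_succ_self k) hk ?_
      rw [mul_add, mul_one, add_comm (Q * k), iterate_add_apply]
      exact c.chord_sub_Fc (he _) (c.iter_mem (he k) Q) (hs.2.2.2.1 k) (c.iter_img (he k) h Q)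
    · rw [eT] at h
      exact (c.Fc_disj hx hy hyx).notMem_of_mem_left
        (c.chord_sub_Fc hx e1 hin (c.iter_img (he 0) h i)) n3
  have w1 : e (a + k) ∉ c.Bk Q (e k) := hs.2.2.2.2 _ _ (ne_add ha k)
  have p0 : c.CP 0 (e 0) (e a) (c.f^[Q * k] (e 0)) (e (a + k)) :=
    c.cp_of (c.wait Q (he 0) (fun t => e (a + t)) (fun t => c.Bk Q (e (a + t))) (fun _ => he _)
      (fun t => ⟨_, rfl⟩) (fun t => hs.2.2.2.1 (a + t)) (Nat.zero_le k) fun t _ _ h =>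
        ne_add ha t (by simpa using (c.star_phase hno hQ hs t 0 _ h).symm))
  have p1 := c.cp_of (c.wait Q (he 0) e (fun t => c.Bk Q (e t)) he (fun t => ⟨_, rfl⟩) hs.2.2.2.1
    k1 k3)
  rw [eT] at p1
  have p2 := c.cp_of (c.cov_push (hw T) (he 0) i)
  have p3 := c.cp_of (c.cov_clip' hy hx (c.iter_mem (hw T) i) e1 (c.notMem_symm hx hy hyx) n3 hin)
  have p4 : c.CP 1 y x (e 0) (e a) := c.to_star hQ hπ hs hπ' hph hx hy i a hyp hxp ha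
  obtain ⟨n1, a1, a2⟩ := c.cp_trans (c.cp_trans (c.cp_trans (c.cp_trans p1 p2) p3) p4) p0
  obtain ⟨n2, b1, b2⟩ := c.cp_trans (c.cp_rot hQ hs ha k) p0
  exact hno (c.hs_of_sep (hw k) (he k) (he (a + k))
    ⟨u1, fun h => w1 (c.γ_sub_Fc (he k) _ h), (c.Fc_opp (he k) k2 u1 _).2 (Or.inl w1)⟩
    ⟨n1, a1, Or.inl a2⟩ ⟨n2, b1, Or.inl b2⟩)

theorem cvx_star [PreconnectedSpace X] (hno : ¬ HS c.f) {Q : ℕ} (hQ : 1 ≤ Q)
    {π : X → ZMod Q} (hπ : c.Lev Q π) (hcv : c.Cvx Q π) {i0 : ZMod Q} {s : ℕ} {e : ℕ → X}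
    (hs : c.Star Q π i0 s e) {π' : X → ZMod (Q * s)} (hπ' : c.Lev (Q * s) π')
    (hph : ∀ x ∈ c.X1, ∀ j : ℕ, π x = i0 → x ∈ c.Bk Q (e j) →
      π' x = ((j * Q : ℕ) : ZMod (Q * s))) : c.Cvx (Q * s) π' := by
  intro x hx y hy y' hy' hyy hyx hsep
  by_cases hp : π y = π x
  swap
  · exact hcv x hx y hy y' hy' (c.Lev_refine hπ hπ' (dvd_mul_right _ _) hy hy' hyy) hp hsep
  have : NeZero (Q * s) := ⟨(Nat.mul_pos hQ (by have := hs.1; omega)).ne'⟩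
  have hi : π' y = (((π' y).val : ℕ) : ZMod (Q * s)) := (ZMod.natCast_zmod_val _).symm
  generalize (π' y).val = i at hi
  obtain ⟨V, v1, v2, v3⟩ := hπ.2.1 _ hx
  obtain ⟨V', w1, w2, w3⟩ := hπ'.2.1 _ hx
  obtain ⟨n, -, n2, -⟩ := c.reach_near hy hx x (v1.inter w1) ⟨v2, w2⟩ 0
  have h1 := v3 _ ⟨n2.1, c.iter_mem hy n⟩
  have h2 := w3 _ ⟨n2.2, c.iter_mem hy n⟩
  rw [c.Lev_iter hπ hy, hp, add_eq_left, ZMod.natCast_eq_zero_iff] at h1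
  obtain ⟨a, rfl⟩ := h1
  rw [c.Lev_iter hπ' hy] at h2
  have ha : ¬ 0 ≡ a [MOD s] := fun h => hyx (by
    obtain ⟨b, rfl⟩ := Nat.modEq_zero_iff_dvd.1 h.symm
    rwa [← mul_assoc, Nat.cast_mul (Q * s), ZMod.natCast_self, zero_mul, add_zero] at h2)
  have hxp : π' x = ((a * Q + i : ℕ) : ZMod (Q * s)) := by
    rw [← h2, hi, ← Nat.cast_add, add_comm, mul_comm Q a]
  have c1 := c.Fc_congr hx (c.cvx_claim hno hQ hπ hs hπ' hph hx hy i a hi hxp ha hsep.1)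
  have c2 := c.Fc_congr hx
    (c.cvx_claim hno hQ hπ hs hπ' hph hx hy' i a (hyy ▸ hi) hxp ha hsep.2.1)
  exact c.not_mem_Fc hx hsep.2.1 (c2 ▸ c1.symm ▸ hsep.2.2)

end Chords

end Pool.Agent.Lib.MP_3fe454_an.PD
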