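import Pool.Agent.Lib.MP_3fe454_an.PD.CC5

/-!
The renormalization step through a star of minimal length.
-/

set_option autoImplicit false

open Set Metric Filter Topology MeasureTheory Function
open scoped ComplexConjugate ENNReal

namespace Pool.Agent.Lib.MP_3fe454_an.PD

namespace Chords

variable {X : Type} [TopologicalSpace X] [T2Space X] (c : Chords X)

omit [T2Space X] in
/-- a whole cell lies on one side of a chord from another cell -/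
theorem cell_side {Q : ℕ} {π : X → ZMod Q} (hπ : c.Lev Q π) (hcv : c.Cvx Q π) {u y z v : X}
    (hu : u ∈ c.X1) (hy : y ∈ c.X1) (hz : z ∈ c.X1) (hyz : π y = π z) (hne : π y ≠ π u)
    (h : y ∈ c.Fc u v) : z ∈ c.Fc u v := by
  have h1 : y ∉ c.γ u := fun k => hne (hπ.2.2 u hu y hy k)
  have h2 : z ∉ c.γ u := fun k => hne (hyz.trans (hπ.2.2 u hu z hz k))
  by_contra h3
  exact hcv u hu y hy z hz hyz hne ⟨h1, h2, (c.Fc_opp hu h h1 z).2 (Or.inl h3)⟩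

omit [T2Space X] in
/-- reaching the back of a point with both levels preserved -/
theorem reach_two {Q Q' : ℕ} {π : X → ZMod Q} {π' : X → ZMod Q'} (hπ : c.Lev Q π)
    (hπ' : c.Lev Q' π') {x y : X} (hx : x ∈ c.X1) (hy : y ∈ c.X1) (u : X) :
    ∃ n : ℕ, π (c.f^[n] x) = π y ∧ π' (c.f^[n] x) = π' y ∧ c.f^[n] x ∈ c.Fc y u := by
  obtain ⟨V, hV, h1, h2⟩ := hπ.2.1 y hy
  obtain ⟨V', hV', h1', h2'⟩ := hπ'.2.1 y hy
  obtain ⟨n, -, h3, h4, -⟩ := c.reach_far hx hy u (hV.inter hV') ⟨h1, h1'⟩ 0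
  exact ⟨n, h2 _ ⟨h3.1, c.iter_mem hx n⟩, h2' _ ⟨h3.2, c.iter_mem hx n⟩, h4⟩

omit [T2Space X] in
theorem Lev_dvd {Q : ℕ} {π : X → ZMod Q} (hπ : c.Lev Q π) {x : X} (hx : x ∈ c.X1) (n : ℕ) :
    π (c.f^[n] x) = π x ↔ Q ∣ n := by
  rw [c.Lev_iter hπ hx, add_eq_left, ZMod.natCast_eq_zero_iff]

theorem next_level [PreconnectedSpace X] (hno : ¬ HS c.f) {Q : ℕ} (hQ : 1 ≤ Q)
    {π : X → ZMod Q} (hπ : c.Lev Q π) (hcv : c.Cvx Q π) {x0 : X} (hx0 : x0 ∈ c.X1) :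
    ∃ s : ℕ, 2 ≤ s ∧ ∃ π' : X → ZMod (Q * s), c.Lev (Q * s) π' ∧ c.Cvx (Q * s) π' ∧
      ∀ x ∈ c.X1, ∀ y ∈ c.X1, π x = π x0 → π y = π x0 → π' x ≠ π' y → y ∉ c.Bk Q x := by
  classical
  have hex : ∃ s : ℕ, ∃ e : ℕ → X, c.Star Q π (π x0) s e :=
    (c.star_exists hno hQ hπ hx0).imp fun s h => h.imp fun e h => h.1
  obtain ⟨s, ⟨e, hs⟩, hmin⟩ : ∃ s : ℕ, (∃ e : ℕ → X, c.Star Q π (π x0) s e) ∧
      ∀ s' : ℕ, (∃ e : ℕ → X, c.Star Q π (π x0) s' e) → s ≤ s' :=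
    ⟨Nat.find hex, Nat.find_spec hex, fun _ h => Nat.find_min' hex h⟩
  obtain ⟨π', hπ', hph⟩ := c.phase_exists hno hQ hπ hs
  have hcv' := c.cvx_star hno hQ hπ hcv hs hπ' hph
  refine ⟨s, hs.1, π', hπ', hcv', fun x hx y hy hxi hyi hne hyx => ?_⟩
  obtain ⟨s', e', hs', hback⟩ := c.star_exists hno hQ hπ hx
  rw [hxi] at hs'
  obtain ⟨π'', hπ'', hph'⟩ := c.phase_exists hno hQ hπ hs'
  have he' := hs'.2.2.1
  have key : ∀ z ∈ c.X1, ∀ l : ℕ, π z = π x0 → z ∈ c.Bk Q (e' l) → π' z = π' (e' l) := by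
    intro z hz l hzi hzl
    by_contra hz'
    have h1 : c.f^[Q * s] z ∈ c.Bk Q (e' l) :=
      c.cell_side hπ' hcv' (he' l).1 hz (c.iter_mem hz _)
        ((c.Lev_dvd hπ' hz _).2 dvd_rfl).symm hz' hzl
    have h2 : Q * s' ∣ Q * s := (c.Lev_dvd hπ'' hz _).1 (by
      rw [hph' z hz l hzi hzl, hph' _ (c.iter_mem hz _) l
        (((c.Lev_dvd hπ hz _).2 (dvd_mul_right Q s)).trans hzi) h1])
    have h3 : s' = s := le_antisymm
      (Nat.le_of_dvd (by have := hs.1; omega) (Nat.dvd_of_mul_dvd_mul_left hQ h2))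
      (hmin s' ⟨e', hs'⟩)
    obtain ⟨n, h4, h5, h6⟩ := c.reach_two hπ hπ' hz (he' l).1 (c.f^[Q] (e' l))
    have h7 : Q * s' ∣ n := (c.Lev_dvd hπ'' hz _).1 (by
      rw [hph' z hz l hzi hzl, hph' _ (c.iter_mem hz _) l (h4.trans (he' l).2) h6])
    rw [h3] at h7
    exact hz' (((c.Lev_dvd hπ' hz _).2 h7).symm.trans h5)
  have step : ∀ l : ℕ, π' (e' l) = π' (e' 0) + ((Q * l : ℕ) : ZMod (Q * s)) := by
    intro l
    induction l with
    | zero => rw [mul_zero, Nat.cast_zero, add_zero]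
    | succ l ih =>
      rw [← key _ (c.iter_mem (he' l).1 Q) (l + 1)
        (((c.Lev_dvd hπ (he' l).1 _).2 dvd_rfl).trans (he' l).2) (hs'.2.2.2.1 l),
        c.Lev_iter hπ' (he' l).1, ih, Nat.mul_succ, Nat.cast_add, add_assoc]
  obtain ⟨n, h1, h2, -⟩ := c.reach_two hπ hπ' (he' 0).1 hy y
  obtain ⟨l, rfl⟩ := (c.Lev_dvd hπ (he' 0).1 n).1 (h1.trans (hyi.trans (he' 0).2.symm))
  have h3 : π' y = π' (e' l) := by rw [← h2, c.Lev_iter hπ' (he' 0).1, step l]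
  exact hne (h3.trans (hπ'.2.2 x hx _ (he' l).1
    (hback l (c.cell_side hπ' hcv' hx hy (he' l).1 h3 hne.symm hyx)))).symm

end Chords

end Pool.Agent.Lib.MP_3fe454_an.PD
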