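import Pool.Agent.Lib.MP_3fe454_an.PD.CC1

/-!
Measure of the cells and choice of a good point.
-/

set_option autoImplicit false

open Set Metric Filter Topology MeasureTheory Function
open scoped ComplexConjugate ENNReal

namespace Pool.Agent.Lib.MP_3fe454_an.PD

namespace Chords

variable {X : Type} [TopologicalSpace X] (c : Chords X)


theorem pick [MeasurableSpace X] [OpensMeasurableSpace X] (μ : Measure X)
    [IsProbabilityMeasure μ] (hf : MeasurePreserving c.f μ μ) (hX : ∀ᵐ x ∂μ, x ∈ c.X1)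
    {K : Set X} (hK : MeasurableSet K) {ε : ℝ} (hε : 0 ≤ ε) (hKε : μ Kᶜ ≤ ENNReal.ofReal ε)
    {Q : ℕ} (hQ : 1 ≤ Q) {π : X → ZMod Q} (hπ : c.Lev Q π) (S : Finset (ZMod Q))
    (T : Finset ℕ) (h : (T.card : ℝ) * (ε + (S.card : ℝ) / Q) < 1) :
    ∃ x ∈ c.X1, ∀ n ∈ T, c.f^[n] x ∈ K ∧ π (c.f^[n] x) ∉ S := by
  have : NeZero Q := ⟨by omega⟩
  have hQ' : (0 : ℝ) < Q := by exact_mod_cast hQ
  set V : ZMod Q → Set X := fun i => ⋃₀ {W | IsOpen W ∧ ∀ y ∈ W ∩ c.X1, π y = i} with hV
  have hVo : ∀ i, IsOpen (V i) := fun i => isOpen_sUnion fun W hW => hW.1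
  have hVm : ∀ i, ∀ x ∈ c.X1, x ∈ V i ↔ π x = i := by
    intro i x hx
    constructor
    · rintro ⟨W, hW, hxW⟩
      exact hW.2 x ⟨hxW, hx⟩
    · intro hi
      obtain ⟨W, hWo, hxW, hW⟩ := hπ.2.1 x hx
      exact ⟨W, ⟨hWo, fun y hy => (hW y hy).trans hi⟩, hxW⟩
  have hstep : ∀ i, μ (V i) ≤ μ (V (i + 1)) := by
    intro i
    rw [← hf.measure_preimage (hVo (i + 1)).measurableSet.nullMeasurableSet]
    apply measure_mono_ae
    filter_upwards [hX] with x hx hxi
    have h1 : π x = i := (hVm i x hx).1 hxi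
    exact (hVm (i + 1) (c.f x) (c.fwd x hx)).2 (by rw [hπ.1 x hx, h1])
  have hsteps : ∀ (n : ℕ) i, μ (V i) ≤ μ (V (i + n)) := by
    intro n
    induction n with
    | zero => intro i; simp
    | succ n ih =>
      intro i
      refine (ih i).trans ?_
      have := hstep (i + n)
      rwa [Nat.cast_succ, ← add_assoc]
  have hall : ∀ i j, μ (V i) ≤ μ (V j) := by
    intro i j
    have := hsteps (j - i).val i
    rwa [ZMod.natCast_zmod_val, add_sub_cancel] at this
  have hsum : ∑ j, μ (V j) ≤ 1 := by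
    have hd : Pairwise (AEDisjoint μ on V) := by
      intro i j hij
      refine measure_mono_null (t := c.X1ᶜ) ?_ hX
      intro x hx hx1
      exact hij (((hVm i x hx1).1 hx.1).symm.trans ((hVm j x hx1).1 hx.2))
    have := measure_iUnion₀ (μ := μ) hd (fun i => (hVo i).measurableSet.nullMeasurableSet)
    rw [tsum_fintype] at this
    rw [← this]
    exact prob_le_one
  have hcell : ∀ i, μ (V i) ≤ ENNReal.ofReal (1 / Q) := by
    intro i
    have h1 : (Q : ℝ≥0∞) * μ (V i) ≤ 1 := by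
      refine le_trans ?_ hsum
      have := Finset.sum_le_sum (s := Finset.univ) (fun j _ => hall i j)
      rwa [Finset.sum_const, Finset.card_univ, ZMod.card, nsmul_eq_mul] at this
    rw [ENNReal.ofReal_div_of_pos hQ', ENNReal.ofReal_one, ENNReal.ofReal_natCast,
      ENNReal.le_div_iff_mul_le (Or.inl (by exact_mod_cast (by omega : Q ≠ 0)))
        (Or.inl (ENNReal.natCast_ne_top Q)), mul_comm]
    exact h1
  set B : Set X := Kᶜ ∪ ⋃ i ∈ S, V i with hB
  have hBm : MeasurableSet B :=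
    hK.compl.union (Finset.measurableSet_biUnion S fun i _ => (hVo i).measurableSet)
  have hBμ : μ B ≤ ENNReal.ofReal (ε + (S.card : ℝ) / Q) := by
    refine (measure_union_le _ _).trans ?_
    rw [ENNReal.ofReal_add hε (by positivity)]
    refine add_le_add hKε ((measure_biUnion_finset_le S V).trans ?_)
    refine (Finset.sum_le_sum fun i _ => hcell i).trans (le_of_eq ?_)
    rw [Finset.sum_const, nsmul_eq_mul, ← ENNReal.ofReal_natCast,
      ← ENNReal.ofReal_mul (by positivity), mul_one_div]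
  have hU : μ (⋃ n ∈ T, c.f^[n] ⁻¹' B) < 1 := by
    refine lt_of_le_of_lt (measure_biUnion_finset_le T _) ?_
    have h1 : ∀ n ∈ T, μ (c.f^[n] ⁻¹' B) ≤ ENNReal.ofReal (ε + (S.card : ℝ) / Q) := by
      intro n _
      rw [(hf.iterate n).measure_preimage hBm.nullMeasurableSet]
      exact hBμ
    refine lt_of_le_of_lt (Finset.sum_le_sum h1) ?_
    rw [Finset.sum_const, nsmul_eq_mul, ← ENNReal.ofReal_natCast,
      ← ENNReal.ofReal_mul (by positivity)]
    exact ENNReal.ofReal_lt_one.2 h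
  by_contra hcon
  push Not at hcon
  have hiter : ∀ (n : ℕ), ∀ x ∈ c.X1, c.f^[n] x ∈ c.X1 := fun n x hx => c.iter_mem hx n
  have hsub : c.X1 ⊆ ⋃ n ∈ T, c.f^[n] ⁻¹' B := by
    intro x hx
    obtain ⟨n, hn, hb⟩ := hcon x hx
    refine mem_iUnion₂.2 ⟨n, hn, ?_⟩
    by_cases hk : c.f^[n] x ∈ K
    · exact Or.inr (mem_iUnion₂.2 ⟨_, hb hk, (hVm _ _ (hiter n x hx)).2 rfl⟩)
    · exact Or.inl hk
  have h1 : μ univ ≤ μ (⋃ n ∈ T, c.f^[n] ⁻¹' B) := by
    apply measure_mono_ae
    filter_upwards [hX] with x hx _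
    exact hsub hx
  rw [measure_univ] at h1
  exact absurd hU (not_lt.2 h1)


end Chords

end Pool.Agent.Lib.MP_3fe454_an.PD
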