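import Pool.Agent.Lib.MP_3fe454_an.PD.Arch

/-!
The third leaf induction.
-/

set_option autoImplicit false

open Set Metric Filter Topology MeasureTheory Function
open scoped ComplexConjugate ENNReal

namespace Pool.Agent.Lib.MP_3fe454_an.PD

namespace Blk

variable {F : Dis} (B : Blk F)


/-- a point of the first class on its own leaf above, a point of the third class below -/
private def Inv (a x c : ℂ) (κ : ℝ) : Prop :=
  ∃ e q1 q3, (x, e) ∈ B.K ∧ q1 ∈ F.Gam a ∧ q1 ∈ B.S a ∧ q3 ∈ F.Gam c ∧ B.Up x e κ q1 ∧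
    B.Up x (-e) κ q3

private theorem up_mono {x e w : ℂ} {κ κ' : ℝ} (h : B.Up x e κ w) (hκ : κ ≤ κ') :
    B.Up x e κ' w := by
  obtain ⟨y, h1, h2, h3, h4, h5⟩ := h
  exact ⟨y, h1, h2, h3, h4, h5.trans hκ⟩

private theorem geo {ε : ℝ} (hε : 0 < ε) : ∃ N : ℕ, ∀ t ≥ N, 2 * B.r * B.θ ^ t ≤ ε := by
  have h := (tendsto_pow_atTop_nhds_zero_of_lt_one B.θ_pos.le B.θ_lt).const_mul (2 * B.r)
  rw [mul_zero] at h
  exact eventually_atTop.1 (h.eventually_le_const hε)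

private theorem inv_close {a x c : ℂ} {κ : ℝ} (h : B.Inv a x c κ) {t : ℕ}
    (ht : B.C2 * B.G ^ t * κ ≤ B.r) :
    ‖F.f^[t] a - F.f^[t] x‖ ≤ 2 * B.r * B.θ ^ t + B.C2 * B.G ^ t * κ := by
  obtain ⟨e, q1, -, hK, -, h1, -, ⟨y, h2, h3, h4, -, h5⟩, -⟩ := h
  have h6 : B.C2 * B.G ^ t * ‖q1 - y‖ ≤ B.C2 * B.G ^ t * κ := mul_le_mul_of_nonneg_left h5
    (mul_nonneg (zero_le_one.trans B.one_le_C2) (pow_nonneg (zero_le_one.trans B.one_le_G) t))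
  have h7 := B.tube x e hK y h2 (by linarith [B.η_pos]) q1 (h4.trans (le_abs_self _)) t
    (h6.trans ht) t le_rfl
  have h8 := norm_sub_le_norm_sub_add_norm_sub (F.f^[t] a) (F.f^[t] q1) (F.f^[t] x)
  have h9 := norm_sub_le_norm_sub_add_norm_sub (F.f^[t] q1) (F.f^[t] y) (F.f^[t] x)
  rw [norm_sub_rev (F.f^[t] a) (F.f^[t] q1)] at h8
  linarith [h1 t, h2 t]

private theorem not_asy {a x w : ℂ} (h : ¬ F.Asy a x) (hw : w ∈ F.Gam a) (s : ℕ) :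
    ¬ F.Asy (F.f^[s] w) (F.f^[s] x) := fun h' =>
  h (F.Asy_trans (F.Asy_symm (F.Gam_asy hw)) ((F.Asy_iter s).1 h'))

private theorem clo_iter {a p : ℂ} (h : p ∈ closure (F.Gam a)) (s : ℕ) :
    F.f^[s] p ∈ closure (F.Gam (F.f^[s] a)) :=
  map_mem_closure (F.cf.iterate s) h fun _ hw => F.Gam_iter hw s

private theorem inv_step (T0 : ℕ) {w1 δ : ℝ} (hw1 : 0 < w1) (hδ : 0 < δ) :
    ∃ (s0 : ℕ) (ξ c0 : ℝ), 0 < ξ ∧ ∀ s ≥ s0, ∀ (a x c p : ℂ) (κ : ℝ), B.Inv a x c κ →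
      ‖p‖ < 1 → p ∈ closure (F.Gam a) → p ∈ closure (F.Gam c) → ¬ F.Asy a x → ¬ F.Asy c x →
      F.f^[s] a ∈ B.P → B.NR w1 (F.f^[s] a) → F.f^[s] x ∈ B.P → B.Win T0 (F.f^[s] x) →
      (∀ w ∈ B.S (F.f^[s] x), δ ≤ ‖w - F.f^[s] p‖) → B.C2 * B.G ^ s * κ ≤ ξ →
      B.Inv (F.f^[s] a) (F.f^[s] x) (F.f^[s] c) (c0 * F.b ^ s) := by
  obtain ⟨s0, ξ, c0, hξ, hξr, -, hst⟩ := B.step
  obtain ⟨w0, hw0, har⟩ := B.arch T0
  obtain ⟨ζ1, hζ1, hsa⟩ := B.sadm_unif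
  obtain ⟨ζ2, hζ2, hps⟩ := B.psi_unif (half_pos hw1)
  have hζ : 0 < min ζ1 ζ2 / 2 := half_pos (lt_min hζ1 hζ2)
  obtain ⟨N1, hN1⟩ := B.small_prod c0 (lt_min hw0 (lt_min (half_pos hw1) (by linarith : 0 < δ / 4)))
  obtain ⟨N2, hN2⟩ := B.geo hζ
  refine ⟨max s0 (max N1 N2), min ξ (min ζ1 ζ2 / 2), c0, lt_min hξ hζ, ?_⟩
  intro s hs a x c p κ hI hp ha hc na nc ha' hnr hx' hwin hfar hκ
  simp only [ge_iff_le, max_le_iff, le_min_iff] at hs hκ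
  have k0 := hN1 s hs.2.1 0 (Nat.zero_le _)
  simp only [pow_zero, mul_one, le_min_iff] at k0
  have hcl : ‖F.f^[s] a - F.f^[s] x‖ ≤ min ζ1 ζ2 := by
    linarith [B.inv_close hI (hκ.1.trans hξr), hN2 s hs.2.2, hκ.2]
  obtain ⟨e, q1, q3, hK, g1, -, g3, u1, u3⟩ := hI
  obtain ⟨ρ, hρ, hb⟩ : ∃ ρ > 0, ∀ w ∈ ball p ρ, ‖w‖ < 1 ∧ ‖F.f^[s] w - F.f^[s] p‖ < δ / 2 := by
    refine Metric.eventually_nhds_iff_ball.1 ((continuous_norm.continuousAt.eventually_lt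
      continuousAt_const hp).and ?_)
    exact (((F.cf.iterate s).sub continuous_const).norm.continuousAt.eventually_lt
      continuousAt_const (by simpa using hδ))
  obtain ⟨v1, b1, l1⟩ := _root_.mem_closure_iff.1 ha _ isOpen_ball (mem_ball_self hρ)
  obtain ⟨v3, b3, l3⟩ := _root_.mem_closure_iff.1 hc _ isOpen_ball (mem_ball_self hρ)
  obtain ⟨C1, c1, m1, n1, s1⟩ := F.Gam_pair g1 l1
  obtain ⟨C3, c3, m3, n3, s3⟩ := F.Gam_pair g3 l3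
  have sg : segment ℝ v1 v3 ⊆ ball p ρ := (convex_ball p ρ).segment_subset b1 b3
  obtain ⟨e', hK', -, p1, hp1, p2, hp2, -, r1, r2, t1, t2, t3, t4⟩ := hst x e hK s hs.1 hx'
    (C1 ∪ segment ℝ v1 v3 ∪ C3)
    ((c1.1.union (by rw [segment_eq_image]; exact isCompact_Icc.image (by fun_prop))).union c3.1)
    ((c1.2.1.union v1 n1 (left_mem_segment _ _ _) (convex_segment _ _).isPreconnected).union v3
      (Or.inr (right_mem_segment _ _ _)) n3 c3.2.1)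
    (union_subset (union_subset c1.2.2.1 fun w hw =>
      mem_closedBall_zero_iff.2 (hb w (sg hw)).1.le) c3.2.2.1)
    κ q1 q3 (Or.inl (Or.inl m1)) (Or.inr m3) u1 u3 hκ.1 (by
      rintro w ((hw | hw) | hw) h
      · exact not_asy na (s1 hw) s (B.S_asy h)
      · linarith [hfar _ h, (hb w (sg hw)).2]
      · exact not_asy nc (s3 hw) s (B.S_asy h))
  have hη := B.η_pos
  have ad := B.adm_self hK'
  have he' : ‖e'‖ = 1 := B.unit _ hK'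
  have U1 := B.up_of_ht ad (r1.trans (by linarith)) t1 t2
  have U2 := B.down_of_ht ad (r2.trans (by linarith)) t3 t4
  have a1 : |B.ht (F.f^[s] x) (F.f^[s] x) e' (F.f^[s] p1)| ≤ c0 * F.b ^ s := by
    rwa [abs_of_pos t1]
  have a2 : |B.ht (F.f^[s] x) (F.f^[s] x) e' (F.f^[s] p2)| ≤ c0 * F.b ^ s := by
    rw [abs_of_neg t3]; linarith
  have nseg : ∀ w, |(co (F.f^[s] x) e' (F.f^[s] w)).re| ≤ B.η →
      |B.ht (F.f^[s] x) (F.f^[s] x) e' (F.f^[s] w)| ≤ c0 * F.b ^ s → w ∉ segment ℝ v1 v3 := by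
    intro w h1 h2 h3
    have h4 := hfar _ (B.lf_mem ad (h1.trans (by linarith)))
    have h5 := congrArg norm (B.sub_lf (x := F.f^[s] x) (z0 := F.f^[s] x) he' (F.f^[s] w))
    rw [norm_mul, norm_mul, he', Complex.norm_I, mul_one, mul_one, Complex.norm_real,
      Real.norm_eq_abs, norm_sub_rev] at h5
    linarith [norm_sub_le_norm_sub_add_norm_sub
      (B.lf (F.f^[s] x) (F.f^[s] x) e' (co (F.f^[s] x) e' (F.f^[s] w)).re) (F.f^[s] w) (F.f^[s] p),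
      (hb w (sg h3)).2, k0.2.2]
  have nboth : ∀ (z : ℂ) (C : Set ℂ), ¬ F.Asy z x → F.StC C → C ⊆ F.Gam z → p1 ∈ C → p2 ∉ C := by
    intro z C h1 h2 h3 h4 h5
    refine har _ e' hK' hwin _ (F.StC_image h2 s) ?_ _ (mem_image_of_mem _ h4) _
      (mem_image_of_mem _ h5) (B.up_mono U1 k0.1) (B.up_mono U2 k0.1)
    rintro _ ⟨w, hw, rfl⟩
    exact not_asy h1 (h3 hw) s
  have own : ∀ w ∈ F.Gam a, |(co (F.f^[s] x) e' (F.f^[s] w)).re| ≤ B.η →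
      |B.ht (F.f^[s] x) (F.f^[s] x) e' (F.f^[s] w)| ≤ c0 * F.b ^ s →
      F.f^[s] w ∈ B.S (F.f^[s] a) := by
    intro w h1 h2 h3
    obtain ⟨e1, h4⟩ := hsa _ e' hK' _ ha' (hcl.trans (min_le_left _ _))
    have h5 := hps _ _ _ _ _ _ (SAdm.adm B h4) ad (hcl.trans (min_le_right _ _))
      (co (F.f^[s] x) e' (F.f^[s] w)).re
    have h6 := hnr e1 _ _ h4 _ (F.Gam_iter h1 s) (h2.trans (by linarith)) (by
      simp only [ht, abs_le] at h3 h5 ⊢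
      constructor <;> linarith [h3.1, h3.2, h5.1, h5.2, k0.2.1])
    rw [B.eq_lf he' h6]
    exact B.lf_mem (SAdm.adm B h4) (h2.trans (by linarith))
  rcases hp1 with (h1 | h1) | h1
  · rcases hp2 with (h2 | h2) | h2
    · exact absurd h2 (nboth a C1 na c1 s1 h1)
    · exact absurd h2 (nseg _ r2 a2)
    · exact ⟨e', _, _, hK', F.Gam_iter (s1 h1) s, own _ (s1 h1) r1 a1, F.Gam_iter (s3 h2) s, U1, U2⟩
  · exact absurd h1 (nseg _ r1 a1)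
  · rcases hp2 with (h2 | h2) | h2
    · exact ⟨-e', _, _, B.neg _ _ hK', F.Gam_iter (s1 h2) s, own _ (s1 h2) r2 a2,
        F.Gam_iter (s3 h1) s, U2, (neg_neg e').symm ▸ U1⟩
    · exact absurd h2 (nseg _ r2 a2)
    · exact absurd h2 (nboth c C3 nc c3 s3 h1)

theorem caseA_core (T0 N0 : ℕ) {w1 δ : ℝ} (hw1 : 0 < w1) (hδ : 0 < δ) (p : ℂ) (hp : ‖p‖ < 1) :
    ∃ κ0 > 0, ∀ G : Set ℂ, G ⊆ B.P →
      (∀ x ∈ G, B.Win T0 x ∧ B.NR w1 x ∧ ∀ w ∈ B.S x, ∀ j : ℕ, δ ≤ ‖w - F.f^[j] p‖) →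
      ∀ x1 x2 x3 e2 : ℂ, (x2, e2) ∈ B.K →
        (∀ N ≥ N0, ∃ s, N < s ∧ s ≤ 2 * N ∧ F.f^[s] x1 ∈ G ∧ F.f^[s] x2 ∈ G) →
        x1 ∈ Disc → x3 ∈ Disc → p ∈ closure (F.Gam x1) → p ∈ closure (F.Gam x3) →
        ¬ F.Asy x3 x2 → ‖x1 - x2‖ < κ0 → ‖x3 - x2‖ < κ0 → 0 < B.ht x2 x2 e2 x1 →
        B.ht x2 x2 e2 x3 < 0 → F.Asy x1 x2 := by
  obtain ⟨s0, ξ, c0, hξ, hst⟩ := B.inv_step T0 hw1 hδ
  obtain ⟨N1, hN1⟩ := B.small_prod (B.C2 * c0) hξ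
  obtain ⟨T, hT⟩ : ∃ T, T = max (max s0 N0) (max N1 1) := ⟨_, rfl⟩
  have hη := B.η_pos
  have hr : 0 < B.r := by nlinarith [B.scale, B.one_le_C1]
  have hC : 0 < B.C2 := zero_lt_one.trans_le B.one_le_C2
  have hG : 0 < B.G := zero_lt_one.trans_le B.one_le_G
  obtain ⟨κ1, hκ1⟩ : ∃ κ1, κ1 = ξ / (B.C2 * B.G ^ (2 * T)) := ⟨_, rfl⟩
  have k0 : 0 < κ1 := by rw [hκ1]; positivity
  refine ⟨min (4 * B.η) (κ1 / 2), lt_min (by linarith) (by linarith), ?_⟩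
  intro G hGP hG' x1 x2 x3 e2 hK hret d1 d3 p1 p3 n3 c1 c3 t1 t3
  by_contra n1
  rw [lt_min_iff] at c1 c3
  have ad := B.adm_self hK
  have he : ‖e2‖ = 1 := B.unit _ hK
  have re : ∀ w, |(co x2 e2 w).re| ≤ ‖w - x2‖ := fun w =>
    (Complex.abs_re_le_norm _).trans_eq (norm_co he w)
  have I0 : B.Inv x1 x2 x3 κ1 := ⟨e2, x1, x3, hK, F.Gam_self d1, B.self_mem_S x1, F.Gam_self d3,
    B.up_of_ht ad ((re _).trans c1.1.le) t1 (by linarith [(abs_le.1 (B.abs_ht_le ad x1)).2, c1.2]),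
    B.down_of_ht ad ((re _).trans c3.1.le) t3
      (by linarith [(abs_le.1 (B.abs_ht_le ad x3)).1, c3.2])⟩
  have np : ∀ S, ‖F.f^[S] p‖ < 1 := fun S => by
    cases S with
    | zero => exact hp
    | succ S => rw [iterate_succ_apply']; exact (F.maps _).trans_lt F.r0_lt
  have one : ∀ S s κ, B.Inv (F.f^[S] x1) (F.f^[S] x2) (F.f^[S] x3) κ → T ≤ s →
      F.f^[s + S] x1 ∈ G → F.f^[s + S] x2 ∈ G → B.C2 * B.G ^ s * κ ≤ ξ →
      B.Inv (F.f^[s + S] x1) (F.f^[s + S] x2) (F.f^[s + S] x3) (c0 * F.b ^ s) := by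
    intro S s κ h1 h2 h3 h4 h5
    have h6 := (hG' _ h4).2.2
    simp only [iterate_add_apply] at h3 h4 h6 ⊢
    exact hst s (by omega) _ _ _ (F.f^[S] p) κ h1 (np S) (clo_iter p1 S) (clo_iter p3 S)
      (fun h => n1 ((F.Asy_iter S).1 h)) (fun h => n3 ((F.Asy_iter S).1 h)) (hGP h3)
      (hG' _ h3).2.1 (hGP h4) (hG' _ h4).1
      (fun w hw => by simpa only [iterate_add_apply] using h6 w hw (s + S)) h5
  obtain ⟨S1, a1, a2, a3, a4⟩ := hret T (by omega)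
  have all : ∀ m, S1 ≤ m → ∃ S s, B.Inv (F.f^[S] x1) (F.f^[S] x2) (F.f^[S] x3) (c0 * F.b ^ s) ∧
      T ≤ s ∧ s ≤ S ∧ S ≤ 2 * s ∧ S ≤ m ∧ m < 4 * S := by
    intro m hm
    induction m, hm using Nat.le_induction with
    | base =>
      refine ⟨S1, S1, one 0 S1 κ1 I0 a1.le a3 a4 ?_, a1.le, le_rfl, by omega, le_rfl, by omega⟩
      rw [hκ1, ← mul_div_assoc, div_le_iff₀ (by positivity), mul_comm]
      exact mul_le_mul_of_nonneg_left (mul_le_mul_of_nonneg_left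
        (pow_le_pow_right₀ B.one_le_G a2) hC.le) hξ.le
    | succ m hm ih =>
      obtain ⟨S, s, h1, h2, h3, h4, h5, h6⟩ := ih
      by_cases h7 : m + 1 < 4 * S
      · exact ⟨S, s, h1, h2, h3, h4, by omega, h7⟩
      obtain ⟨S', b1, b2, b3, b4⟩ := hret (2 * S) (by omega)
      obtain ⟨s', rfl⟩ : ∃ s', S' = s' + S := ⟨S' - S, by omega⟩
      refine ⟨s' + S, s', one S s' _ h1 (by omega) b3 b4 ?_, by omega, by omega, by omega, by omega,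
        by omega⟩
      linarith [hN1 s (by omega) s' (by omega)]
  refine n1 (Metric.tendsto_atTop.2 fun ε hε => ?_)
  obtain ⟨N2, hN2⟩ := B.small_prod (B.C2 * c0) (lt_min hr (by linarith : 0 < ε / 3))
  obtain ⟨N3, hN3⟩ := B.geo (by linarith : 0 < ε / 3)
  refine ⟨2 * S1 + 16 * N2 + 2 * N3, fun n hn => ?_⟩
  obtain ⟨S, s, h1, h2, h3, h4, h5, h6⟩ := all (n / 2) (by omega)
  obtain ⟨t, rfl⟩ : ∃ t, n = t + S := ⟨n - S, by omega⟩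
  have h7 := le_min_iff.1 (hN2 s (by omega) t (by omega))
  have h8 := B.inv_close h1 (t := t) (by linarith [h7.1])
  rw [dist_zero_right, norm_norm, iterate_add_apply, iterate_add_apply]
  linarith [hN3 t (by omega), h7.2]


end Blk

end Pool.Agent.Lib.MP_3fe454_an.PD
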