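import Pool.Agent.Lib.MP_3fe454_an.PD.Basic1
import Pool.Agent.Shared.Ergodic.Decomp

/-!
Invariant measures: support, asymptotic classes, atoms.
-/

set_option autoImplicit false

open Set Metric Filter Topology MeasureTheory Function
open scoped ComplexConjugate ENNReal

namespace Pool.Agent.Lib.MP_3fe454_an.PD

namespace Dis

variable (F : Dis)


theorem ae_Λ (ν : Measure ℂ) (h : MeasurePreserving F.f ν ν) : ∀ᵐ z ∂ν, z ∈ F.Λ := by
  simp only [Λ, mem_iInter]
  refine ae_all_iff.2 fun n => ?_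
  have h1 : ∀ᵐ z ∂ν, z ∈ F.Ω (n + 1) := by
    rw [← (h.iterate (n + 1)).map_eq]
    exact (ae_map_iff (h.iterate (n + 1)).aemeasurable (F.Ω_compact (n + 1)).measurableSet).2
      (.of_forall fun z => F.iter_succ_mem_Ω z n)
  exact h1.mono fun z hz => F.Ω_anti n.le_succ hz

theorem asy_diag (ρ : Measure (ℂ × ℂ)) [IsFiniteMeasure ρ]
    (h : MeasurePreserving (Prod.map F.f F.f) ρ ρ) : ∀ᵐ p ∂ρ, F.Asy p.1 p.2 → p.1 = p.2 := by
  have h1 := ae_all_iff.2 fun k : ℕ => h.conservative.ae_mem_imp_frequently_image_mem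
    (s := {p | 1 / (k + 1 : ℝ) ≤ ‖p.1 - p.2‖})
    (isClosed_le continuous_const (by fun_prop)).measurableSet.nullMeasurableSet
  refine h1.mono fun p hp ha => by_contra fun hne => ?_
  obtain ⟨k, hk⟩ := exists_nat_one_div_lt (norm_pos_iff.2 (sub_ne_zero.2 hne))
  obtain ⟨n, h2, h3⟩ := ((hp k hk.le).and_eventually
    (ha.eventually_lt_const (Nat.one_div_pos_of_nat (n := k)))).exists
  rw [Prod.map_iterate] at h2
  exact h3.not_ge h2

theorem nullCl (ν : Measure ℂ) [IsFiniteMeasure ν] (h : MeasurePreserving F.f ν ν)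
    (ha : ∀ z, ν {z} = 0) : F.NullCl ν := by
  refine fun x0 => by_contra fun hC => hC ?_
  obtain ⟨x, hx, hx'⟩ := ((frequently_ae_mem_iff.2 hC).and_eventually
    (Measure.ae_ae_of_ae_prod (F.asy_diag _ (h.prod h)))).exists
  refine measure_eq_zero_iff_ae_notMem.2
    ((hx'.and (measure_eq_zero_iff_ae_notMem.1 (ha x))).mono fun y hy h1 => hy.2 ?_)
  exact (hy.1 (F.Asy_trans hx (F.Asy_symm h1))).symm

theorem sink_null (ν : Measure ℂ) (h : F.NullCl ν) : ν F.Sink = 0 :=
  measure_null_of_locally_null _ fun x ⟨_, h1, h2⟩ =>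
    ⟨_, nhdsWithin_le_nhds (mem_of_superset (ball_mem_nhds x h1) h2), h x⟩

theorem atom_periodic (ν : Measure ℂ) [IsFiniteMeasure ν] (h : MeasurePreserving F.f ν ν)
    {p : ℂ} (hp : ν {p} ≠ 0) : p ∈ periodicPts F.f := by
  obtain ⟨x, rfl, m, h1, h2⟩ := h.conservative.exists_mem_iterate_mem
    (measurableSet_singleton p).nullMeasurableSet hp
  exact mk_mem_periodicPts (Nat.pos_of_ne_zero h1) h2

theorem nonatomic_part (ν : Measure ℂ) [IsFiniteMeasure ν] (h : MeasurePreserving F.f ν ν) :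
    ∃ A : Set ℂ, A.Countable ∧ (∀ p ∈ A, ν {p} ≠ 0) ∧
      MeasurePreserving F.f (ν.restrict Aᶜ) (ν.restrict Aᶜ) ∧ ∀ z, ν.restrict Aᶜ {z} = 0 := by
  have hc : {p | ν {p} ≠ 0}.Countable := by
    simpa [pos_iff_ne_zero] using Measure.countable_meas_level_set_pos (μ := ν) measurable_id
  refine ⟨_, hc, fun _ hp => hp, ?_, fun z => ?_⟩
  · have h1 : F.f ⁻¹' {p | ν {p} ≠ 0}ᶜ =ᵐ[ν] ({p | ν {p} ≠ 0}ᶜ : Set ℂ) := by
      refine eventuallyEq_set.2 ((F.ae_Λ ν h).mono fun z hz => ?_)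
      have h2 : F.f ⁻¹' {F.f z} =ᵐ[ν] ({z} : Set ℂ) :=
        eventuallyEq_set.2 ((F.ae_Λ ν h).mono fun w hw => ⟨fun e => by
          rw [mem_singleton_iff, ← F.gf w (F.Λ_sub_Disc hw), show F.f w = F.f z from e,
            F.gf z (F.Λ_sub_Disc hz)], congrArg F.f⟩)
      simp only [mem_preimage, mem_compl_iff, mem_ofPred_eq, ← measure_congr h2,
        h.measure_preimage (measurableSet_singleton _).nullMeasurableSet]
    have h3 := h.restrict_preimage hc.measurableSet.compl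
    rwa [Measure.restrict_congr_set h1] at h3
  · rw [Measure.restrict_apply (measurableSet_singleton z)]
    by_cases hz : ν {z} = 0
    · exact measure_mono_null inter_subset_left hz
    · exact measure_mono_null (t := ∅) (fun w hw => hw.2 (hw.1 ▸ hz)) measure_empty

theorem ae_aper (μ : Measure ℂ) [IsFiniteMeasure μ] (h : MeasurePreserving F.f μ μ)
    (hp : μ (periodicPts F.f) = 0) : ∀ᵐ x ∂μ, ∀ n : ℕ, 1 ≤ n → ¬ F.Asy (F.f^[n] x) x := by
  refine ae_all_iff.2 fun n => ?_
  have hm : Measurable fun x => (F.f^[n] x, x) := (h.measurable.iterate n).prodMk measurable_id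
  have h1 := F.asy_diag _ (MeasurePreserving.of_semiconj (hm.measurePreserving μ) h
    (gb := Prod.map F.f F.f) (fun x => Prod.ext (Commute.iterate_self F.f n x) rfl)
    (h.measurable.prodMap h.measurable))
  exact ((ae_of_ae_map hm.aemeasurable h1).and (measure_eq_zero_iff_ae_notMem.1 hp)).mono
    fun x hx hn ha => hx.2 (mk_mem_periodicPts hn (hx.1 ha))

theorem ergodic_comp (μ : Measure ℂ) [IsProbabilityMeasure μ] (h : MeasurePreserving F.f μ μ)
    (hp : μ (periodicPts F.f) < 1) :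
    ∃ μ' : Measure ℂ, IsProbabilityMeasure μ' ∧ Ergodic F.f μ' ∧ μ' (periodicPts F.f) = 0 := by
  obtain ⟨κ, h1, h2, h3⟩ := Shared.Ergodic.ergodic_decomposition μ h
  by_contra! hn
  have hm := F.measurableSet_periodic
  have h4 := (h3 _ ((integrable_const (1 : ℂ)).indicator hm)).2
  have h5 : ∀ᵐ y ∂μ, ∫ z, (periodicPts F.f).indicator (fun _ => (1 : ℂ)) z ∂κ y = 1 := by
    refine h2.mono fun y hy => ?_
    have := h1 y
    rcases hy.ae_empty_or_univ_of_ae_le_preimage hm.nullMeasurableSet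
      (LE.le.eventuallyLE fun z ⟨n, a, b⟩ => ⟨n, a, b.apply⟩) with e | e
    · exact (hn _ this hy (ae_eq_empty.1 e)).elim
    · rw [integral_indicator_const _ hm, measureReal_congr e]
      simp
  rw [integral_congr_ae h5, integral_indicator_const _ hm] at h4
  have h6 : μ.real (periodicPts F.f) = 1 := by simpa using h4.symm
  exact hp.ne ((ENNReal.toReal_eq_one_iff _).1 h6)


end Dis

end Pool.Agent.Lib.MP_3fe454_an.PD
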