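import Pool.Agent.Lib.MP_3fe454_an.PD.CaseA1
import Pool.Agent.Lib.MP_3fe454_an.PD.Acc
import Pool.Agent.Lib.MP_3fe454_an.PD.Meas1

/-!
Stable classes accumulating on a periodic point are negligible.
-/

set_option autoImplicit false

open Set Metric Filter Topology MeasureTheory Function
open scoped ComplexConjugate ENNReal

namespace Pool.Agent.Lib.MP_3fe454_an.PD

namespace Blk

variable {F : Dis} (B : Blk F)

/-- most local stable sets of the block stay away from a finite set -/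
theorem caseA_far (μ : Measure ℂ) [IsProbabilityMeasure μ] (hn : F.NullCl μ) {O : Set ℂ}
    (hO : O.Finite) (hne : O.Nonempty) {ε : ℝ≥0∞} (hε : 0 < ε) :
    ∃ (δ : ℝ) (D : Set ℂ), 0 < δ ∧ MeasurableSet D ∧ μ D ≤ ε ∧
      ∀ x ∈ B.P, x ∉ D → ∀ w ∈ B.S x, ∀ q ∈ O, δ ≤ ‖w - q‖ := by
  let C : ℕ → Set (ℂ × ℂ) := fun n => (B.P ×ˢ closedBall (0 : ℂ) 1) ∩
    ({p : ℂ × ℂ | p.2 ∈ B.S p.1} ∩ {p : ℂ × ℂ | infDist p.2 O ≤ 1 / ((n : ℝ) + 1)})
  have hC : ∀ n, IsCompact (C n) := fun n =>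
    (B.P_compact.prod (isCompact_closedBall _ _)).inter_right (B.isClosed_S.inter
      (isClosed_le ((continuous_infDist_pt O).comp continuous_snd) continuous_const))
  let D : ℕ → Set ℂ := fun n => Prod.fst '' C n
  have hD : ∀ n, MeasurableSet (D n) := fun n =>
    ((hC n).image continuous_fst).isClosed.measurableSet
  have hanti : Antitone D := by
    intro m n hmn
    refine image_mono ?_
    rintro p ⟨h1, h2, h3⟩
    have h4 : infDist p.2 O ≤ 1 / ((n : ℝ) + 1) := h3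
    exact ⟨h1, h2, h4.trans (Nat.one_div_le_one_div hmn)⟩
  have hnull : μ (⋂ n, D n) = 0 := by
    refine measure_mono_null (t := ⋃ q ∈ O, {w | F.Asy w q}) ?_
      ((measure_biUnion_null_iff hO.countable).2 fun q _ => hn q)
    intro x hx
    rw [mem_iInter] at hx
    have hS : IsCompact (closedBall (0 : ℂ) 1 ∩ B.S x) :=
      (isCompact_closedBall _ _).inter_right
        (B.isClosed_S.preimage (f := fun w : ℂ => (x, w)) (by fun_prop))
    obtain ⟨p0, hp0, e0⟩ := hx 0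
    have hne' : (closedBall (0 : ℂ) 1 ∩ B.S x).Nonempty :=
      ⟨p0.2, hp0.1.2, e0 ▸ hp0.2.1⟩
    obtain ⟨w, hw, hmin⟩ := hS.exists_isMinOn hne' (continuous_infDist_pt O).continuousOn
    have h0 : infDist w O ≤ 0 := by
      refine ge_of_tendsto' tendsto_one_div_add_atTop_nhds_zero_nat fun n => ?_
      obtain ⟨p, hp, e⟩ := hx n
      exact le_trans (hmin (show p.2 ∈ closedBall (0 : ℂ) 1 ∩ B.S x from
        ⟨hp.1.2, e ▸ hp.2.1⟩)) hp.2.2
    have hwO : w ∈ O :=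
      (hO.isClosed.mem_iff_infDist_zero hne).2 (le_antisymm h0 infDist_nonneg)
    exact mem_biUnion hwO (F.Asy_symm (B.S_asy hw.2))
  have ht := tendsto_measure_iInter_atTop (μ := μ) (fun n => (hD n).nullMeasurableSet) hanti
    ⟨0, measure_ne_top _ _⟩
  rw [hnull] at ht
  obtain ⟨n, hn'⟩ := (ht.eventually (ge_mem_nhds hε)).exists
  refine ⟨1 / ((n : ℝ) + 1), D n, Nat.one_div_pos_of_nat, hD n, hn', ?_⟩
  intro x hx hxD w hw q hq
  by_contra hlt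
  refine hxD ⟨(x, w), ⟨⟨hx, ?_⟩, hw, ?_⟩, rfl⟩
  · exact mem_closedBall_zero_iff.2 (B.S_norm (B.P_sub_Λ hx) hw).le
  · refine le_trans (infDist_le_dist_of_mem hq) ?_
    rw [dist_eq_norm]
    exact (not_le.1 hlt).le

theorem caseA_exists {μ : Measure ℂ} {A : Set ℂ} (hA : μ A ≠ 0) {Q : ℂ → Prop}
    (hQ : ∀ᵐ x ∂μ, Q x) : ∃ x ∈ A, Q x := by
  by_contra hc
  refine hA (measure_mono_null (fun x hx => ?_) (ae_iff.1 hQ))
  exact fun hq => hc ⟨x, hx, hq⟩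

open Classical in
theorem caseA_blk (μ : Measure ℂ) [IsProbabilityMeasure μ] (h : Ergodic F.f μ) (hn : F.NullCl μ)
    (hB : μ B.Pᶜ ≤ ENNReal.ofReal (1 / 32)) {p : ℂ} (hp : p ∈ periodicPts F.f) :
    μ ({x | p ∈ closure (F.Gam x)} ∩ B.P) = 0 := by
  have hε : (0 : ℝ≥0∞) < ENNReal.ofReal (1 / 32) := ENNReal.ofReal_pos.2 (by norm_num)
  obtain ⟨T0, G1, hG1m, hG1P, hG1μ, hG1⟩ := B.exists_good μ h.toMeasurePreserving hn hε
  obtain ⟨w1, hw1, -, hnr⟩ := B.nr T0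
  have hO : (range fun j : ℕ => F.f^[j] p).Finite := by
    refine ((finite_Iio (minimalPeriod F.f p)).image fun j => F.f^[j] p).subset ?_
    rintro _ ⟨j, rfl⟩
    exact ⟨j % minimalPeriod F.f p, Nat.mod_lt _ (minimalPeriod_pos_of_mem_periodicPts hp),
      iterate_mod_minimalPeriod_eq⟩
  obtain ⟨δ, D, hδ, hDm, hDμ, hD⟩ := B.caseA_far μ hn hO (range_nonempty _) hε
  obtain ⟨G, hG⟩ : ∃ G, G = G1 \ D := ⟨_, rfl⟩
  have hGm : MeasurableSet G := hG ▸ hG1m.diff hDm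
  have hGP : G ⊆ B.P := hG ▸ fun x hx => hG1P hx.1
  have hGμ : μ Gᶜ ≤ ENNReal.ofReal (1 / 8) := by
    have hs : Gᶜ ⊆ B.Pᶜ ∪ (B.P \ G1) ∪ D := by
      intro x hx
      by_cases h1 : x ∈ B.P
      · by_cases h2 : x ∈ G1
        · right
          by_contra h3
          exact hx (hG ▸ ⟨h2, h3⟩)
        · exact Or.inl (Or.inr ⟨h1, h2⟩)
      · exact Or.inl (Or.inl h1)
    calc μ Gᶜ ≤ μ (B.Pᶜ ∪ (B.P \ G1) ∪ D) := measure_mono hs
      _ ≤ μ B.Pᶜ + μ (B.P \ G1) + μ D :=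
        (measure_union_le _ _).trans (add_le_add (measure_union_le _ _) le_rfl)
      _ ≤ ENNReal.ofReal (1 / 32) + ENNReal.ofReal (1 / 32) + ENNReal.ofReal (1 / 32) :=
        add_le_add (add_le_add hB hG1μ) hDμ
      _ ≤ ENNReal.ofReal (1 / 8) := by
        rw [← ENNReal.ofReal_add (by norm_num) (by norm_num),
          ← ENNReal.ofReal_add (by norm_num) (by norm_num)]
        exact ENNReal.ofReal_le_ofReal (by norm_num)
  have hGp : ∀ x ∈ G, B.Win T0 x ∧ B.NR w1 x ∧ ∀ w ∈ B.S x, ∀ j : ℕ, δ ≤ ‖w - F.f^[j] p‖ := by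
    intro x hx
    rw [hG] at hx
    exact ⟨(hG1 x hx.1).1, hnr x fun e he => (hG1 x hx.1).2 x e he,
      fun w hw j => hD x (hG1P hx.1) hx.2 w hw _ ⟨j, rfl⟩⟩
  have hfr := ae_freq μ h hGm hGμ
  let A : ℕ → Set ℂ := fun N0 => ({x | p ∈ closure (F.Gam x)} ∩ B.P) ∩
    {x | ∀ N ≥ N0, 6 * ((Finset.range N).filter fun t => F.f^[t] x ∉ G).card ≤ N}
  have hA : ∀ N0, μ (A N0) = 0 := by
    intro N0
    by_contra hA0
    have hp1 : ‖p‖ < 1 := (F.Λ_norm (F.periodic_mem_Λ hp)).trans_lt F.r0_lt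
    obtain ⟨κ0, hκ0, hcore⟩ := B.caseA_core T0 (N0 + 2) hw1 hδ p hp1
    have hAP : A N0 ⊆ B.P := fun x hx => hx.1.2
    obtain ⟨x2, hx2, hacc⟩ := caseA_exists hA0 (B.ae_acc μ hn hAP)
    obtain ⟨⟨x2', e2⟩, he2, rfl⟩ := hAP hx2
    have hcl : ∀ᵐ w ∂μ, ¬ F.Asy w x2' := measure_eq_zero_iff_ae_notMem.1 (hn x2')
    obtain ⟨x1, hx1, hn1⟩ := caseA_exists (hacc hx2 e2 he2 κ0 hκ0) hcl
    obtain ⟨x3, hx3, hn3⟩ := caseA_exists (hacc hx2 (-e2) (B.neg _ _ he2) κ0 hκ0) hcl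
    have h3 : B.ht x2' x2' e2 x3 < 0 := by
      have := hx3.2.2
      simp only at this
      rw [B.ht_neg (B.adm_self he2)] at this
      linarith
    exact hn1 (hcore G hGP hGp x1 x2' x3 e2 he2 (pair_windows hx1.1.2 hx2.2)
      (F.Λ_sub_Disc (B.P_sub_Λ (hAP hx1.1))) (F.Λ_sub_Disc (B.P_sub_Λ (hAP hx3.1)))
      hx1.1.1.1 hx3.1.1.1 hn3 hx1.2.1 hx3.2.1 hx1.2.2 h3)
  by_contra h0
  obtain ⟨x, hx, ⟨N0, hN0⟩, hx'⟩ := caseA_exists h0
    (hfr.and (ae_all_iff.2 fun N0 => measure_eq_zero_iff_ae_notMem.1 (hA N0)))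
  exact hx' N0 ⟨hx, hN0⟩

end Blk

namespace Dis

variable (F : Dis)


theorem caseA (μ : Measure ℂ) [IsProbabilityMeasure μ] (h : Ergodic F.f μ) (hn : F.NullCl μ)
    (hB : ∀ ε : ℝ≥0∞, 0 < ε → ∃ B : Blk F, μ B.Pᶜ ≤ ε) {p : ℂ} (hp : p ∈ periodicPts F.f) :
    μ {x | p ∈ closure (F.Gam x)} = 0 := by
  obtain ⟨B, hB⟩ := hB (ENNReal.ofReal (1 / 32)) (ENNReal.ofReal_pos.2 (by norm_num))
  have hPm : MeasurableSet B.P := B.P_compact.isClosed.measurableSet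
  have hP0 : μ B.P ≠ 0 := by
    intro h0
    rw [measure_compl hPm (measure_ne_top _ _), h0, measure_univ, tsub_zero] at hB
    exact absurd (hB.trans_lt (ENNReal.ofReal_lt_one.2 (by norm_num))) (lt_irrefl _)
  have hper : ∀ n : ℕ, F.f^[n] p ∈ periodicPts F.f := fun n => by
    obtain ⟨k, hk, hp⟩ := hp
    exact ⟨k, hk, hp.apply_iterate n⟩
  have h1 : ∀ᵐ x ∂μ, ∀ n : ℕ,
      F.f^[n] x ∉ {x | F.f^[n] p ∈ closure (F.Gam x)} ∩ B.P := ae_all_iff.2 fun n =>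
    measure_eq_zero_iff_ae_notMem.1
      ((h.toMeasurePreserving.iterate n).quasiMeasurePreserving.preimage_null
        (B.caseA_blk μ h hn hB (hper n)))
  by_contra h0
  obtain ⟨x, hx, hx1, hx2⟩ := Blk.caseA_exists h0 (h1.and (ae_visit μ h hPm hP0))
  obtain ⟨n, -, hn'⟩ := hx2 0
  refine hx1 n ⟨?_, hn'⟩
  exact map_mem_closure (F.cf.iterate n) hx fun w hw => F.Gam_iter hw n


end Dis

end Pool.Agent.Lib.MP_3fe454_an.PD
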