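import Pool.Agent.Lib.MP_3fe454_an.PD.Basic2

/-!
Triangular charts along an orbit and one step cone estimates.
-/

set_option autoImplicit false

open Set Metric Filter Topology MeasureTheory Function
open scoped ComplexConjugate ENNReal

namespace Pool.Agent.Lib.MP_3fe454_an.PD

namespace Dis

variable (F : Dis)


private theorem chart_mul_conj {e : ℂ} (he : ‖e‖ = 1) : e * conj e = 1 := by
  rw [Complex.mul_conj, Complex.normSq_eq_norm_sq, he]; simp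

private theorem chart_disc {o : ℤ → ℂ × ℂ} (h : F.IsOrb o) (t : ℤ) : (o t).1 ∈ Disc :=
  F.Λ_sub_Disc (h t).1

private theorem chart_De {o : ℤ → ℂ × ℂ} (h : F.IsOrb o) (t : ℤ) :
    F.D (o t).1 (o t).2 = (F.ca o t : ℂ) * (o (t + 1)).2 := (h t).2.2.2

private theorem chart_DI {o : ℤ → ℂ × ℂ} (h : F.IsOrb o) (t : ℤ) :
    F.D (o t).1 (Complex.I * (o t).2) =
      ((F.cb o t : ℂ) + (F.cc o t : ℂ) * Complex.I) * (o (t + 1)).2 := by
  unfold cb cc
  rw [Complex.re_add_im, mul_assoc, mul_comm (conj _), chart_mul_conj (h (t + 1)).2.1, mul_one]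

private theorem chart_DI_norm {o : ℤ → ℂ × ℂ} (h : F.IsOrb o) (t : ℤ) :
    ‖F.D (o t).1 (Complex.I * (o t).2) * conj (o (t + 1)).2‖ ≤ F.M := by
  rw [norm_mul, Complex.norm_conj, (h (t + 1)).2.1, mul_one]
  have h1 := (F.D (o t).1).le_opNorm (Complex.I * (o t).2)
  rw [norm_mul, Complex.norm_I, (h t).2.1, mul_one, mul_one] at h1
  exact h1.trans (F.up _ (F.chart_disc h t))

private theorem chart_det {o : ℤ → ℂ × ℂ} (h : F.IsOrb o) (t : ℤ) :
    (F.D (o t).1).det = F.ca o t * F.cc o t := by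
  rw [det_eq _ (h t).2.1, F.chart_De h t, F.chart_DI h t]
  have e : conj ((F.ca o t : ℂ) * (o (t + 1)).2) *
      (((F.cb o t : ℂ) + (F.cc o t : ℂ) * Complex.I) * (o (t + 1)).2) =
      (F.ca o t : ℂ) * ((F.cb o t : ℂ) + (F.cc o t : ℂ) * Complex.I) *
        ((o (t + 1)).2 * conj (o (t + 1)).2) := by
    rw [map_mul, Complex.conj_ofReal]; ring
  rw [e, chart_mul_conj (h (t + 1)).2.1]
  simp

private theorem chart_δ_le : F.δ0 ≤ 1 / 4 := min_le_left _ _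

theorem orb_iter {o : ℤ → ℂ × ℂ} (h : F.IsOrb o) (i : ℤ) (n : ℕ) :
    (o (i + n)).1 = F.f^[n] (o i).1 := by
  induction n with
  | zero => simp
  | succ n ih =>
    rw [Function.iterate_succ_apply', ← ih, ← (h (i + n)).2.2.1]
    push_cast
    rw [add_assoc]

theorem ca_bd {o : ℤ → ℂ × ℂ} (h : F.IsOrb o) (t : ℤ) :
    F.m ≤ F.ca o t ∧ F.ca o t ≤ F.M ∧ Real.log (F.ca o t) = F.la (o t) := by
  refine ⟨?_, ?_, rfl⟩
  · have h1 := F.low _ (F.chart_disc h t) (o t).2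
    rwa [(h t).2.1, mul_one] at h1
  · have h1 := (F.D (o t).1).le_opNorm (o t).2
    rw [(h t).2.1, mul_one] at h1
    exact h1.trans (F.up _ (F.chart_disc h t))

theorem cb_bd {o : ℤ → ℂ × ℂ} (h : F.IsOrb o) (t : ℤ) : |F.cb o t| ≤ F.M := by
  exact (Complex.abs_re_le_norm _).trans (F.chart_DI_norm h t)

theorem cc_bd {o : ℤ → ℂ × ℂ} (h : F.IsOrb o) (t : ℤ) :
    F.m ≤ |F.cc o t| ∧ |F.cc o t| ≤ F.M ∧
      Real.log |F.cc o t| = F.ld (o t) - F.la (o t) := by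
  obtain ⟨a1, a2, a3⟩ := F.ca_bd h t
  have a0 : 0 < F.ca o t := F.m_pos.trans_le a1
  have hM : 0 < F.M := zero_lt_one.trans_le F.one_le_M
  have hd : |(F.D (o t).1).det| = F.ca o t * |F.cc o t| := by
    rw [F.chart_det h t, abs_mul, abs_of_pos a0]
  have c1 : F.m ≤ |F.cc o t| := by
    have h1 := F.det_ge _ (F.chart_disc h t)
    rw [hd] at h1
    have h2 : F.ca o t * |F.cc o t| ≤ F.M * |F.cc o t| :=
      mul_le_mul_of_nonneg_right a2 (abs_nonneg _)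
    exact le_of_mul_le_mul_left (by linarith [mul_comm F.m F.M]) hM
  refine ⟨c1, (Complex.abs_im_le_norm _).trans (F.chart_DI_norm h t), ?_⟩
  have c0 : 0 < |F.cc o t| := F.m_pos.trans_le c1
  rw [← a3]
  unfold ld
  rw [hd, Real.log_mul a0.ne' c0.ne']
  ring

theorem D_co {o : ℤ → ℂ × ℂ} (h : F.IsOrb o) (t : ℤ) (v u : ℝ) :
    F.D (o t).1 (((v : ℂ) + (u : ℂ) * Complex.I) * (o t).2) =
      (((F.ca o t * v + F.cb o t * u : ℝ) : ℂ) + ((F.cc o t * u : ℝ) : ℂ) * Complex.I) *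
        (o (t + 1)).2 := by
  have e : ((v : ℂ) + (u : ℂ) * Complex.I) * (o t).2 =
      v • (o t).2 + u • (Complex.I * (o t).2) := by
    rw [Complex.real_smul, Complex.real_smul]; ring
  rw [e, map_add, map_smul, map_smul, F.chart_De h t, F.chart_DI h t, Complex.real_smul,
    Complex.real_smul]
  push_cast
  ring

theorem chart {o : ℤ → ℂ × ℂ} (h : F.IsOrb o) (t : ℤ) {ρ : ℝ} {w w' : ℂ} (hw : w ∈ Disc)
    (hw' : w' ∈ Disc) (h1 : ‖w - (o t).1‖ ≤ ρ) (h2 : ‖w' - (o t).1‖ ≤ ρ) :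
    |(co (F.f w') (o (t + 1)).2 (F.f w)).re -
        (F.ca o t * (co w' (o t).2 w).re + F.cb o t * (co w' (o t).2 w).im)| ≤
      F.H * ρ ^ F.α * ‖w - w'‖ ∧
    |(co (F.f w') (o (t + 1)).2 (F.f w)).im - F.cc o t * (co w' (o t).2 w).im| ≤
      F.H * ρ ^ F.α * ‖w - w'‖ := by
  have hz := F.chart_disc h t
  have hR : ‖F.f w - F.f w' - F.D (o t).1 (w - w')‖ ≤ F.H * ρ ^ F.α * ‖w - w'‖ := by
    refine Convex.norm_image_sub_le_of_norm_hasFDerivWithin_le' (𝕜 := ℝ)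
      (s := Disc ∩ closedBall (o t).1 ρ) (f' := F.D)
      (fun x hx => (F.deriv x hx.1).mono inter_subset_left) (fun x hx => ?_)
      ((convex_closedBall _ _).inter (convex_closedBall _ _))
      ⟨hw', mem_closedBall_iff_norm.2 h2⟩ ⟨hw, mem_closedBall_iff_norm.2 h1⟩
    refine (F.hol x hx.1 _ hz).trans (mul_le_mul_of_nonneg_left ?_ F.H_pos.le)
    exact Real.rpow_le_rpow (norm_nonneg _) (mem_closedBall_iff_norm.1 hx.2) F.α_pos.le
  have e1 : w - w' = (((co w' (o t).2 w).re : ℂ) + ((co w' (o t).2 w).im : ℂ) * Complex.I) *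
      (o t).2 := by
    have h3 := pt_co (z := w') (h t).2.1 w
    unfold pt at h3
    exact (eq_sub_of_add_eq' h3).symm
  have e2 := F.D_co h t (co w' (o t).2 w).re (co w' (o t).2 w).im
  rw [← e1] at e2
  obtain ⟨R, hRdef⟩ : ∃ R, R = F.f w - F.f w' - F.D (o t).1 (w - w') := ⟨_, rfl⟩
  rw [← hRdef] at hR
  have e3 : co (F.f w') (o (t + 1)).2 (F.f w) =
      (((F.ca o t * (co w' (o t).2 w).re + F.cb o t * (co w' (o t).2 w).im : ℝ) : ℂ) +
        ((F.cc o t * (co w' (o t).2 w).im : ℝ) : ℂ) * Complex.I) + R * conj (o (t + 1)).2 := by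
    have e4 : F.f w - F.f w' = F.D (o t).1 (w - w') + R := by rw [hRdef]; ring
    change (F.f w - F.f w') * conj (o (t + 1)).2 = _
    rw [e4, e2, add_mul, mul_assoc, chart_mul_conj (h (t + 1)).2.1, mul_one]
  have hn : ‖R * conj (o (t + 1)).2‖ ≤ F.H * ρ ^ F.α * ‖w - w'‖ := by
    rwa [norm_mul, Complex.norm_conj, (h (t + 1)).2.1, mul_one]
  rw [e3]
  constructor
  · refine le_trans (le_of_eq ?_) ((Complex.abs_re_le_norm _).trans hn)
    congr 1
    simp only [Complex.add_re, Complex.ofReal_re, Complex.mul_re, Complex.I_re, Complex.I_im,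
      Complex.ofReal_im]
    ring
  · refine le_trans (le_of_eq ?_) ((Complex.abs_im_le_norm _).trans hn)
    congr 1
    simp only [Complex.add_im, Complex.ofReal_re, Complex.mul_im, Complex.I_re, Complex.I_im,
      Complex.ofReal_im]
    ring

private theorem chart_den {o : ℤ → ℂ × ℂ} (h : F.IsOrb o) (t : ℤ) :
    0 < (1 - F.δ0) * |F.cc o t| :=
  mul_pos (by linarith [F.chart_δ_le]) (F.m_pos.trans_le (F.cc_bd h t).1)

private theorem chart_Th_nonneg {o : ℤ → ℂ × ℂ} (h : F.IsOrb o) {x0 : ℝ} (hx : 0 ≤ x0) (t : ℕ) :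
    0 ≤ F.Th o x0 t := by
  induction t with
  | zero => exact hx
  | succ t ih =>
    have a0 : 0 ≤ F.ca o t := norm_nonneg _
    have hM : 0 < F.M := zero_lt_one.trans_le F.one_le_M
    have hΘ : 0 < F.Θmin := zero_lt_one.trans_le F.one_le_Θmin
    have hδ := F.δ0_pos
    exact div_nonneg (by positivity) (F.chart_den h t).le

theorem Th_ge {o : ℤ → ℂ × ℂ} (h : F.IsOrb o) {x0 : ℝ} (hx : 0 ≤ x0) (t : ℕ) :
    F.Θmin ≤ F.Th o x0 (t + 1) := by
  have a0 : 0 ≤ F.ca o t := norm_nonneg _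
  have hM : 0 < F.M := zero_lt_one.trans_le F.one_le_M
  have hΘ : 0 < F.Θmin := zero_lt_one.trans_le F.one_le_Θmin
  have hδ := F.δ0_pos
  have h0 := F.chart_Th_nonneg h hx t
  refine (le_div_iff₀ (F.chart_den h t)).2 ?_
  have h1 : (1 - F.δ0) * |F.cc o t| ≤ 1 * F.M :=
    mul_le_mul (by linarith) (F.cc_bd h t).2.1 (abs_nonneg _) zero_le_one
  have h2 := mul_le_mul_of_nonneg_left h1 hΘ.le
  have h3 : 0 ≤ (1 + 2 * F.δ0) * F.ca o t * F.Th o x0 t := by positivity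
  linarith

theorem Th_nonneg {o : ℤ → ℂ × ℂ} (h : F.IsOrb o) {x0 : ℝ} (hx : 0 ≤ x0) (t : ℕ) :
    0 ≤ F.Th o x0 t := by
  exact F.chart_Th_nonneg h hx t

theorem Th_mono {o : ℤ → ℂ × ℂ} (h : F.IsOrb o) {x0 x1 : ℝ} (hx : x0 ≤ x1) (t : ℕ) :
    F.Th o x0 t ≤ F.Th o x1 t := by
  induction t with
  | zero => exact hx
  | succ t ih =>
    have a0 : 0 ≤ F.ca o t := norm_nonneg _
    have hδ := F.δ0_pos
    refine div_le_div_of_nonneg_right ?_ (F.chart_den h t).le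
    have := mul_le_mul_of_nonneg_left ih (show 0 ≤ (1 + 2 * F.δ0) * F.ca o t by positivity)
    linarith

/-- one step in the unstable cone -/
theorem step_u {o : ℤ → ℂ × ℂ} (h : F.IsOrb o) {x0 : ℝ} (hx : 0 ≤ x0) (t : ℕ) {E : ℝ}
    {d d' : ℂ} (hE : E * (1 + F.Th o x0 t) ≤ F.δ0 * F.m)
    (h1 : |d'.re - (F.ca o t * d.re + F.cb o t * d.im)| ≤ E * ‖d‖)
    (h2 : |d'.im - F.cc o t * d.im| ≤ E * ‖d‖) (hd : |d.re| ≤ F.Th o x0 t * |d.im|) :
    |d'.re| ≤ F.Th o x0 (t + 1) * |d'.im| ∧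
      (1 - F.δ0) * |F.cc o t| * |d.im| ≤ |d'.im| ∧ |d'.im| ≤ (1 + F.δ0) * |F.cc o t| * |d.im| ∧
      (d.im ≠ 0 → 0 < F.cc o t * d.im * d'.im ∧ |d'.re| < F.Th o x0 (t + 1) * |d'.im|) := by
  have hΘ := F.chart_Th_nonneg h hx t
  have hΘ' := F.chart_Th_nonneg h hx (t + 1)
  have hδ := F.δ0_pos
  have hδ' := F.chart_δ_le
  have hm := F.m_pos
  have hm1 := F.m_le
  have hM := F.one_le_M
  have hΘm := F.one_le_Θmin
  obtain ⟨a1, -, -⟩ := F.ca_bd h t
  have a0 : 0 < F.ca o t := hm.trans_le a1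
  have b1 := F.cb_bd h t
  obtain ⟨c1, -, -⟩ := F.cc_bd h t
  have hy := abs_nonneg d.im
  have hT : F.Th o x0 (t + 1) * ((1 - F.δ0) * |F.cc o t|) =
      (1 + 2 * F.δ0) * F.ca o t * F.Th o x0 t + (F.M * F.Θmin + 2 * F.M) :=
    div_mul_cancel₀ _ (F.chart_den h t).ne'
  have hn : ‖d‖ ≤ (1 + F.Th o x0 t) * |d.im| := by
    have := Complex.norm_le_abs_re_add_abs_im d
    linarith
  have hε : E * ‖d‖ ≤ F.δ0 * F.m * |d.im| := by
    rcases le_total 0 E with hE0 | hE0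
    · calc E * ‖d‖ ≤ E * ((1 + F.Th o x0 t) * |d.im|) := mul_le_mul_of_nonneg_left hn hE0
        _ = E * (1 + F.Th o x0 t) * |d.im| := by ring
        _ ≤ _ := mul_le_mul_of_nonneg_right hE hy
    · exact (mul_nonpos_of_nonpos_of_nonneg hE0 (norm_nonneg _)).trans (by positivity)
  have hε' : F.δ0 * F.m * |d.im| ≤ F.δ0 * |F.cc o t| * |d.im| :=
    mul_le_mul_of_nonneg_right (mul_le_mul_of_nonneg_left c1 hδ.le) hy
  have i0 : |d'.im - F.cc o t * d.im| ≤ F.δ0 * |F.cc o t| * |d.im| := (h2.trans hε).trans hε'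
  have i1 := abs_sub_abs_le_abs_sub d'.im (F.cc o t * d.im)
  have i2 := abs_sub_abs_le_abs_sub (F.cc o t * d.im) d'.im
  rw [abs_sub_comm (F.cc o t * d.im)] at i2
  rw [abs_mul] at i1 i2
  have lo : (1 - F.δ0) * |F.cc o t| * |d.im| ≤ |d'.im| := by linarith
  have hi : |d'.im| ≤ (1 + F.δ0) * |F.cc o t| * |d.im| := by linarith
  have r1 : |d'.re| ≤ (F.ca o t * F.Th o x0 t + F.M + F.δ0 * F.m) * |d.im| := by
    have j1 := abs_sub_abs_le_abs_sub d'.re (F.ca o t * d.re + F.cb o t * d.im)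
    have j2 := abs_add_le (F.ca o t * d.re) (F.cb o t * d.im)
    rw [abs_mul, abs_mul, abs_of_pos a0] at j2
    have j3 := mul_le_mul_of_nonneg_left hd a0.le
    have j4 := mul_le_mul_of_nonneg_right b1 hy
    linarith
  have r2 : ((1 + 2 * F.δ0) * F.ca o t * F.Th o x0 t + (F.M * F.Θmin + 2 * F.M)) * |d.im| ≤
      F.Th o x0 (t + 1) * |d'.im| := by
    rw [← hT, mul_assoc]
    exact mul_le_mul_of_nonneg_left lo hΘ'
  have r3 : F.ca o t * F.Th o x0 t + F.M + F.δ0 * F.m <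
      (1 + 2 * F.δ0) * F.ca o t * F.Th o x0 t + (F.M * F.Θmin + 2 * F.M) := by
    have k1 : 0 ≤ F.δ0 * (F.ca o t * F.Th o x0 t) := by positivity
    have k2 : F.δ0 * F.m ≤ 1 / 4 * 1 := mul_le_mul hδ' hm1 hm.le (by norm_num)
    have k3 : 0 < F.M * F.Θmin := by positivity
    linarith
  refine ⟨(r1.trans (mul_le_mul_of_nonneg_right r3.le hy)).trans r2, lo, hi, fun hne => ⟨?_, ?_⟩⟩
  · have p0 : 0 < |F.cc o t * d.im| := by
      rw [abs_mul]; exact mul_pos (hm.trans_le c1) (abs_pos.2 hne)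
    rw [mul_assoc, ← abs_mul] at i0
    generalize F.cc o t * d.im = p at i0 p0
    have p1 : |p * (d'.im - p)| ≤ |p| * (F.δ0 * |p|) := by
      rw [abs_mul]; exact mul_le_mul_of_nonneg_left i0 p0.le
    have p2 := neg_abs_le (p * (d'.im - p))
    have p3 : |p| * |p| = p * p := abs_mul_abs_self p
    have p4 : 0 < |p| * |p| := mul_pos p0 p0
    have p5 : F.δ0 * (|p| * |p|) ≤ 1 / 4 * (|p| * |p|) := mul_le_mul_of_nonneg_right hδ' p4.le
    linarith
  · exact (r1.trans_lt (mul_lt_mul_of_pos_right r3 (abs_pos.2 hne))).trans_le r2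

/-- one step in the stable cone -/
theorem step_s {o : ℤ → ℂ × ℂ} (h : F.IsOrb o) (t : ℤ) {Θ E : ℝ} {d d' : ℂ}
    (hΘ : F.Θmin ≤ Θ) (hE : E * (1 + Θ) ≤ F.δ0 * F.m)
    (h1 : |d'.re - (F.ca o t * d.re + F.cb o t * d.im)| ≤ E * ‖d‖)
    (hd : Θ * |d.im| ≤ |d.re|) : |d'.re| ≤ (1 + 2 * F.δ0) * F.ca o t * |d.re| := by
  have hδ := F.δ0_pos
  have hm := F.m_pos
  have hΘm := F.one_le_Θmin
  obtain ⟨a1, -, -⟩ := F.ca_bd h t
  have a0 : 0 < F.ca o t := hm.trans_le a1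
  have b1 := F.cb_bd h t
  have hy := abs_nonneg d.im
  have hx := abs_nonneg d.re
  have h2 : F.Θmin * |d.im| ≤ |d.re| := (mul_le_mul_of_nonneg_right hΘ hy).trans hd
  have h3 : F.M * |d.im| ≤ F.δ0 * F.m * |d.re| := by
    have e : F.M = F.δ0 * F.m * F.Θmin := by
      unfold Θmin
      field_simp
    rw [e, mul_assoc]
    exact mul_le_mul_of_nonneg_left h2 (by positivity)
  have h4 : |d.im| ≤ |d.re| := (le_mul_of_one_le_left hy hΘm).trans h2
  have hε : E * ‖d‖ ≤ F.δ0 * F.m * |d.re| := by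
    rcases le_total 0 E with hE0 | hE0
    · have k1 : ‖d‖ ≤ (1 + Θ) * |d.re| := by
        have k2 := Complex.norm_le_abs_re_add_abs_im d
        have k3 : |d.re| ≤ Θ * |d.re| := le_mul_of_one_le_left hx (hΘm.trans hΘ)
        linarith
      calc E * ‖d‖ ≤ E * ((1 + Θ) * |d.re|) := mul_le_mul_of_nonneg_left k1 hE0
        _ = E * (1 + Θ) * |d.re| := by ring
        _ ≤ _ := mul_le_mul_of_nonneg_right hE hx
    · exact (mul_nonpos_of_nonpos_of_nonneg hE0 (norm_nonneg _)).trans (by positivity)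
  have j1 := abs_sub_abs_le_abs_sub d'.re (F.ca o t * d.re + F.cb o t * d.im)
  have j2 := abs_add_le (F.ca o t * d.re) (F.cb o t * d.im)
  rw [abs_mul, abs_mul, abs_of_pos a0] at j2
  have j4 := mul_le_mul_of_nonneg_right b1 hy
  have j5 : F.δ0 * F.m * |d.re| ≤ F.δ0 * F.ca o t * |d.re| :=
    mul_le_mul_of_nonneg_right (mul_le_mul_of_nonneg_left a1 hδ.le) hx
  linarith


end Dis

end Pool.Agent.Lib.MP_3fe454_an.PD
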