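import Pool.Agent.Lib.MP_3fe454_an.PD.Leaf2

/-!
The stable class of a typical point is a chord.
-/

set_option autoImplicit false

open Set Metric Filter Topology MeasureTheory Function
open scoped ComplexConjugate ENNReal

namespace Pool.Agent.Lib.MP_3fe454_an.PD

/-- first exit from a closed set to the right -/
theorem chord1_exit {W : Set ℝ} (hW : IsClosed W) {a b : ℝ} (hab : a ≤ b) (ha : a ∈ W)
    (hb : b ∉ W) : ∃ p ∈ Icc a b, Icc a p ⊆ W ∧ ∀ q, p < q → ∃ v, p < v ∧ v < q ∧ v ∉ W := by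
  have hne : (Icc a b \ W).Nonempty := ⟨b, ⟨hab, le_rfl⟩, hb⟩
  have hbd : BddBelow (Icc a b \ W) := ⟨a, fun v hv => hv.1.1⟩
  have h1 : a ≤ sInf (Icc a b \ W) := le_csInf hne fun v hv => hv.1.1
  have h2 : sInf (Icc a b \ W) ≤ b := csInf_le hbd ⟨⟨hab, le_rfl⟩, hb⟩
  have h3 : Ico a (sInf (Icc a b \ W)) ⊆ W := fun v hv => by_contra fun hc =>
    absurd (csInf_le hbd ⟨⟨hv.1, hv.2.le.trans h2⟩, hc⟩) (not_le.2 hv.2)
  have h4 : Icc a (sInf (Icc a b \ W)) ⊆ W := by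
    rcases h1.eq_or_lt with h | h
    · rw [← h, Icc_self]
      exact singleton_subset_iff.2 ha
    · rw [← closure_Ico h.ne]
      exact hW.closure_subset_iff.2 h3
  refine ⟨_, ⟨h1, h2⟩, h4, fun q hq => ?_⟩
  obtain ⟨v, hv, hvq⟩ := exists_lt_of_csInf_lt hne hq
  exact ⟨v, lt_of_le_of_ne (csInf_le hbd hv) fun e => hv.2 (h4 ⟨hv.1.1, e.ge⟩), hvq, hv.2⟩

/-- first exit from a closed set to the left -/
theorem chord1_exit' {W : Set ℝ} (hW : IsClosed W) {a b : ℝ} (hab : b ≤ a) (ha : a ∈ W)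
    (hb : b ∉ W) : ∃ p ∈ Icc b a, Icc p a ⊆ W ∧ ∀ q, q < p → ∃ v, q < v ∧ v < p ∧ v ∉ W := by
  obtain ⟨p, h1, h2, h3⟩ := chord1_exit (W := Neg.neg ⁻¹' W) (hW.preimage continuous_neg)
    (neg_le_neg hab) (by simpa using ha) (by simpa using hb)
  refine ⟨-p, ⟨by linarith [h1.2], by linarith [h1.1]⟩, fun v hv => ?_, fun q hq => ?_⟩
  · have := h2 (show -v ∈ Icc (-a) p from ⟨by linarith [hv.2], by linarith [hv.1]⟩)
    simpa using this
  · obtain ⟨v, a1, a2, a3⟩ := h3 (-q) (by linarith)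
    exact ⟨-v, by linarith, by linarith, a3⟩

theorem chord1_not_nhds {W : Set ℝ} {p : ℝ} (h : ∀ q, p < q → ∃ v, p < v ∧ v < q ∧ v ∉ W) :
    W ∉ 𝓝 p := fun hW => by
  obtain ⟨l, u, h1, h2⟩ := mem_nhds_iff_exists_Ioo_subset.1 hW
  obtain ⟨v, a1, a2, a3⟩ := h u h1.2
  exact a3 (h2 ⟨h1.1.trans a1, a2⟩)

theorem chord1_not_nhds' {W : Set ℝ} {p : ℝ} (h : ∀ q, q < p → ∃ v, q < v ∧ v < p ∧ v ∉ W) :
    W ∉ 𝓝 p := fun hW => by
  obtain ⟨l, u, h1, h2⟩ := mem_nhds_iff_exists_Ioo_subset.1 hW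
  obtain ⟨v, a1, a2, a3⟩ := h l h1.1
  exact a3 (h2 ⟨a1, a2.trans h1.2⟩)

/-- a connected set off the chord lies on one side -/
theorem chord1_side {U Γ L R : Set ℂ} (hL : IsClosed L) (hR : IsClosed R) (hU : IsPreconnected U)
    (h1 : U ⊆ L ∪ R) (h2 : L ∩ R ⊆ Γ) (h3 : Disjoint U Γ) {A : ℂ} (hA : A ∈ U) (hA' : A ∉ L) :
    Disjoint U L := by
  rw [Set.disjoint_left]
  intro w hw hwL
  obtain ⟨y, a1, a2⟩ := isPreconnected_closed_iff.1 hU L R hL hR h1 ⟨w, hw, hwL⟩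
    ⟨A, hA, (h1 hA).resolve_left hA'⟩
  exact Set.disjoint_left.1 h3 a1 (h2 a2)

theorem chord1_co_self (x e : ℂ) : co x e x = 0 := by simp [co]

theorem chord1_re {z e : ℂ} (he : ‖e‖ = 1) (v u : ℝ) : (co z e (pt z e v u)).re = v := by
  rw [co_pt he]
  simp

theorem chord1_im {z e : ℂ} (he : ‖e‖ = 1) (v u : ℝ) : (co z e (pt z e v u)).im = u := by
  rw [co_pt he]
  simp

namespace Blk

variable {F : Dis} (B : Blk F)

theorem chord1_ht_self {x e z0 e0 : ℂ} (h : B.Adm x e z0 e0) : B.ht x z0 e0 x = 0 := by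
  refine B.ht_zero h (B.self_mem_S x) ((Complex.abs_re_le_norm _).trans ?_)
  rw [norm_co h.2.1]
  linarith [h.2.2.2, B.η_pos]

theorem chord1_psi {x e : ℂ} (h : (x, e) ∈ B.K) (v : ℝ) : |B.psi x x e v| ≤ 1 / 8 * |v| := by
  have h1 := B.chord1_ht_self (B.adm_self h)
  have h2 := B.psi_lip_self h v 0
  rw [ht, chord1_co_self, Complex.zero_im, Complex.zero_re, zero_sub, neg_eq_zero] at h1
  rw [h1, sub_zero, sub_zero] at h2
  exact h2.trans (mul_le_mul_of_nonneg_right B.σ_le (abs_nonneg v))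

theorem chord1_r : 200 * B.η ≤ B.r := by
  nlinarith [B.scale, B.one_le_C1, B.η_pos]

theorem chord_of_exit {w1 : ℝ} (hw : 0 < w1) {x : ℂ} (hx : ‖x‖ < 1) {t : ℕ} {e z0 e0 : ℂ}
    (ha : B.SAdm (F.f^[t] x) e z0 e0) (hnr : B.NR w1 (F.f^[t] x)) {v1 v2 : ℝ}
    (h1 : v1 ∈ Icc (co z0 e0 (F.f^[t] x)).re (2 * B.η))
    (h2 : v2 ∈ Icc (-(2 * B.η)) (co z0 e0 (F.f^[t] x)).re)
    (h1' : B.lf (F.f^[t] x) z0 e0 v1 ∉ F.Ω t) (h2' : B.lf (F.f^[t] x) z0 e0 v2 ∉ F.Ω t) :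
    IsChord (F.Gam x) := by
  have hxD : x ∈ Disc := mem_closedBall_zero_iff.2 hx.le
  have hη := B.η_pos
  have hA := SAdm.adm B ha
  have he : ‖e0‖ = 1 := hA.2.1
  have hg : F.g^[t] (F.f^[t] x) = x := F.iter_g_f hxD t
  have hn : F.Ω t ∈ 𝓝 (F.f^[t] x) := F.Ω_mem_nhds hx t
  have hz : ∀ P, F.StC P → x ∈ P → F.f^[t] x ∈ F.f^[t] '' P := fun P _ h => mem_image_of_mem _ h
  generalize F.f^[t] x = z at *
  have hl : Continuous (B.lf z z0 e0) := B.continuous_lf hA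
  have hl0 : z = B.lf z z0 e0 (co z0 e0 z).re := B.eq_lf he (B.chord1_ht_self hA)
  have hre : ∀ v, (co z0 e0 (B.lf z z0 e0 v)).re = v := fun v => (B.co_lf he v).1
  have hht : Continuous (B.ht z z0 e0) := B.continuous_ht hA
  have hht0 := B.chord1_ht_self hA
  have hco : Continuous fun w => (co z0 e0 w).re := Complex.continuous_re.comp (continuous_co z0 e0)
  have hst : ∀ a b, -(8 * B.η) ≤ a → b ≤ 8 * B.η → F.StC (B.lf z z0 e0 '' Icc a b) :=
    fun a b h h' => B.arc_StC hA h h'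
  have heq : ∀ w, B.ht z z0 e0 w = 0 → w = B.lf z z0 e0 (co z0 e0 w).re := fun w h => B.eq_lf he h
  replace hnr := hnr e z0 e0 ha
  generalize B.lf z z0 e0 = l at *
  generalize B.ht z z0 e0 = ht at *
  generalize hv0 : (co z0 e0 z).re = v0 at *
  have hW : IsClosed (l ⁻¹' F.Ω t) := (F.Ω_compact t).isClosed.preimage hl
  have hn0 : l ⁻¹' F.Ω t ∈ 𝓝 v0 := hl.continuousAt.preimage_mem_nhds (hl0 ▸ hn)
  have hm0 : v0 ∈ l ⁻¹' F.Ω t := mem_of_mem_nhds hn0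
  obtain ⟨p, p1, p2, p3⟩ := chord1_exit hW h1.1 hm0 h1'
  obtain ⟨q, q1, q2, q3⟩ := chord1_exit' hW h2.2 hm0 h2'
  have p4 := chord1_not_nhds p3
  have q4 := chord1_not_nhds' q3
  have p5 : v0 < p := lt_of_le_of_ne p1.1 fun k => p4 (k ▸ hn0)
  have hqp : q < p := q1.2.trans_lt p5
  have hsub : Icc q p ⊆ l ⁻¹' F.Ω t := fun v hv => by
    rcases le_total v v0 with k | k
    exacts [q2 ⟨hv.1, k⟩, p2 ⟨k, hv.2⟩]
  have hend : ∀ v ∈ l ⁻¹' F.Ω t, l ⁻¹' F.Ω t ∉ 𝓝 v → ‖F.g^[t] (l v)‖ = 1 := fun v hv hv' => by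
    obtain ⟨k1, k2⟩ := F.Ω_pull hv
    refine le_antisymm (mem_closedBall_zero_iff.1 k1) (not_lt.1 fun k => hv' ?_)
    exact hl.continuousAt.preimage_mem_nhds (k2 ▸ F.Ω_mem_nhds k t)
  have hin : ∀ s ∈ Icc (0 : ℝ) 1, q + s * (p - q) ∈ Icc q p := fun s hs =>
    ⟨by nlinarith [hs.1], by nlinarith [hs.2]⟩
  refine ⟨fun s => F.g^[t] (l (q + s * (p - q))), ?_, fun s hs s' hs' k => ?_, ?_, ?_, ?_,
    F.Gam_sub_Disc x⟩
  · exact ((F.cg.iterate t).comp (hl.comp (by fun_prop))).continuousOn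
  · have k1 := congrArg F.f^[t] k
    simp only at k1
    rw [(F.Ω_pull (hsub (hin s hs))).2, (F.Ω_pull (hsub (hin s' hs'))).2] at k1
    have k2 := congrArg (fun w => (co z0 e0 w).re) k1
    simp only [hre] at k2
    exact mul_right_cancel₀ (sub_pos.2 hqp).ne' (add_left_cancel k2)
  · simp only [zero_mul, add_zero]
    exact hend q (hsub ⟨le_rfl, hqp.le⟩) q4
  · simp only [one_mul, add_sub_cancel]
    exact hend p (hsub ⟨hqp.le, le_rfl⟩) p4
  refine Subset.antisymm ?_ ?_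
  · rintro w ⟨P, hP, hxP, hwP⟩
    have a1 := F.StC_image hP t
    have a2 := hz P hP hxP
    have a3 := F.StC_sub_Gam a1 a2
    have a4 : F.f^[t] '' P ⊆ F.Ω t := image_mono hP.2.2.1
    have a5 : ∀ y ∈ F.f^[t] '' P, (co z0 e0 y).re ∈ Icc v2 v1 → |ht y| ≤ w1 → ht y = 0 :=
      fun y hy k k' => hnr y (a3 hy)
        (abs_le.2 ⟨by linarith [k.1, h2.1], by linarith [k.2, h1.2]⟩) k'
    have a6 : F.f^[t] '' P ⊆ {y | (co z0 e0 y).re ∈ Ioo v2 v1 ∧ |ht y| < w1} := by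
      refine a1.2.1.subset_left_of_subset_union
        (v := {y | (co z0 e0 y).re ∈ Icc v2 v1 ∧ |ht y| ≤ w1}ᶜ)
        ((isOpen_Ioo.preimage hco).inter (isOpen_lt hht.abs continuous_const))
        ((isClosed_Icc.preimage hco).inter (isClosed_le hht.abs continuous_const)).isOpen_compl
        (Set.disjoint_left.2 fun y k k' => k' ⟨Ioo_subset_Icc_self k.1, k.2.le⟩)
        (fun y hy => ?_) ⟨z, a2, ?_, by rw [hht0, abs_zero]; exact hw⟩
      · by_cases k : (co z0 e0 y).re ∈ Icc v2 v1 ∧ |ht y| ≤ w1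
        swap
        · exact Or.inr k
        have k1 := a5 y hy k.1 k.2
        have k2 : l (co z0 e0 y).re ∈ F.Ω t := heq y k1 ▸ a4 hy
        exact Or.inl ⟨⟨lt_of_le_of_ne k.1.1 fun k3 => h2' (k3 ▸ k2),
          lt_of_le_of_ne k.1.2 fun k3 => h1' (k3 ▸ k2)⟩, by rw [k1, abs_zero]; exact hw⟩
      · rw [hv0]
        exact ⟨lt_of_le_of_ne h2.2 fun k3 => h2' (k3 ▸ hm0),
          lt_of_le_of_ne h1.1 fun k3 => h1' (k3 ▸ hm0)⟩
    have a7 : ∀ y ∈ F.f^[t] '' P, y = l (co z0 e0 y).re := fun y hy =>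
      heq y (a5 y hy (Ioo_subset_Icc_self (a6 hy).1) (a6 hy).2.le)
    have a8 := (a1.2.1.image _ hco.continuousOn).ordConnected
    have a9 : (fun w => (co z0 e0 w).re) '' (F.f^[t] '' P) ⊆ l ⁻¹' F.Ω t := by
      rintro _ ⟨y, hy, rfl⟩
      exact (a7 y hy ▸ a4 hy : l (co z0 e0 y).re ∈ F.Ω t)
    have b1 : v0 ∈ (fun w => (co z0 e0 w).re) '' (F.f^[t] '' P) := ⟨z, a2, hv0⟩
    have b2 := mem_image_of_mem (fun w => (co z0 e0 w).re) (mem_image_of_mem F.f^[t] hwP)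
    have b3 := a7 _ (mem_image_of_mem F.f^[t] hwP)
    generalize (co z0 e0 (F.f^[t] w)).re = u at b2 b3
    have b4 : u ≤ p := not_lt.1 fun k => by
      obtain ⟨v, c1, c2, c3⟩ := p3 u k
      exact c3 (a9 (a8.out b1 b2 ⟨(p5.trans c1).le, c2.le⟩))
    have b5 : q ≤ u := not_lt.1 fun k => by
      obtain ⟨v, c1, c2, c3⟩ := q3 u k
      exact c3 (a9 (a8.out b2 b1 ⟨c1.le, c2.le.trans q1.2⟩))
    have b6 : 0 < p - q := sub_pos.2 hqp
    refine ⟨(u - q) / (p - q), ⟨div_nonneg (sub_nonneg.2 b5) b6.le,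
      (div_le_one b6).2 (by linarith)⟩, ?_⟩
    simp only
    rw [div_mul_cancel₀ _ b6.ne', add_sub_cancel, ← b3, F.iter_g_f (hP.2.2.1 hwP)]
  · rintro _ ⟨s, hs, rfl⟩
    have a1 := F.StC_pull (hst q p (by linarith [q1.1, h2.1]) (by linarith [p1.2, h1.2]))
      (image_subset_iff.2 hsub)
    refine F.StC_sub_Gam a1 ⟨z, ⟨v0, ⟨q1.2, p1.1⟩, hl0.symm⟩, hg⟩ ?_
    exact mem_image_of_mem _ (mem_image_of_mem _ (hin s hs))

/-- upper part of the tube -/
def UpT (w1 : ℝ) (x e : ℂ) : Set ℂ :=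
  {w | |(co x e w).re| < B.η ∧ 0 < B.ht x x e w ∧ B.ht x x e w < w1}

theorem isOpen_UpT {w1 : ℝ} {x e : ℂ} (h : (x, e) ∈ B.K) : IsOpen (B.UpT w1 x e) := by
  have h1 := B.continuous_ht (B.adm_self h)
  have h2 : Continuous fun w => (co x e w).re := Complex.continuous_re.comp (continuous_co x e)
  exact (isOpen_lt h2.abs continuous_const).inter
    ((isOpen_lt continuous_const h1).inter (isOpen_lt h1 continuous_const))

theorem chord1_norm {x e : ℂ} (h : (x, e) ∈ B.K) {v u : ℝ} (hv : |v| + |u| ≤ 200 * B.η) :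
    ‖pt x e v u‖ < 1 := by
  have he : ‖e‖ = 1 := B.unit _ h
  refine B.near_norm (B.lam _ h) ?_
  rw [← norm_co he]
  refine (Complex.norm_le_abs_re_add_abs_im _).trans ?_
  rw [chord1_re he, chord1_im he]
  exact hv.trans B.chord1_r

theorem ball_sub_UpT {w1 : ℝ} (hw : 0 < w1) (hw' : w1 ≤ B.η) {x e : ℂ} (h : (x, e) ∈ B.K) :
    ball (pt x e 0 (w1 / 2)) (w1 / 8) ⊆ B.UpT w1 x e ∧ pt x e 0 (w1 / 2) ∈ Disc := by
  have he : ‖e‖ = 1 := B.unit _ h
  refine ⟨fun w hw1 => ?_, mem_closedBall_zero_iff.2 (B.chord1_norm h ?_).le⟩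
  · rw [mem_ball, dist_eq_norm, ← norm_co he, ← co_sub x] at hw1
    have h1 := (Complex.abs_re_le_norm _).trans_lt hw1
    have h2 := (Complex.abs_im_le_norm _).trans_lt hw1
    rw [Complex.sub_re, chord1_re he, sub_zero] at h1
    rw [Complex.sub_im, chord1_im he, abs_lt] at h2
    have h3 := abs_le.1 (B.chord1_psi h (co x e w).re)
    refine ⟨by linarith, ?_, ?_⟩ <;> rw [ht] <;> linarith [h2.1, h2.2, h3.1, h3.2]
  · rw [abs_zero, abs_of_pos (by linarith)]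
    linarith

theorem chord1_UpT_eq {w1 : ℝ} {x e : ℂ} (h : (x, e) ∈ B.K) : B.UpT w1 x e =
    (fun p : ℝ × ℝ => pt x e p.1 (B.psi x x e p.1 + p.2)) '' (Ioo (-B.η) B.η ×ˢ Ioo 0 w1) := by
  have he : ‖e‖ = 1 := B.unit _ h
  ext w
  constructor
  · rintro ⟨h1, h2, h3⟩
    refine ⟨((co x e w).re, B.ht x x e w), ⟨abs_lt.1 h1, h2, h3⟩, ?_⟩
    simp only [ht, add_sub_cancel]
    exact pt_co he w
  · rintro ⟨p, ⟨h1, h2⟩, rfl⟩
    simp only [UpT, ht, mem_ofPred_eq, chord1_re he, chord1_im he, add_sub_cancel_left]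
    exact ⟨abs_lt.2 h1, h2⟩

theorem chord1_UpT_conn {w1 : ℝ} {x e : ℂ} (h : (x, e) ∈ B.K) :
    IsPreconnected (B.UpT w1 x e) := by
  rw [B.chord1_UpT_eq h]
  refine (isPreconnected_Ioo.prod isPreconnected_Ioo).image _ (Continuous.continuousOn ?_)
  have := B.continuous_psi (B.adm_self h)
  unfold pt
  fun_prop

theorem chord1_UpT_disc {w1 : ℝ} (hw' : w1 ≤ B.η) {x e : ℂ} (h : (x, e) ∈ B.K) :
    B.UpT w1 x e ⊆ Disc := by
  rw [B.chord1_UpT_eq h]
  rintro _ ⟨p, ⟨h1, h2⟩, rfl⟩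
  refine mem_closedBall_zero_iff.2 (B.chord1_norm h ?_).le
  have h3 := B.chord1_psi h p.1
  have h4 := abs_add_le (B.psi x x e p.1) p.2
  have h5 := abs_lt.2 h1
  rw [abs_of_pos h2.1] at h4
  linarith [h2.2, B.η_pos]

theorem chord1_UpT_off {w1 : ℝ} {x e : ℂ} (h : (x, e) ∈ B.K) (hnr : B.NR w1 x) :
    Disjoint (B.UpT w1 x e) (F.Gam x) :=
  Set.disjoint_left.2 fun w hw hw' => hw.2.1.ne' (hnr e x e (B.sadm_self h) w hw'
    (by linarith [hw.1, B.η_pos]) (by rw [abs_of_pos hw.2.1]; exact hw.2.2.le))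

theorem two_sides {w1 : ℝ} (hw : 0 < w1) (hw' : w1 ≤ B.η) {x e : ℂ} (h : (x, e) ∈ B.K)
    (hnr : B.NR w1 x) {L R : Set ℂ} (hs : Sides (F.Gam x) L R) :
    (Disjoint (B.UpT w1 x e) L ∧ Disjoint (B.UpT w1 x (-e)) R) ∨
      (Disjoint (B.UpT w1 x e) R ∧ Disjoint (B.UpT w1 x (-e)) L) := by
  have he : ‖e‖ = 1 := B.unit _ h
  have h' := B.neg x e h
  have hη := B.η_pos
  obtain ⟨cL, cR, hu, hi, hc⟩ := hs
  have hA : pt x e 0 (w1 / 2) ∈ B.UpT w1 x e :=
    (B.ball_sub_UpT hw hw' h).1 (mem_ball_self (by linarith))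
  have hB : pt x (-e) 0 (w1 / 2) ∈ B.UpT w1 x (-e) :=
    (B.ball_sub_UpT hw hw' h').1 (mem_ball_self (by linarith))
  have n1 : |(0 : ℝ)| + |w1 / 2| ≤ 200 * B.η := by
    rw [abs_zero, abs_of_pos (by linarith)]
    linarith
  have e1 : pt x (-e) 0 (w1 / 2) = pt x e 0 (-(w1 / 2)) := by
    simp only [pt]
    push_cast
    ring
  have hnr' := hnr e x e (B.sadm_self h)
  have key := hc (pt x e 0 (w1 / 2)) (pt x (-e) 0 (w1 / 2)) x ?_ (B.chord1_norm h n1)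
    (B.chord1_norm h' n1) ?_ ?_ ?_
  · have s1 := B.chord1_UpT_disc hw' h
    have s2 := B.chord1_UpT_disc hw' h'
    have c1 := B.chord1_UpT_conn (w1 := w1) h
    have c2 := B.chord1_UpT_conn (w1 := w1) h'
    have d1 := B.chord1_UpT_off h hnr
    have d2 := B.chord1_UpT_off h' hnr
    rw [← hu] at s1 s2
    have hi' : R ∩ L ⊆ F.Gam x := by rw [inter_comm, hi]
    rcases key with k | k
    · exact Or.inl ⟨chord1_side cL cR c1 s1 hi.le d1 hA k.1,
        chord1_side cR cL c2 (union_comm L R ▸ s2) hi' d2 hB k.2⟩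
    · exact Or.inr ⟨chord1_side cR cL c1 (union_comm L R ▸ s1) hi' d1 hA k.1,
        chord1_side cL cR c2 s2 hi.le d2 hB k.2⟩
  · intro k
    have k1 := congrArg (fun w => (co x e w).im) (k.trans e1)
    simp only [chord1_im he] at k1
    linarith
  · refine ⟨1 / 2, 1 / 2, by norm_num, by norm_num, by norm_num, ?_⟩
    simp only [pt, Complex.real_smul]
    push_cast
    ring
  · refine Subset.antisymm ?_ (singleton_subset_iff.2
      ⟨F.Gam_self (F.Λ_sub_Disc (B.lam _ h)), 1 / 2, 1 / 2, by norm_num, by norm_num,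
        by norm_num, ?_⟩)
    · rintro w ⟨k1, a, b, ha, hb, hab, k2⟩
      have k3 : w = pt x e 0 ((a - b) * (w1 / 2)) := by
        have k4 : (a : ℂ) + b = 1 := by exact_mod_cast hab
        rw [← k2]
        simp only [pt, Complex.real_smul]
        push_cast
        linear_combination x * k4
      have k5 : B.ht x x e w = (a - b) * (w1 / 2) := by
        have k6 := B.chord1_psi h 0
        rw [abs_zero, mul_zero, abs_nonpos_iff] at k6
        rw [ht, k3, chord1_re he, chord1_im he, k6, sub_zero]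
      have k7 := hnr' w k1 (by rw [k3, chord1_re he, abs_zero]; linarith)
        (by rw [k5, abs_le]; constructor <;> nlinarith)
      rw [mem_singleton_iff, k3, ← k5, k7]
      simp [pt]
    · simp only [pt, Complex.real_smul]
      push_cast
      ring
  · refine ⟨w1 / 2, by linarith, fun w k w' k' k1 => ?_⟩
    have z : ∀ y ∈ F.Gam x ∩ ball x (w1 / 2), y = B.lf x x e (co x e y).re := fun y hy => by
      have k2 : ‖y - x‖ < w1 / 2 := mem_ball_iff_norm.1 hy.2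
      have k3 := Complex.abs_re_le_norm (co x e y)
      rw [norm_co he] at k3
      exact B.eq_lf he (hnr' y hy.1 (by linarith)
        (by linarith [B.abs_ht_le (B.adm_self h) y]))
    have c : ∀ y, ((y - pt x e 0 (w1 / 2)) * conj (pt x (-e) 0 (w1 / 2) - pt x e 0 (w1 / 2))).im =
        w1 * (co x e y).re := fun y => by
      have k2 : conj (pt x (-e) 0 (w1 / 2) - pt x e 0 (w1 / 2)) = w1 * Complex.I * conj e := by
        simp only [pt, map_sub, map_add, map_mul, map_neg, Complex.conj_ofReal, Complex.conj_I]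
        push_cast
        ring
      have k3 : (y - pt x e 0 (w1 / 2)) * (w1 * Complex.I * conj e) =
          w1 * Complex.I * (co x e y - co x e (pt x e 0 (w1 / 2))) := by
        simp only [co]
        ring
      rw [k2, k3]
      simp [chord1_re he]
    simp only [c] at k1
    rw [z w k, z w' k', mul_left_cancel₀ hw.ne' k1]


end Blk

end Pool.Agent.Lib.MP_3fe454_an.PD
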