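import Pool.Agent.Lib.MP_3fe454_an.PD.Katok2
import Pool.Agent.Lib.MP_3fe454_an.PD.Meas1

/-!
A hyperbolic block of positive measure gives periodic points of all periods.
-/

set_option autoImplicit false

open Set Metric Filter Topology MeasureTheory Function
open scoped ComplexConjugate ENNReal

namespace Pool.Agent.Lib.MP_3fe454_an.PD

namespace Dis

variable (F : Dis)


theorem katok {ls lc : ℝ} (ha : F.AdmP ls lc) (hl : F.β / 256 ≤ lc) (C : ℝ) (ν : Measure ℂ)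
    [IsFiniteMeasure ν] (h : MeasurePreserving F.f ν ν) (hn : F.NullCl ν)
    (hK : ν (Prod.fst '' F.Khat ls lc C) ≠ 0) : HS F.f := by
  obtain ⟨ζ, Cc, hζ, hcl⟩ := F.closing ha hl C
  obtain ⟨K, hKd⟩ : ∃ K, K = Prod.fst '' F.Khat ls lc C := ⟨_, rfl⟩
  have hKc : IsCompact K := by
    rw [hKd]
    exact (F.Khat_compact ls lc C).image continuous_fst
  rw [← hKd] at hK hcl
  obtain ⟨y, hyK, hy⟩ := exists_mem_forall_mem_nhdsWithin_pos_measure (μ := ν) hK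
  have hζ2 : 0 < ζ / 2 := by positivity
  have hB : 0 < ν (K ∩ ball y (ζ / 2)) :=
    hy _ (inter_mem_nhdsWithin K (ball_mem_nhds y hζ2))
  have hS : ν ((K ∩ ball y (ζ / 2)) \ {w | F.Asy w y}) ≠ 0 := by
    rw [measure_sdiff_null (hn y)]
    exact hB.ne'
  obtain ⟨y', hy'S, hy'⟩ := exists_mem_forall_mem_nhdsWithin_pos_measure (μ := ν) hS
  have hna : ¬ F.Asy y' y := hy'S.2
  obtain ⟨ρ, hρ, hfr⟩ : ∃ ρ : ℝ, 0 < ρ ∧ ∃ᶠ t in atTop, ρ ≤ ‖F.f^[t] y' - F.f^[t] y‖ := by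
    by_contra H
    apply hna
    unfold Dis.Asy
    rw [Metric.tendsto_nhds]
    intro ε hε
    have h1 : ¬ ∃ᶠ t in atTop, ε ≤ ‖F.f^[t] y' - F.f^[t] y‖ := fun h2 => H ⟨ε, hε, h2⟩
    rw [Filter.not_frequently] at h1
    filter_upwards [h1] with t ht
    rw [Real.dist_eq, sub_zero, abs_of_nonneg (norm_nonneg _)]
    exact not_le.1 ht
  have hev : ∀ᶠ t : ℕ in atTop, Cc * F.θ0 ^ t < ρ / 4 := by
    have h1 : Tendsto (fun t : ℕ => Cc * F.θ0 ^ t) atTop (𝓝 (Cc * 0)) :=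
      (tendsto_pow_atTop_nhds_zero_of_lt_one F.θ0_pos.le F.θ0_lt_one).const_mul Cc
    rw [mul_zero] at h1
    exact h1.eventually (gt_mem_nhds (by positivity))
  obtain ⟨t1, ht1, ht2⟩ := (hfr.and_eventually hev).exists
  obtain ⟨N1, hN1, hcl1⟩ := hcl t1
  have hct : Continuous (F.f^[t1]) := F.cf.iterate t1
  have hρ4 : 0 < ρ / 4 := by positivity
  have hopen : ∀ z : ℂ, IsOpen (F.f^[t1] ⁻¹' ball (F.f^[t1] z) (ρ / 4)) := fun z =>
    isOpen_ball.preimage hct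
  have hmeas : ∀ z : ℂ,
      MeasurableSet ((K ∩ ball y (ζ / 2)) ∩ F.f^[t1] ⁻¹' ball (F.f^[t1] z) (ρ / 4)) := fun z =>
    (hKc.isClosed.measurableSet.inter isOpen_ball.measurableSet).inter (hopen z).measurableSet
  have hnb : ∀ z : ℂ, F.f^[t1] ⁻¹' ball (F.f^[t1] z) (ρ / 4) ∈ 𝓝 z := fun z =>
    (hopen z).mem_nhds (mem_ball_self hρ4)
  have hA : 0 < ν ((K ∩ ball y (ζ / 2)) ∩ F.f^[t1] ⁻¹' ball (F.f^[t1] y) (ρ / 4)) := by
    apply hy
    exact Filter.inter_mem (inter_mem_nhdsWithin K (ball_mem_nhds y hζ2))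
      (mem_nhdsWithin_of_mem_nhds (hnb y))
  have hA' : 0 < ν ((K ∩ ball y (ζ / 2)) ∩ F.f^[t1] ⁻¹' ball (F.f^[t1] y') (ρ / 4)) := by
    apply hy'
    exact Filter.inter_mem (Filter.mem_of_superset self_mem_nhdsWithin sdiff_subset)
      (mem_nhdsWithin_of_mem_nhds (hnb y'))
  obtain ⟨A, hAd⟩ : ∃ A, A = (K ∩ ball y (ζ / 2)) ∩ F.f^[t1] ⁻¹' ball (F.f^[t1] y) (ρ / 4) :=
    ⟨_, rfl⟩
  obtain ⟨A', hA'd⟩ : ∃ A, A = (K ∩ ball y (ζ / 2)) ∩ F.f^[t1] ⁻¹' ball (F.f^[t1] y') (ρ / 4) :=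
    ⟨_, rfl⟩
  have hmA : MeasurableSet A := hAd ▸ hmeas y
  have hmA' : MeasurableSet A' := hA'd ▸ hmeas y'
  rw [← hAd] at hA
  rw [← hA'd] at hA'
  have hprod : MeasurePreserving (Prod.map F.f F.f) (ν.prod ν) (ν.prod ν) := h.prod h
  have hpos : (ν.prod ν) (A ×ˢ A') ≠ 0 := by
    rw [Measure.prod_prod]
    exact mul_ne_zero hA.ne' hA'.ne'
  obtain ⟨n, hnN, hrec⟩ := hprod.conservative.exists_gt_measure_inter_ne_zero
    (hmA.prod hmA').nullMeasurableSet hpos N1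
  obtain ⟨⟨x, x'⟩, ⟨hx, hx'⟩, hret⟩ := nonempty_of_measure_ne_zero hrec
  rw [mem_preimage, Prod.map_iterate] at hret
  obtain ⟨hfx, hfx'⟩ := hret
  simp only [Prod.map_fst, Prod.map_snd] at hx hx' hfx hfx'
  have hAK : ∀ z, z ∈ A ∨ z ∈ A' → z ∈ K ∩ ball y (ζ / 2) := by
    rintro z (hz | hz)
    · rw [hAd] at hz
      exact hz.1
    · rw [hA'd] at hz
      exact hz.1
  have hsep : ρ / 2 < ‖F.f^[t1] x' - F.f^[t1] x‖ := by
    rw [hAd] at hx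
    rw [hA'd] at hx'
    have e1 := hx.2
    have e2 := hx'.2
    rw [mem_preimage, mem_ball, dist_eq_norm] at e1 e2
    have e3 : F.f^[t1] y' - F.f^[t1] y = (F.f^[t1] x' - F.f^[t1] x) +
        (F.f^[t1] x - F.f^[t1] y) - (F.f^[t1] x' - F.f^[t1] y') := by ring
    have e4 := norm_sub_le ((F.f^[t1] x' - F.f^[t1] x) + (F.f^[t1] x - F.f^[t1] y))
      (F.f^[t1] x' - F.f^[t1] y')
    have e5 := norm_add_le (F.f^[t1] x' - F.f^[t1] x) (F.f^[t1] x - F.f^[t1] y)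
    rw [← e3] at e4
    linarith
  refine ⟨n, by omega, fun j hj => ?_⟩
  obtain ⟨w, hw⟩ : ∃ w : ℕ → ℂ, ∀ i, w i = if j ∣ i then x' else x := ⟨_, fun _ => rfl⟩
  have hwA : ∀ i, (w i ∈ A ∨ w i ∈ A') ∧ (F.f^[n] (w i) ∈ A ∨ F.f^[n] (w i) ∈ A') := by
    intro i
    rw [hw]
    split_ifs
    · exact ⟨Or.inr hx', Or.inr hfx'⟩
    · exact ⟨Or.inl hx, Or.inl hfx⟩
  obtain ⟨p, hp, hsh⟩ := hcl1 n hnN.le j hj w (fun i => by
    have a1 := hAK _ (hwA i).1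
    have a2 := hAK _ (hwA i).2
    have a3 := hAK _ (hwA (i + 1)).1
    refine ⟨a1.1, a2.1, ?_⟩
    have b2 := a2.2
    have b3 := a3.2
    rw [mem_ball] at b2 b3
    have := dist_triangle_right (F.f^[n] (w i)) (w (i + 1)) y
    rw [dist_eq_norm] at this
    linarith) (by rw [hw, hw, if_pos dvd_rfl, if_pos (dvd_zero j)])
  refine ⟨p, ?_⟩
  have hper : IsPeriodicPt (F.f^[n]) j p := by
    unfold IsPeriodicPt IsFixedPt
    rw [← iterate_mul]
    exact hp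
  have hm0 : 0 < minimalPeriod (F.f^[n]) p := hper.minimalPeriod_pos (by omega)
  have hmle : minimalPeriod (F.f^[n]) p ≤ j := Nat.le_of_dvd (by omega) hper.minimalPeriod_dvd
  by_contra hne
  have hlt : minimalPeriod (F.f^[n]) p < j := lt_of_le_of_ne hmle hne
  have hnd : ¬ j ∣ minimalPeriod (F.f^[n]) p := fun hd =>
    absurd (Nat.le_of_dvd hm0 hd) (not_le.2 hlt)
  have hfix : F.f^[n * minimalPeriod (F.f^[n]) p] p = p := by
    have := isPeriodicPt_minimalPeriod (F.f^[n]) p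
    unfold IsPeriodicPt IsFixedPt at this
    rw [← iterate_mul] at this
    exact this
  have s1 := hsh _ hlt
  have s0 := hsh 0 (by omega)
  rw [hw, if_neg hnd, add_comm, iterate_add_apply, hfix] at s1
  rw [hw, if_pos (dvd_zero j), mul_zero, zero_add] at s0
  have e3 : F.f^[t1] x' - F.f^[t1] x = (F.f^[t1] p - F.f^[t1] x) - (F.f^[t1] p - F.f^[t1] x') := by
    ring
  have e4 := norm_sub_le (F.f^[t1] p - F.f^[t1] x) (F.f^[t1] p - F.f^[t1] x')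
  rw [← e3] at e4
  linarith


end Dis

end Pool.Agent.Lib.MP_3fe454_an.PD
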