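import Pool.Agent.Lib.MP_3fe454_an.PD.Theta

/-!
Cone property, contraction and shooting for the local stable sets.
-/

set_option autoImplicit false

open Set Metric Filter Topology MeasureTheory Function
open scoped ComplexConjugate ENNReal

namespace Pool.Agent.Lib.MP_3fe454_an.PD

namespace Dis

variable (F : Dis)

/-- the difference of two orbits in the moving frame -/
noncomputable def p1d (o : ℤ → ℂ × ℂ) (w' w : ℂ) (t : ℕ) : ℂ :=
  co (F.f^[t] w') (o t).2 (F.f^[t] w)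

theorem p1_norm {o : ℤ → ℂ × ℂ} (h : F.IsOrb o) (w' w : ℂ) (t : ℕ) :
    ‖F.p1d o w' w t‖ = ‖F.f^[t] w - F.f^[t] w'‖ := norm_co (h t).2.1 _

theorem p1_cont (o : ℤ → ℂ × ℂ) (w' : ℂ) (t : ℕ) : Continuous fun w => F.p1d o w' w t :=
  (continuous_co _ _).comp (F.cf.iterate t)

theorem p1_chart {ls lc C σ r : ℝ} (hS : F.Small ls lc C σ r) {o : ℤ → ℂ × ℂ} (h : F.IsOrb o)
    {w w' : ℂ} {t : ℕ} (h1 : ‖F.f^[t] w - F.f^[t] (o 0).1‖ ≤ r * F.θ0 ^ t)
    (h2 : ‖F.f^[t] w' - F.f^[t] (o 0).1‖ ≤ r * F.θ0 ^ t) :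
    |(F.p1d o w' w (t + 1)).re - (F.ca o t * (F.p1d o w' w t).re + F.cb o t * (F.p1d o w' w t).im)| ≤
      F.H * (2 * r * F.θ1 ^ t) ^ F.α * ‖F.p1d o w' w t‖ ∧
    |(F.p1d o w' w (t + 1)).im - F.cc o t * (F.p1d o w' w t).im| ≤
      F.H * (2 * r * F.θ1 ^ t) ^ F.α * ‖F.p1d o w' w t‖ := by
  obtain ⟨-, -, hr, hr', -⟩ := hS
  have e0 : F.f^[t] (o 0).1 = (o t).1 := by rw [← F.orb_iter h 0 t, zero_add]
  rw [e0] at h1 h2
  have a1 : F.θ0 ^ t ≤ F.θ1 ^ t := pow_le_pow_left₀ F.θ0_pos.le F.θ0_le_θ1 t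
  have a2 : F.θ0 ^ t ≤ 1 := pow_le_one₀ F.θ0_pos.le F.θ0_lt_one.le
  have a3 : 0 ≤ F.θ0 ^ t := pow_nonneg F.θ0_pos.le t
  have a4 : r * F.θ0 ^ t ≤ 2 * r * F.θ1 ^ t := by nlinarith
  have a5 := F.Λ_norm (h t).1
  have a6 : ∀ u : ℂ, ‖u - (o t).1‖ ≤ r * F.θ0 ^ t → u ∈ Disc := fun u hu => by
    rw [mem_closedBall_zero_iff]
    have := norm_le_norm_add_norm_sub' u (o t).1
    have := F.r0_lt
    nlinarith
  have := F.chart h t (a6 _ h1) (a6 _ h2) (h1.trans a4) (h2.trans a4)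
  rw [p1_norm F h]
  simpa only [p1d, iterate_succ_apply', Nat.cast_succ] using this

theorem p1_Th {ls lc C σ r : ℝ} (hS : F.Small ls lc C σ r) {o : ℤ → ℂ × ℂ} (h : F.IsOrb o)
    (t : ℕ) : F.Θmin ≤ F.Th o (1 / σ) t := by
  cases t with
  | zero => exact hS.2.1
  | succ t => exact F.Th_ge h (one_div_pos.2 hS.1).le t

/-- contraction while the difference stays in the stable cone -/
theorem p1_contr {ls lc C σ r : ℝ} (ha : F.AdmP ls lc) (hS : F.Small ls lc C σ r) {o : ℤ → ℂ × ℂ}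
    (h : F.Good F.ε0 ls lc C o) {w w' : ℂ} {t : ℕ}
    (h1 : ∀ s < t, ‖F.f^[s] w - F.f^[s] (o 0).1‖ ≤ r * F.θ0 ^ s)
    (h2 : ∀ s < t, ‖F.f^[s] w' - F.f^[s] (o 0).1‖ ≤ r * F.θ0 ^ s)
    (h3 : ∀ s ≤ t, F.Th o (1 / σ) s * |(F.p1d o w' w s).im| ≤ |(F.p1d o w' w s).re|) :
    ‖F.f^[t] w - F.f^[t] w'‖ ≤ 2 * Real.exp C * ‖w - w'‖ * F.θ0 ^ t := by
  have key : ∀ s ≤ t, |(F.p1d o w' w s).re| ≤
      (∏ i ∈ Finset.range s, ((1 + 2 * F.δ0) * F.ca o i)) * |(F.p1d o w' w 0).re| := by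
    intro s
    induction s with
    | zero => intro _; simp
    | succ s ih =>
      intro hs
      have b1 := F.step_s h.1 s (F.p1_Th hS h.1 s) (hS.2.2.2.2 o h s)
        (F.p1_chart hS h.1 (h1 s hs) (h2 s hs)).1 (h3 s (by omega))
      have b2 : 0 ≤ (1 + 2 * F.δ0) * F.ca o s :=
        mul_nonneg (by linarith [F.δ0_pos]) (norm_nonneg _)
      rw [Finset.prod_range_succ]
      refine b1.trans ((mul_le_mul_of_nonneg_left (ih (by omega)) b2).trans_eq ?_)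
      ring
  have b1 := key t le_rfl
  have b2 := F.prod_a ha h t
  have b3 : |(F.p1d o w' w 0).re| ≤ ‖w - w'‖ :=
    (Complex.abs_re_le_norm _).trans_eq (F.p1_norm h.1 w' w 0)
  have b4 := h3 t le_rfl
  have b5 := F.one_le_Θmin.trans (F.p1_Th hS h.1 t)
  have b6 := Complex.norm_le_abs_re_add_abs_im (F.p1d o w' w t)
  have b7 := abs_nonneg (F.p1d o w' w t).im
  have b8 := mul_le_mul b2 b3 (abs_nonneg _) (by have := F.θ0_pos; positivity)
  rw [← F.p1_norm h.1]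
  nlinarith

/-- one step in the unstable cone -/
theorem p1_unst {ls lc C σ r : ℝ} (hS : F.Small ls lc C σ r) {o : ℤ → ℂ × ℂ}
    (h : F.Good F.ε0 ls lc C o) {w w' : ℂ} {t : ℕ}
    (h1 : ‖F.f^[t] w - F.f^[t] (o 0).1‖ ≤ r * F.θ0 ^ t)
    (h2 : ‖F.f^[t] w' - F.f^[t] (o 0).1‖ ≤ r * F.θ0 ^ t)
    (h3 : |(F.p1d o w' w t).re| < F.Th o (1 / σ) t * |(F.p1d o w' w t).im|) :
    |(F.p1d o w' w (t + 1)).re| < F.Th o (1 / σ) (t + 1) * |(F.p1d o w' w (t + 1)).im| ∧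
      (1 - F.δ0) * |F.cc o t| * |(F.p1d o w' w t).im| ≤ |(F.p1d o w' w (t + 1)).im| ∧
      0 < F.cc o t * (F.p1d o w' w t).im * (F.p1d o w' w (t + 1)).im := by
  have b0 := F.p1_chart hS h.1 h1 h2
  obtain ⟨-, b1, -, b2⟩ := F.step_u h.1 (one_div_pos.2 hS.1).le t (hS.2.2.2.2 o h t) b0.1 b0.2 h3.le
  have b3 : (F.p1d o w' w t).im ≠ 0 := fun h0 => by
    rw [h0, abs_zero, mul_zero] at h3
    exact (abs_nonneg _).not_gt h3
  exact ⟨(b2 b3).2, b1, (b2 b3).1⟩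

theorem st_cone {ls lc C σ r : ℝ} (ha : F.AdmP ls lc) (hS : F.Small ls lc C σ r) {z e : ℂ}
    (h : (z, e) ∈ F.Khat ls lc C) {w w' : ℂ} (hw : w ∈ F.St r F.θ0 z)
    (hw' : w' ∈ F.St r F.θ0 z) :
    |(co w' e w).im| ≤ σ * |(co w' e w).re| ∧
      ∀ t : ℕ, ‖F.f^[t] w - F.f^[t] w'‖ ≤ 2 * Real.exp C * ‖w - w'‖ * F.θ0 ^ t := by
  obtain ⟨o, ho, h0⟩ := h
  have hz : z = (o 0).1 := by rw [h0]
  have he : e = (o 0).2 := by rw [h0]
  subst hz he
  have key : ∀ t, F.Th o (1 / σ) t * |(F.p1d o w' w t).im| ≤ |(F.p1d o w' w t).re| := by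
    intro t0
    by_contra hlt
    rw [not_le] at hlt
    have δ1 : 0 ≤ 1 - F.δ0 := by
      have : F.δ0 ≤ 1 / 4 := min_le_left _ _
      linarith
    obtain ⟨p, hp⟩ : ∃ p : ℕ → ℝ, ∀ t, p t = ∏ i ∈ Finset.range t, ((1 - F.δ0) * |F.cc o i|) :=
      ⟨_, fun _ => rfl⟩
    have p0 : ∀ t, 0 ≤ p t := fun t => by
      rw [hp]; exact Finset.prod_nonneg fun i _ => mul_nonneg δ1 (abs_nonneg _)
    have ind : ∀ t, t0 ≤ t → |(F.p1d o w' w t).re| < F.Th o (1 / σ) t * |(F.p1d o w' w t).im| ∧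
        p t * |(F.p1d o w' w t0).im| ≤ p t0 * |(F.p1d o w' w t).im| := by
      intro t ht
      induction t, ht using Nat.le_induction with
      | base => exact ⟨hlt, le_rfl⟩
      | succ t _ ih =>
        obtain ⟨b1, b2, -⟩ := F.p1_unst hS ho (hw t) (hw' t) ih.1
        refine ⟨b1, le_trans ?_ (mul_le_mul_of_nonneg_left b2 (p0 t0))⟩
        have b3 := mul_le_mul_of_nonneg_left ih.2 (mul_nonneg δ1 (abs_nonneg (F.cc o t)))
        rw [hp (t + 1), Finset.prod_range_succ, ← hp]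
        linarith
    have c0 : 0 < |(F.p1d o w' w t0).im| := by
      refine (abs_nonneg _).lt_of_ne' fun h0 => ?_
      rw [h0, mul_zero] at hlt
      exact (abs_nonneg _).not_gt hlt
    obtain ⟨a, ha'⟩ : ∃ a, a = Real.exp (-(2 * C)) * |(F.p1d o w' w t0).im| := ⟨_, rfl⟩
    have a0 : 0 < a := by rw [ha']; positivity
    have β0 := F.β_pos
    have bound : ∀ t : ℕ, t0 ≤ t → a * (F.β / 4 * t) ≤ p t0 * (2 * r) := by
      intro t ht
      have b1 := (ind t ht).2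
      have b2 := F.prod_c_low ho t
      rw [← hp] at b2
      have b3 : |(F.p1d o w' w t).im| ≤ 2 * r * F.θ0 ^ t := by
        refine (Complex.abs_im_le_norm _).trans ?_
        rw [F.p1_norm ho.1]
        linarith [norm_sub_le_norm_sub_add_norm_sub (F.f^[t] w) (F.f^[t] (o 0).1) (F.f^[t] w'),
          hw t, hw' t, norm_sub_rev (F.f^[t] w') (F.f^[t] (o 0).1)]
      have b4 : F.θ0 ^ t = Real.exp (-F.β / 2 * t) := by
        rw [θ0, ← Real.exp_nat_mul, mul_comm]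
      have b5 : F.β / 4 * t * Real.exp (-F.β / 2 * t) ≤
          Real.exp ((lc - 2 * F.ε0 - 2 * F.δ0) * t) := by
        have c1 : F.δ0 ≤ F.β / 8192 := min_le_right _ _
        have c2 : F.ε0 ≤ F.β / 8192 := by
          rw [ε0]; nlinarith [F.α_le]
        have c3 := Real.add_one_le_exp (F.β / 4 * t)
        have c4 : (0 : ℝ) ≤ t := t.cast_nonneg
        refine (mul_le_mul_of_nonneg_right (show _ ≤ Real.exp (F.β / 4 * t) by linarith)
          (Real.exp_pos _).le).trans ?_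
        rw [← Real.exp_add, Real.exp_le_exp]
        nlinarith [ha.2]
      have b6 := mul_le_mul_of_nonneg_right b2 c0.le
      have b7 := mul_le_mul_of_nonneg_left b3 (p0 t0)
      have b8 := mul_le_mul_of_nonneg_left b5 a0.le
      rw [b4] at b7
      refine le_of_mul_le_mul_right ?_ (Real.exp_pos (-F.β / 2 * t))
      rw [ha'] at b8 ⊢
      linarith
    obtain ⟨t, ht⟩ := exists_nat_gt (p t0 * (2 * r) / (a * (F.β / 4)))
    have b1 := bound (max t t0) (le_max_right _ _)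
    have b2 : (t : ℝ) ≤ (max t t0 : ℕ) := by exact_mod_cast le_max_left t t0
    rw [div_lt_iff₀ (by positivity)] at ht
    nlinarith [mul_pos a0 β0]
  refine ⟨?_, fun t => F.p1_contr ha hS ho (fun s _ => hw s) (fun s _ => hw' s) fun s _ => key s⟩
  have b1 : 1 / σ * |(co w' (o 0).2 w).im| ≤ |(co w' (o 0).2 w).re| := key 0
  rwa [one_div, inv_mul_le_iff₀ hS.1] at b1

theorem st_shoot {ls lc C σ r η : ℝ} (ha : F.AdmP ls lc) (hS : F.Small ls lc C σ r)
    (hη : 0 < η) (hηr : 200 * (2 * Real.exp C) * η ≤ r) {z e : ℂ}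
    (h : (z, e) ∈ F.Khat ls lc C) {P : Set ℂ} (hP : IsPreconnected P)
    (hPb : P ⊆ closedBall z (40 * η)) {w₁ w₂ : ℂ} (h₁ : w₁ ∈ P) (h₂ : w₂ ∈ P)
    (hu : σ * |(co z e w₁).re| < (co z e w₁).im) (hd : (co z e w₂).im < -(σ * |(co z e w₂).re|)) :
    (P ∩ F.St r F.θ0 z).Nonempty := by
  obtain ⟨o, ho, h0⟩ := h
  have hz : z = (o 0).1 := by rw [h0]
  have he : e = (o 0).2 := by rw [h0]
  subst he
  have σ0 := hS.1
  have r0 := hS.2.2.1
  have tz : ∀ s : ℕ, ‖F.f^[s] z - F.f^[s] (o 0).1‖ ≤ r * F.θ0 ^ s := fun s => by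
    rw [← hz, sub_self, norm_zero]
    have := F.θ0_pos
    positivity
  obtain ⟨c, hc⟩ : ∃ c : ℕ → ℝ, ∀ t, c t = ∏ i ∈ Finset.range t, F.cc o i := ⟨_, fun _ => rfl⟩
  have c0 : ∀ t, c t ≠ 0 := fun t => by
    rw [hc]
    exact Finset.prod_ne_zero_iff.2 fun i _ => abs_pos.1 (F.m_pos.trans_le (F.cc_bd ho.1 i).1)
  obtain ⟨V, hV⟩ : ∃ V : ℝ → ℕ → Set ℂ, ∀ ε t, V ε t =
      {w | (∀ s < t, ‖F.f^[s] w - F.f^[s] z‖ < r * F.θ0 ^ s) ∧
        |(F.p1d o z w t).re| < F.Th o (1 / σ) t * |(F.p1d o z w t).im| ∧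
        0 < ε * c t * (F.p1d o z w t).im} := ⟨_, fun _ _ => rfl⟩
  have V1 : ∀ ε t, IsOpen (V ε t) := fun ε t => by
    have k1 := F.p1_cont o z t
    have o1 : IsOpen {w | ∀ s < t, ‖F.f^[s] w - F.f^[s] z‖ < r * F.θ0 ^ s} := by
      simp only [ofPred_forall]
      refine (finite_Iio t).isOpen_biInter fun s _ => ?_
      have := F.cf.iterate s
      exact isOpen_lt (by fun_prop) continuous_const
    have o2 : IsOpen {w | |(F.p1d o z w t).re| < F.Th o (1 / σ) t * |(F.p1d o z w t).im|} :=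
      isOpen_lt (Complex.continuous_re.comp k1).abs
        (continuous_const.mul (Complex.continuous_im.comp k1).abs)
    have o3 : IsOpen {w | 0 < ε * c t * (F.p1d o z w t).im} :=
      isOpen_lt continuous_const (continuous_const.mul (Complex.continuous_im.comp k1))
    rw [hV]
    exact o1.inter (o2.inter o3)
  have V2 : ∀ ε t t' w, t ≤ t' → w ∈ V ε t → w ∈ V (-ε) t' → False := by
    intro ε t t' w htt hw hw'
    rw [hV] at hw hw'
    have ind : ∀ s, t ≤ s → s ≤ t' →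
        |(F.p1d o z w s).re| < F.Th o (1 / σ) s * |(F.p1d o z w s).im| ∧
          0 < ε * c s * (F.p1d o z w s).im := by
      intro s hs
      induction s, hs using Nat.le_induction with
      | base => exact fun _ => hw.2
      | succ s _ ih =>
        intro hs'
        obtain ⟨i1, i2⟩ := ih (by omega)
        obtain ⟨b1, -, b2⟩ := F.p1_unst hS ho (hz ▸ (hw'.1 s hs').le) (tz s) i1
        refine ⟨b1, ?_⟩
        rw [hc, Finset.prod_range_succ, ← hc]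
        have b3 := mul_pos i2 b2
        have b4 : 0 < (F.p1d o z w s).im ^ 2 := by
          refine sq_pos_of_ne_zero fun h0 => ?_
          rw [h0, mul_zero] at i2
          exact lt_irrefl _ i2
        refine (mul_pos_iff_of_pos_right b4).1 ?_
        convert b3 using 1
        ring
    linarith [(ind t' htt le_rfl).2, hw'.2.2]
  have m1 : w₁ ∈ V 1 0 := by
    rw [hV]
    have b1 : 0 < (co z (o 0).2 w₁).im := lt_of_le_of_lt (by positivity) hu
    refine ⟨fun s hs => absurd hs (Nat.not_lt_zero s), ?_, ?_⟩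
    · show |(co z (o 0).2 w₁).re| < 1 / σ * |(co z (o 0).2 w₁).im|
      rwa [abs_of_pos b1, one_div, lt_inv_mul_iff₀ σ0]
    · show 0 < 1 * c 0 * (co z (o 0).2 w₁).im
      simpa [hc] using b1
  have m2 : w₂ ∈ V (-1) 0 := by
    rw [hV]
    have b1 : (co z (o 0).2 w₂).im < 0 := lt_of_lt_of_le hd (neg_nonpos.2 (by positivity))
    refine ⟨fun s hs => absurd hs (Nat.not_lt_zero s), ?_, ?_⟩
    · show |(co z (o 0).2 w₂).re| < 1 / σ * |(co z (o 0).2 w₂).im|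
      rw [abs_of_neg b1, one_div, lt_inv_mul_iff₀ σ0]
      linarith
    · show 0 < -1 * c 0 * (co z (o 0).2 w₂).im
      simpa [hc] using b1
  have ex : ∃ w ∈ P, w ∉ (⋃ t, V 1 t) ∪ ⋃ t, V (-1) t := by
    by_contra hne
    push Not at hne
    obtain ⟨w, -, hw, hw'⟩ := hP _ _ (isOpen_iUnion (V1 1)) (isOpen_iUnion (V1 (-1))) hne
      ⟨w₁, h₁, mem_iUnion.2 ⟨0, m1⟩⟩ ⟨w₂, h₂, mem_iUnion.2 ⟨0, m2⟩⟩
    obtain ⟨t, ht⟩ := mem_iUnion.1 hw
    obtain ⟨t', ht'⟩ := mem_iUnion.1 hw'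
    rcases le_total t t' with htt | htt
    · exact V2 1 t t' w htt ht ht'
    · exact V2 (-1) t' t w htt ht' (by rwa [neg_neg])
  obtain ⟨w, hwP, hw⟩ := ex
  simp only [mem_union, mem_iUnion, not_or, not_exists] at hw
  have fin : ∀ t : ℕ, ‖F.f^[t] w - F.f^[t] z‖ < r * F.θ0 ^ t := by
    intro t
    induction t using Nat.strong_induction_on with
    | _ t ih =>
      have b1 := F.p1_contr ha hS ho (w := w) (w' := z) (t := t) (fun s hs => hz ▸ (ih s hs).le)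
        (fun s _ => tz s) fun s hs => by
          by_contra hlt
          rw [not_le] at hlt
          have b2 : (F.p1d o z w s).im ≠ 0 := fun h0 => by
            rw [h0, abs_zero, mul_zero] at hlt
            exact (abs_nonneg _).not_gt hlt
          rcases (mul_ne_zero (c0 s) b2).lt_or_gt with b3 | b3
          · exact hw.2 s (by rw [hV]; exact ⟨fun i hi => ih i (by omega), hlt, by linarith⟩)
          · exact hw.1 s (by rw [hV]; exact ⟨fun i hi => ih i (by omega), hlt, by linarith⟩)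
      refine b1.trans_lt (mul_lt_mul_of_pos_right ?_ (pow_pos F.θ0_pos t))
      have b2 : ‖w - z‖ ≤ 40 * η := mem_closedBall_iff_norm.1 (hPb hwP)
      have b3 := Real.exp_pos C
      nlinarith [mul_pos b3 hη]
  exact ⟨w, hwP, fun t => (fin t).le⟩


end Dis

end Pool.Agent.Lib.MP_3fe454_an.PD
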