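import Pool.Agent.Lib.MP_3fe454_an.PD.Chart

/-!
Pesin blocks: compactness, uniqueness of the direction, shifts.
-/

set_option autoImplicit false

open Set Metric Filter Topology MeasureTheory Function
open scoped ComplexConjugate ENNReal

namespace Pool.Agent.Lib.MP_3fe454_an.PD

theorem khat_Bd_range {u : ℤ → ℝ} {l ε C : ℝ} (h : Bd u l ε C) (n : ℕ) :
    |∑ t ∈ Finset.range n, u t - n * l| ≤ ε * n + C := by
  have h1 := h 0 n (Int.natCast_nonneg n)
  rw [Int.Ico_eq_finset_map, Finset.sum_map] at h1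
  simpa [Finset.sum_sub_distrib] using h1

theorem khat_Bd_shift {u : ℤ → ℝ} {l ε C : ℝ} (hε : 0 ≤ ε) (h : Bd u l ε C) (s : ℤ) :
    Bd (fun t => u (t + s)) l ε (C + 2 * ε * |(s : ℝ)|) := by
  intro i j hij
  have h1 := h (i + s) (j + s) (by omega)
  rw [← Finset.sum_Ico_add' (fun t => u t - l) i j s] at h1
  refine h1.trans ?_
  push_cast
  have a1 := mul_le_mul_of_nonneg_left (abs_add_le (i : ℝ) s) hε
  have a2 := mul_le_mul_of_nonneg_left (abs_add_le (j : ℝ) s) hε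
  linarith

theorem khat_Bd_move {u : ℤ → ℝ} {l l' ε δ C C' : ℝ} (h : Bd u l ε C) (hl : |l - l'| ≤ δ)
    (hC : C ≤ C') : Bd u l' (ε + δ) C' := by
  intro i j hij
  have h1 := h i j hij
  have e : ∑ t ∈ Finset.Ico i j, (u t - l') =
      ∑ t ∈ Finset.Ico i j, (u t - l) + ((j : ℝ) - i) * (l - l') := by
    have e1 : (((j - i).toNat : ℕ) : ℝ) = (j : ℝ) - i := by
      rw [← Int.cast_natCast, Int.toNat_of_nonneg (by omega), Int.cast_sub]
    simp only [Finset.sum_sub_distrib, Finset.sum_const, Int.card_Ico, nsmul_eq_mul, e1]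
    ring
  have a1 : |((j : ℝ) - i) * (l - l')| ≤ (|(i : ℝ)| + |(j : ℝ)|) * δ := by
    rw [abs_mul]
    refine mul_le_mul ?_ hl (abs_nonneg _) (by positivity)
    rw [add_comm]
    exact abs_sub _ _
  rw [e]
  refine (abs_add_le _ _).trans ?_
  linarith

theorem khat_closed {X : Type} [TopologicalSpace X] {O : Set X} (hO : IsClosed O)
    {φ : X → ℤ → ℝ} (hφ : ∀ t, ContinuousOn (fun o => φ o t) O) (l ε C : ℝ) :
    IsClosed {o | o ∈ O ∧ Bd (φ o) l ε C} := by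
  refine isClosed_of_closure_subset fun o ho => ?_
  have hsub : closure {o | o ∈ O ∧ Bd (φ o) l ε C} ⊆ O := closure_minimal (fun _ h => h.1) hO
  refine ⟨hsub ho, fun i j hij => ?_⟩
  exact le_on_closure (f := fun o => |∑ t ∈ Finset.Ico i j, (φ o t - l)|)
    (g := fun _ => ε * (|(i : ℝ)| + |(j : ℝ)|) + C) (fun x hx => hx.2 i j hij)
    (continuousOn_finsetSum _ fun t _ => ((hφ t).mono hsub).sub continuousOn_const).abs
    continuousOn_const ho

namespace Dis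

variable (F : Dis)


theorem orb_neg {o : ℤ → ℂ × ℂ} (h : F.IsOrb o) : F.IsOrb fun t => ((o t).1, -(o t).2) := by
  intro t
  obtain ⟨h1, h2, h3, h4⟩ := h t
  refine ⟨h1, by rw [norm_neg, h2], h3, ?_⟩
  simp only [map_neg, norm_neg, mul_neg]
  exact congrArg Neg.neg h4

theorem good_neg {ε ls lc C : ℝ} {o : ℤ → ℂ × ℂ} (h : F.Good ε ls lc C o) :
    F.Good ε ls lc C fun t => ((o t).1, -(o t).2) := by
  refine ⟨F.orb_neg h.1, ?_, h.2.2⟩
  simpa only [la, map_neg, norm_neg] using h.2.1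

theorem good_mono {ε ls lc C C' : ℝ} {o : ℤ → ℂ × ℂ} (h : F.Good ε ls lc C o) (hC : C ≤ C') :
    F.Good ε ls lc C' o :=
  ⟨h.1, fun i j hij => (h.2.1 i j hij).trans (by linarith),
    fun i j hij => (h.2.2 i j hij).trans (by linarith)⟩

theorem good_shift {ε ls lc C : ℝ} (hε : 0 ≤ ε) {o : ℤ → ℂ × ℂ} (h : F.Good ε ls lc C o)
    (s : ℤ) : F.Good ε ls lc (C + 2 * ε * |(s : ℝ)|) fun t => o (t + s) := by
  refine ⟨fun t => ?_, khat_Bd_shift hε h.2.1 s, khat_Bd_shift hε h.2.2 s⟩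
  have := h.1 (t + s)
  rwa [add_right_comm] at this

theorem orb_ext {o o' : ℤ → ℂ × ℂ} (h : F.IsOrb o) (h' : F.IsOrb o') (h0 : o 0 = o' 0) :
    o = o' := by
  have hpos : ∀ {o : ℤ → ℂ × ℂ}, F.IsOrb o → ∀ t, 0 < ‖F.D (o t).1 (o t).2‖ := fun h t =>
    F.m_pos.trans_le (F.ca_bd h t).1
  funext t
  induction t using Int.induction_on with
  | zero => exact h0
  | succ n ih =>
    obtain ⟨-, -, a3, a4⟩ := h n
    obtain ⟨-, -, b3, b4⟩ := h' n
    have hp := hpos h' n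
    rw [ih] at a3 a4
    refine Prod.ext (a3.trans b3.symm) ?_
    exact mul_left_cancel₀ (Complex.ofReal_ne_zero.2 hp.ne') (a4.symm.trans b4)
  | pred n ih =>
    obtain ⟨a1, a2, a3, a4⟩ := h (-n - 1)
    obtain ⟨b1, b2, b3, b4⟩ := h' (-n - 1)
    have hp := hpos h (-n - 1)
    rw [sub_add_cancel] at a3 a4 b3 b4
    rw [ih] at a3 a4
    have e1 : (o (-n - 1)).1 = (o' (-n - 1)).1 := by
      rw [← F.gf _ (F.Λ_sub_Disc a1), ← a3, b3, F.gf _ (F.Λ_sub_Disc b1)]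
    refine Prod.ext e1 ?_
    rw [e1] at a4 hp
    generalize (o' (-n - 1)).1 = z at a4 b1 b4 hp
    generalize (o (-n - 1)).2 = e at a2 a4 hp
    generalize (o' (-n - 1)).2 = e' at b2 b4
    have e2 : F.D z (‖F.D z e'‖ • e - ‖F.D z e‖ • e') = 0 := by
      rw [map_sub, map_smul, map_smul, sub_eq_zero]
      conv_lhs => arg 2; rw [a4]
      conv_rhs => arg 2; rw [b4]
      simp only [Complex.real_smul]
      ring
    have e3 := F.low z (F.Λ_sub_Disc b1) (‖F.D z e'‖ • e - ‖F.D z e‖ • e')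
    rw [e2, norm_zero] at e3
    have e4 : ‖F.D z e'‖ • e = ‖F.D z e‖ • e' :=
      sub_eq_zero.1 (norm_le_zero_iff.1 (nonpos_of_mul_nonpos_right e3 F.m_pos))
    have e5 := congrArg norm e4
    rw [norm_smul, norm_smul, a2, b2, norm_norm, norm_norm, mul_one, mul_one] at e5
    rw [e5] at e4
    exact smul_right_injective _ hp.ne' e4

theorem dir_uniq {ls lc C C' : ℝ} (ha : F.AdmP ls lc) {o o' : ℤ → ℂ × ℂ}
    (h : F.Good F.ε0 ls lc C o) (h' : F.Good F.ε0 ls lc C' o') (h0 : (o 0).1 = (o' 0).1) :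
    (o' 0).2 = (o 0).2 ∨ (o' 0).2 = -(o 0).2 := by
  have hcc : ∀ {e : ℂ}, ‖e‖ = 1 → e * conj e = 1 := fun he => by
    rw [Complex.mul_conj, Complex.normSq_eq_norm_sq, he]
    simp
  have hb : ∀ n : ℕ, (o' n).1 = (o n).1 := fun n => by
    have a1 := F.orb_iter h.1 0 n
    have a2 := F.orb_iter h'.1 0 n
    rw [zero_add] at a1 a2
    rw [a1, a2, h0]
  let J : ℤ → ℝ := fun t => ((o' t).2 * conj (o t).2).im
  have hJ : ∀ n : ℕ, F.ca o' n * J (n + 1) = F.cc o n * J n := fun n => by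
    have a1 := F.D_co h.1 n ((o' n).2 * conj (o n).2).re ((o' n).2 * conj (o n).2).im
    rw [Complex.re_add_im, mul_assoc, mul_comm (conj (o n).2), hcc (h.1 n).2.1, mul_one, ← hb,
      (h'.1 n).2.2.2] at a1
    have a2 := congrArg (fun w => (w * conj (o (n + 1)).2).im) a1
    simp only [mul_assoc, hcc (h.1 (n + 1)).2.1, mul_one, Complex.im_ofReal_mul, Complex.add_im,
      Complex.ofReal_im, Complex.I_im, zero_add] at a2
    exact a2
  have hJ0 : J 0 = 0 := by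
    by_contra hne
    have key : ∀ n : ℕ, J n ≠ 0 ∧ Real.log |J n| = Real.log |J 0| + ∑ t ∈ Finset.range n,
        F.ld (o t) - ∑ t ∈ Finset.range n, F.la (o t) - ∑ t ∈ Finset.range n, F.la (o' t) := by
      intro n
      induction n with
      | zero => exact ⟨hne, by simp⟩
      | succ n ih =>
        obtain ⟨a1, -, a2⟩ := F.ca_bd h'.1 n
        obtain ⟨b1, -, b2⟩ := F.cc_bd h.1 n
        have a3 : 0 < F.ca o' n := F.m_pos.trans_le a1
        have b3 : 0 < |F.cc o n| := F.m_pos.trans_le b1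
        have c1 := hJ n
        have c2 : J (n + 1) ≠ 0 := fun e => by
          rw [e, mul_zero] at c1
          exact mul_ne_zero (abs_pos.1 b3) ih.1 c1.symm
        have c3 := congrArg (fun x => Real.log |x|) c1
        simp only [abs_mul] at c3
        rw [abs_of_pos a3, Real.log_mul a3.ne' (abs_pos.2 c2).ne',
          Real.log_mul b3.ne' (abs_pos.2 ih.1).ne', a2, b2, ih.2] at c3
        push_cast
        refine ⟨c2, ?_⟩
        simp only [Finset.sum_range_succ]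
        linarith
    have hβ := F.β_pos
    have hε : F.ε0 ≤ F.β / 8192 := by
      have := mul_le_mul_of_nonneg_right F.α_le hβ.le
      unfold ε0
      linarith
    obtain ⟨n, hn⟩ := exists_nat_gt ((2 * C + C' - Real.log |J 0|) / (F.β / 2))
    rw [div_lt_iff₀ (by positivity)] at hn
    have d1 := abs_le.1 (khat_Bd_range h.2.1 n)
    have d2 := abs_le.1 (khat_Bd_range h.2.2 n)
    have d3 := abs_le.1 (khat_Bd_range h'.2.1 n)
    have d4 : Real.log |J n| ≤ 0 := by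
      refine Real.log_nonpos (abs_nonneg _) ((Complex.abs_im_le_norm _).trans ?_)
      rw [norm_mul, Complex.norm_conj, (h.1 n).2.1, (h'.1 n).2.1, mul_one]
    have d5 := (key n).2
    have n0 : (0 : ℝ) ≤ n := Nat.cast_nonneg n
    have d6 := mul_le_mul_of_nonneg_left ha.1 n0
    have d7 := mul_nonneg n0 ha.2
    have d8 := mul_le_mul_of_nonneg_right hε n0
    have d9 := mul_nonneg n0 hβ.le
    nlinarith
  have e1 : (o' 0).2 = ((o' 0).2 * conj (o 0).2).re * (o 0).2 := by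
    have a1 := Complex.re_add_im ((o' 0).2 * conj (o 0).2)
    rw [show ((o' 0).2 * conj (o 0).2).im = 0 from hJ0, Complex.ofReal_zero, zero_mul,
      add_zero] at a1
    rw [a1, mul_assoc, mul_comm (conj (o 0).2), hcc (h.1 0).2.1, mul_one]
  have e2 := congrArg norm e1
  rw [norm_mul, (h.1 0).2.1, (h'.1 0).2.1, mul_one, Complex.norm_real, Real.norm_eq_abs] at e2
  rcases (abs_eq zero_le_one).1 e2.symm with e3 | e3
  · left
    rw [e1, e3, Complex.ofReal_one, one_mul]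
  · right
    rw [e1, e3, Complex.ofReal_neg, Complex.ofReal_one, neg_one_mul]

theorem Khat_compact (ls lc C : ℝ) : IsCompact (F.Khat ls lc C) := by
  have c1 : ∀ t : ℤ, Continuous fun o : ℤ → ℂ × ℂ => (o t).1 := fun t => (continuous_apply t).fst
  have c2 : ∀ t : ℤ, Continuous fun o : ℤ → ℂ × ℂ => (o t).2 := fun t => (continuous_apply t).snd
  have c3 : ∀ t : ℤ, Continuous fun o : ℤ → ℂ × ℂ => F.D (o t).1 (o t).2 := fun t =>
    (F.cD.comp (c1 t)).clm_apply (c2 t)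
  have hO : IsClosed {o | F.IsOrb o} := by
    simp only [IsOrb, Set.ofPred_forall]
    exact isClosed_iInter fun t => (F.Λ_compact.isClosed.preimage (c1 t)).inter
      ((isClosed_eq (c2 t).norm continuous_const).inter
        ((isClosed_eq (c1 (t + 1)) (F.cf.comp (c1 t))).inter
          (isClosed_eq (c3 t) ((Complex.continuous_ofReal.comp (c3 t).norm).mul (c2 (t + 1))))))
  have h1 := khat_closed hO (φ := fun o t => F.la (o t)) (fun t => (c3 t).norm.continuousOn.log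
    fun o ho => (F.m_pos.trans_le (F.ca_bd ho t).1).ne') ls F.ε0 C
  have h2 := khat_closed hO (φ := fun o t => F.ld (o t)) (fun t =>
    (ContinuousLinearMap.continuous_det.comp (F.cD.comp (c1 t))).abs.continuousOn.log
      fun o ho => ((mul_pos F.m_pos (one_pos.trans_le F.one_le_M)).trans_le
        (F.det_ge _ (F.Λ_sub_Disc (ho t).1))).ne') (ls + lc) F.ε0 C
  have hK : IsCompact (Set.pi univ fun _ : ℤ => F.Λ ×ˢ sphere (0 : ℂ) 1) :=
    isCompact_univ_pi fun _ => F.Λ_compact.prod (isCompact_sphere 0 1)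
  have hG : IsCompact {o | F.Good F.ε0 ls lc C o} := by
    refine hK.of_isClosed_subset ?_ fun o ho t _ =>
      ⟨(ho.1 t).1, mem_sphere_zero_iff_norm.2 (ho.1 t).2.1⟩
    have e : {o | F.Good F.ε0 ls lc C o} = _ ∩ _ :=
      Set.ext fun o => ⟨fun ho => ⟨(⟨ho.1, ho.2.1⟩ : o ∈ {o | o ∈ {o | F.IsOrb o} ∧
        Bd (fun t => F.la (o t)) ls F.ε0 C}), (⟨ho.1, ho.2.2⟩ : o ∈ {o | o ∈ {o | F.IsOrb o} ∧
        Bd (fun t => F.ld (o t)) (ls + lc) F.ε0 C})⟩, fun ho => ⟨ho.1.1, ho.1.2, ho.2.2⟩⟩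
    rw [e]
    exact h1.inter h2
  exact hG.image (continuous_apply 0)

theorem Khat_neg {ls lc C : ℝ} {z e : ℂ} (h : (z, e) ∈ F.Khat ls lc C) :
    (z, -e) ∈ F.Khat ls lc C := by
  obtain ⟨o, ho, e0⟩ := h
  exact ⟨_, F.good_neg ho, by simp only [e0]⟩

theorem Khat_uniq {ls lc C : ℝ} (ha : F.AdmP ls lc) {z e e' : ℂ}
    (h : (z, e) ∈ F.Khat ls lc C) (h' : (z, e') ∈ F.Khat ls lc C) : e' = e ∨ e' = -e := by
  obtain ⟨o, ho, e0⟩ := h
  obtain ⟨o', ho', e0'⟩ := h'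
  have := F.dir_uniq ha ho ho' (by rw [e0, e0'])
  rwa [e0, e0'] at this

theorem good_return {ls lc C : ℝ} (ha : F.AdmP ls lc) {o : ℤ → ℂ × ℂ}
    (h : F.Good F.ε0 ls lc C o) (s : ℕ) (hs : ∃ e', (F.f^[s] (o 0).1, e') ∈ F.Khat ls lc C) :
    F.Good F.ε0 ls lc C fun i => o (i + s) := by
  obtain ⟨e', o', ho', e0⟩ := hs
  have h1 := F.good_shift F.ε0_pos.le h s
  have h2 : (o' 0).1 = (o (0 + s)).1 := by rw [e0, F.orb_iter h.1 0 s]
  rcases F.dir_uniq ha ho' h1 h2 with h3 | h3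
  · rw [F.orb_ext h1.1 ho'.1 (Prod.ext h2.symm h3)]
    exact ho'
  · rw [F.orb_ext h1.1 (F.orb_neg ho'.1) (Prod.ext h2.symm h3)]
    exact F.good_neg ho'

theorem Khat_inv {ls lc : ℝ} {z : ℂ} (hz : z ∈ F.Λ) :
    (∃ C : ℕ, F.f z ∈ Prod.fst '' F.Khat ls lc C) ↔ ∃ C : ℕ, z ∈ Prod.fst '' F.Khat ls lc C := by
  constructor
  · rintro ⟨C, p, ⟨o, ho, rfl⟩, e0⟩
    refine ⟨_, _, ⟨_, F.good_mono (F.good_shift F.ε0_pos.le ho (-1)) (Nat.le_ceil _), rfl⟩, ?_⟩
    obtain ⟨a1, -, a3, -⟩ := ho.1 (0 + -1)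
    rw [neg_add_cancel_right] at a3
    rw [← F.gf _ (F.Λ_sub_Disc a1), ← a3, e0, F.gf _ (F.Λ_sub_Disc hz)]
  · rintro ⟨C, p, ⟨o, ho, rfl⟩, e0⟩
    refine ⟨_, _, ⟨_, F.good_mono (F.good_shift F.ε0_pos.le ho 1) (Nat.le_ceil _), rfl⟩, ?_⟩
    rw [(ho.1 0).2.2.1, e0]

theorem reg_det {l Δ : ℝ} {o : ℤ → ℂ × ℂ} (h : F.Reg l Δ o) : Δ ≤ -F.β := by
  by_contra hc
  have hε : 0 < (Δ + F.β) / 2 := by linarith [not_le.1 hc]
  obtain ⟨C, hC⟩ := h _ hε
  obtain ⟨n, hn⟩ := exists_nat_gt (C / ((Δ + F.β) / 2))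
  rw [div_lt_iff₀ hε] at hn
  have h1 := (abs_le.1 (khat_Bd_range hC.2.2 n)).1
  have h2 : ∑ t ∈ Finset.range n, F.ld (o t) ≤ n * -F.β := by
    have := Finset.sum_le_card_nsmul (Finset.range n) (fun t : ℕ => F.ld (o t)) (-F.β) fun t _ => by
      have hd := F.Λ_sub_Disc (hC.1 t).1
      rw [β, neg_neg]
      exact Real.log_le_log ((mul_pos F.m_pos (one_pos.trans_le F.one_le_M)).trans_le
        (F.det_ge _ hd)) (F.det_le _ hd)
    rwa [Finset.card_range, nsmul_eq_mul] at this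
  nlinarith

theorem reg_khat {l Δ : ℝ} {o : ℤ → ℂ × ℂ} (h : F.Reg l Δ o) (h1 : l ≤ -F.β) (h2 : 0 ≤ Δ - l) :
    ∃ (ls lc : ℚ) (C : ℕ), F.AdmP ls lc ∧ o 0 ∈ F.Khat ls lc C := by
  have hε := F.ε0_pos
  obtain ⟨C, hC⟩ := h (F.ε0 / 2) (half_pos hε)
  obtain ⟨ls, a1, a2⟩ := exists_rat_btwn (show l - F.ε0 / 8 < l by linarith)
  obtain ⟨lc, b1, b2⟩ := exists_rat_btwn (show Δ - l < Δ - l + F.ε0 / 8 by linarith)
  refine ⟨ls, lc, ⌈C⌉₊, ⟨by linarith, by linarith⟩, o, ⟨hC.1, ?_, ?_⟩, rfl⟩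
  · have := khat_Bd_move (l' := ls) (δ := F.ε0 / 2) hC.2.1
      (abs_le.2 ⟨by linarith, by linarith⟩) (Nat.le_ceil C)
    rwa [add_halves] at this
  · have := khat_Bd_move (l' := ls + lc) (δ := F.ε0 / 2) hC.2.2
      (abs_le.2 ⟨by linarith, by linarith⟩) (Nat.le_ceil C)
    rwa [add_halves] at this


end Dis

end Pool.Agent.Lib.MP_3fe454_an.PD
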