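import Pool.Agent.Lib.MP_3fe454_an.PD.Theta
import Pool.Agent.Lib.MP_3fe454_an.PD.Khat

/-!
Shadowing in the tube and preservation of the sides.
-/

set_option autoImplicit false

open Set Metric Filter Topology MeasureTheory Function
open scoped ComplexConjugate ENNReal

namespace Pool.Agent.Lib.MP_3fe454_an.PD

namespace Dis

variable (F : Dis)

private theorem p2_C_nonneg {ε ls lc C : ℝ} {o : ℤ → ℂ × ℂ} (h : F.Good ε ls lc C o) : 0 ≤ C := by
  have h1 := h.2.1 0 0 le_rfl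
  simpa using h1

private theorem p2_G0θ1 (lc : ℝ) (t : ℕ) :
    Real.exp (6 * F.ε0 * t) * Real.exp ((lc + 2 * F.ε0 + F.δ0) * t) = F.G0 lc ^ t * F.θ1 ^ t := by
  rw [G0, θ1, ← mul_pow, ← Real.exp_add, ← Real.exp_add, ← Real.exp_nat_mul]
  congr 1
  ring

/-- the norm is controlled by the transverse coordinate inside the cone -/
private theorem p2_norm {ls lc C σ A : ℝ} (hσ : 1 ≤ 1 / σ) (hA : F.ThBd ls lc C A)
    {o : ℤ → ℂ × ℂ} (ho : F.Good F.ε0 ls lc C o) (t : ℕ) {d : ℂ} {n : ℝ} (hn : 0 ≤ n)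
    (h1 : |d.re| ≤ F.Th o 1 t * |d.im|)
    (h2 : |d.im| ≤ (∏ i ∈ Finset.range t, ((1 + F.δ0) * |F.cc o i|)) * n) :
    ‖d‖ ≤ (1 + A * (1 + 1 / σ)) * Real.exp (2 * C) * F.G0 lc ^ t * n * F.θ1 ^ t := by
  have hT := (hA.2 o ho 1 zero_le_one).1 t
  have hA1 := hA.1
  have hε := F.ε0_pos
  have he : 1 ≤ Real.exp (6 * F.ε0 * t) := Real.one_le_exp (by positivity)
  have h3 : ‖d‖ ≤ (1 + F.Th o 1 t) * |d.im| := by
    have := Complex.norm_le_abs_re_add_abs_im d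
    linarith
  have h4 : 1 + F.Th o 1 t ≤ (1 + A * (1 + 1 / σ)) * Real.exp (6 * F.ε0 * t) := by
    have h5 : A * (1 + 1) * Real.exp (6 * F.ε0 * t) ≤
        A * (1 + 1 / σ) * Real.exp (6 * F.ε0 * t) := by gcongr
    linarith
  have h6 : |d.im| ≤ Real.exp (2 * C) * Real.exp ((lc + 2 * F.ε0 + F.δ0) * t) * n :=
    h2.trans (mul_le_mul_of_nonneg_right (F.prod_c_up ho t) hn)
  have h7 : 0 ≤ (1 + A * (1 + 1 / σ)) * Real.exp (6 * F.ε0 * t) := by
    have : 0 ≤ 1 / σ := by linarith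
    positivity
  refine h3.trans ((mul_le_mul h4 h6 (abs_nonneg _) h7).trans (le_of_eq ?_))
  have e := F.p2_G0θ1 lc t
  calc (1 + A * (1 + 1 / σ)) * Real.exp (6 * F.ε0 * t) *
        (Real.exp (2 * C) * Real.exp ((lc + 2 * F.ε0 + F.δ0) * t) * n)
      = (1 + A * (1 + 1 / σ)) * Real.exp (2 * C) * n *
        (Real.exp (6 * F.ε0 * t) * Real.exp ((lc + 2 * F.ε0 + F.δ0) * t)) := by ring
    _ = _ := by rw [e]; ring

/-- the invariant along the orbit -/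
private theorem p2_main {ls lc C σ r A : ℝ} (ha : F.AdmP ls lc) (hS : F.Small ls lc C σ r)
    (hA : F.ThBd ls lc C A) {o : ℤ → ℂ × ℂ} (ho : F.Good F.ε0 ls lc C o) {y : ℂ}
    (hy : y ∈ F.St r F.θ0 (o 0).1) {w : ℂ}
    (hw : |(co y (o 0).2 w).re| ≤ |(co y (o 0).2 w).im|) (s : ℕ)
    (hs : (1 + A * (1 + 1 / σ)) * Real.exp (2 * C) * F.G0 lc ^ s * ‖w - y‖ ≤ r) (t : ℕ)
    (ht : t ≤ s) :
    |(co (F.f^[t] y) (o t).2 (F.f^[t] w)).re| ≤
        F.Th o 1 t * |(co (F.f^[t] y) (o t).2 (F.f^[t] w)).im| ∧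
      |(co (F.f^[t] y) (o t).2 (F.f^[t] w)).im| ≤
        (∏ i ∈ Finset.range t, ((1 + F.δ0) * |F.cc o i|)) * ‖w - y‖ ∧
      ((co y (o 0).2 w).im ≠ 0 → 0 < (∏ i ∈ Finset.range t, F.cc o i) *
        ((co y (o 0).2 w).im * (co (F.f^[t] y) (o t).2 (F.f^[t] w)).im)) := by
  obtain ⟨hσ, hΘ, hr, hr0, hE⟩ := hS
  have hσ1 : 1 ≤ 1 / σ := F.one_le_Θmin.trans hΘ
  have hC := F.p2_C_nonneg ho
  have hA1 := hA.1
  have hG := F.one_le_G0 ha.2
  have hθ0 := F.θ0_pos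
  have hθ := F.θ0_le_θ1
  have hθ1 : 0 < F.θ1 := lt_of_lt_of_le hθ0 hθ
  have hδ := F.δ0_pos
  have hK : 1 ≤ (1 + A * (1 + 1 / σ)) * Real.exp (2 * C) := by
    have h1 : 1 ≤ Real.exp (2 * C) := Real.one_le_exp (by linarith)
    have h2 : 0 ≤ A * (1 + 1 / σ) := by positivity
    nlinarith
  have hz : ‖(o 0).1‖ ≤ F.r0 := F.Λ_norm (ho.1 0).1
  have hy0 : ‖y - (o 0).1‖ ≤ r := by simpa using hy 0
  have hw0 : ‖w - y‖ ≤ r := by
    refine le_trans ?_ hs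
    have h1 : 1 ≤ (1 + A * (1 + 1 / σ)) * Real.exp (2 * C) * F.G0 lc ^ s :=
      one_le_mul_of_one_le_of_one_le hK (one_le_pow₀ hG)
    exact le_mul_of_one_le_left (norm_nonneg _) h1
  have hyn : ‖y‖ ≤ ‖y - (o 0).1‖ + ‖(o 0).1‖ := by
    simpa using norm_add_le (y - (o 0).1) (o 0).1
  have hwn : ‖w‖ ≤ ‖w - y‖ + ‖y‖ := by simpa using norm_add_le (w - y) y
  have hyD : y ∈ Disc := mem_closedBall_zero_iff.2 (by linarith)
  have hwD : w ∈ Disc := mem_closedBall_zero_iff.2 (by linarith)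
  induction t with
  | zero =>
    simp only [iterate_zero, id_eq, Nat.cast_zero, Th, one_mul, Finset.range_zero,
      Finset.prod_empty]
    refine ⟨hw, ?_, fun h => mul_self_pos.2 h⟩
    rw [← norm_co (z := y) (ho.1 0).2.1 w]
    exact Complex.abs_im_le_norm _
  | succ t ih =>
    obtain ⟨i1, i2, i3⟩ := ih (Nat.le_of_succ_le ht)
    have hn := F.p2_norm hσ1 hA ho t (norm_nonneg _) i1 i2
    have hnc := norm_co (z := F.f^[t] y) (ho.1 t).2.1 (F.f^[t] w)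
    have hzt : (o t).1 = F.f^[t] (o 0).1 := by
      have := F.orb_iter ho.1 0 t
      rwa [zero_add] at this
    have hp : 0 < F.θ1 ^ t := pow_pos hθ1 t
    have h1 : ‖F.f^[t] w - F.f^[t] y‖ ≤ r * F.θ1 ^ t := by
      rw [← hnc]
      refine hn.trans (mul_le_mul_of_nonneg_right (le_trans ?_ hs) hp.le)
      have h2 : F.G0 lc ^ t ≤ F.G0 lc ^ s := pow_le_pow_right₀ hG (Nat.le_of_succ_le ht)
      gcongr
    have h2 : ‖F.f^[t] y - (o t).1‖ ≤ r * F.θ1 ^ t := by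
      rw [hzt]
      refine (hy t).trans ?_
      gcongr
    have h3 : ‖F.f^[t] w - (o t).1‖ ≤ 2 * r * F.θ1 ^ t := by
      have := norm_add_le (F.f^[t] w - F.f^[t] y) (F.f^[t] y - (o t).1)
      rw [sub_add_sub_cancel] at this
      linarith
    have h4 : ‖F.f^[t] y - (o t).1‖ ≤ 2 * r * F.θ1 ^ t := by
      have := mul_pos hr hp
      linarith
    obtain ⟨c1, c2⟩ := F.chart ho.1 t (F.iter_mem_Disc hwD t) (F.iter_mem_Disc hyD t) h3 h4
    rw [← hnc] at c1 c2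
    have hE' : F.H * (2 * r * F.θ1 ^ t) ^ F.α * (1 + F.Th o 1 t) ≤ F.δ0 * F.m := by
      refine le_trans ?_ (hE o ho t)
      have h5 := F.Th_mono ho.1 hσ1 t
      have h6 := F.H_pos
      gcongr
    obtain ⟨s1, -, s3, s4⟩ := F.step_u ho.1 zero_le_one t hE' c1 c2 i1
    rw [iterate_succ_apply', iterate_succ_apply', Nat.cast_succ, Finset.prod_range_succ,
      Finset.prod_range_succ]
    refine ⟨s1, s3.trans ?_, fun h0 => ?_⟩
    · have h5 : 0 ≤ (1 + F.δ0) * |F.cc o t| := by positivity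
      refine (mul_le_mul_of_nonneg_left i2 h5).trans (le_of_eq ?_)
      ring
    · have j := i3 h0
      have hne : (co (F.f^[t] y) (o t).2 (F.f^[t] w)).im ≠ 0 := by
        intro e
        rw [e] at j
        simp at j
      have k := (s4 hne).1
      have l := mul_pos j k
      have m := mul_self_pos.2 hne
      refine (mul_pos_iff_of_pos_left m).1 (lt_of_lt_of_eq l ?_)
      ring

theorem st_tube {ls lc C σ r A : ℝ} (ha : F.AdmP ls lc) (hS : F.Small ls lc C σ r)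
    (hA : F.ThBd ls lc C A) {z e : ℂ} (h : (z, e) ∈ F.Khat ls lc C) {y : ℂ}
    (hy : y ∈ F.St r F.θ0 z) {w : ℂ} (hw : |(co y e w).re| ≤ |(co y e w).im|) (s : ℕ)
    (hs : (1 + A * (1 + 1 / σ)) * Real.exp (2 * C) * F.G0 lc ^ s * ‖w - y‖ ≤ r) {t : ℕ}
    (ht : t ≤ s) :
    ‖F.f^[t] w - F.f^[t] y‖ ≤
      (1 + A * (1 + 1 / σ)) * Real.exp (2 * C) * F.G0 lc ^ t * ‖w - y‖ := by
  obtain ⟨o, ho, h0⟩ := h
  have e1 : (o 0).1 = z := by rw [h0]
  have e2 : (o 0).2 = e := by rw [h0]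
  subst e1 e2
  obtain ⟨i1, i2, -⟩ := F.p2_main ha hS hA ho hy hw s hs t ht
  have hσ1 : 1 ≤ 1 / σ := F.one_le_Θmin.trans hS.2.1
  have hn := F.p2_norm hσ1 hA ho t (norm_nonneg _) i1 i2
  rw [norm_co (ho.1 t).2.1] at hn
  refine hn.trans (mul_le_of_le_one_right ?_ ?_)
  · have h1 := hA.1
    have h2 := F.one_le_G0 ha.2
    have h3 := hS.1
    positivity
  · exact pow_le_one₀ (F.θ0_pos.le.trans F.θ0_le_θ1) F.θ1_le_one

theorem st_side {ls lc C σ r A : ℝ} (ha : F.AdmP ls lc) (hS : F.Small ls lc C σ r)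
    (hA : F.ThBd ls lc C A) (hσ : 4 * A * σ ≤ 1) {z e : ℂ} (h : (z, e) ∈ F.Khat ls lc C) (s : ℕ)
    (hs : ∃ e', (F.f^[s] z, e') ∈ F.Khat ls lc C) :
    ∃ e', (F.f^[s] z, e') ∈ F.Khat ls lc C ∧ ∀ y ∈ F.St r F.θ0 z, ∀ w, w ≠ y →
      |(co y e w).re| ≤ |(co y e w).im| →
      (1 + A * (1 + 1 / σ)) * Real.exp (2 * C) * F.G0 lc ^ s * ‖w - y‖ ≤ r →
        2 * σ * |(co (F.f^[s] y) e' (F.f^[s] w)).re| ≤ |(co (F.f^[s] y) e' (F.f^[s] w)).im| ∧
          0 < (co y e w).im * (co (F.f^[s] y) e' (F.f^[s] w)).im := by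
  obtain ⟨o, ho, h0⟩ := h
  have e1 : (o 0).1 = z := by rw [h0]
  have e2 : (o 0).2 = e := by rw [h0]
  subst e1 e2
  have hret := F.good_return ha ho s hs
  have hmem : (F.f^[s] (o 0).1, (o s).2) ∈ F.Khat ls lc C := by
    refine ⟨_, hret, ?_⟩
    have := F.orb_iter ho.1 0 s
    rw [← this, zero_add]
  have hT : F.Th o 1 s ≤ 2 * A := by
    have h1 := ((hA.2 o ho 1 zero_le_one).2 s hret).2
    have hβ := F.β_pos
    have h2 : Real.exp (-F.β / 2 * s) ≤ 1 := by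
      refine Real.exp_le_one_iff.2 ?_
      have : (0 : ℝ) ≤ s := Nat.cast_nonneg s
      nlinarith
    have h3 := hA.1
    nlinarith
  have key : ∀ y ∈ F.St r F.θ0 (o 0).1, ∀ w, w ≠ y →
      |(co y (o 0).2 w).re| ≤ |(co y (o 0).2 w).im| →
      (1 + A * (1 + 1 / σ)) * Real.exp (2 * C) * F.G0 lc ^ s * ‖w - y‖ ≤ r →
        2 * σ * |(co (F.f^[s] y) (o s).2 (F.f^[s] w)).re| ≤
          |(co (F.f^[s] y) (o s).2 (F.f^[s] w)).im| ∧
        0 < (∏ i ∈ Finset.range s, F.cc o i) *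
          ((co y (o 0).2 w).im * (co (F.f^[s] y) (o s).2 (F.f^[s] w)).im) := by
    intro y hy w hne hw hr
    obtain ⟨i1, -, i3⟩ := F.p2_main ha hS hA ho hy hw s hr s le_rfl
    refine ⟨?_, i3 fun h1 => hne ?_⟩
    · have h1 := abs_nonneg (co (F.f^[s] y) (o s).2 (F.f^[s] w)).im
      have h2 := hS.1
      have h3 := i1.trans (mul_le_mul_of_nonneg_right hT h1)
      have h4 := mul_le_mul_of_nonneg_left h3 (show 0 ≤ 2 * σ by linarith)
      nlinarith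
    · have h2 := Complex.norm_le_abs_re_add_abs_im (co y (o 0).2 w)
      rw [norm_co (ho.1 0).2.1] at h2
      rw [h1, abs_zero] at hw h2
      exact sub_eq_zero.1 (norm_le_zero_iff.1 (by linarith))
  rcases le_total 0 (∏ i ∈ Finset.range s, F.cc o i) with hp | hp
  · refine ⟨_, hmem, fun y hy w hne hw hr => ?_⟩
    obtain ⟨k1, k2⟩ := key y hy w hne hw hr
    refine ⟨k1, ?_⟩
    by_contra h1
    exact absurd k2 (not_lt.2 (mul_nonpos_of_nonneg_of_nonpos hp (not_lt.1 h1)))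
  · refine ⟨_, F.Khat_neg hmem, fun y hy w hne hw hr => ?_⟩
    obtain ⟨k1, k2⟩ := key y hy w hne hw hr
    rw [co_neg, Complex.neg_re, Complex.neg_im, abs_neg, abs_neg, mul_neg, neg_pos]
    refine ⟨k1, ?_⟩
    by_contra h1
    exact absurd k2 (not_lt.2 (mul_nonpos_of_nonpos_of_nonneg hp (not_lt.1 h1)))


end Dis

end Pool.Agent.Lib.MP_3fe454_an.PD
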