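import Pool.Agent.Lib.MP_3fe454_an.PD.Chart

/-!
The stable direction from the unstable one.
-/

set_option autoImplicit false

open Set Metric Filter Topology MeasureTheory Function
open scoped ComplexConjugate ENNReal

namespace Pool.Agent.Lib.MP_3fe454_an.PD

private theorem ser_sum_Ico (f : ℤ → ℝ) (t : ℤ) (k : ℕ) :
    ∑ x ∈ Finset.Ico t (t + k), f x = ∑ i ∈ Finset.range k, f (t + i) := by
  rw [Int.Ico_eq_finset_map, Finset.sum_map]
  simp

private theorem ser_tele (L : ℤ → ℝ) {i j : ℤ} (h : i ≤ j) :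
    ∑ t ∈ Finset.Ico i j, (L (t + 1) - L t) = L j - L i := by
  obtain ⟨k, rfl⟩ := Int.le.dest h
  rw [ser_sum_Ico]
  have := Finset.sum_range_sub (fun n : ℕ => L (i + n)) k
  simp only [Nat.cast_add, Nat.cast_one, Nat.cast_zero, add_zero] at this
  rw [← this]
  refine Finset.sum_congr rfl fun n _ => ?_
  rw [add_assoc]

private theorem ser_tau (σ : ℤ → ℝ) (hσ : ∀ t, σ t * σ t = 1) :
    ∃ τ : ℤ → ℝ, (∀ t, τ t * τ t = 1) ∧ ∀ t, τ (t + 1) = τ t * σ t := by
  refine ⟨fun t => (∏ i ∈ Finset.Ico 0 t, σ i) * ∏ i ∈ Finset.Ico t 0, σ i, ?_, ?_⟩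
  · intro t
    have h1 : ∀ S : Finset ℤ, (∏ i ∈ S, σ i) * ∏ i ∈ S, σ i = 1 := by
      intro S
      rw [← Finset.prod_mul_distrib]
      exact Finset.prod_eq_one fun i _ => hσ i
    calc (∏ i ∈ Finset.Ico 0 t, σ i) * (∏ i ∈ Finset.Ico t 0, σ i) *
          ((∏ i ∈ Finset.Ico 0 t, σ i) * ∏ i ∈ Finset.Ico t 0, σ i)
        = ((∏ i ∈ Finset.Ico 0 t, σ i) * ∏ i ∈ Finset.Ico 0 t, σ i) *
          ((∏ i ∈ Finset.Ico t 0, σ i) * ∏ i ∈ Finset.Ico t 0, σ i) := by ring
      _ = 1 := by rw [h1, h1, one_mul]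
  · intro t
    rcases le_or_gt 0 t with ht | ht
    · have e1 : Finset.Ico 0 (t + 1) = insert t (Finset.Ico 0 t) := by
        ext x; simp only [Finset.mem_Ico, Finset.mem_insert]; omega
      have e2 : Finset.Ico (t + 1) 0 = ∅ := Finset.Ico_eq_empty (by omega)
      have e3 : Finset.Ico t 0 = ∅ := Finset.Ico_eq_empty (by omega)
      simp only [e1, e2, e3]
      rw [Finset.prod_insert (by simp)]
      simp only [Finset.prod_empty]
      ring
    · have e1 : Finset.Ico t 0 = insert t (Finset.Ico (t + 1) 0) := by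
        ext x; simp only [Finset.mem_Ico, Finset.mem_insert]; omega
      have e2 : Finset.Ico 0 (t + 1) = ∅ := Finset.Ico_eq_empty (by omega)
      have e3 : Finset.Ico 0 t = ∅ := Finset.Ico_eq_empty (by omega)
      simp only [e1, e2, e3]
      rw [Finset.prod_insert (by simp)]
      simp only [Finset.prod_empty]
      have := hσ t
      calc 1 * ∏ i ∈ Finset.Ico (t + 1) 0, σ i
          = (σ t * σ t) * ∏ i ∈ Finset.Ico (t + 1) 0, σ i := by rw [this]
        _ = _ := by ring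

private theorem ser_prod {q : ℤ → ℝ} (hq : ∀ t, q t ≠ 0) {γ ε C : ℝ} (hε : 0 < ε)
    (hεγ : ε ≤ γ / 2) (hB : Bd (fun t => Real.log |q t|) (-γ) ε C) (t : ℤ) (k : ℕ) :
    |∏ i ∈ Finset.range k, q (t + i)| ≤
      Real.exp (2 * ε * |(t : ℝ)| + C) * Real.exp (-(γ / 2)) ^ k := by
  have h1 := hB t (t + k) (by omega)
  rw [ser_sum_Ico] at h1
  have h2 : |∏ i ∈ Finset.range k, q (t + i)| =
      Real.exp (∑ i ∈ Finset.range k, Real.log |q (t + i)|) := by
    rw [Finset.abs_prod, Real.exp_sum]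
    refine Finset.prod_congr rfl fun i _ => ?_
    rw [Real.exp_log (abs_pos.mpr (hq _))]
  rw [h2, ← Real.exp_nat_mul, ← Real.exp_add]
  apply Real.exp_le_exp.mpr
  have h3 := (abs_le.mp h1).2
  rw [Finset.sum_sub_distrib] at h3
  simp only [Finset.sum_const, Finset.card_range, nsmul_eq_mul] at h3
  have h4 : |((t + (k : ℤ) : ℤ) : ℝ)| ≤ |(t : ℝ)| + k := by
    push_cast
    calc |(t : ℝ) + k| ≤ |(t : ℝ)| + |(k : ℝ)| := abs_add_le _ _
      _ = _ := by rw [Nat.abs_cast]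
  have hk : (0 : ℝ) ≤ k := Nat.cast_nonneg k
  have h5 : ε * (|(t : ℝ)| + |((t + (k : ℤ) : ℤ) : ℝ)|) ≤ ε * (|(t : ℝ)| + (|(t : ℝ)| + k)) :=
    mul_le_mul_of_nonneg_left (by linarith) hε.le
  have h6 : ε * k ≤ γ / 2 * k := mul_le_mul_of_nonneg_right hεγ hk
  nlinarith

private theorem ser_exists {p q : ℤ → ℝ} {K γ : ℝ} (hγ : 0 < γ) (hq : ∀ t, q t ≠ 0)
    (hp : ∀ t, |p t| ≤ K)
    (hB : ∀ ε > 0, ∃ C, Bd (fun t => Real.log |q t|) (-γ) ε C) :
    ∃ s : ℤ → ℝ, (∀ t, s t = p t + q t * s (t + 1)) ∧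
      ∀ ε > 0, ∃ C, 0 ≤ C ∧ ∀ t : ℤ, |s t| ≤ C * Real.exp (ε * |(t : ℝ)|) := by
  have hK : 0 ≤ K := (abs_nonneg _).trans (hp 0)
  set r : ℝ := Real.exp (-(γ / 2)) with hr
  have hr0 : 0 ≤ r := (Real.exp_pos _).le
  have hr1 : r < 1 := Real.exp_lt_one_iff.mpr (by linarith)
  set a : ℤ → ℕ → ℝ := fun t k => p (t + k) * ∏ i ∈ Finset.range k, q (t + i) with ha
  have hbd : ∀ ε C : ℝ, 0 < ε → ε ≤ γ / 2 → Bd (fun t => Real.log |q t|) (-γ) ε C →
      ∀ (t : ℤ) (k : ℕ), ‖a t k‖ ≤ K * Real.exp (2 * ε * |(t : ℝ)| + C) * r ^ k := by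
    intro ε C hε hεγ h t k
    have h1 := ser_prod hq hε hεγ h t k
    rw [Real.norm_eq_abs, ha]
    simp only
    rw [abs_mul, mul_assoc]
    exact mul_le_mul (hp _) h1 (abs_nonneg _) hK
  have hsum : ∀ t, Summable (a t) := by
    intro t
    obtain ⟨C, hC⟩ := hB (γ / 2) (by linarith)
    exact Summable.of_norm_bounded
      ((summable_geometric_of_lt_one hr0 hr1).mul_left
        (K * Real.exp (2 * (γ / 2) * |(t : ℝ)| + C)))
      (hbd _ C (by linarith) le_rfl hC t)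
  refine ⟨fun t => ∑' k, a t k, ?_, ?_⟩
  · intro t
    simp only
    rw [(hsum t).tsum_eq_zero_add, ← tsum_mul_left]
    congr 1
    · simp [ha]
    · refine tsum_congr fun k => ?_
      simp only [ha]
      rw [Finset.prod_range_succ']
      push_cast
      simp only [add_zero]
      have e1 : t + ((k : ℤ) + 1) = t + 1 + k := by ring
      have e2 : ∏ i ∈ Finset.range k, q (t + ((i : ℤ) + 1)) =
          ∏ i ∈ Finset.range k, q (t + 1 + i) :=
        Finset.prod_congr rfl fun i _ => by congr 1; ring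
      rw [e1, e2]
      ring
  · intro ε hε
    obtain ⟨C, hC⟩ := hB (min (ε / 2) (γ / 2)) (lt_min (by linarith) (by linarith))
    refine ⟨K * Real.exp C * (1 - r)⁻¹,
      mul_nonneg (mul_nonneg hK (Real.exp_pos _).le) (inv_nonneg.mpr (by linarith)), ?_⟩
    intro t
    have h1 := hbd _ C (lt_min (by linarith) (by linarith)) (min_le_right _ _) hC t
    have h2 := tsum_of_norm_bounded
      ((hasSum_geometric_of_lt_one hr0 hr1).mul_left
        (K * Real.exp (2 * min (ε / 2) (γ / 2) * |(t : ℝ)| + C))) h1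
    rw [Real.norm_eq_abs] at h2
    refine h2.trans ?_
    have h3 : Real.exp (2 * min (ε / 2) (γ / 2) * |(t : ℝ)| + C) ≤
        Real.exp C * Real.exp (ε * |(t : ℝ)|) := by
      rw [← Real.exp_add]
      apply Real.exp_le_exp.mpr
      have : min (ε / 2) (γ / 2) ≤ ε / 2 := min_le_left _ _
      have h4 : 0 ≤ |(t : ℝ)| := abs_nonneg _
      nlinarith
    have h5 : 0 ≤ (1 - r)⁻¹ := inv_nonneg.mpr (by linarith)
    calc K * Real.exp (2 * min (ε / 2) (γ / 2) * |(t : ℝ)| + C) * (1 - r)⁻¹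
        ≤ K * (Real.exp C * Real.exp (ε * |(t : ℝ)|)) * (1 - r)⁻¹ :=
          mul_le_mul_of_nonneg_right (mul_le_mul_of_nonneg_left h3 hK) h5
      _ = _ := by ring

namespace Dis

variable (F : Dis)


theorem series {l Δ : ℝ} {o : ℤ → ℂ × ℂ} (h : F.Reg l Δ o) (hl : Δ - l < l) :
    ∃ o' : ℤ → ℂ × ℂ, (o' 0).1 = (o 0).1 ∧ F.Reg (Δ - l) Δ o' := by
  have ho : F.IsOrb o := by
    obtain ⟨C, hC⟩ := h 1 one_pos
    exact hC.1
  have hm := F.m_pos
  have ha : ∀ t, 0 < F.ca o t := fun t => hm.trans_le (F.ca_bd ho t).1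
  have hc : ∀ t, 0 < |F.cc o t| := fun t => hm.trans_le (F.cc_bd ho t).1
  have hc0 : ∀ t, F.cc o t ≠ 0 := fun t => abs_pos.mp (hc t)
  have hΔ : l + (Δ - l) = Δ := by ring
  -- the slope of the stable direction
  obtain ⟨s, hs, hsb⟩ := ser_exists (p := fun t => -(F.cb o t / F.ca o t))
    (q := fun t => F.cc o t / F.ca o t) (K := F.M / F.m) (γ := 2 * l - Δ) (by linarith)
    (fun t => div_ne_zero (hc0 t) (ha t).ne')
    (fun t => by
      rw [abs_neg, abs_div, abs_of_pos (ha t)]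
      exact div_le_div₀ (by linarith [F.one_le_M]) (F.cb_bd ho t) hm (F.ca_bd ho t).1)
    (fun ε hε => by
      obtain ⟨C, -, h1, h2⟩ := h (ε / 3) (by linarith)
      refine ⟨3 * C, fun i j hij => ?_⟩
      have h3 := h1 i j hij
      have h4 := h2 i j hij
      rw [hΔ] at h4
      have e : ∑ t ∈ Finset.Ico i j, (Real.log |F.cc o t / F.ca o t| - -(2 * l - Δ)) =
          ∑ t ∈ Finset.Ico i j, (F.ld (o t) - Δ) -
            2 * ∑ t ∈ Finset.Ico i j, (F.la (o t) - l) := by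
        rw [Finset.mul_sum, ← Finset.sum_sub_distrib]
        refine Finset.sum_congr rfl fun t _ => ?_
        rw [abs_div, abs_of_pos (ha t), Real.log_div (hc t).ne' (ha t).ne',
          (F.cc_bd ho t).2.2, (F.ca_bd ho t).2.2]
        ring
      simp only at h3 h4 ⊢
      rw [e]
      rw [abs_le] at h3 h4 ⊢
      constructor <;> linarith [h3.1, h3.2, h4.1, h4.2])
  have hrec : ∀ t, F.ca o t * s t + F.cb o t = F.cc o t * s (t + 1) := by
    intro t
    have h1 := hs t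
    have h2 := (ha t).ne'
    rw [h1]
    field_simp
    ring
  -- the signs
  obtain ⟨τ, hτ, hτs⟩ := ser_tau (fun t => F.cc o t / |F.cc o t|) (fun t => by
    have h1 := (hc t).ne'
    field_simp
    rw [sq_abs])
  -- the norms
  set N : ℤ → ℝ := fun t => Real.sqrt (s t ^ 2 + 1) with hN
  have hN2 : ∀ t, N t ^ 2 = s t ^ 2 + 1 := fun t => Real.sq_sqrt (by positivity)
  have hN1 : ∀ t, 1 ≤ N t := fun t => Real.one_le_sqrt.mpr (by nlinarith [sq_nonneg (s t)])
  have hN0 : ∀ t, 0 < N t := fun t => one_pos.trans_le (hN1 t)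
  have hNs : ∀ t, N t ≤ |s t| + 1 := fun t => by
    apply Real.sqrt_le_iff.mpr
    refine ⟨by positivity, ?_⟩
    have := abs_nonneg (s t)
    nlinarith [sq_abs (s t)]
  set e : ℤ → ℂ := fun t =>
    (((τ t * s t / N t : ℝ) : ℂ) + ((τ t / N t : ℝ) : ℂ) * Complex.I) * (o t).2 with he
  have hen : ∀ t, ‖e t‖ = 1 := by
    intro t
    simp only [he]
    rw [norm_mul, (ho t).2.1, mul_one, Complex.norm_add_mul_I, Real.sqrt_eq_one]
    have h1 := (hN0 t).ne'
    have h2 := hN2 t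
    have h3 := hτ t
    field_simp
    nlinarith
  have hκ : ∀ t, 0 < |F.cc o t| * N (t + 1) / N t := fun t =>
    div_pos (mul_pos (hc t) (hN0 _)) (hN0 t)
  have hD : ∀ t, F.D (o t).1 (e t) = ((|F.cc o t| * N (t + 1) / N t : ℝ) : ℂ) * e (t + 1) := by
    intro t
    simp only [he]
    rw [F.D_co ho t]
    have h1 := (hN0 t).ne'
    have h2 := (hN0 (t + 1)).ne'
    have h3 := (hc t).ne'
    have e1 : F.ca o t * (τ t * s t / N t) + F.cb o t * (τ t / N t) =
        |F.cc o t| * N (t + 1) / N t * (τ (t + 1) * s (t + 1) / N (t + 1)) := by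
      rw [hτs t]
      have h4 := hrec t
      field_simp
      linear_combination τ t * h4
    have e2 : F.cc o t * (τ t / N t) =
        |F.cc o t| * N (t + 1) / N t * (τ (t + 1) / N (t + 1)) := by
      rw [hτs t]
      field_simp
    rw [e1, e2]
    push_cast
    ring
  have hDn : ∀ t, ‖F.D (o t).1 (e t)‖ = |F.cc o t| * N (t + 1) / N t := by
    intro t
    rw [hD t, norm_mul, hen, mul_one, Complex.norm_real, Real.norm_eq_abs, abs_of_pos (hκ t)]
  refine ⟨fun t => ((o t).1, e t), rfl, fun ε hε => ?_⟩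
  obtain ⟨C, -, h1, h2⟩ := h (ε / 3) (by linarith)
  obtain ⟨C', hC', h3⟩ := hsb (ε / 3) (by linarith)
  have hC : 0 ≤ C := by
    have := h1 0 0 le_rfl
    simpa using this
  have hL0 : ∀ t, 0 ≤ Real.log (N t) := fun t => Real.log_nonneg (hN1 t)
  have hL1 : ∀ t : ℤ, Real.log (N t) ≤ ε / 3 * |(t : ℝ)| + C' := by
    intro t
    have h4 : 1 ≤ Real.exp (ε / 3 * |(t : ℝ)|) := Real.one_le_exp (by positivity)
    have h5 : N t ≤ Real.exp (ε / 3 * |(t : ℝ)|) * (C' + 1) := by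
      have := hNs t
      have := h3 t
      nlinarith
    have h6 : C' + 1 ≤ Real.exp C' := Real.add_one_le_exp C'
    rw [Real.log_le_iff_le_exp (hN0 t), Real.exp_add]
    exact h5.trans (mul_le_mul_of_nonneg_left h6 (Real.exp_pos _).le)
  refine ⟨2 * C + C', ?_, ?_, ?_⟩
  · intro t
    refine ⟨(ho t).1, hen t, (ho t).2.2.1, ?_⟩
    simp only
    rw [hDn t]
    exact hD t
  · intro i j hij
    have h4 := h1 i j hij
    have h5 := h2 i j hij
    rw [hΔ] at h5
    have e1 : ∑ t ∈ Finset.Ico i j, (F.la ((o t).1, e t) - (Δ - l)) =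
        ∑ t ∈ Finset.Ico i j, (F.ld (o t) - Δ) - ∑ t ∈ Finset.Ico i j, (F.la (o t) - l) +
          (Real.log (N j) - Real.log (N i)) := by
      rw [← ser_tele (fun t => Real.log (N t)) hij, ← Finset.sum_sub_distrib,
        ← Finset.sum_add_distrib]
      refine Finset.sum_congr rfl fun t _ => ?_
      have e2 : F.la ((o t).1, e t) = Real.log (|F.cc o t| * N (t + 1) / N t) := by
        rw [← hDn t]; rfl
      rw [e2, Real.log_div (mul_pos (hc t) (hN0 _)).ne' (hN0 t).ne',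
        Real.log_mul (hc t).ne' (hN0 _).ne', (F.cc_bd ho t).2.2]
      ring
    simp only at h4 h5 ⊢
    rw [e1]
    rw [abs_le] at h4 h5 ⊢
    have a1 := hL0 i
    have a2 := hL0 j
    have a3 := hL1 i
    have a4 := hL1 j
    have a5 : 0 ≤ ε / 3 * |(i : ℝ)| := by positivity
    have a6 : 0 ≤ ε / 3 * |(j : ℝ)| := by positivity
    constructor <;> linarith [h4.1, h4.2, h5.1, h5.2]
  · intro i j hij
    have h5 := h2 i j hij
    rw [hΔ] at h5
    have e1 : Δ - l + (Δ - (Δ - l)) = Δ := by ring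
    rw [e1]
    have e2 : ∀ t, F.ld ((o t).1, e t) = F.ld (o t) := fun t => rfl
    simp only [e2] at h5 ⊢
    have a5 : 0 ≤ ε * (|(i : ℝ)| + |(j : ℝ)|) := by positivity
    linarith


end Dis

end Pool.Agent.Lib.MP_3fe454_an.PD
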