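import Pool.Agent.Lib.MP_3fe454_an.PD.Chart

/-!
Two negative exponents give a sink.
-/

set_option autoImplicit false

open Set Metric Filter Topology MeasureTheory Function
open scoped ComplexConjugate ENNReal

namespace Pool.Agent.Lib.MP_3fe454_an.PD

theorem sinkl_weight (u : ℕ → ℝ) {κ γ C : ℝ}
    (h : ∀ t k : ℕ, ∑ s ∈ Finset.range k, u (t + s) + κ * k ≤ γ * t + C) :
    ∃ P : ℕ → ℝ, ∀ t, 0 ≤ P t ∧ P t ≤ γ * t + C ∧ P (t + 1) + u t + κ ≤ P t := by
  have hb : ∀ t : ℕ, BddAbove (range fun k : ℕ => ∑ s ∈ Finset.range k, u (t + s) + κ * k) :=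
    fun t => ⟨γ * t + C, by rintro _ ⟨k, rfl⟩; exact h t k⟩
  refine ⟨fun t => ⨆ k : ℕ, (∑ s ∈ Finset.range k, u (t + s) + κ * k), fun t => ⟨?_, ?_, ?_⟩⟩
  · simpa using le_ciSup (hb t) 0
  · exact ciSup_le (h t)
  · have h1 : (⨆ k : ℕ, (∑ s ∈ Finset.range k, u (t + 1 + s) + κ * k)) ≤
        (⨆ k : ℕ, (∑ s ∈ Finset.range k, u (t + s) + κ * k)) - u t - κ := ciSup_le fun k => by
      have h2 := le_ciSup (hb t) (k + 1)
      simp only [Finset.sum_range_succ', add_zero, Nat.cast_add, Nat.cast_one] at h2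
      have h3 : ∀ s, t + 1 + s = t + (s + 1) := fun s => by omega
      simp only [h3]
      linarith
    linarith

theorem sinkl_norm (a c : ℕ → ℝ) {κ γ C M : ℝ} (hκ : 0 < κ) (hγ : 0 ≤ γ) (hγκ : γ ≤ κ / 4)
    (hM : 0 ≤ M) (ha : ∀ t, 0 < a t) (hc : ∀ t, 0 < c t)
    (h1 : ∀ t k : ℕ, ∑ s ∈ Finset.range k, Real.log (a (t + s)) + κ * k ≤ γ * t + C)
    (h2 : ∀ t k : ℕ, ∑ s ∈ Finset.range k, Real.log (c (t + s)) + κ * k ≤ γ * t + C) :
    ∃ (p q : ℕ → ℝ) (B : ℝ), 0 < B ∧ ∀ t, 1 ≤ p t ∧ 1 ≤ q t ∧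
      p t + q t ≤ B * Real.exp (2 * γ * t) ∧ p (t + 1) * a t ≤ Real.exp (-κ / 2) * p t ∧
      p (t + 1) * M + q (t + 1) * c t ≤ Real.exp (-κ / 2) * q t := by
  obtain ⟨P, hP⟩ := sinkl_weight (fun t => Real.log (a t)) h1
  obtain ⟨Q, hQ⟩ := sinkl_weight (fun t => Real.log (c t)) h2
  have hg : 0 < Real.exp (-κ / 2) - Real.exp (γ - κ) :=
    sub_pos.mpr (Real.exp_lt_exp.mpr (by linarith))
  obtain ⟨K, hK1, hK2⟩ : ∃ K : ℝ, 1 ≤ K ∧
      M * Real.exp (γ + C) ≤ (Real.exp (-κ / 2) - Real.exp (γ - κ)) * K := by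
    refine ⟨max 1 (M * Real.exp (γ + C) / (Real.exp (-κ / 2) - Real.exp (γ - κ))),
      le_max_left _ _, ?_⟩
    rw [← div_le_iff₀' hg]
    exact le_max_right _ _
  refine ⟨fun t => Real.exp (P t), fun t => K * Real.exp (γ * t + Q t), (1 + K) * Real.exp C,
    by positivity, fun t => ?_⟩
  obtain ⟨p0, p1, p2⟩ := hP t
  obtain ⟨q0, q1, q2⟩ := hQ t
  have ht : 0 ≤ γ * t := by positivity
  have e1 : 1 ≤ Real.exp (γ * t + Q t) := Real.one_le_exp (by linarith)
  refine ⟨Real.one_le_exp p0, by nlinarith, ?_, ?_, ?_⟩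
  · have h3 : Real.exp (P t) ≤ Real.exp C * Real.exp (2 * γ * t) := by
      rw [← Real.exp_add]; exact Real.exp_le_exp.mpr (by linarith)
    have h4 : Real.exp (γ * t + Q t) ≤ Real.exp C * Real.exp (2 * γ * t) := by
      rw [← Real.exp_add]; exact Real.exp_le_exp.mpr (by linarith)
    have h5 := mul_le_mul_of_nonneg_left h4 (by linarith : 0 ≤ K)
    linarith
  · rw [← Real.exp_log (ha t), ← Real.exp_add, ← Real.exp_add]
    exact Real.exp_le_exp.mpr (by linarith)
  · have h3 : Real.exp (γ * ((t + 1 : ℕ) : ℝ) + Q (t + 1)) * c t ≤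
        Real.exp (γ - κ) * Real.exp (γ * t + Q t) := by
      rw [← Real.exp_log (hc t), ← Real.exp_add, ← Real.exp_add]
      push_cast
      exact Real.exp_le_exp.mpr (by linarith)
    have h4 : Real.exp (P (t + 1)) ≤ Real.exp (γ + C) * Real.exp (γ * t + Q t) := by
      have := (hP (t + 1)).2.1
      push_cast at this
      rw [← Real.exp_add]
      exact Real.exp_le_exp.mpr (by linarith)
    have h5 := mul_le_mul_of_nonneg_left h3 (by linarith : 0 ≤ K)
    have h6 := mul_le_mul_of_nonneg_left h4 hM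
    have h7 := mul_le_mul_of_nonneg_right hK2 (Real.exp_pos (γ * t + Q t)).le
    nlinarith

theorem sinkl_decay {a c p q : ℕ → ℝ} {κ γ B M H α : ℝ} (hκ : 0 < κ) (hγ : 2 * γ ≤ α * (κ / 4))
    (hα : 0 < α) (hH : 0 < H) (hB : 0 < B)
    (h : ∀ t, 1 ≤ p t ∧ 1 ≤ q t ∧
      p t + q t ≤ B * Real.exp (2 * γ * t) ∧ p (t + 1) * a t ≤ Real.exp (-κ / 2) * p t ∧
      p (t + 1) * M + q (t + 1) * c t ≤ Real.exp (-κ / 2) * q t) :
    ∃ ρ > 0, ∃ D : ℝ, ∀ x y : ℕ → ℝ, (∀ t, 0 ≤ x t) → (∀ t, 0 ≤ y t) → x 0 + y 0 ≤ ρ →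
      (∀ t, x (t + 1) ≤ a t * x t + M * y t + H * (x t + y t) ^ α * (x t + y t)) →
      (∀ t, y (t + 1) ≤ c t * y t + H * (x t + y t) ^ α * (x t + y t)) →
      ∀ t, x t + y t ≤ D * Real.exp (-κ / 4) ^ t := by
  have hg : 0 < Real.exp (-κ / 4) - Real.exp (-κ / 2) :=
    sub_pos.mpr (Real.exp_lt_exp.mpr (by linarith))
  obtain ⟨D, hD, hD1⟩ : ∃ D : ℝ, 0 < D ∧
      H * B * Real.exp (2 * γ) * D ^ α ≤ Real.exp (-κ / 4) - Real.exp (-κ / 2) := by
    have h1 : 0 < H * B * Real.exp (2 * γ) := by positivity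
    refine ⟨((Real.exp (-κ / 4) - Real.exp (-κ / 2)) / (H * B * Real.exp (2 * γ))) ^ α⁻¹,
      Real.rpow_pos_of_pos (div_pos hg h1) _, ?_⟩
    rw [Real.rpow_inv_rpow (div_pos hg h1).le hα.ne', mul_div_cancel₀ _ h1.ne']
  refine ⟨D / B, div_pos hD hB, D, fun x y hx hy h0 hx' hy' => ?_⟩
  have hN : ∀ t, x t + y t ≤ p t * x t + q t * y t := fun t => by
    have := hx t
    have := hy t
    obtain ⟨p1, q1, -⟩ := h t
    nlinarith
  have key : ∀ t, p t * x t + q t * y t ≤ D * Real.exp (-κ / 4) ^ t := by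
    intro t
    induction t with
    | zero =>
      obtain ⟨p1, q1, h1, -⟩ := h 0
      have := hx 0
      have := hy 0
      rw [le_div_iff₀ hB] at h0
      simp only [Nat.cast_zero, mul_zero, Real.exp_zero, mul_one, pow_zero] at h1 ⊢
      nlinarith
    | succ t ih =>
      obtain ⟨-, -, -, h2, h3⟩ := h t
      obtain ⟨p1, q1, h1, -⟩ := h (t + 1)
      have hxt := hx t
      have hyt := hy t
      have hs : 0 ≤ x t + y t := by linarith
      have e1 : (x t + y t) ^ α ≤ D ^ α * Real.exp (-(2 * γ * t)) := by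
        refine (Real.rpow_le_rpow hs ((hN t).trans ih) hα.le).trans ?_
        rw [Real.mul_rpow hD.le (by positivity), ← Real.exp_nat_mul, ← Real.exp_mul]
        refine mul_le_mul_of_nonneg_left (Real.exp_le_exp.mpr ?_) (by positivity)
        have : (0 : ℝ) ≤ t := by positivity
        nlinarith
      have e2 : (p (t + 1) + q (t + 1)) * (H * (x t + y t) ^ α) ≤
          Real.exp (-κ / 4) - Real.exp (-κ / 2) := by
        refine le_trans ?_ hD1
        calc _ ≤ (B * Real.exp (2 * γ * ((t + 1 : ℕ) : ℝ))) *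
              (H * (D ^ α * Real.exp (-(2 * γ * t)))) := by
              refine mul_le_mul h1 (mul_le_mul_of_nonneg_left e1 hH.le) (by positivity)
                (by positivity)
          _ = H * B * (Real.exp (2 * γ * ((t + 1 : ℕ) : ℝ)) * Real.exp (-(2 * γ * t))) * D ^ α := by
              ring
          _ = _ := by
              rw [← Real.exp_add]
              push_cast
              ring_nf
      have e3 := mul_le_mul_of_nonneg_left (hx' t) (by linarith : 0 ≤ p (t + 1))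
      have e4 := mul_le_mul_of_nonneg_left (hy' t) (by linarith : 0 ≤ q (t + 1))
      have e5 := mul_le_mul_of_nonneg_right h2 hxt
      have e6 := mul_le_mul_of_nonneg_right h3 hyt
      have e7 := mul_le_mul e2 (hN t) hs hg.le
      have e8 := mul_le_mul_of_nonneg_left ih (Real.exp_pos (-κ / 4)).le
      rw [pow_succ]
      nlinarith
  exact fun t => (hN t).trans (key t)

theorem sinkl_sum {u : ℤ → ℝ} {l ε C : ℝ} (h : Bd u l ε C) (t k : ℕ) :
    |∑ s ∈ Finset.range k, u ((t + s : ℕ) : ℤ) - l * k| ≤ ε * (2 * t + k) + C := by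
  have h1 := h t (t + k) (by omega)
  have h2 : ∑ s ∈ Finset.Ico (t : ℤ) (t + k), (u s - l) =
      ∑ s ∈ Finset.range k, u ((t + s : ℕ) : ℤ) - l * k := by
    clear h1
    induction k with
    | zero => simp
    | succ k ih =>
      rw [Finset.sum_range_succ, Nat.cast_add k 1, Nat.cast_one, ← add_assoc,
        ← Finset.insert_Ico_right_eq_Ico_add_one (by omega), Finset.sum_insert (by simp), ih]
      push_cast
      ring
  rw [h2] at h1
  push_cast at h1
  rw [abs_of_nonneg (by positivity : (0 : ℝ) ≤ t), abs_of_nonneg (by positivity : (0 : ℝ) ≤ t + k)]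
    at h1
  push_cast
  linarith

namespace Dis

variable (F : Dis)


theorem sink_of_neg {l Δ : ℝ} {o : ℤ → ℂ × ℂ} (h : F.Reg l Δ o) (h1 : l < 0) (h2 : Δ - l < 0) :
    (o 0).1 ∈ F.Sink := by
  obtain ⟨κ, hκ, k1, k2⟩ : ∃ κ : ℝ, 0 < κ ∧ l + 2 * κ ≤ 0 ∧ Δ - l + 2 * κ ≤ 0 :=
    ⟨min (-l) (-(Δ - l)) / 2, by have := lt_min (neg_pos.mpr h1) (neg_pos.mpr h2); linarith,
      by have := min_le_left (-l) (-(Δ - l)); linarith,
      by have := min_le_right (-l) (-(Δ - l)); linarith⟩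
  have hα := F.α_pos
  have hα1 := F.α_le
  have hε : 0 < F.α * κ / 32 := by positivity
  have hε1 : F.α * κ / 32 ≤ κ / 32 := by nlinarith
  obtain ⟨C, ho, b1, b2⟩ := h _ hε
  generalize hεe : F.α * κ / 32 = ε at hε hε1 b1 b2
  have hC : 0 ≤ C := by simpa using b1 0 0 le_rfl
  have hm := F.m_pos
  obtain ⟨p, q, B, hB, hpq⟩ := sinkl_norm (fun t => F.ca o t) (fun t => |F.cc o t|) (κ := κ)
    (γ := 4 * ε) (C := 2 * C) (M := F.M) hκ (by positivity) (by linarith)
    (by linarith [F.one_le_M]) (fun t => hm.trans_le (F.ca_bd ho t).1)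
    (fun t => hm.trans_le (F.cc_bd ho t).1)
    (fun t k => by
      have e1 := (abs_le.mp (sinkl_sum b1 t k)).2
      simp only [(F.ca_bd ho _).2.2]
      have : (0 : ℝ) ≤ t := by positivity
      have : (0 : ℝ) ≤ k := by positivity
      nlinarith)
    (fun t k => by
      have e1 := (abs_le.mp (sinkl_sum b1 t k)).1
      have e2 := (abs_le.mp (sinkl_sum b2 t k)).2
      simp only [(F.cc_bd ho _).2.2, Finset.sum_sub_distrib]
      have : (0 : ℝ) ≤ t := by positivity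
      have : (0 : ℝ) ≤ k := by positivity
      nlinarith)
  obtain ⟨ρ, hρ, D, hD⟩ := sinkl_decay hκ (by linarith) hα F.H_pos hB hpq
  have hz : ∀ t : ℕ, (o t).1 = F.f^[t] (o 0).1 := fun t => by simpa using F.orb_iter ho 0 t
  refine ⟨min (ρ / 2) (1 - F.r0), lt_min (by linarith) (by linarith [F.r0_lt]), fun w hw => ?_⟩
  rw [mem_ball, dist_eq_norm, lt_min_iff] at hw
  have hw0 : w ∈ Disc := by
    have e1 := F.Λ_norm (ho 0).1
    have e2 := norm_add_le (w - (o 0).1) (o 0).1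
    rw [sub_add_cancel] at e2
    rw [mem_closedBall_zero_iff]
    linarith [hw.2]
  have hn : ∀ t : ℕ, ‖F.f^[t] w - (o t).1‖ ≤ |(co (o t).1 (o t).2 (F.f^[t] w)).re| +
      |(co (o t).1 (o t).2 (F.f^[t] w)).im| := fun t => by
    rw [← norm_co (ho t).2.1]
    exact Complex.norm_le_abs_re_add_abs_im _
  have hch : ∀ t : ℕ, _ := fun t : ℕ => F.chart ho t (F.iter_mem_Disc hw0 t)
    (F.Λ_sub_Disc (ho t).1) (hn t) (by rw [sub_self, norm_zero]; positivity)
  have hE : ∀ t : ℕ, F.H * (|(co (o t).1 (o t).2 (F.f^[t] w)).re| +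
      |(co (o t).1 (o t).2 (F.f^[t] w)).im|) ^ F.α * ‖F.f^[t] w - (o t).1‖ ≤
      F.H * (|(co (o t).1 (o t).2 (F.f^[t] w)).re| +
      |(co (o t).1 (o t).2 (F.f^[t] w)).im|) ^ F.α * (|(co (o t).1 (o t).2 (F.f^[t] w)).re| +
      |(co (o t).1 (o t).2 (F.f^[t] w)).im|) := fun t =>
    mul_le_mul_of_nonneg_left (hn t) (by have := F.H_pos; positivity)
  have key := hD (fun t => |(co (o t).1 (o t).2 (F.f^[t] w)).re|)
    (fun t => |(co (o t).1 (o t).2 (F.f^[t] w)).im|) (fun t => abs_nonneg _) (fun t => abs_nonneg _)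
    (by
      have e1 := Complex.abs_re_le_norm (co (o 0).1 (o 0).2 w)
      have e2 := Complex.abs_im_le_norm (co (o 0).1 (o 0).2 w)
      rw [norm_co (ho 0).2.1] at e1 e2
      simp only [Nat.cast_zero, iterate_zero, id]
      linarith [hw.1])
    (fun t => by
      have e1 := (hch t).1.trans (hE t)
      rw [← (ho t).2.2.1, ← iterate_succ_apply' F.f] at e1
      push_cast
      have e2 := abs_sub_abs_le_abs_sub (co (o (t + 1)).1 (o (t + 1)).2 (F.f^[t + 1] w)).re
        (F.ca o t * (co (o t).1 (o t).2 (F.f^[t] w)).re +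
          F.cb o t * (co (o t).1 (o t).2 (F.f^[t] w)).im)
      have e3 := abs_add_le (F.ca o t * (co (o t).1 (o t).2 (F.f^[t] w)).re)
        (F.cb o t * (co (o t).1 (o t).2 (F.f^[t] w)).im)
      rw [abs_mul, abs_mul, abs_of_pos (hm.trans_le (F.ca_bd ho t).1)] at e3
      have e4 := mul_le_mul_of_nonneg_right (F.cb_bd ho t)
        (abs_nonneg (co (o t).1 (o t).2 (F.f^[t] w)).im)
      simp only [Nat.succ_eq_add_one] at e1
      linarith)
    (fun t => by
      have e1 := (hch t).2.trans (hE t)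
      rw [← (ho t).2.2.1, ← iterate_succ_apply' F.f] at e1
      push_cast
      have e2 := abs_sub_abs_le_abs_sub (co (o (t + 1)).1 (o (t + 1)).2 (F.f^[t + 1] w)).im
        (F.cc o t * (co (o t).1 (o t).2 (F.f^[t] w)).im)
      rw [abs_mul] at e2
      simp only [Nat.succ_eq_add_one] at e1
      linarith)
  have hlim : Tendsto (fun t : ℕ => D * Real.exp (-κ / 4) ^ t) atTop (𝓝 0) := by
    simpa using (tendsto_pow_atTop_nhds_zero_of_lt_one (Real.exp_pos (-κ / 4)).le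
      (Real.exp_lt_one_iff.mpr (by linarith))).const_mul D
  refine squeeze_zero (fun t => norm_nonneg _) (fun t => ?_) hlim
  rw [← hz t]
  exact (hn t).trans (key t)


end Dis

end Pool.Agent.Lib.MP_3fe454_an.PD
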