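import Pool.Agent.Lib.MP_3fe454_an.PD.Lift
import Pool.Agent.Lib.MP_3fe454_an.PD.Series
import Pool.Agent.Lib.MP_3fe454_an.PD.SinkL
import Pool.Agent.Lib.MP_3fe454_an.PD.Pesin1
import Pool.Agent.Lib.MP_3fe454_an.PD.Pesin2
import Pool.Agent.Lib.MP_3fe454_an.PD.Katok3

/-!
Neutral blocks carry the aperiodic measures.
-/

set_option autoImplicit false

open Set Metric Filter Topology MeasureTheory Function
open scoped ComplexConjugate ENNReal

namespace Pool.Agent.Lib.MP_3fe454_an.PD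

namespace Dis

variable (F : Dis)


theorem exists_blk {ls lc : ℝ} (ha : F.AdmP ls lc) (hl : lc ≤ F.β / 256) {C : ℝ} (hC : 0 ≤ C) :
    ∃ B : Blk F, B.K = F.Khat ls lc C := by
  obtain ⟨A, hA⟩ := F.exists_ThBd ha C
  have hA1 := hA.1
  have hΘ := F.one_le_Θmin
  obtain ⟨σ, h0, h1, h2, h3⟩ : ∃ σ : ℝ, 0 < σ ∧ σ ≤ 1 / (4 * A) ∧ σ ≤ 1 / 8 ∧ σ ≤ 1 / F.Θmin :=
    ⟨min (1 / (4 * A)) (min (1 / 8) (1 / F.Θmin)), by positivity, min_le_left _ _,
      (min_le_right _ _).trans (min_le_left _ _), (min_le_right _ _).trans (min_le_right _ _)⟩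
  obtain ⟨r, hS⟩ := F.exists_Small hA h0 ((le_one_div h0 (by linarith)).1 h3)
  have hr := hS.2.2.1
  have hσ : 4 * A * σ ≤ 1 := by rwa [le_div_iff₀' (by linarith)] at h1
  have hη : 0 < r / (400 * Real.exp C) := by positivity
  have hηr : 200 * (2 * Real.exp C) * (r / (400 * Real.exp C)) ≤ r := le_of_eq (by
    field_simp
    ring)
  have e1 := Real.one_le_exp hC
  have e2 : 1 ≤ Real.exp (2 * C) := Real.one_le_exp (by linarith)
  have e3 : 0 ≤ A * (1 + 1 / σ) := by positivity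
  refine ⟨{ K := F.Khat ls lc C, r := r, η := r / (400 * Real.exp C), σ := σ,
            C1 := 2 * Real.exp C, C2 := (1 + A * (1 + 1 / σ)) * Real.exp (2 * C), G := F.G0 lc,
            θ := F.θ0, cpt := F.Khat_compact ls lc C, lam := ?_, unit := ?_,
            neg := fun _ _ h => F.Khat_neg h, uniq := fun _ _ _ h h' => F.Khat_uniq ha h h',
            η_pos := hη, σ_pos := h0, σ_le := h2, θ_pos := F.θ0_pos, θ_lt := F.θ0_lt_one,
            one_le_C1 := by linarith,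
            one_le_C2 := one_le_mul_of_one_le_of_one_le (by linarith) e2,
            one_le_G := F.one_le_G0 ha.2, neutral := F.G0_neutral hl, scale := hηr,
            r_le := hS.2.2.2.1,
            cone := fun _ _ h _ hw _ hw' => (F.st_cone ha hS h hw hw').1,
            contr := fun _ _ h _ hw _ hw' => (F.st_cone ha hS h hw hw').2,
            shoot := fun _ _ h _ hP hPb _ h₁ _ h₂ hu hd =>
              F.st_shoot ha hS hη hηr h hP hPb h₁ h₂ hu hd,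
            tube := fun _ _ h _ hy _ _ hw s hs _ ht => F.st_tube ha hS hA h hy hw s hs ht,
            side := fun _ _ h s hs => ?_ }, rfl⟩
  · rintro _ ⟨o, ho, rfl⟩
    exact (ho.1 0).1
  · rintro _ ⟨o, ho, rfl⟩
    exact (ho.1 0).2.1
  · obtain ⟨e', h4, h5⟩ := F.st_side ha hS hA hσ h s hs
    exact ⟨e', h4, fun y hy _ => h5 y hy⟩

theorem cover_meas (ls lc C : ℝ) : MeasurableSet (Prod.fst '' F.Khat ls lc C) :=
  ((F.Khat_compact ls lc C).image continuous_fst).measurableSet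

theorem ae_khat (ν : Measure ℂ) [IsFiniteMeasure ν] (h : MeasurePreserving F.f ν ν) :
    ∀ᵐ z ∂ν, z ∈ F.Sink ∨
      ∃ (ls lc : ℚ) (C : ℕ), F.AdmP ls lc ∧ z ∈ Prod.fst '' F.Khat ls lc C := by
  rcases eq_zero_or_neZero ν with rfl | h0
  · simp
  obtain ⟨m, -, h1, h2⟩ := F.ae_reg ((ν univ)⁻¹ • ν) (h.smul_measure _)
  rw [← Measure.ae_ennreal_smul_measure_iff (c := (ν univ)⁻¹)
    (ENNReal.inv_ne_zero.2 (measure_ne_top _ _)), ← h1]
  refine (ae_map_iff measurable_fst.aemeasurable ?_).2 ?_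
  · rw [ofPred_or]
    refine F.isOpen_Sink.measurableSet.union ?_
    simp only [ofPred_exists]
    refine .iUnion fun ls => .iUnion fun lc => .iUnion fun C => ?_
    rw [ofPred_and]
    exact (MeasurableSet.const _).inter (F.cover_meas ls lc C)
  filter_upwards [h2] with p ⟨o, l, Δ, e, ho⟩
  have hβ := F.β_pos
  have hΔ := F.reg_det ho
  rcases lt_or_ge l 0 with hl | hl
  · rcases lt_or_ge (Δ - l) 0 with hl' | hl'
    · exact Or.inl (e ▸ F.sink_of_neg ho hl hl')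
    · obtain ⟨ls, lc, C, h3, h4⟩ := F.reg_khat ho (by linarith) hl'
      exact Or.inr ⟨ls, lc, C, h3, _, h4, by rw [e]⟩
  · obtain ⟨o', e', ho'⟩ := F.series ho (by linarith)
    obtain ⟨ls, lc, C, h3, h4⟩ := F.reg_khat ho' (by linarith) (by linarith)
    exact Or.inr ⟨ls, lc, C, h3, _, h4, by rw [e', e]⟩

theorem cover_neutral (hno : ¬ HS F.f) (ν : Measure ℂ) [IsFiniteMeasure ν]
    (h : MeasurePreserving F.f ν ν) (hn : F.NullCl ν) :
    ∀ᵐ z ∂ν, ∃ (ls lc : ℚ) (C : ℕ), F.AdmP ls lc ∧ (lc : ℝ) ≤ F.β / 256 ∧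
      z ∈ Prod.fst '' F.Khat ls lc C := by
  have h1 : ∀ᵐ z ∂ν, ∀ (ls lc : ℚ) (C : ℕ), F.AdmP ls lc → F.β / 256 ≤ lc →
      z ∉ Prod.fst '' F.Khat ls lc C := by
    simp only [ae_all_iff]
    intro ls lc C ha hl
    exact measure_eq_zero_iff_ae_notMem.1 (by_contra fun hK => hno (F.katok ha hl C ν h hn hK))
  filter_upwards [h1, F.ae_khat ν h, measure_eq_zero_iff_ae_notMem.1 (F.sink_null ν hn)]
    with z h2 h3 h4
  obtain ⟨ls, lc, C, ha, hz⟩ := h3.resolve_left h4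
  exact ⟨ls, lc, C, ha, le_of_not_ge fun hl => h2 ls lc C ha hl hz, hz⟩

theorem cover (hno : ¬ HS F.f) (ν : Measure ℂ) [IsFiniteMeasure ν]
    (h : MeasurePreserving F.f ν ν) (hn : F.NullCl ν) :
    ∃ 𝓢 : Set (Blk F), 𝓢.Countable ∧ ∀ᵐ z ∂ν, ∃ B ∈ 𝓢, z ∈ B.P := by
  choose B hB using fun q : {q : ℚ × ℚ × ℕ // F.AdmP q.1 q.2.1 ∧ (q.2.1 : ℝ) ≤ F.β / 256} =>
    F.exists_blk q.2.1 q.2.2 (Nat.cast_nonneg (α := ℝ) q.1.2.2)
  refine ⟨Set.range B, countable_range B, ?_⟩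
  filter_upwards [F.cover_neutral hno ν h hn] with z ⟨ls, lc, C, ha, hl, hz⟩
  refine ⟨B ⟨(ls, lc, C), ha, hl⟩, mem_range_self _, ?_⟩
  rwa [Blk.P, hB]

theorem big_blk (hno : ¬ HS F.f) (μ : Measure ℂ) [IsProbabilityMeasure μ] (h : Ergodic F.f μ)
    (hn : F.NullCl μ) {ε : ℝ≥0∞} (hε : 0 < ε) : ∃ B : Blk F, μ B.Pᶜ ≤ ε := by
  obtain ⟨ls, lc, ha, hl, h0⟩ : ∃ ls lc : ℚ, F.AdmP ls lc ∧ (lc : ℝ) ≤ F.β / 256 ∧
      μ (⋃ C : ℕ, Prod.fst '' F.Khat ls lc C) ≠ 0 := by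
    by_contra hc
    have h1 : ∀ᵐ z ∂μ, ∀ ls lc : ℚ, F.AdmP ls lc → (lc : ℝ) ≤ F.β / 256 →
        z ∉ ⋃ C : ℕ, Prod.fst '' F.Khat ls lc C := by
      simp only [ae_all_iff]
      intro ls lc ha hl
      exact measure_eq_zero_iff_ae_notMem.1 (by_contra fun hK => hc ⟨ls, lc, ha, hl, hK⟩)
    obtain ⟨z, h2, ls, lc, C, ha, hl, hz⟩ :=
      (h1.and (F.cover_neutral hno μ h.toMeasurePreserving hn)).exists
    exact h2 ls lc ha hl (mem_iUnion.2 ⟨C, hz⟩)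
  have h1 : F.f ⁻¹' (⋃ C : ℕ, Prod.fst '' F.Khat ls lc C) =ᵐ[μ]
      (⋃ C : ℕ, Prod.fst '' F.Khat ls lc C : Set ℂ) := by
    rw [eventuallyEq_set]
    filter_upwards [F.ae_Λ μ h.toMeasurePreserving] with z hz
    rw [mem_preimage, mem_iUnion, mem_iUnion]
    exact F.Khat_inv hz
  have h2 := (h.quasiErgodic.ae_empty_or_univ₀
    (MeasurableSet.iUnion fun C : ℕ => F.cover_meas ls lc C).nullMeasurableSet h1).resolve_left
    fun e => h0 (ae_eq_empty.1 e)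
  have h3 := tendsto_measure_iInter_atTop (μ := μ)
    (s := fun C : ℕ => (Prod.fst '' F.Khat ls lc C)ᶜ)
    (fun C => (F.cover_meas ls lc C).compl.nullMeasurableSet) (fun C C' hC => compl_subset_compl.2
      (image_mono fun p ⟨o, ho, e⟩ => ⟨o, F.good_mono ho (Nat.cast_le.2 hC), e⟩))
    ⟨0, measure_ne_top _ _⟩
  rw [← compl_iUnion, ae_eq_univ.1 h2] at h3
  obtain ⟨C, hC⟩ := (h3.eventually (eventually_le_nhds hε)).exists
  obtain ⟨B, hB⟩ := F.exists_blk ha hl (Nat.cast_nonneg (α := ℝ) C)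
  exact ⟨B, by rwa [Blk.P, hB]⟩


end Dis

end Pool.Agent.Lib.MP_3fe454_an.PD
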