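import Pool.Agent.Lib.MP_3fe454_an.PD.KB
import Pool.Agent.Lib.MP_3fe454_an.PD.Meas1

/-!
The invariant measure carried by the ends of the stable branches.
-/

set_option autoImplicit false

open Set Metric Filter Topology MeasureTheory Function
open scoped ComplexConjugate ENNReal

namespace Pool.Agent.Lib.MP_3fe454_an.PD

namespace Dis

variable (F : Dis)


/-- the point and the pulled back end of the branch through its i-th iterate -/
noncomputable def rhoMap (y : ℂ → ℂ) (i : ℕ) (x : ℂ) : ℂ × ℂ := (x, F.g^[i] (y (F.f^[i] x)))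

/-- the i-th approximating measure -/
noncomputable def rhoMeas (μ : Measure ℂ) (H0 : Set ℂ) (y : ℂ → ℂ) (i : ℕ) : Measure (ℂ × ℂ) :=
  (μ.restrict (F.f^[i] ⁻¹' H0)).map (F.rhoMap y i)

theorem rho_measurable {y : ℂ → ℂ} (hy : Measurable y) (i : ℕ) : Measurable (F.rhoMap y i) :=
  measurable_id.prodMk ((F.cg.measurable.iterate i).comp (hy.comp (F.cf.measurable.iterate i)))

theorem rho_apply (μ : Measure ℂ) (H0 : Set ℂ) {y : ℂ → ℂ} (hy : Measurable y) (i : ℕ)
    {S : Set (ℂ × ℂ)} (hS : MeasurableSet S) :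
    F.rhoMeas μ H0 y i S = μ (F.rhoMap y i ⁻¹' S ∩ F.f^[i] ⁻¹' H0) := by
  rw [rhoMeas, Measure.map_apply (F.rho_measurable hy i) hS,
    Measure.restrict_apply (F.rho_measurable hy i hS)]

theorem rho_step (μ : Measure ℂ) (hμ : MeasurePreserving F.f μ μ) {H0 : Set ℂ}
    (hH : MeasurableSet H0) {y : ℂ → ℂ} (hy : Measurable y) (hyΛ : ∀ x ∈ H0, y x ∈ F.Λ) (i : ℕ) :
    (F.rhoMeas μ H0 y (i + 1)).map (Prod.map F.f F.f) = F.rhoMeas μ H0 y i := by
  have hΦ : Measurable (Prod.map F.f F.f) := F.cf.measurable.prodMap F.cf.measurable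
  ext S hS
  rw [Measure.map_apply hΦ hS, F.rho_apply μ H0 hy _ (hΦ hS), F.rho_apply μ H0 hy _ hS,
    ← hμ.measure_preimage ((F.rho_measurable hy i hS).inter
      (F.cf.measurable.iterate i hH)).nullMeasurableSet]
  congr 1
  have key : ∀ x, F.f^[i] (F.f x) ∈ H0 →
      Prod.map F.f F.f (F.rhoMap y (i + 1) x) = F.rhoMap y i (F.f x) := fun x hx => by
    simp only [rhoMap, Prod.map_apply, iterate_succ_apply F.f, iterate_succ_apply' F.g]
    rw [F.f_g (F.iter_g_mem_Λ (hyΛ _ hx) i)]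
  ext x
  simp only [mem_inter_iff, mem_preimage, iterate_succ_apply F.f]
  constructor
  · rintro ⟨h1, h2⟩
    exact ⟨key x h2 ▸ h1, h2⟩
  · rintro ⟨h1, h2⟩
    exact ⟨(key x h2).symm ▸ h1, h2⟩

theorem rho_sum_le {a : ℕ → ℝ≥0∞} {ε : ℝ≥0∞} (hε : ε ≠ 0) (N : ℕ) (h1 : ∀ i, a i ≤ 1)
    (h2 : ∀ i ≥ N, a i ≤ ε) :
    ∀ᶠ n : ℕ in atTop, ∑ i ∈ Finset.range n, a i ≤ n * (ε + ε) := by
  obtain ⟨n0, hn0⟩ := ENNReal.exists_nat_mul_gt hε (ENNReal.natCast_ne_top N)
  filter_upwards [eventually_ge_atTop n0] with n hn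
  have h3 : ∀ i ∈ Finset.range n, a i ≤ (if i < N then 1 else 0) + ε := fun i _ => by
    split_ifs with h
    · exact (h1 i).trans le_self_add
    · rw [zero_add]
      exact h2 i (not_lt.1 h)
  have h4 : (((Finset.range n).filter fun i => i < N).card : ℝ≥0∞) ≤ N := by
    have : ((Finset.range n).filter fun i => i < N) ⊆ Finset.range N := fun i hi =>
      Finset.mem_range.2 (Finset.mem_filter.1 hi).2
    exact Nat.cast_le.2 ((Finset.card_le_card this).trans (Finset.card_range N).le)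
  have h5 : (N : ℝ≥0∞) ≤ n * ε := hn0.le.trans (mul_le_mul_left (Nat.cast_le.2 hn) ε)
  refine (Finset.sum_le_sum h3).trans ?_
  rw [Finset.sum_add_distrib, Finset.sum_boole, Finset.sum_const, Finset.card_range, nsmul_eq_mul,
    mul_add]
  exact add_le_add (h4.trans h5) le_rfl

theorem exists_rho (μ : Measure ℂ) [IsProbabilityMeasure μ] (hμ : Ergodic F.f μ) {H0 : Set ℂ}
    (hH : MeasurableSet H0) {y : ℂ → ℂ} (hy : Measurable y) (hyΛ : ∀ x ∈ H0, y x ∈ F.Λ) :
    ∃ ρ : Measure (ℂ × ℂ), IsFiniteMeasure ρ ∧ MeasurePreserving (Prod.map F.f F.f) ρ ρ ∧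
      ρ.map Prod.fst = μ H0 • μ ∧
      ∀ᵐ p ∂ρ, ∀ N : ℕ, p.2 ∈ closure
        {w | ∃ i ≥ N, F.f^[i] p.1 ∈ H0 ∧ w = F.g^[i] (y (F.f^[i] p.1))} := by
  have hf := hμ.toMeasurePreserving
  have hΦ : Continuous (Prod.map F.f F.f) := F.cf.prodMap F.cf
  have hZ : IsCompact (Disc ×ˢ Disc) := (isCompact_closedBall _ _).prod (isCompact_closedBall _ _)
  obtain ⟨ρ, hρ1, -, hρ2, hρ3⟩ := kb (Prod.map F.f F.f) hΦ (Disc ×ˢ Disc) hZ (F.rhoMeas μ H0 y)
    (μ H0) (measure_ne_top _ _)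
    (fun i => by
      rw [F.rho_apply μ H0 hy i MeasurableSet.univ, preimage_univ, univ_inter,
        (hf.iterate i).measure_preimage hH.nullMeasurableSet])
    (fun i => by
      rw [F.rho_apply μ H0 hy i hZ.isClosed.measurableSet.compl]
      refine measure_mono_null ?_ (ae_iff.1 (F.ae_Λ μ hf))
      rintro x ⟨h1, h2⟩ hx
      exact h1 ⟨F.Λ_sub_Disc hx, F.Λ_sub_Disc (F.iter_g_mem_Λ (hyΛ _ h2) i)⟩)
    (Or.inl (F.rho_step μ hf hH hy hyΛ))
  have hfin : IsFiniteMeasure ρ := ⟨by rw [hρ1]; exact measure_lt_top _ _⟩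
  refine ⟨ρ, hfin, hρ2, ?_, ?_⟩
  · have hle : ρ.map Prod.fst ≤ μ := by
      refine le_of_open fun U hU => ?_
      rw [Measure.map_apply measurable_fst hU.measurableSet]
      refine hρ3 _ (hU.preimage continuous_fst) _ (Eventually.of_forall fun n => ?_)
      have h1 : ∀ i ∈ Finset.range n, F.rhoMeas μ H0 y i (Prod.fst ⁻¹' U) ≤ μ U := fun i _ => by
        rw [F.rho_apply μ H0 hy i (measurable_fst hU.measurableSet)]
        exact measure_mono fun x hx => hx.1
      refine (Finset.sum_le_sum h1).trans ?_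
      rw [Finset.sum_const, Finset.card_range, nsmul_eq_mul]
    have hinv : MeasurePreserving F.f (ρ.map Prod.fst) (ρ.map Prod.fst) := by
      refine ⟨F.cf.measurable, ?_⟩
      rw [Measure.map_map F.cf.measurable measurable_fst]
      conv_rhs => rw [← hρ2.map_eq, Measure.map_map measurable_fst hΦ.measurable]
      rfl
    obtain ⟨c, hc⟩ := hμ.eq_smul_of_absolutelyContinuous hinv hle.absolutelyContinuous
    have h1 : ρ.map Prod.fst univ = μ H0 := by
      rw [Measure.map_apply measurable_fst MeasurableSet.univ, preimage_univ, hρ1]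
    rw [hc, Measure.smul_apply, measure_univ, smul_eq_mul, mul_one] at h1
    rw [hc, h1]
  · have key : ∀ (N : ℕ) (V : Set ℂ), IsOpen V →
        ρ ({x | ∀ i ≥ N, F.f^[i] x ∈ H0 → F.g^[i] (y (F.f^[i] x)) ∉ V} ×ˢ V) = 0 := by
      intro N V hV
      have hX : MeasurableSet {x | ∀ i ≥ N, F.f^[i] x ∈ H0 → F.g^[i] (y (F.f^[i] x)) ∉ V} := by
        have : {x | ∀ i ≥ N, F.f^[i] x ∈ H0 → F.g^[i] (y (F.f^[i] x)) ∉ V} =
            ⋂ i ∈ Ici N, ((F.f^[i] ⁻¹' H0)ᶜ ∪ (F.rhoMap y i ⁻¹' (Prod.snd ⁻¹' V))ᶜ) := by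
          ext x
          simp only [mem_ofPred_eq, mem_iInter, mem_Ici, mem_union, mem_compl_iff, mem_preimage,
            rhoMap, imp_iff_not_or (a := F.f^[_] x ∈ H0), ge_iff_le]
        rw [this]
        exact MeasurableSet.biInter (to_countable _) fun i _ =>
          (F.cf.measurable.iterate i hH).compl.union
            (F.rho_measurable hy i (measurable_snd hV.measurableSet)).compl
      refine le_antisymm (ENNReal.le_of_forall_pos_le_add fun ε hε _ => ?_) bot_le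
      have hε2 : (ε : ℝ≥0∞) / 2 ≠ 0 := ENNReal.div_ne_zero.2
        ⟨ENNReal.coe_ne_zero.2 hε.ne', ENNReal.ofNat_ne_top⟩
      obtain ⟨U, hXU, hU, -, hUε⟩ := hX.exists_isOpen_sdiff_lt (measure_ne_top μ _) hε2
      rw [zero_add, ← ENNReal.add_halves (ε : ℝ≥0∞)]
      refine (measure_mono (prod_mono hXU Subset.rfl)).trans
        (hρ3 _ (hU.prod hV) _ (rho_sum_le hε2 N (fun i => ?_) fun i hi => ?_))
      · rw [F.rho_apply μ H0 hy i (hU.prod hV).measurableSet]
        exact prob_le_one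
      · rw [F.rho_apply μ H0 hy i (hU.prod hV).measurableSet]
        refine (measure_mono ?_).trans hUε.le
        rintro x ⟨⟨h1, h2⟩, h3⟩
        exact ⟨h1, fun h => h i hi h3 h2⟩
    have hae : ∀ᵐ p ∂ρ, ∀ N : ℕ, ∀ V ∈ TopologicalSpace.countableBasis ℂ,
        p ∉ {x | ∀ i ≥ N, F.f^[i] x ∈ H0 → F.g^[i] (y (F.f^[i] x)) ∉ V} ×ˢ V := by
      rw [ae_all_iff]
      intro N
      rw [ae_ball_iff (TopologicalSpace.countable_countableBasis ℂ)]
      intro V hV
      exact measure_eq_zero_iff_ae_notMem.1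
        (key N V (TopologicalSpace.isOpen_of_mem_countableBasis hV))
    filter_upwards [hae] with p hp N
    rw [(TopologicalSpace.isBasis_countableBasis ℂ).mem_closure_iff]
    intro V hV hpV
    by_contra hne
    refine hp N V hV ⟨fun i hi h1 h2 => hne ⟨_, h2, i, hi, h1, rfl⟩, hpV⟩


end Dis

end Pool.Agent.Lib.MP_3fe454_an.PD
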