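import Pool.Agent.Lib.MP_3fe454_an.PD.CaseA2
import Pool.Agent.Lib.MP_3fe454_an.PD.Rho
import Pool.Agent.Lib.MP_3fe454_an.PD.Cover

/-!
The leaves leave the attractor on both sides.
-/

set_option autoImplicit false

open Set Metric Filter Topology MeasureTheory Function
open scoped ComplexConjugate ENNReal

namespace Pool.Agent.Lib.MP_3fe454_an.PD

namespace Blk

variable {F : Dis} (B : Blk F)


theorem mild_re {z0 e0 : ℂ} (he : ‖e0‖ = 1) {ρ : ℝ} {x : ℂ} (hx : x ∈ B.Box z0 e0 ρ) :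
    |(co z0 e0 x).re| ≤ ρ := by
  obtain ⟨e, -, -, h⟩ := hx
  exact (Complex.abs_re_le_norm _).trans ((norm_co he x).trans_le h)

theorem mild_end {z0 e0 : ℂ} (he : ‖e0‖ = 1) {x : ℂ} (hx : x ∈ B.HZ F.Λ z0 e0) :
    B.lf x z0 e0 (2 * B.η) ∈ F.Λ :=
  hx.2 _ ⟨by linarith [(abs_le.1 (B.mild_re he hx.1)).2, B.η_pos], le_rfl⟩

theorem pull_mem_Gam {z0 e0 : ℂ} (he : ‖e0‖ = 1) {x : ℂ} (hx : x ∈ Disc) {i : ℕ}
    (hi : F.f^[i] x ∈ B.HZ F.Λ z0 e0) :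
    F.g^[i] (B.lf (F.f^[i] x) z0 e0 (2 * B.η)) ∈ F.Gam x := by
  have η0 := B.η_pos
  obtain ⟨e, hs⟩ := B.Box_sadm he (by linarith : B.η / 2 < B.η) hi.1
  have ha := SAdm.adm B hs
  have hv := abs_le.1 (B.mild_re he hi.1)
  have h1 := B.arc_StC ha (a := (co z0 e0 (F.f^[i] x)).re) (b := 2 * B.η) (by linarith [hv.1])
    (by linarith)
  have h2 := F.StC_pull h1 (n := i) (by
    rintro _ ⟨v, hv, rfl⟩
    exact mem_iInter.1 (hi.2 v hv) i)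
  have h3 := B.eq_lf he (B.ht_zero ha (B.self_mem_S _) (abs_le.2 ⟨by linarith [hv.1],
    by linarith [hv.2]⟩))
  refine ⟨_, h2, ⟨F.f^[i] x, ⟨_, ⟨le_rfl, by linarith [hv.2]⟩, h3.symm⟩, F.iter_g_f hx i⟩,
    ⟨_, ⟨_, ⟨by linarith [hv.2], le_rfl⟩, rfl⟩, rfl⟩⟩

theorem pull_far {z0 e0 : ℂ} (he : ‖e0‖ = 1) {w1 : ℝ} (hw : 0 < w1) (hw' : w1 ≤ B.η) :
    ∃ N : ℕ, ∀ x ∈ B.P, B.NR w1 x → ∀ i ≥ N, F.f^[i] x ∈ B.HZ F.Λ z0 e0 →
      w1 / 2 ≤ ‖F.g^[i] (B.lf (F.f^[i] x) z0 e0 (2 * B.η)) - x‖ := by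
  have η0 := B.η_pos
  have r0 : 0 < B.r := lt_of_lt_of_le (by have := B.one_le_C1; positivity) B.scale
  obtain ⟨N, hN⟩ := exists_pow_lt_of_lt_one (div_pos η0 r0) B.θ_lt
  refine ⟨N, fun x hx hnr i hi hH => ?_⟩
  by_contra! hlt
  obtain ⟨⟨x, e⟩, hK, rfl⟩ := hx
  have hxΛ : x ∈ F.Λ := B.lam _ hK
  have he' : ‖e‖ = 1 := B.unit _ hK
  have h1 := B.pull_mem_Gam he (F.Λ_sub_Disc hxΛ) hH
  have h2 := F.iter_f_g (B.mild_end he hH) i
  simp only at h1 h2 hlt hnr hH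
  generalize F.g^[i] (B.lf (F.f^[i] x) z0 e0 (2 * B.η)) = w at h1 h2 hlt
  have h3 : |(co x e w).re| ≤ ‖w - x‖ := (Complex.abs_re_le_norm _).trans (norm_co he' w).le
  have h4 := hnr e x e (B.sadm_self hK) w h1 (by linarith)
    ((B.abs_ht_le (B.adm_self hK) w).trans (by linarith))
  have h5 : w ∈ B.S x := by
    rw [B.eq_lf he' h4]
    exact B.lf_mem (B.adm_self hK) (by linarith)
  have h6 := h5 i
  rw [h2, ← norm_co he, ← co_sub z0] at h6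
  have h7 := (le_abs_self _).trans ((Complex.abs_re_le_norm _).trans h6)
  rw [Complex.sub_re, (B.co_lf he _).1] at h7
  have h8 : B.θ ^ i ≤ B.θ ^ N := pow_le_pow_of_le_one B.θ_pos.le B.θ_lt.le hi
  have h9 := (lt_div_iff₀' r0).1 (h8.trans_lt hN)
  linarith [(abs_le.1 (B.mild_re he hH.1)).2]

theorem mild_ends (hno : ¬ HS F.f) (ν : Measure ℂ) [IsFiniteMeasure ν]
    (h : MeasurePreserving F.f ν ν) : ∃ A : Set ℂ, A.Countable ∧ A ⊆ periodicPts F.f ∧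
      ∀ᵐ z ∂ν, z ∉ A → ∀ x, z ∈ closure (F.Gam x) → F.Asy z x := by
  obtain ⟨A, hA, h1, h2, h3⟩ := F.nonatomic_part ν h
  have hn := F.nullCl _ h2 h3
  obtain ⟨𝓢, hS, h4⟩ := F.cover hno _ h2 hn
  have h5 := (ae_ball_iff hS).2 fun B' (_ : B' ∈ 𝓢) => B'.ae_typ _ h2 hn
  refine ⟨A, hA, fun p hp => F.atom_periodic ν h (h1 p hp),
    (ae_restrict_iff' hA.measurableSet.compl).1 ?_⟩
  filter_upwards [h4, h5] with z ⟨B', a1, a2⟩ a3 x hx
  obtain ⟨T0, -, a4⟩ := a3 B' a1 a2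
  exact B'.caseB a2 (a4 x) hx

theorem mild (hno : ¬ HS F.f) (μ : Measure ℂ) [IsProbabilityMeasure μ] (h : Ergodic F.f μ)
    (hn : F.NullCl μ) {z0 e0 : ℂ} (he : ‖e0‖ = 1) : μ (B.HZ F.Λ z0 e0) = 0 := by
  classical
  by_contra h0
  have η0 := B.η_pos
  have hH := (B.isClosed_HZ F.Λ_compact.isClosed (z0 := z0) he).measurableSet
  have hB := (B.isClosed_Box z0 e0 (B.η / 2)).measurableSet
  have c1 : ContinuousOn (fun x => B.lf x z0 e0 (2 * B.η)) (B.Box z0 e0 (B.η / 2)) :=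
    (B.continuousOn_lf he (by linarith : B.η / 2 < B.η)).comp (f := fun x => (x, 2 * B.η))
      (by fun_prop) fun x hx => ⟨hx, trivial⟩
  have hy := c1.measurable_piecewise (continuousOn_const (c := (0 : ℂ))) hB
  have ey : ∀ x ∈ B.HZ F.Λ z0 e0, (B.Box z0 e0 (B.η / 2)).piecewise
      (fun x => B.lf x z0 e0 (2 * B.η)) (fun _ => 0) x = B.lf x z0 e0 (2 * B.η) :=
    fun x hx => piecewise_eq_of_mem _ _ _ hx.1
  obtain ⟨ρ, hfin, hρ, hfst, hcl⟩ := F.exists_rho μ h hH hy fun x hx =>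
    ey x hx ▸ B.mild_end he hx
  obtain ⟨T0, G, hG, hGP, hGμ, hG'⟩ := B.exists_good μ h.toMeasurePreserving hn
    (ENNReal.half_pos h0)
  have G0 : μ G ≠ 0 := fun hG0 => by
    have a1 : B.HZ F.Λ z0 e0 ⊆ G ∪ (B.P \ G) := fun x hx => by
      obtain ⟨e, a, -⟩ := hx.1
      by_cases hxG : x ∈ G
      exacts [Or.inl hxG, Or.inr ⟨⟨_, a, rfl⟩, hxG⟩]
    have a2 := (measure_mono (μ := μ) a1).trans (measure_union_le _ _)
    rw [hG0, zero_add] at a2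
    exact (ENNReal.half_lt_self h0 (measure_ne_top _ _)).not_ge (a2.trans hGμ)
  obtain ⟨w1, w0, w2, hnr⟩ := B.nr T0
  obtain ⟨N, hN⟩ := B.pull_far (z0 := z0) he w0 w2
  have hν : MeasurePreserving F.f (ρ.map Prod.snd) (ρ.map Prod.snd) := ⟨F.cf.measurable, by
    rw [Measure.map_map F.cf.measurable measurable_snd,
      show F.f ∘ Prod.snd = Prod.snd ∘ Prod.map F.f F.f from rfl,
      ← Measure.map_map measurable_snd hρ.measurable, hρ.map_eq]⟩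
  obtain ⟨A, hA, hAp, h1⟩ := mild_ends hno _ hν
  have h2 := ae_of_ae_map measurable_snd.aemeasurable h1
  have h3 : ∀ᵐ q ∂ρ, ∀ p ∈ A, p ∉ closure (F.Gam q.1) := (ae_ball_iff hA).2 fun p hp => by
    refine ae_of_ae_map (f := Prod.fst) (p := fun x => p ∉ closure (F.Gam x))
      measurable_fst.aemeasurable ?_
    rw [hfst]
    refine Measure.ae_smul_measure ?_ _
    rw [ae_iff]
    simpa using F.caseA μ h hn (fun ε hε => F.big_blk hno μ h hn hε) (hAp hp)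
  have h4 : ∀ᵐ q ∂ρ, q.1 ∉ G := by
    filter_upwards [hcl, h2, h3, F.asy_diag ρ hρ] with q a1 a2 a3 a4 hq
    have b1 := hGP hq
    have b2 : q.2 ∈ closure (F.Gam q.1) := closure_mono (by
      rintro _ ⟨i, -, hi, rfl⟩
      rw [ey _ hi]
      exact B.pull_mem_Gam he (F.Λ_sub_Disc (B.P_sub_Λ b1)) hi) (a1 N)
    have b3 : w1 / 2 ≤ ‖q.2 - q.1‖ := closure_minimal (t := {w | w1 / 2 ≤ ‖w - q.1‖}) (by
      rintro _ ⟨i, hiN, hi, rfl⟩
      rw [ey _ hi]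
      exact hN _ b1 (hnr _ fun e => (hG' _ hq).2 _ e) i hiN hi)
      (isClosed_le continuous_const (by fun_prop)) (a1 N)
    have b4 := a4 (F.Asy_symm (a2 (fun hm => a3 _ hm b2) _ b2))
    rw [b4, sub_self, norm_zero] at b3
    linarith
  have h5 : ρ.map Prod.fst G = 0 := by
    rw [Measure.map_apply measurable_fst hG]
    exact measure_eq_zero_iff_ae_notMem.2 h4
  rw [hfst, Measure.smul_apply, smul_eq_mul] at h5
  exact mul_ne_zero h0 G0 h5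

end Blk

end Pool.Agent.Lib.MP_3fe454_an.PD
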