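import Pool.Agent.Lib.MP_3fe454_an.PD.Chord1
import Pool.Agent.Lib.MP_3fe454_an.PD.Mild

/-!
Almost every stable class is a chord.
-/

set_option autoImplicit false

open Set Metric Filter Topology MeasureTheory Function
open scoped ComplexConjugate ENNReal

namespace Pool.Agent.Lib.MP_3fe454_an.PD

namespace Dis

variable (F : Dis)


theorem chord2_exit (B : Blk F) {z0 e0 x : ℂ} (hx : x ∈ B.Box z0 e0 (B.η / 2))
    (h : x ∉ B.HZ F.Λ z0 e0) : ∃ J, ∀ n ≥ J, x ∉ B.HZ (F.Ω n) z0 e0 := by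
  by_contra hc
  refine h ⟨hx, fun v hv => mem_iInter.2 fun J => ?_⟩
  by_contra hJ
  exact hc ⟨J, fun n hn hz => hJ (F.Ω_anti hn (hz.2 v hv))⟩

theorem chord2_point (B : Blk F) {z0 e0 x : ℂ} (hx : x ∈ B.Box z0 e0 (B.η / 2)) {J n : ℕ}
    (hn : J ≤ n) (h : x ∉ B.HZ (F.Ω J) z0 e0) :
    ∃ v ∈ Icc (co z0 e0 x).re (2 * B.η), B.lf x z0 e0 v ∉ F.Ω n := by
  by_contra hc
  refine h ⟨hx, fun v hv => F.Ω_anti hn ?_⟩
  by_contra hv'
  exact hc ⟨v, hv, hv'⟩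

theorem ae_chord (hno : ¬ HS F.f) (μ : Measure ℂ) [IsProbabilityMeasure μ] (h : Ergodic F.f μ)
    (hn : F.NullCl μ) : ∀ᵐ x ∂μ, IsChord (F.Gam x) := by
  have h4 : (0 : ℝ≥0∞) < 1 / 4 := by norm_num
  obtain ⟨B, hB⟩ := F.big_blk hno μ h hn h4
  obtain ⟨T0, G, hG, hGP, hμG, hgood⟩ := B.exists_good μ h.toMeasurePreserving hn h4
  obtain ⟨w1, hw, -, hnr⟩ := B.nr T0
  obtain ⟨T, hT, hT1, hcov⟩ := B.Box_cover
  have hη := half_pos B.η_pos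
  have hG0 : μ G ≠ 0 := by
    intro h0
    have a1 : (univ : Set ℂ) ⊆ B.Pᶜ ∪ (B.P \ G) ∪ G := fun x _ => by
      by_cases h1 : x ∈ G
      · exact Or.inr h1
      · by_cases h2 : x ∈ B.P
        · exact Or.inl (Or.inr ⟨h2, h1⟩)
        · exact Or.inl (Or.inl h2)
    have a2 := (measure_mono (μ := μ) a1).trans ((measure_union_le _ _).trans
      (add_le_add ((measure_union_le _ _).trans (add_le_add hB hμG)) h0.le))
    rw [measure_univ, add_zero, ENNReal.div_add_div_same, ENNReal.le_div_iff_mul_le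
      (Or.inl (by norm_num)) (Or.inl (by norm_num))] at a2
    norm_num at a2
  obtain ⟨⟨z0, e0⟩, hp, hμ⟩ : ∃ p ∈ T, μ (G ∩ B.Box p.1 p.2 (B.η / 2)) ≠ 0 := by
    by_contra hc
    refine hG0 (measure_mono_null (t := ⋃ p ∈ T, G ∩ B.Box p.1 p.2 (B.η / 2)) (fun x hx => ?_)
      ((measure_biUnion_null_iff hT).2 fun p hp => ?_))
    · obtain ⟨⟨x', e⟩, he, rfl⟩ := hGP hx
      obtain ⟨p, hp, h1, h2⟩ := hcov x' e he _ hη
      exact mem_biUnion hp ⟨hx, e, he, h1, h2.le⟩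
    · by_contra h0
      exact hc ⟨p, hp, h0⟩
  have he : ‖e0‖ = 1 := hT1 _ hp
  have he' : ‖-e0‖ = 1 := by rw [norm_neg, he]
  obtain ⟨J, hJ⟩ : ∃ J, μ (((G ∩ B.Box z0 e0 (B.η / 2)) \ B.HZ (F.Ω J) z0 e0) \
      B.HZ (F.Ω J) z0 (-e0)) ≠ 0 := by
    by_contra hc
    refine hμ (measure_mono_null (t := (⋃ J, ((G ∩ B.Box z0 e0 (B.η / 2)) \ B.HZ (F.Ω J) z0 e0) \
      B.HZ (F.Ω J) z0 (-e0)) ∪ B.HZ F.Λ z0 e0 ∪ B.HZ F.Λ z0 (-e0)) (fun x hx => ?_)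
      (measure_union_null (measure_union_null (measure_iUnion_null fun J => ?_)
        (B.mild hno μ h hn he)) (B.mild hno μ h hn he')))
    · by_cases h1 : x ∈ B.HZ F.Λ z0 e0
      · exact Or.inl (Or.inr h1)
      by_cases h2 : x ∈ B.HZ F.Λ z0 (-e0)
      · exact Or.inr h2
      obtain ⟨J1, a1⟩ := F.chord2_exit B hx.2 h1
      obtain ⟨J2, a2⟩ := F.chord2_exit B (by rw [B.Box_neg]; exact hx.2) h2
      exact Or.inl (Or.inl (mem_iUnion.2 ⟨max J1 J2, ⟨hx, a1 _ (le_max_left _ _)⟩,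
        a2 _ (le_max_right _ _)⟩))
    · by_contra h0
      exact hc ⟨J, h0⟩
  have hm : MeasurableSet (((G ∩ B.Box z0 e0 (B.η / 2)) \ B.HZ (F.Ω J) z0 e0) \
      B.HZ (F.Ω J) z0 (-e0)) :=
    ((hG.inter (B.isClosed_Box _ _ _).measurableSet).diff
      (B.isClosed_HZ (F.Ω_compact J).isClosed he).measurableSet).diff
      (B.isClosed_HZ (F.Ω_compact J).isClosed he').measurableSet
  filter_upwards [ae_visit μ h hm hJ, F.ae_Λ μ h.toMeasurePreserving] with x hx hΛ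
  obtain ⟨n, hnJ, ⟨⟨hy1, hy2⟩, hy3⟩, hy4⟩ := hx J
  obtain ⟨e, ha⟩ := B.Box_sadm he (half_lt_self B.η_pos) hy2
  obtain ⟨v1, b1, b2⟩ := F.chord2_point B hy2 hnJ hy3
  obtain ⟨v2, c1, c2⟩ := F.chord2_point B (by rw [B.Box_neg]; exact hy2) hnJ hy4
  rw [B.lf_neg (Blk.SAdm.adm B ha)] at c2
  rw [co_neg, Complex.neg_re] at c1
  exact B.chord_of_exit hw ((F.Λ_norm hΛ).trans_lt F.r0_lt) ha
    (hnr _ fun e' he' => (hgood _ hy1).2 _ e' he') b1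
    ⟨neg_le_neg c1.2, neg_le.1 c1.1⟩ b2 c2


end Dis

end Pool.Agent.Lib.MP_3fe454_an.PD
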