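import Mathlib

/-!
Definitions for the period doubling theorem for dissipative disc maps with an aperiodic measure.
-/

set_option autoImplicit false

open Set Metric Filter Topology MeasureTheory Function
open scoped ComplexConjugate

namespace Pool.Agent.Lib.MP_3fe454_an.PD

/-- the closed unit disc -/
abbrev Disc : Set ℂ := closedBall (0 : ℂ) 1

/-- some iterate has periodic points of all minimal periods -/
def HS {X : Type*} (f : X → X) : Prop :=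
  ∃ n : ℕ, 1 ≤ n ∧ ∀ j : ℕ, 1 ≤ j → ∃ p, minimalPeriod (f^[n]) p = j

/-- period doubling cascade -/
def Cascade {X : Type*} (f : X → X) : Prop :=
  ∃ m : ℕ, 1 ≤ m ∧ ∀ k : ℕ, ∃ p, minimalPeriod f p = m * 2 ^ k

/-- normalized data of a dissipative map with Hoelder derivative -/
structure Dis where
  f : ℂ → ℂ
  g : ℂ → ℂ
  D : ℂ → ℂ →L[ℝ] ℂ
  b : ℝ
  H : ℝ
  α : ℝ
  r0 : ℝ
  m : ℝ
  M : ℝ
  cf : Continuous f
  cg : Continuous g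
  cD : Continuous D
  r0_pos : 0 < r0
  r0_lt : r0 < 1
  maps : ∀ z, ‖f z‖ ≤ r0
  range : ∀ z, f z ∈ f '' Disc
  gf : ∀ z ∈ Disc, g (f z) = z
  deriv : ∀ z ∈ Disc, HasFDerivWithinAt f (D z) Disc z
  H_pos : 0 < H
  α_pos : 0 < α
  α_le : α ≤ 1
  hol : ∀ z ∈ Disc, ∀ w ∈ Disc, ‖D z - D w‖ ≤ H * ‖z - w‖ ^ α
  b_pos : 0 < b
  b_lt : b < 1
  det_le : ∀ z ∈ Disc, |(D z).det| ≤ b
  m_pos : 0 < m
  m_le : m ≤ 1
  one_le_M : 1 ≤ M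
  low : ∀ z ∈ Disc, ∀ v, m * ‖v‖ ≤ ‖D z v‖
  up : ∀ z ∈ Disc, ‖D z‖ ≤ M
  det_ge : ∀ z ∈ Disc, m * M ≤ |(D z).det|

namespace Dis

variable (F : Dis)

/-- image of the disc under the n-th iterate -/
def Ω (n : ℕ) : Set ℂ := F.f^[n] '' Disc

/-- the attractor -/
def Λ : Set ℂ := ⋂ n, F.Ω n

/-- forward asymptotic points -/
def Asy (x y : ℂ) : Prop := Tendsto (fun n : ℕ => ‖F.f^[n] x - F.f^[n] y‖) atTop (𝓝 0)

/-- stable continuum -/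
def StC (P : Set ℂ) : Prop :=
  IsCompact P ∧ IsPreconnected P ∧ P ⊆ Disc ∧
    ∀ ε > 0, ∃ N : ℕ, ∀ n ≥ N, ∀ x ∈ P, ∀ y ∈ P, ‖F.f^[n] x - F.f^[n] y‖ ≤ ε

/-- points joined to x by a stable continuum -/
def Gam (x : ℂ) : Set ℂ := {w | ∃ P, F.StC P ∧ x ∈ P ∧ w ∈ P}

/-- points with a neighbourhood of asymptotic points -/
def Sink : Set ℂ := {z | ∃ ρ > 0, ∀ w ∈ ball z ρ, F.Asy w z}

/-- all asymptotic classes are null -/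
def NullCl (μ : Measure ℂ) : Prop := ∀ x, μ {w | F.Asy w x} = 0

/-- the contraction exponent -/
noncomputable def β : ℝ := -Real.log F.b

/-- the fixed small tolerance -/
noncomputable def ε0 : ℝ := F.α * F.β / 8192

/-- bi-infinite orbit of the projectivized derivative over the attractor -/
def IsOrb (o : ℤ → ℂ × ℂ) : Prop :=
  ∀ t, (o t).1 ∈ F.Λ ∧ ‖(o t).2‖ = 1 ∧ (o (t + 1)).1 = F.f (o t).1 ∧
    F.D (o t).1 (o t).2 = ((‖F.D (o t).1 (o t).2‖ : ℝ) : ℂ) * (o (t + 1)).2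

/-- log of the stretch along the direction -/
noncomputable def la (p : ℂ × ℂ) : ℝ := Real.log ‖F.D p.1 p.2‖

/-- log of the Jacobian -/
noncomputable def ld (p : ℂ × ℂ) : ℝ := Real.log |(F.D p.1).det|

end Dis

/-- tempered two-sided control of the sums of a sequence -/
def Bd (u : ℤ → ℝ) (l ε C : ℝ) : Prop :=
  ∀ i j : ℤ, i ≤ j → |∑ t ∈ Finset.Ico i j, (u t - l)| ≤ ε * (|(i : ℝ)| + |(j : ℝ)|) + C

namespace Dis

variable (F : Dis)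

/-- orbit with exponent ls along the direction and lc across, tolerance ε, constant C -/
def Good (ε ls lc C : ℝ) (o : ℤ → ℂ × ℂ) : Prop :=
  F.IsOrb o ∧ Bd (fun t => F.la (o t)) ls ε C ∧ Bd (fun t => F.ld (o t)) (ls + lc) ε C

/-- regular orbit -/
def Reg (l Δ : ℝ) (o : ℤ → ℂ × ℂ) : Prop :=
  ∀ ε > 0, ∃ C, F.Good ε l (Δ - l) C o

/-- Pesin block -/
def Khat (ls lc C : ℝ) : Set (ℂ × ℂ) := {p | ∃ o, F.Good F.ε0 ls lc C o ∧ o 0 = p}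

/-- admissible exponents -/
def AdmP (ls lc : ℝ) : Prop := ls ≤ -F.β ∧ 0 ≤ lc

/-- diagonal entry along the direction -/
noncomputable def ca (o : ℤ → ℂ × ℂ) (t : ℤ) : ℝ := ‖F.D (o t).1 (o t).2‖

/-- off diagonal entry -/
noncomputable def cb (o : ℤ → ℂ × ℂ) (t : ℤ) : ℝ :=
  (F.D (o t).1 (Complex.I * (o t).2) * conj (o (t + 1)).2).re

/-- transverse diagonal entry -/
noncomputable def cc (o : ℤ → ℂ × ℂ) (t : ℤ) : ℝ :=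
  (F.D (o t).1 (Complex.I * (o t).2) * conj (o (t + 1)).2).im

/-- the fixed small distortion -/
noncomputable def δ0 : ℝ := min (1 / 4) (F.β / 8192)

/-- minimal cone opening -/
noncomputable def Θmin : ℝ := F.M / (F.δ0 * F.m)

/-- cone sequence along the forward orbit -/
noncomputable def Th (o : ℤ → ℂ × ℂ) (x0 : ℝ) : ℕ → ℝ
  | 0 => x0
  | t + 1 => ((1 + 2 * F.δ0) * F.ca o t * Th o x0 t + (F.M * F.Θmin + 2 * F.M)) /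
      ((1 - F.δ0) * |F.cc o t|)

/-- contraction rate of the leaves -/
noncomputable def θ0 : ℝ := Real.exp (-F.β / 2)

/-- shrinking rate of the charts -/
noncomputable def θ1 : ℝ := Real.exp (-(6 * F.ε0 / F.α))

/-- transverse growth rate -/
noncomputable def G0 (lc : ℝ) : ℝ := Real.exp (lc + 8 * F.ε0 + F.δ0 + 6 * F.ε0 / F.α)

/-- the radius r is small enough for the cones of opening 1 / σ -/
def Small (ls lc C σ r : ℝ) : Prop :=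
  0 < σ ∧ F.Θmin ≤ 1 / σ ∧ 0 < r ∧ r ≤ (1 - F.r0) / 2 ∧
    ∀ o, F.Good F.ε0 ls lc C o → ∀ t : ℕ,
      F.H * (2 * r * F.θ1 ^ t) ^ F.α * (1 + F.Th o (1 / σ) t) ≤ F.δ0 * F.m

/-- bounds for the cone sequences with constant A -/
def ThBd (ls lc C A : ℝ) : Prop :=
  1 ≤ A ∧ ∀ o, F.Good F.ε0 ls lc C o → ∀ x0 : ℝ, 0 ≤ x0 →
    (∀ t : ℕ, F.Th o x0 t ≤ A * (1 + x0) * Real.exp (6 * F.ε0 * t)) ∧
    ∀ s : ℕ, F.Good F.ε0 ls lc C (fun i => o (i + s)) →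
      (∀ t ≤ s, F.Th o x0 t ≤ A * (1 + x0) * Real.exp (6 * F.ε0 * ((s : ℝ) - t))) ∧
      F.Th o x0 s ≤ A * (1 + x0 * Real.exp (-F.β / 2 * s))

end Dis

/-- coordinates of w in the frame (z, e) -/
noncomputable def co (z e w : ℂ) : ℂ := (w - z) * conj e

/-- point with coordinates (v, u) in the frame (z, e) -/
noncomputable def pt (z e : ℂ) (v u : ℝ) : ℂ := z + ((v : ℂ) + (u : ℂ) * Complex.I) * e

/-- local stable set -/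
def Dis.St (F : Dis) (r θ : ℝ) (z : ℂ) : Set ℂ :=
  {w | ∀ t : ℕ, ‖F.f^[t] w - F.f^[t] z‖ ≤ r * θ ^ t}

/-- a block of points with local stable curves of uniform size and slow transverse growth -/
structure Blk (F : Dis) where
  K : Set (ℂ × ℂ)
  r : ℝ
  η : ℝ
  σ : ℝ
  C1 : ℝ
  C2 : ℝ
  G : ℝ
  θ : ℝ
  cpt : IsCompact K
  lam : ∀ p ∈ K, p.1 ∈ F.Λ
  unit : ∀ p ∈ K, ‖p.2‖ = 1
  neg : ∀ z e, (z, e) ∈ K → (z, -e) ∈ K
  uniq : ∀ z e e', (z, e) ∈ K → (z, e') ∈ K → e' = e ∨ e' = -e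
  η_pos : 0 < η
  σ_pos : 0 < σ
  σ_le : σ ≤ 1 / 8
  θ_pos : 0 < θ
  θ_lt : θ < 1
  one_le_C1 : 1 ≤ C1
  one_le_C2 : 1 ≤ C2
  one_le_G : 1 ≤ G
  neutral : G ^ 128 * F.b ≤ 1
  scale : 200 * C1 * η ≤ r
  r_le : r ≤ (1 - F.r0) / 2
  cone : ∀ z e, (z, e) ∈ K → ∀ w ∈ F.St r θ z, ∀ w' ∈ F.St r θ z,
    |(co w' e w).im| ≤ σ * |(co w' e w).re|
  contr : ∀ z e, (z, e) ∈ K → ∀ w ∈ F.St r θ z, ∀ w' ∈ F.St r θ z, ∀ t : ℕ,
    ‖F.f^[t] w - F.f^[t] w'‖ ≤ C1 * ‖w - w'‖ * θ ^ t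
  shoot : ∀ z e, (z, e) ∈ K → ∀ P : Set ℂ, IsPreconnected P → P ⊆ closedBall z (40 * η) →
    ∀ w₁ ∈ P, ∀ w₂ ∈ P, σ * |(co z e w₁).re| < (co z e w₁).im →
      (co z e w₂).im < -(σ * |(co z e w₂).re|) → (P ∩ F.St r θ z).Nonempty
  tube : ∀ z e, (z, e) ∈ K → ∀ y ∈ F.St r θ z, ‖y - z‖ ≤ 40 * η → ∀ w,
    |(co y e w).re| ≤ |(co y e w).im| → ∀ s : ℕ, C2 * G ^ s * ‖w - y‖ ≤ r →
      ∀ t ≤ s, ‖F.f^[t] w - F.f^[t] y‖ ≤ C2 * G ^ t * ‖w - y‖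
  side : ∀ z e, (z, e) ∈ K → ∀ s : ℕ, (∃ e', (F.f^[s] z, e') ∈ K) →
    ∃ e', (F.f^[s] z, e') ∈ K ∧ ∀ y ∈ F.St r θ z, ‖y - z‖ ≤ 40 * η → ∀ w, w ≠ y →
      |(co y e w).re| ≤ |(co y e w).im| → C2 * G ^ s * ‖w - y‖ ≤ r →
        2 * σ * |(co (F.f^[s] y) e' (F.f^[s] w)).re| ≤ |(co (F.f^[s] y) e' (F.f^[s] w)).im| ∧
          0 < (co y e w).im * (co (F.f^[s] y) e' (F.f^[s] w)).im

namespace Blk

variable {F : Dis} (B : Blk F)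

/-- base points of the block -/
def P : Set ℂ := Prod.fst '' B.K

/-- local stable set of the block -/
def S (z : ℂ) : Set ℂ := F.St B.r B.θ z

/-- clamp to the range of the graphs -/
noncomputable def clamp (v : ℝ) : ℝ := max (-(8 * B.η)) (min v (8 * B.η))

/-- the local stable set of x as a graph in the frame (z0, e0) -/
noncomputable def psi (x z0 e0 : ℂ) (v : ℝ) : ℝ := sSup {u : ℝ | pt z0 e0 (B.clamp v) u ∈ B.S x}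

/-- point of the leaf of x over v in the frame (z0, e0) -/
noncomputable def lf (x z0 e0 : ℂ) (v : ℝ) : ℂ := pt z0 e0 v (B.psi x z0 e0 v)

/-- height of w over the leaf of x in the frame (z0, e0) -/
noncomputable def ht (x z0 e0 w : ℂ) : ℝ := (co z0 e0 w).im - B.psi x z0 e0 (co z0 e0 w).re

/-- admissible frame -/
def Adm (x e z0 e0 : ℂ) : Prop :=
  (x, e) ∈ B.K ∧ ‖e0‖ = 1 ∧ ‖e - e0‖ ≤ 1 / 8 ∧ ‖x - z0‖ ≤ B.η

/-- strictly admissible frame -/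
def SAdm (x e z0 e0 : ℂ) : Prop :=
  (x, e) ∈ B.K ∧ ‖e0‖ = 1 ∧ ‖e - e0‖ < 1 / 8 ∧ ‖x - z0‖ < B.η

/-- w lies above the leaf of x (direction e), at distance at most κ -/
def Up (x e : ℂ) (κ : ℝ) (w : ℂ) : Prop :=
  ∃ y ∈ B.S x, ‖y - x‖ ≤ 8 * B.η ∧ |(co y e w).re| ≤ (co y e w).im ∧ 0 < (co y e w).im ∧
    ‖w - y‖ ≤ κ

/-- returns to the block in all late dyadic windows -/
def Win (T0 : ℕ) (x : ℂ) : Prop := ∀ T ≥ T0, ∃ s, T < s ∧ s ≤ 2 * T ∧ F.f^[s] x ∈ B.P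

/-- z is accumulated from above by recurrent points of the block not asymptotic to x -/
def Acc (T0 : ℕ) (x z e : ℂ) : Prop :=
  ∀ κ > 0, ∃ x' ∈ B.P, B.Win T0 x' ∧ ¬ F.Asy x' x ∧ ‖x' - z‖ < κ ∧ 0 < B.ht z z e x'

/-- no return of the stable class of x in the tube of width w1 around its leaf -/
def NR (w1 : ℝ) (x : ℂ) : Prop :=
  ∀ e z0 e0, B.SAdm x e z0 e0 → ∀ w ∈ F.Gam x, |(co z0 e0 w).re| ≤ 4 * B.η →
    |B.ht x z0 e0 w| ≤ w1 → B.ht x z0 e0 w = 0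

end Blk

/-- a set is an arc of the disc with both ends on the circle -/
def IsChord (Γ : Set ℂ) : Prop :=
  ∃ c : ℝ → ℂ, ContinuousOn c (Icc 0 1) ∧ InjOn c (Icc 0 1) ∧ ‖c 0‖ = 1 ∧ ‖c 1‖ = 1 ∧
    Γ = c '' Icc 0 1 ∧ Γ ⊆ Disc

/-- two closed sides of a chord, with the local crossing property -/
def Sides (Γ L R : Set ℂ) : Prop :=
  IsClosed L ∧ IsClosed R ∧ L ∪ R = Disc ∧ L ∩ R = Γ ∧
    ∀ A B q : ℂ, A ≠ B → ‖A‖ < 1 → ‖B‖ < 1 → q ∈ openSegment ℝ A B →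
      Γ ∩ segment ℝ A B = {q} →
      (∃ ε > 0, InjOn (fun w => ((w - A) * conj (B - A)).im) (Γ ∩ ball q ε)) →
        (A ∉ L ∧ B ∉ R) ∨ (A ∉ R ∧ B ∉ L)

/-- the data on the disc which give a system of chords -/
def Dis.ChordData (F : Dis) (μ : Measure ℂ) (X1 : Set ℂ) (L R : Set ℂ → Set ℂ) : Prop :=
  (∀ᵐ x ∂μ, x ∈ X1) ∧ X1 ⊆ Disc ∧ (∀ x ∈ X1, F.f x ∈ X1) ∧
    (∀ x ∈ X1, IsChord (F.Gam x) ∧ Sides (F.Gam x) (L (F.Gam x)) (R (F.Gam x))) ∧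
    (∀ x ∈ X1, ∀ n : ℕ, 1 ≤ n → F.f^[n] x ∉ F.Gam x) ∧
    (∀ x ∈ X1, ∀ y ∈ X1, ∀ V, IsOpen V → y ∈ V →
      (∃ n : ℕ, 1 ≤ n ∧ F.f^[n] x ∈ V \ L (F.Gam y)) ∧
        ∃ n : ℕ, 1 ≤ n ∧ F.f^[n] x ∈ V \ R (F.Gam y)) ∧
    ∀ ε : ENNReal, 0 < ε → ∃ (K : Set ℂ) (N : Finset ℂ), MeasurableSet K ∧ μ Kᶜ ≤ ε ∧
      (∀ n ∈ N, n ∈ Disc) ∧ ∀ x ∈ K ∩ X1, (∃ n ∈ N, n ∉ L (F.Gam x)) ∧
        (∃ n ∈ N, n ∉ R (F.Gam x)) ∧ ∀ n ∈ N, n ∉ F.Gam x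

/-- abstract system of chords -/
structure Chords (X : Type) [TopologicalSpace X] where
  f : X → X
  X1 : Set X
  γ : X → Set X
  L : X → Set X
  R : X → Set X
  cf : Continuous f
  fpp : ∀ h : X → X, Continuous h → ∃ z, h z = z
  fwd : ∀ x ∈ X1, f x ∈ X1
  mem : ∀ x ∈ X1, x ∈ γ x
  conn : ∀ x ∈ X1, IsPreconnected (γ x)
  cL : ∀ x ∈ X1, IsClosed (L x)
  cR : ∀ x ∈ X1, IsClosed (R x)
  union : ∀ x ∈ X1, L x ∪ R x = univ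
  inter : ∀ x ∈ X1, L x ∩ R x = γ x
  retr : ∀ x ∈ X1, ∃ ρ : X → X, Continuous ρ ∧ (∀ z, ρ z ∈ γ x) ∧ ∀ z ∈ γ x, ρ z = z
  img : ∀ x ∈ X1, ∀ z ∈ γ x, f z ∈ γ (f x)
  same : ∀ x ∈ X1, ∀ y ∈ X1, (γ x ∩ γ y).Nonempty → γ x = γ y ∧ L x = L y ∧ R x = R y
  aper : ∀ x ∈ X1, ∀ n : ℕ, 1 ≤ n → f^[n] x ∉ γ x
  reachL : ∀ x ∈ X1, ∀ y ∈ X1, ∀ V, IsOpen V → y ∈ V → ∃ n : ℕ, 1 ≤ n ∧ f^[n] x ∈ V \ L y
  reachR : ∀ x ∈ X1, ∀ y ∈ X1, ∀ V, IsOpen V → y ∈ V → ∃ n : ℕ, 1 ≤ n ∧ f^[n] x ∈ V \ R y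

/-- covering relation realized by a clipped version of the n-th iterate -/
def Cov {X : Type} [TopologicalSpace X] (f : X → X) (A B C D : Set X) (n : ℕ) (Z : Set X) :
    Prop :=
  ∃ h : X → X, Continuous h ∧ MapsTo h A C ∧ MapsTo h B D ∧
    ∀ z, h z ∉ C → h z ∉ D → h z = f^[n] z ∧ z ∈ Z

namespace Chords

variable {X : Type} [TopologicalSpace X] (c : Chords X)

open Classical in
/-- the closed side of the chord of x which does not contain y -/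
def Fc (x y : X) : Set X := if y ∈ c.L x then c.R x else c.L x

/-- the chord of v separates u from w -/
def Sep (v u w : X) : Prop := u ∉ c.γ v ∧ w ∉ c.γ v ∧ w ∈ c.Fc v u

/-- open strip between two chords -/
def strip (x y : X) : Set X := (c.Fc x y)ᶜ ∩ (c.Fc y x)ᶜ

/-- a path of positive length from the pair (a, b) to the unordered pair (u, w) -/
def To (a b u w : X) : Prop :=
  ∃ n : ℕ, 1 ≤ n ∧ (Cov c.f (c.γ a) (c.γ b) (c.γ u) (c.γ w) n univ ∨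
    Cov c.f (c.γ a) (c.γ b) (c.γ w) (c.γ u) n univ)

/-- cyclic factor of order Q, locally constant on X1 -/
def Lev (Q : ℕ) (π : X → ZMod Q) : Prop :=
  (∀ x ∈ c.X1, π (c.f x) = π x + 1) ∧
    (∀ x ∈ c.X1, ∃ V, IsOpen V ∧ x ∈ V ∧ ∀ y ∈ V ∩ c.X1, π y = π x) ∧
    ∀ x ∈ c.X1, ∀ y ∈ c.X1, y ∈ c.γ x → π y = π x

/-- convexity of the cells -/
def Cvx (Q : ℕ) (π : X → ZMod Q) : Prop :=
  ∀ x ∈ c.X1, ∀ y ∈ c.X1, ∀ y' ∈ c.X1, π y = π y' → π y ≠ π x → ¬ c.Sep x y y'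

/-- closed back side of x for the Q-th iterate -/
def Bk (Q : ℕ) (x : X) : Set X := c.Fc x (c.f^[Q] x)

/-- expanding star of length s for the Q-th iterate in the cell i0 -/
def Star (Q : ℕ) (π : X → ZMod Q) (i0 : ZMod Q) (s : ℕ) (e : ℕ → X) : Prop :=
  2 ≤ s ∧ (∀ i, e (i + s) = e i) ∧ (∀ i, e i ∈ c.X1 ∧ π (e i) = i0) ∧
    (∀ i, c.f^[Q] (e i) ∈ c.Bk Q (e (i + 1))) ∧
    ∀ i j, ¬ i ≡ j [MOD s] → e j ∉ c.Bk Q (e i)

/-- finite net seen on both sides by the chords of K -/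
def NetK (K : Set X) (N : Finset X) : Prop :=
  ∀ x ∈ K ∩ c.X1, (∃ n ∈ N, n ∉ c.L x) ∧ (∃ n ∈ N, n ∉ c.R x) ∧ ∀ n ∈ N, n ∉ c.γ x

/-- a cell is bad if a net point lies between two of its chords from K -/
def Bad (K : Set X) (N : Finset X) (Q : ℕ) (π : X → ZMod Q) (i : ZMod Q) : Prop :=
  ∃ x ∈ K ∩ c.X1, ∃ y ∈ K ∩ c.X1, π x = i ∧ π y = i ∧ y ∉ c.γ x ∧ ∃ n ∈ N, n ∈ c.strip x y

end Chords

end Pool.Agent.Lib.MP_3fe454_an.PD
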