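import Pool.Agent.Lib.MP_3fe454_an.PD.Defs

/-!
The two sides of a chord and the retraction onto a chord.
-/

set_option autoImplicit false

open Set Metric Filter Topology MeasureTheory Function
open scoped ComplexConjugate ENNReal

namespace Pool.Agent.Lib.MP_3fe454_an.PD

open Complex in
private theorem sl_lift {G : ℝ → ℂ} (hG : Continuous G) (h0 : ∀ u ∈ Icc (0 : ℝ) 2, G u ≠ 0) :
    ∃ l : ℝ → ℂ, Continuous l ∧ ∀ u ∈ Icc (0 : ℝ) 2, exp (l u) = G u := by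
  have hc : Continuous fun u : ℝ => G (projIcc (0 : ℝ) 2 zero_le_two u) :=
    hG.comp (continuous_subtype_val.comp continuous_projIcc)
  obtain ⟨F, ⟨-, hF⟩, -⟩ := isCoveringMap_exp.existsUnique_continuousMap_lifts
    (⟨fun u => ⟨G (projIcc (0 : ℝ) 2 zero_le_two u), h0 _ (Subtype.prop _)⟩, hc.subtype_mk _⟩ :
      C(ℝ, {z : ℂ // z ≠ 0})) 0 (log (G (projIcc (0 : ℝ) 2 zero_le_two 0)))
    (Subtype.ext (exp_log (h0 _ (Subtype.prop _))))
  refine ⟨F, F.continuous, fun u hu => ?_⟩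
  have := congrArg Subtype.val (congrFun hF u)
  simpa [projIcc_of_mem _ hu] using this

open Complex in
private theorem sl_inc {l F : ℝ → ℂ} {s t : ℝ} (hst : s ≤ t) (hl : Continuous l) {k : ℂ}
    (hF : ContinuousOn F (Icc s t)) (h1 : ∀ u ∈ Icc s t, F u ∈ slitPlane)
    (h2 : ∀ u ∈ Icc s t, exp (l u) = k * F u) : l t - l s = log (F t) - log (F s) := by
  have := isCoveringMap_exp.constOn_of_comp (g := fun u => l u - log (F u)) isPreconnected_Icc
    (hl.continuousOn.sub (hF.clog h1)) (fun a ha b hb => by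
      apply Subtype.ext
      simp only [exp_sub, h2 a ha, h2 b hb, exp_log (slitPlane_ne_zero (h1 a ha)),
        exp_log (slitPlane_ne_zero (h1 b hb)), mul_div_assoc, div_self (slitPlane_ne_zero (h1 a ha)),
        div_self (slitPlane_ne_zero (h1 b hb))]) (right_mem_Icc.2 hst) (left_mem_Icc.2 hst)
  linear_combination this

open Complex in
private theorem sl_slit {a b w : ℂ} (h : w ∉ segment ℝ a b) : (w - a) / (w - b) ∈ slitPlane := by
  have hb : w - b ≠ 0 := sub_ne_zero.2 fun e => h (e ▸ right_mem_segment ℝ a w)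
  by_contra hn
  rw [mem_slitPlane_iff, not_or, not_not, not_lt] at hn
  obtain ⟨s, hs⟩ : ∃ s : ℝ, s = -((w - a) / (w - b)).re := ⟨_, rfl⟩
  have h0 : 0 ≤ s := by linarith [hn.1]
  have h1 : (w - a) / (w - b) = -(s : ℂ) := Complex.ext (by simp [hs]) (by simp [hn.2])
  rw [div_eq_iff hb] at h1
  have h2 : (1 + s : ℂ) ≠ 0 := by exact_mod_cast (by positivity : (1 + s : ℝ) ≠ 0)
  refine h ⟨1 / (1 + s), s / (1 + s), by positivity, by positivity, by field_simp, ?_⟩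
  simp only [real_smul]
  push_cast
  field_simp
  linear_combination -h1

open Complex in
private theorem sl_neg {a b q : ℂ} (hab : a ≠ b) (h : q ∈ openSegment ℝ a b) :
    -((q - a) / (q - b)) ∈ slitPlane ∧ ((q - a) * conj (b - a)).im = 0 ∧ q ≠ a ∧ q ≠ b := by
  obtain ⟨x, y, hx, hy, hxy, rfl⟩ := h
  obtain rfl : x = 1 - y := by linarith
  have h0 : b - a ≠ 0 := sub_ne_zero.2 hab.symm
  have h1 : (1 - y) • a + y • b - a = y * (b - a) := by simp only [real_smul]; push_cast; ring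
  have h2 : (1 - y) • a + y • b - b = -((1 - y : ℝ) * (b - a)) := by
    simp only [real_smul]; push_cast; ring
  have hx' : ((1 - y : ℝ) : ℂ) ≠ 0 := ofReal_ne_zero.2 hx.ne'
  have hy' : (y : ℂ) ≠ 0 := ofReal_ne_zero.2 hy.ne'
  refine ⟨?_, ?_, sub_ne_zero.1 (h1 ▸ mul_ne_zero hy' h0),
    sub_ne_zero.1 (h2 ▸ neg_ne_zero.2 (mul_ne_zero hx' h0))⟩
  · rw [h1, h2, div_neg, neg_neg, mul_div_mul_right _ _ h0, ← ofReal_div]
    exact ofReal_mem_slitPlane.2 (div_pos hy hx)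
  · rw [h1, mul_assoc, mul_conj, ← ofReal_mul, ofReal_im]

open Complex in
private theorem sl_im {a b w : ℂ} :
    ((w - a) / (w - b)).im = -((w - a) * conj (b - a)).im / normSq (w - b) := by
  rw [div_im, ← sub_div]
  congr 1
  simp only [mul_im, sub_re, sub_im, conj_re, conj_im]
  ring

open Complex in
private theorem sl_pos {z : ℂ} (h : 0 < z.im) : log z - log (-z) = Real.pi * I := by
  simp only [log, norm_neg, arg_neg_eq_arg_sub_pi_of_im_pos h]
  push_cast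
  ring

open Complex in
private theorem sl_jump {x y : ℂ} (h : x.im * y.im < 0) :
    exp ((log x - log (-x) - (log y - log (-y))) / 2) = -1 := by
  rcases mul_neg_iff.1 h with h | h
  · have h2 := sl_pos (z := -y) (by simpa using h.2)
    rw [neg_neg] at h2
    rw [← exp_pi_mul_I]
    congr 1
    linear_combination (sl_pos h.1 + h2) / 2
  · have h2 := sl_pos (z := -x) (by simpa using h.1)
    rw [neg_neg] at h2
    rw [← exp_neg_pi_mul_I]
    congr 1
    linear_combination -(sl_pos h.2 + h2) / 2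

open Complex in
private theorem sl_loop {Γ : Set ℂ} (h : IsChord Γ) : ∃ l : ℝ → ℂ, Continuous l ∧ l 2 = l 0 ∧
    InjOn l (Icc 0 1) ∧ Γ = l '' Icc 0 1 ∧ ‖l 0‖ = 1 ∧ ‖l 1‖ = 1 ∧
      ∀ t ∈ Ioo (1 : ℝ) 2, 1 < ‖l t‖ := by
  obtain ⟨c, hc, hi, h0, h1, rfl, -⟩ := h
  have hc' : Continuous fun t : ℝ => c (projIcc (0 : ℝ) 1 zero_le_one t) :=
    hc.comp_continuous (continuous_subtype_val.comp continuous_projIcc) fun t => Subtype.prop _
  obtain ⟨l, hl⟩ : ∃ l : ℝ → ℂ, l = fun t => c (projIcc (0 : ℝ) 1 zero_le_one t) *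
      ((1 + max (t - 1) 0 * (2 - t) : ℝ) * exp ((max (t - 1) 0 : ℝ) * log (c 0 / c 1))) := ⟨_, rfl⟩
  have e : EqOn l c (Icc 0 1) := fun t ht => by
    simp [hl, projIcc_of_mem _ ht, max_eq_right (sub_nonpos.2 ht.2)]
  have n0 : c 0 ≠ 0 := norm_ne_zero_iff.1 (h0 ▸ one_ne_zero)
  have n1 : c 1 ≠ 0 := norm_ne_zero_iff.1 (h1.trans_ne one_ne_zero)
  refine ⟨l, hl ▸ hc'.mul (by fun_prop), ?_, hi.congr e.symm, e.image_eq.symm,
    e (left_mem_Icc.2 zero_le_one) ▸ h0, e (right_mem_Icc.2 zero_le_one) ▸ h1, fun t ht => ?_⟩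
  · rw [e (left_mem_Icc.2 zero_le_one), hl]
    simp only [projIcc_of_right_le _ one_le_two, show max (2 - 1 : ℝ) 0 = 1 by norm_num]
    simp [exp_log (div_ne_zero n0 n1), mul_div_cancel₀ _ n1]
  · have h2 : 0 < (t - 1) * (2 - t) := mul_pos (sub_pos.2 ht.1) (sub_pos.2 ht.2)
    simp only [hl, projIcc_of_right_le _ ht.1.le, max_eq_left (sub_nonneg.2 ht.1.le), norm_mul, h1,
      norm_real, norm_exp, re_ofReal_mul, log_re, norm_div, h0, div_one, Real.log_one, mul_zero,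
      Real.exp_zero, one_mul, mul_one]
    rw [Real.norm_of_nonneg (by linarith)]
    linarith

open Complex in
theorem IsChord.sides {Γ : Set ℂ} (h : IsChord Γ) : ∃ L R : Set ℂ, Sides Γ L R := by
  have hD : Γ ⊆ Disc := h.choose_spec.2.2.2.2.2
  obtain ⟨l, hl, h20, hi, hΓ, h0, h1, ho⟩ := sl_loop h
  obtain ⟨Z, hZ⟩ : ∃ Z, Z = l '' Icc 0 2 := ⟨_, rfl⟩
  have hZc : IsClosed Z := hZ ▸ (isCompact_Icc.image hl).isClosed
  have hm : ∀ u ∈ Icc (0 : ℝ) 2, l u ∈ Z := fun u hu => hZ ▸ mem_image_of_mem l hu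
  have hΓZ : ∀ a, a ∈ Γ ↔ a ∈ Disc ∧ a ∈ Z := fun a => by
    refine ⟨fun ha => ⟨hD ha, ?_⟩, fun ⟨ha, hb⟩ => ?_⟩
    · rw [hΓ] at ha
      exact hZ ▸ image_mono (Icc_subset_Icc_right one_le_two) ha
    · rw [hZ] at hb
      obtain ⟨t, ht, rfl⟩ := hb
      rcases le_or_gt t 1 with h2 | h2
      · exact hΓ ▸ mem_image_of_mem l ⟨ht.1, h2⟩
      rcases ht.2.eq_or_lt with rfl | h3
      · exact hΓ ▸ h20 ▸ mem_image_of_mem l (left_mem_Icc.2 zero_le_one)
      · exact absurd (mem_closedBall_zero_iff.1 ha) (ho t ⟨h2, h3⟩).not_ge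
  have hne : ∀ a ∉ Z, ∀ u ∈ Icc (0 : ℝ) 2, l u - a ≠ 0 := fun a ha u hu =>
    sub_ne_zero.2 fun e => ha (e ▸ hm u hu)
  choose! Λ hΛ hΛ' using fun a (ha : a ∉ Z) => 
    sl_lift (G := fun u => l u - a) (hl.sub continuous_const) (hne a ha)
  have hF : ∀ a b, b ∉ Z → ContinuousOn (fun u => (l u - a) / (l u - b)) (Icc 0 2) := fun a b hb =>
    (hl.sub continuous_const).continuousOn.div (hl.sub continuous_const).continuousOn (hne b hb)
  have hE : ∀ a ∉ Z, ∀ b ∉ Z, ∀ u ∈ Icc (0 : ℝ) 2, exp (Λ a u - Λ b u) = (l u - a) / (l u - b) :=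
    fun a ha b hb u hu => by rw [exp_sub, hΛ' a ha u hu, hΛ' b hb u hu]
  obtain ⟨s, hs⟩ : ∃ s : ℂ → ℂ, s = fun a => exp ((Λ a 2 - Λ a 0) / 2) := ⟨_, rfl⟩
  have hloc : ∀ a ∉ Z, ∀ᶠ b in 𝓝 a, b ∉ Z ∧ s b = s a := fun a ha => by
    obtain ⟨δ, hδ, hb⟩ := Metric.isOpen_iff.1 hZc.isOpen_compl a ha
    filter_upwards [ball_mem_nhds a hδ] with b hb'
    have := sl_inc (k := 1) zero_le_two ((hΛ b (hb hb')).sub (hΛ a ha)) (hF b a ha)
      (fun u hu => sl_slit fun e => hb ((convex_ball a δ).segment_subset hb' (mem_ball_self hδ) e)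
        (hm u hu)) fun u hu => by rw [one_mul]; exact hE b (hb hb') a ha u hu
    refine ⟨hb hb', ?_⟩
    simp only [hs, h20, sub_self, Pi.sub_apply] at this ⊢
    congr 2
    linear_combination this
  have hop : ∀ P : ℂ → Prop, IsOpen {a | a ∉ Z ∧ P (s a)} := fun P =>
    isOpen_iff_mem_nhds.2 fun a ha => (hloc a ha.1).mono fun b hb => ⟨hb.1, hb.2 ▸ ha.2⟩
  refine ⟨Disc \ {a | a ∉ Z ∧ s a ≠ 1}, Disc \ {a | a ∉ Z ∧ s a = 1},
    isClosed_closedBall.sdiff (hop (· ≠ 1)), isClosed_closedBall.sdiff (hop (· = 1)), ?_, ?_,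
    fun A B q hAB hA hB hq hs1 ⟨ε, hε, hinj⟩ => ?_⟩
  · ext a
    simp only [mem_union, Set.mem_sdiff, mem_ofPred_eq]
    tauto
  · ext a
    simp only [mem_inter_iff, Set.mem_sdiff, mem_ofPred_eq, hΓZ]
    tauto
  obtain ⟨n1, n2, n3, n4⟩ := sl_neg hAB hq
  have hseg : ∀ w ∈ segment ℝ A B, ‖w‖ < 1 := fun w hw => mem_ball_zero_iff.1
    ((convex_ball 0 1).segment_subset (mem_ball_zero_iff.2 hA) (mem_ball_zero_iff.2 hB) hw)
  have hu : ∀ w ∈ segment ℝ A B, w ∈ Z → w = q := fun w hw hz =>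
    (hs1.subset ⟨(hΓZ w).2 ⟨mem_closedBall_zero_iff.2 (hseg w hw).le, hz⟩, hw⟩ :)
  have hA' : A ∉ Z := fun e => n3 (hu A (left_mem_segment _ _ _) e).symm
  have hB' : B ∉ Z := fun e => n4 (hu B (right_mem_segment _ _ _) e).symm
  have hq1 := hseg q (openSegment_subset_segment _ _ _ hq)
  obtain ⟨t0, ht0, rfl⟩ : q ∈ l '' Icc 0 1 := hΓ ▸ (hs1.superset (mem_singleton q)).1
  have t1 : 0 < t0 := ht0.1.lt_of_ne fun e => by rw [← e, h0] at hq1; exact lt_irrefl _ hq1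
  have t2 : t0 < 1 := ht0.2.lt_of_ne fun e => by rw [e, h1] at hq1; exact lt_irrefl _ hq1
  have hsl : ∀ u ∈ Icc (0 : ℝ) 2, u ≠ t0 → (l u - A) / (l u - B) ∈ slitPlane := fun u hu' ne =>
    sl_slit fun e => by
      have e1 := hu _ e (hm u hu')
      rcases le_or_gt u 1 with h2 | h2
      · exact ne (hi ⟨hu'.1, h2⟩ ht0 e1)
      rcases hu'.2.eq_or_lt with rfl | h3
      · rw [← e1, h20, h0] at hq1
        exact lt_irrefl _ hq1
      · exact (ho u ⟨h2, h3⟩).not_gt (e1 ▸ hq1)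
  have hev : ∀ᶠ u in 𝓝 t0, -((l u - A) / (l u - B)) ∈ slitPlane ∧ l u ∈ ball (l t0) ε ∧
      u ∈ Icc (0 : ℝ) 1 := by
    refine (ContinuousAt.eventually_mem (f := fun u => -((l u - A) / (l u - B))) ?_
      (isOpen_slitPlane.mem_nhds n1)).and ((hl.continuousAt.eventually_mem
        (ball_mem_nhds _ hε)).and (Icc_mem_nhds t1 t2))
    exact ((hF A B hB').continuousAt (Icc_mem_nhds t1 (by linarith))).neg
  obtain ⟨δ, hδ, hb⟩ := nhds_basis_closedBall.eventually_iff.1 hev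
  rw [Real.closedBall_eq_Icc] at hb
  have a1 : t0 - δ < t0 := by linarith
  have a2 : t0 < t0 + δ := by linarith
  have m1 := left_mem_Icc.2 (a1.trans a2).le
  have m2 := right_mem_Icc.2 (a1.trans a2).le
  have b1 := (hb m1).2.2
  have b2 := (hb m2).2.2
  have hc := (hΛ A hA').sub (hΛ B hB')
  have s1 : Icc 0 (t0 - δ) ⊆ Icc 0 2 := Icc_subset_Icc_right (by linarith)
  have s2 : Icc (t0 - δ) (t0 + δ) ⊆ Icc 0 2 := Icc_subset_Icc b1.1 (by linarith [b2.2])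
  have s3 : Icc (t0 + δ) 2 ⊆ Icc 0 2 := Icc_subset_Icc_left b2.1
  have i1 := sl_inc (k := 1) b1.1 hc ((hF A B hB').mono s1)
    (fun u hu => hsl u (s1 hu) (hu.2.trans_lt a1).ne) fun u hu => by
      rw [one_mul]; exact hE A hA' B hB' u (s1 hu)
  have i2 := sl_inc (k := -1) (a1.trans a2).le hc ((hF A B hB').mono s2).neg
    (fun u hu => (hb hu).1) fun u hu => by
      rw [neg_one_mul, Pi.neg_apply, neg_neg]; exact hE A hA' B hB' u (s2 hu)
  have i3 := sl_inc (k := 1) (b2.2.trans one_le_two) hc ((hF A B hB').mono s3)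
    (fun u hu => hsl u (s3 hu) (a2.trans_le hu.1).ne') fun u hu => by
      rw [one_mul]; exact hE A hA' B hB' u (s3 hu)
  have hg : ((l (t0 - δ) - A) * conj (B - A)).im * ((l (t0 + δ) - A) * conj (B - A)).im < 0 := by
    have m0 : t0 ∈ Icc (t0 - δ) (t0 + δ) := ⟨a1.le, a2.le⟩
    rcases ContinuousOn.strictMonoOn_of_injOn_Icc' (f := fun u => ((l u - A) * conj (B - A)).im)
      (a1.trans a2).le (by fun_prop) (fun u hu v hv e => hi (hb hu).2.2 (hb hv).2.2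
        (hinj ⟨hΓ ▸ mem_image_of_mem l (hb hu).2.2, (hb hu).2.1⟩
          ⟨hΓ ▸ mem_image_of_mem l (hb hv).2.2, (hb hv).2.1⟩ e)) with e | e
    · exact mul_neg_of_neg_of_pos ((e m1 m0 a1).trans_eq n2) (n2.symm.trans_lt (e m0 m2 a2))
    · exact mul_neg_of_pos_of_neg (n2.symm.trans_lt (e m1 m0 a1)) ((e m0 m2 a2).trans_eq n2)
  have hj := sl_jump (x := (l (t0 - δ) - A) / (l (t0 - δ) - B))
    (y := (l (t0 + δ) - A) / (l (t0 + δ) - B)) (by
      rw [sl_im, sl_im, div_mul_div_comm, neg_mul_neg]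
      exact div_neg_of_neg_of_pos hg (mul_pos (normSq_pos.2 (hne B hB' _ (s2 m1)))
        (normSq_pos.2 (hne B hB' _ (s2 m2)))))
  have e1 : s A = -s B := by
    simp only [h20, Pi.sub_apply, Pi.neg_apply] at i1 i2 i3
    simp only [hs]
    rw [← neg_one_mul, ← hj, ← exp_add]
    congr 1
    linear_combination (i1 + i2 + i3) / 2
  have e2 : s B ^ 2 = 1 := by
    rw [hs, ← exp_nat_mul, show ((2 : ℕ) : ℂ) * ((Λ B 2 - Λ B 0) / 2) = Λ B 2 - Λ B 0 by
      push_cast; ring, exp_sub, hΛ' B hB' 2 (right_mem_Icc.2 zero_le_two),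
      hΛ' B hB' 0 (left_mem_Icc.2 zero_le_two), h20]
    exact div_self (hne B hB' 0 (left_mem_Icc.2 zero_le_two))
  rcases sq_eq_one_iff.1 e2 with e | e
  · exact .inl ⟨fun k => k.2 ⟨hA', by rw [e1, e]; norm_num⟩, fun k => k.2 ⟨hB', e⟩⟩
  · exact .inr ⟨fun k => k.2 ⟨hA', by rw [e1, e, neg_neg]⟩, fun k => k.2 ⟨hB', by rw [e]; norm_num⟩⟩

theorem IsChord.retr {Γ : Set ℂ} (h : IsChord Γ) :
    ∃ ρ : ℂ → ℂ, Continuous ρ ∧ (∀ z, ρ z ∈ Γ) ∧ ∀ z ∈ Γ, ρ z = z := by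
  obtain ⟨c, hc, hi, -, -, rfl, -⟩ := h
  have hc' : Continuous fun t : Icc (0 : ℝ) 1 => c t :=
    hc.comp_continuous continuous_subtype_val fun t => t.2
  obtain ⟨g, hg⟩ := ContinuousMap.exists_extension' (hc'.isClosedEmbedding
    fun s t e => Subtype.ext (hi s.2 t.2 e)) (⟨Subtype.val, continuous_subtype_val⟩ : C(_, ℝ))
  refine ⟨fun z => c (projIcc (0 : ℝ) 1 zero_le_one (g z)), hc'.comp (continuous_projIcc.comp
    g.continuous), fun z => mem_image_of_mem c (Subtype.prop _), ?_⟩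
  rintro _ ⟨t, ht, rfl⟩
  have : g (c t) = t := congrFun hg ⟨t, ht⟩
  simp only [this, projIcc_of_mem _ ht]

theorem IsChord.preconn {Γ : Set ℂ} (h : IsChord Γ) : IsPreconnected Γ := by
  obtain ⟨c, hc, -, -, -, rfl, -⟩ := h
  exact isPreconnected_Icc.image c hc

end Pool.Agent.Lib.MP_3fe454_an.PD
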