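import Pool.Agent.Lib.MP_3fe454_an.PD.Chord2
import Pool.Agent.Lib.MP_3fe454_an.PD.SidesL

/-!
The system of chords on the plane.
-/

set_option autoImplicit false

open Set Metric Filter Topology MeasureTheory Function
open scoped ComplexConjugate ENNReal

namespace Pool.Agent.Lib.MP_3fe454_an.PD

namespace Dis

variable (F : Dis)


/-- a large measurable set with uniform no return constant -/
theorem inst1_good (hno : ¬ HS F.f) (μ : Measure ℂ) [IsProbabilityMeasure μ] (h : Ergodic F.f μ)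
    (hn : F.NullCl μ) {ε : ℝ≥0∞} (hε : 0 < ε) :
    ∃ (B : Blk F) (w1 : ℝ) (G : Set ℂ), 0 < w1 ∧ w1 ≤ B.η ∧ MeasurableSet G ∧ G ⊆ B.P ∧
      μ Gᶜ ≤ ε ∧ ∀ x ∈ G, B.NR w1 x := by
  have hε2 : 0 < ε / 2 := ENNReal.half_pos hε.ne'
  obtain ⟨B, hB⟩ := F.big_blk hno μ h hn hε2
  obtain ⟨T0, G, hG, hGP, hGε, hGa⟩ := B.exists_good μ h.toMeasurePreserving hn hε2
  obtain ⟨w1, hw, hw', hnr⟩ := B.nr T0
  refine ⟨B, w1, G, hw, hw', hG, hGP, ?_, fun x hx => hnr x fun e he => (hGa x hx).2 x e he⟩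
  have h1 : Gᶜ ⊆ B.Pᶜ ∪ (B.P \ G) := fun x hx => by
    by_cases hxP : x ∈ B.P
    · exact Or.inr ⟨hxP, hx⟩
    · exact Or.inl hxP
  refine (measure_mono h1).trans ((measure_union_le _ _).trans ?_)
  rw [← ENNReal.add_halves ε]
  exact add_le_add hB hGε

/-- both halves of a tube around x have positive measure near x -/
def Inst1Rec (μ : Measure ℂ) (x : ℂ) : Prop :=
  ∃ (B : Blk F) (w1 : ℝ) (e : ℂ), (x, e) ∈ B.K ∧ 0 < w1 ∧ w1 ≤ B.η ∧ B.NR w1 x ∧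
    ∀ V, IsOpen V → x ∈ V → μ (V ∩ B.UpT w1 x e) ≠ 0 ∧ μ (V ∩ B.UpT w1 x (-e)) ≠ 0

theorem inst1_near (μ : Measure ℂ) (B : Blk F) {w1 : ℝ} (hw : 0 < w1) (hw' : w1 ≤ B.η) {x e : ℂ}
    (he : (x, e) ∈ B.K)
    (hacc : ∀ κ > 0, μ {x' | x' ∈ B.P ∧ ‖x' - x‖ < κ ∧ 0 < B.ht x x e x'} ≠ 0) {V : Set ℂ}
    (hV : IsOpen V) (hx : x ∈ V) : μ (V ∩ B.UpT w1 x e) ≠ 0 := by
  obtain ⟨κ, hκ, hb⟩ := Metric.isOpen_iff.1 hV x hx
  intro h0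
  refine hacc (min κ (w1 / 2)) (lt_min hκ (half_pos hw)) (measure_mono_null ?_ h0)
  rintro x' ⟨-, h1, h2⟩
  obtain ⟨h3, h4⟩ := lt_min_iff.1 h1
  refine ⟨hb (mem_ball_iff_norm.2 h3), ?_, h2, ?_⟩
  · have h5 := Complex.abs_re_le_norm (co x e x')
    rw [norm_co (B.unit _ he)] at h5
    linarith
  · have h5 := (le_abs_self _).trans (B.abs_ht_le (B.adm_self he) x')
    linarith

theorem inst1_ae_rec (hno : ¬ HS F.f) (μ : Measure ℂ) [IsProbabilityMeasure μ]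
    (h : Ergodic F.f μ) (hn : F.NullCl μ) : ∀ᵐ x ∂μ, F.Inst1Rec μ x := by
  rw [ae_iff]
  refine le_antisymm (ENNReal.le_of_forall_pos_le_add fun ε hε _ => ?_) bot_le
  obtain ⟨B, w1, G, hw, hw', -, hGP, hGε, hnr⟩ :=
    F.inst1_good hno μ h hn (ENNReal.coe_pos.2 hε)
  rw [zero_add]
  refine (measure_mono_ae ?_).trans hGε
  filter_upwards [B.ae_acc μ hn (Subset.refl B.P)] with x hx hnot hxG
  obtain ⟨⟨x', e⟩, he, rfl⟩ := hGP hxG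
  exact hnot ⟨B, w1, e, he, hw, hw', hnr _ hxG, fun V hV hxV =>
    ⟨F.inst1_near μ B hw hw' he (hx (hGP hxG) e he) hV hxV,
      F.inst1_near μ B hw hw' (B.neg _ _ he) (hx (hGP hxG) (-e) (B.neg _ _ he)) hV hxV⟩⟩

theorem chordData (hno : ¬ HS F.f) (μ : Measure ℂ) [IsProbabilityMeasure μ]
    (h : Ergodic F.f μ) (hp : μ (periodicPts F.f) = 0) :
    ∃ (X1 : Set ℂ) (L R : Set ℂ → Set ℂ), F.ChordData μ X1 L R := by
  have hf := h.toMeasurePreserving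
  have hn : F.NullCl μ := F.nullCl μ hf fun z => by
    by_contra hz
    exact hz (measure_mono_null (singleton_subset_iff.2 (F.atom_periodic μ hf hz)) hp)
  have hLR : ∀ Γ : Set ℂ, ∃ L R : Set ℂ, IsChord Γ → Sides Γ L R := fun Γ => by
    by_cases hΓ : IsChord Γ
    · obtain ⟨L, R, hs⟩ := hΓ.sides
      exact ⟨L, R, fun _ => hs⟩
    · exact ⟨∅, ∅, fun hc => absurd hc hΓ⟩
  choose L R hLR using hLR
  have h0 : ∀ᵐ x ∂μ, x ∈ F.Λ ∧ IsChord (F.Gam x) ∧ (∀ n : ℕ, 1 ≤ n → ¬ F.Asy (F.f^[n] x) x) ∧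
      (∀ V, IsOpen V → μ V ≠ 0 → ∃ n : ℕ, 1 ≤ n ∧ F.f^[n] x ∈ V) ∧ F.Inst1Rec μ x := by
    filter_upwards [F.ae_Λ μ hf, F.ae_chord hno μ h hn, F.ae_aper μ hf hp, ae_dense μ h,
      F.inst1_ae_rec hno μ h hn] with x h1 h2 h3 h4 h5
    exact ⟨h1, h2, h3, h4, h5⟩
  obtain ⟨X0, hX0, hmem⟩ : ∃ X0 : Set ℂ, (∀ᵐ x ∂μ, x ∈ X0) ∧ ∀ x ∈ X0, x ∈ F.Λ ∧
      IsChord (F.Gam x) ∧ (∀ n : ℕ, 1 ≤ n → ¬ F.Asy (F.f^[n] x) x) ∧
      (∀ V, IsOpen V → μ V ≠ 0 → ∃ n : ℕ, 1 ≤ n ∧ F.f^[n] x ∈ V) ∧ F.Inst1Rec μ x :=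
    ⟨_, h0, fun x hx => hx⟩
  refine ⟨{x | ∀ j : ℕ, F.f^[j] x ∈ X0}, L, R, ?_, ?_, ?_, ?_, ?_, ?_, ?_⟩
  · exact ae_all_iff.2 fun j => (hf.iterate j).quasiMeasurePreserving.ae hX0
  · exact fun x hx => F.Λ_sub_Disc (hmem x (hx 0)).1
  · exact fun x hx j => hx (j + 1)
  · exact fun x hx => ⟨(hmem x (hx 0)).2.1, hLR _ (hmem x (hx 0)).2.1⟩
  · exact fun x hx n hn' hg => (hmem x (hx 0)).2.2.1 n hn' (F.Gam_asy hg)
  · intro x hx y hy V hV hyV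
    obtain ⟨-, hc, -, -, B, w1, e, he, hw, hw', hnr, hpos⟩ := hmem y (hy 0)
    have hd := (hmem x (hx 0)).2.2.2.1
    obtain ⟨n, hn1, hn2, hn3⟩ := hd _ (hV.inter (B.isOpen_UpT he)) (hpos V hV hyV).1
    obtain ⟨k, hk1, hk2, hk3⟩ := hd _ (hV.inter (B.isOpen_UpT (B.neg _ _ he))) (hpos V hV hyV).2
    rcases B.two_sides hw hw' he hnr (hLR _ hc) with ⟨h1, h2⟩ | ⟨h1, h2⟩
    · exact ⟨⟨n, hn1, hn2, disjoint_left.1 h1 hn3⟩, k, hk1, hk2, disjoint_left.1 h2 hk3⟩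
    · exact ⟨⟨k, hk1, hk2, disjoint_left.1 h2 hk3⟩, n, hn1, hn2, disjoint_left.1 h1 hn3⟩
  · intro ε hε
    obtain ⟨B, w1, G, hw, hw', hG, hGP, hGε, hnr⟩ := F.inst1_good hno μ h hn hε
    obtain ⟨t, ht, htf, hcov⟩ := finite_cover_balls_of_compact (isCompact_closedBall (0 : ℂ) 1)
      (show 0 < w1 / 8 by positivity)
    have hnull : μ (⋃ n ∈ t, {w | F.Asy w n}) = 0 :=
      (measure_biUnion_null_iff htf.countable).2 fun n _ => hn n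
    refine ⟨G \ ⋃ n ∈ t, {w | F.Asy w n}, htf.toFinset,
      hG.diff (MeasurableSet.biUnion htf.countable fun n _ => F.measurableSet_Asy' n), ?_,
      fun n hn' => ht (htf.mem_toFinset.1 hn'), ?_⟩
    · have h1 : (G \ ⋃ n ∈ t, {w | F.Asy w n})ᶜ ⊆ Gᶜ ∪ ⋃ n ∈ t, {w | F.Asy w n} := fun x hx => by
        by_contra hc
        rw [mem_union, not_or] at hc
        exact hx ⟨not_notMem.1 hc.1, hc.2⟩
      refine (measure_mono h1).trans ((measure_union_le _ _).trans ?_)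
      rw [hnull, add_zero]
      exact hGε
    · rintro x ⟨⟨hxG, hxN⟩, hx⟩
      obtain ⟨⟨x', e⟩, he, rfl⟩ := hGP hxG
      have key : ∀ e', (x', e') ∈ B.K → ∃ n ∈ htf.toFinset, n ∈ B.UpT w1 x' e' := fun e' he' => by
        obtain ⟨h1, h2⟩ := B.ball_sub_UpT hw hw' he'
        obtain ⟨n, hnt, hb⟩ := mem_iUnion₂.1 (hcov h2)
        exact ⟨n, htf.mem_toFinset.2 hnt, h1 (mem_ball_comm.1 hb)⟩
      obtain ⟨n, hn1, hn2⟩ := key e he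
      obtain ⟨k, hk1, hk2⟩ := key (-e) (B.neg _ _ he)
      have h3 : ∀ n ∈ htf.toFinset, n ∉ F.Gam x' := fun n hn' hg =>
        hxN (mem_iUnion₂.2 ⟨n, htf.mem_toFinset.1 hn', F.Asy_symm (F.Gam_asy hg)⟩)
      rcases B.two_sides hw hw' he (hnr _ hxG) (hLR _ (hmem _ (hx 0)).2.1) with
        ⟨h1, h2⟩ | ⟨h1, h2⟩
      · exact ⟨⟨n, hn1, disjoint_left.1 h1 hn2⟩, ⟨k, hk1, disjoint_left.1 h2 hk2⟩, h3⟩
      · exact ⟨⟨k, hk1, disjoint_left.1 h2 hk2⟩, ⟨n, hn1, disjoint_left.1 h1 hn2⟩, h3⟩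


end Dis

end Pool.Agent.Lib.MP_3fe454_an.PD
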