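import Pool.Agent.Lib.MP_3fe454_an.PD.Defs
import Pool.Agent.Shared.Brouwer.Basic

/-!
Cyclic shadowing through the Brouwer theorem.
-/

set_option autoImplicit false

open Set Metric Filter Topology MeasureTheory Function
open scoped ComplexConjugate ENNReal

namespace Pool.Agent.Lib.MP_3fe454_an.PD

/-- a bounded continuous self map of a finite dimensional space has a fixed point -/
theorem shadow_fix {E : Type} [NormedAddCommGroup E] [NormedSpace ℝ E] [FiniteDimensional ℝ E]
    (Ψ : E → E) (hc : Continuous Ψ) (R : ℝ) (hb : ∀ x, ‖Ψ x‖ ≤ R) : ∃ x, Ψ x = x := by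
  let T := toEuclidean (E := E)
  have hR : 0 < max 1 (‖T.toContinuousLinearMap‖ * R) := lt_max_of_lt_left one_pos
  obtain ⟨y, -, hy⟩ := Pool.Agent.Shared.Brouwer.brouwer hR (fun y => T (Ψ (T.symm y)))
    (T.continuous.comp (hc.comp T.symm.continuous)).continuousOn (fun y _ => by
      rw [mem_closedBall_zero_iff]
      refine le_trans ?_ (le_max_right _ _)
      exact (T.toContinuousLinearMap.le_opNorm _).trans
        (mul_le_mul_of_nonneg_left (hb _) (norm_nonneg _)))
  exact ⟨T.symm y, T.injective (hy.trans (T.apply_symm_apply y).symm)⟩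

/-- clamp to a symmetric interval -/
def shadowCl (a v : ℝ) : ℝ := max (-a) (min v a)

theorem shadowCl_le {a : ℝ} (ha : 0 ≤ a) (v : ℝ) : |shadowCl a v| ≤ a :=
  abs_le.2 ⟨le_max_left _ _, max_le (by linarith) (min_le_right _ _)⟩

theorem shadowCl_eq {a v : ℝ} (h : |v| ≤ a) : shadowCl a v = v := by
  unfold shadowCl
  rw [min_eq_left (abs_le.1 h).2, max_eq_right (abs_le.1 h).1]

theorem shadowCl_cont (a : ℝ) : Continuous (shadowCl a) :=
  continuous_const.max (continuous_id.min continuous_const)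

theorem shadow_cont_mk {X : Type} [TopologicalSpace X] {u v : X → ℝ} (hu : Continuous u)
    (hv : Continuous v) : Continuous fun x => (⟨u x, v x⟩ : ℂ) :=
  Complex.equivRealProdCLM.symm.continuous.comp (hu.prodMk hv)

/-- the clamped sequence -/
def shadowSeq (N : ℕ) (A B : ℕ → ℝ) (x : Fin (N + 1) → ℝ × ℝ) (t : ℕ) : ℂ :=
  ⟨shadowCl (A t) (x (Fin.ofNat (N + 1) t)).1, shadowCl (B t) (x (Fin.ofNat (N + 1) t)).2⟩

/-- the map whose fixed points are closed orbits -/
noncomputable def shadowMap (N : ℕ) (Φ : ℕ → ℂ → ℂ) (c : ℕ → ℝ) (d : ℕ → ℂ) (t : ℕ) : ℝ × ℝ :=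
  (if t = 0 then (d N).re else (Φ (t - 1) (d (t - 1))).re,
    if t = N then (d 0).im else ((d (t + 1)).im - ((Φ t (d t)).im - c t * (d t).im)) / c t)

theorem shadow (N : ℕ) (hN : 0 < N) (Φ : ℕ → ℂ → ℂ) (hΦ : ∀ t, Continuous (Φ t))
    (A B c : ℕ → ℝ) (hA : ∀ t, 0 ≤ A t) (hB : ∀ t, 0 ≤ B t) (hc : ∀ t < N, c t ≠ 0)
    (hAN : A N = A 0) (hBN : B N = B 0)
    (h : ∀ t < N, ∀ d : ℂ, |d.re| ≤ A t → |d.im| ≤ B t →
      |(Φ t d).re| ≤ A (t + 1) ∧ |(Φ t d).im - c t * d.im| + B (t + 1) ≤ |c t| * B t) :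
    ∃ d : ℕ → ℂ, d N = d 0 ∧
      ∀ t < N, |(d t).re| ≤ A t ∧ |(d t).im| ≤ B t ∧ Φ t (d t) = d (t + 1) := by
  have hre : ∀ x t, |(shadowSeq N A B x t).re| ≤ A t := fun x t => shadowCl_le (hA t) _
  have him : ∀ x t, |(shadowSeq N A B x t).im| ≤ B t := fun x t => shadowCl_le (hB t) _
  have hcs : ∀ t, Continuous fun x => shadowSeq N A B x t := fun t =>
    shadow_cont_mk ((shadowCl_cont _).comp (continuous_fst.comp (continuous_apply _)))
      ((shadowCl_cont _).comp (continuous_snd.comp (continuous_apply _)))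
  have hbox : ∀ x, ∀ t ≤ N, |(shadowMap N Φ c (shadowSeq N A B x) t).1| ≤ A t ∧
      |(shadowMap N Φ c (shadowSeq N A B x) t).2| ≤ B t := by
    intro x t ht
    unfold shadowMap
    constructor
    · by_cases h0 : t = 0
      · rw [if_pos h0, h0, ← hAN]
        exact hre x N
      · rw [if_neg h0]
        have h1 := (h (t - 1) (by omega) _ (hre x _) (him x _)).1
        rwa [show t - 1 + 1 = t by omega] at h1
    · by_cases h0 : t = N
      · rw [if_pos h0, h0, hBN]
        exact him x 0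
      · rw [if_neg h0]
        have ht' : t < N := lt_of_le_of_ne ht h0
        have h1 := (h t ht' _ (hre x _) (him x _)).2
        have h2 := him x (t + 1)
        have h3 : 0 < |c t| := abs_pos.2 (hc t ht')
        rw [abs_div, div_le_iff₀ h3]
        refine (abs_sub _ _).trans ?_
        linarith
  have hcm : ∀ t, Continuous fun x => shadowMap N Φ c (shadowSeq N A B x) t := by
    intro t
    unfold shadowMap
    refine Continuous.prodMk ?_ ?_
    · by_cases h0 : t = 0
      · simp only [if_pos h0]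
        exact Complex.continuous_re.comp (hcs N)
      · simp only [if_neg h0]
        exact Complex.continuous_re.comp ((hΦ _).comp (hcs _))
    · by_cases h0 : t = N
      · simp only [if_pos h0]
        exact Complex.continuous_im.comp (hcs 0)
      · simp only [if_neg h0]
        exact ((Complex.continuous_im.comp (hcs _)).sub
          ((Complex.continuous_im.comp ((hΦ _).comp (hcs _))).sub
            (continuous_const.mul (Complex.continuous_im.comp (hcs _))))).div_const _
  obtain ⟨x, hx⟩ := shadow_fix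
    (fun (x : Fin (N + 1) → ℝ × ℝ) (t : Fin (N + 1)) => shadowMap N Φ c (shadowSeq N A B x) t)
    (continuous_pi fun t => hcm t) (∑ t ∈ Finset.range (N + 1), (A t + B t)) (fun x => by
      have hs : ∀ t ∈ Finset.range (N + 1), 0 ≤ A t + B t := fun t _ => add_nonneg (hA t) (hB t)
      refine (pi_norm_le_iff_of_nonneg (Finset.sum_nonneg hs)).2 fun t => ?_
      refine le_trans ?_ (Finset.single_le_sum hs (Finset.mem_range.2 t.2))
      obtain ⟨h1, h2⟩ := hbox x t (Nat.lt_succ_iff.1 t.2)
      exact max_le (h1.trans (le_add_of_nonneg_right (hB t)))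
        (h2.trans (le_add_of_nonneg_left (hA t))))
  have hval : ∀ t ≤ N, x (Fin.ofNat (N + 1) t) = shadowMap N Φ c (shadowSeq N A B x) t := by
    intro t ht
    have h1 := congrFun hx (Fin.ofNat (N + 1) t)
    rw [← h1, Fin.val_ofNat, Nat.mod_eq_of_lt (Nat.lt_succ_of_le ht)]
  have hre' : ∀ t ≤ N, (shadowSeq N A B x t).re = (shadowMap N Φ c (shadowSeq N A B x) t).1 := by
    intro t ht
    change shadowCl (A t) (x (Fin.ofNat (N + 1) t)).1 = _
    rw [hval t ht]
    exact shadowCl_eq (hbox x t ht).1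
  have him' : ∀ t ≤ N, (shadowSeq N A B x t).im = (shadowMap N Φ c (shadowSeq N A B x) t).2 := by
    intro t ht
    change shadowCl (B t) (x (Fin.ofNat (N + 1) t)).2 = _
    rw [hval t ht]
    exact shadowCl_eq (hbox x t ht).2
  refine ⟨shadowSeq N A B x, Complex.ext ?_ ?_, fun t ht => ⟨hre x t, him x t, Complex.ext ?_ ?_⟩⟩
  · rw [hre' 0 (Nat.zero_le N)]
    rfl
  · rw [him' N le_rfl]
    exact if_pos rfl
  · rw [hre' (t + 1) ht]
    rfl
  · have h1 := him' t ht.le
    unfold shadowMap at h1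
    rw [if_neg ht.ne, eq_div_iff (hc t ht)] at h1
    linarith

theorem disc_fpp (h : Disc → Disc) (hh : Continuous h) : ∃ z, h z = z := by
  classical
  let g : ℂ → ℂ := fun z => if hz : z ∈ Disc then (h ⟨z, hz⟩ : ℂ) else 0
  have hg : ∀ z : Disc, g z = h z := fun z => dif_pos z.2
  obtain ⟨z, hz, hz'⟩ := Pool.Agent.Shared.Brouwer.brouwer one_pos g
    (continuousOn_iff_continuous_restrict.2 (by
      have h1 : (closedBall (0 : ℂ) 1).domRestrict g = fun z : Disc => (h z : ℂ) := funext hg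
      rw [h1]
      exact continuous_subtype_val.comp hh))
    (fun z hz => by
      rw [hg ⟨z, hz⟩]
      exact (h ⟨z, hz⟩).2)
  exact ⟨⟨z, hz⟩, Subtype.ext ((hg ⟨z, hz⟩).symm.trans hz')⟩

end Pool.Agent.Lib.MP_3fe454_an.PD
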