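import Pool.Agent.Lib.MP_3fe454_an.PD.CC10
import Pool.Agent.Lib.MP_3fe454_an.PD.SidesL
import Pool.Agent.Lib.MP_3fe454_an.PD.Shadow
import Pool.Agent.Lib.MP_3fe454_an.PD.Meas1

/-!
From the chords of the disc to the cascade.
-/

set_option autoImplicit false

open Set Metric Filter Topology MeasureTheory Function
open scoped ComplexConjugate ENNReal

namespace Pool.Agent.Lib.MP_3fe454_an.PD

namespace Dis

variable (F : Dis)


/-- the restriction of the map to the disc -/
private def res (z : Disc) : Disc := ⟨F.f z, F.f_mem_Disc z⟩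

private theorem res_iter (n : ℕ) (z : Disc) : (F.res^[n] z : ℂ) = F.f^[n] z :=
  (Semiconj.iterate_right (f := Subtype.val) (ga := F.res) (gb := F.f) (fun _ => rfl) n z :)

private theorem res_per (n : ℕ) (z : Disc) :
    minimalPeriod (F.res^[n]) z = minimalPeriod (F.f^[n]) z := by
  refine minimalPeriod_eq_minimalPeriod_iff.2 fun k => ?_
  simp only [IsPeriodicPt, IsFixedPt, ← iterate_mul, ← res_iter, Subtype.ext_iff]

/-- the chords of the disc -/
private def chords {μ : Measure ℂ} {X1 : Set ℂ} {L R : Set ℂ → Set ℂ}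
    (hd : F.ChordData μ X1 L R) : Chords Disc where
  f := F.res
  X1 := Subtype.val ⁻¹' X1
  γ x := Subtype.val ⁻¹' F.Gam x
  L x := Subtype.val ⁻¹' L (F.Gam x)
  R x := Subtype.val ⁻¹' R (F.Gam x)
  cf := (F.cf.comp continuous_subtype_val).subtype_mk _
  fpp := disc_fpp
  fwd x hx := hd.2.2.1 x hx
  mem x _ := F.Gam_self x.2
  conn x hx := by
    rw [← IsInducing.subtypeVal.isPreconnected_image, Subtype.image_preimage_coe,
      inter_eq_right.2 (F.Gam_sub_Disc x)]
    exact (hd.2.2.2.1 x hx).1.preconn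
  cL x hx := (hd.2.2.2.1 x hx).2.1.preimage continuous_subtype_val
  cR x hx := (hd.2.2.2.1 x hx).2.2.1.preimage continuous_subtype_val
  union x hx := by
    rw [← preimage_union, (hd.2.2.2.1 x hx).2.2.2.1, Subtype.coe_preimage_self]
  inter x hx := by rw [← preimage_inter, (hd.2.2.2.1 x hx).2.2.2.2.1]
  retr x hx := by
    obtain ⟨ρ, h1, h2, h3⟩ := (hd.2.2.2.1 x hx).1.retr
    exact ⟨fun z => ⟨ρ z, F.Gam_sub_Disc x (h2 z)⟩, (h1.comp continuous_subtype_val).subtype_mk _,
      fun z => h2 z, fun z hz => Subtype.ext (h3 z hz)⟩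
  img x _ z hz := F.Gam_iter hz 1
  same x _ y _ := by
    rintro ⟨z, h1, h2⟩
    rw [(F.Gam_eq h1).symm.trans (F.Gam_eq h2)]
    exact ⟨rfl, rfl, rfl⟩
  aper x hx n hn := by
    rw [mem_preimage, res_iter]
    exact hd.2.2.2.2.1 x hx n hn
  reachL x hx y hy V hV hy' := by
    obtain ⟨V', hV', rfl⟩ := isOpen_induced_iff.1 hV
    obtain ⟨n, hn, h⟩ := (hd.2.2.2.2.2.1 x hx y hy V' hV' hy').1
    exact ⟨n, hn, by rwa [← preimage_sdiff, mem_preimage, res_iter]⟩
  reachR x hx y hy V hV hy' := by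
    obtain ⟨V', hV', rfl⟩ := isOpen_induced_iff.1 hV
    obtain ⟨n, hn, h⟩ := (hd.2.2.2.2.2.1 x hx y hy V' hV' hy').2
    exact ⟨n, hn, by rwa [← preimage_sdiff, mem_preimage, res_iter]⟩

theorem cascade_of_data (hno : ¬ HS F.f) (μ : Measure ℂ) [IsProbabilityMeasure μ]
    (h : MeasurePreserving F.f μ μ) {X1 : Set ℂ} {L R : Set ℂ → Set ℂ}
    (hd : F.ChordData μ X1 L R) : Cascade F.f := by
  classical
  have he : MeasurableEmbedding (Subtype.val : Disc → ℂ) :=
    MeasurableEmbedding.subtype_coe measurableSet_closedBall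
  have h1 : (μ.comap (Subtype.val : Disc → ℂ)).map Subtype.val = μ := by
    rw [he.map_comap, Subtype.range_coe]
    exact Measure.restrict_eq_self_of_ae_mem (hd.1.mono fun x hx => hd.2.1 hx)
  have h2 : ∀ A, μ.comap (Subtype.val : Disc → ℂ) (Subtype.val ⁻¹' A) = μ A := fun A => by
    rw [← he.map_apply, h1]
  have : IsProbabilityMeasure (μ.comap (Subtype.val : Disc → ℂ)) :=
    ⟨(h2 univ).trans measure_univ⟩
  have : PreconnectedSpace Disc := Subtype.preconnectedSpace (convex_closedBall _ _).isPreconnected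
  have hm : Measurable F.res := (F.chords hd).cf.measurable
  have key : Cascade F.res := cc_main (F.chords hd) (μ.comap Subtype.val) ⟨hm, ?_⟩
    ((h2 X1ᶜ).trans hd.1) (fun ε hε => ?_) fun ⟨n, hn, hj⟩ => hno ⟨n, hn, fun j hj' =>
      (hj j hj').elim fun p hp => ⟨p, (F.res_per n p).symm.trans hp⟩⟩
  · obtain ⟨m, hm1, hk⟩ := key
    exact ⟨m, hm1, fun k => (hk k).elim fun p hp => ⟨p, (F.res_per 1 p).symm.trans hp⟩⟩
  · refine Measure.ext fun A hA => ?_
    have e : F.res ⁻¹' A = Subtype.val ⁻¹' (F.f ⁻¹' (Subtype.val '' A)) := by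
      ext z
      exact (Subtype.val_injective.mem_set_image (a := F.res z)).symm
    change Measure.map F.res _ A = _
    rw [Measure.map_apply hm hA, e, h2, h.measure_preimage (he.measurableSet_image.2 hA).nullMeasurableSet,
      he.comap_apply]
  · obtain ⟨K, N, a1, a2, a3, a4⟩ := hd.2.2.2.2.2.2 ε hε
    refine ⟨Subtype.val ⁻¹' K, N.subtype (· ∈ Disc), he.measurable a1, (h2 Kᶜ).trans_le a2,
      fun x hx => ?_⟩
    obtain ⟨⟨n, b1, b2⟩, ⟨n', b3, b4⟩, b5⟩ := a4 x hx
    exact ⟨⟨⟨n, a3 n b1⟩, Finset.mem_subtype.2 b1, b2⟩, ⟨⟨n', a3 n' b3⟩, Finset.mem_subtype.2 b3, b4⟩,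
      fun n hn => b5 n (Finset.mem_subtype.1 hn)⟩


end Dis

end Pool.Agent.Lib.MP_3fe454_an.PD
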