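import Pool.Agent.Lib.MP_3fe454_an.PD.Defs

/-!
Krylov-Bogolyubov averaging.
-/

set_option autoImplicit false

open Set Metric Filter Topology MeasureTheory Function
open scoped ComplexConjugate ENNReal

namespace Pool.Agent.Lib.MP_3fe454_an.PD

theorem kb (Φ : ℂ × ℂ → ℂ × ℂ) (hΦ : Continuous Φ) (Z : Set (ℂ × ℂ)) (hZ : IsCompact Z)
    (m : ℕ → Measure (ℂ × ℂ)) (c : ℝ≥0∞) (hc : c ≠ ∞) (hm : ∀ i, m i univ = c)
    (hs : ∀ i, m i Zᶜ = 0)
    (h : (∀ i, (m (i + 1)).map Φ = m i) ∨ (∀ i, m (i + 1) = (m i).map Φ)) :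
    ∃ ρ : Measure (ℂ × ℂ), ρ univ = c ∧ ρ Zᶜ = 0 ∧ MeasurePreserving Φ ρ ρ ∧
      ∀ U, IsOpen U → ∀ a : ℝ≥0∞,
        (∀ᶠ n : ℕ in atTop, ∑ i ∈ Finset.range n, m i U ≤ n * a) → ρ U ≤ a := by
  have fin : ∀ i, IsFiniteMeasure (m i) := fun i => ⟨by rw [hm i]; exact hc.lt_top⟩
  have n0 : ∀ n : ℕ, ((n + 1 : ℕ) : ℝ≥0∞) ≠ 0 := fun n => Nat.cast_ne_zero.2 n.succ_ne_zero
  obtain ⟨A, hA⟩ : ∃ A : ℕ → Measure (ℂ × ℂ),
      ∀ n, A n = ((n + 1 : ℕ) : ℝ≥0∞)⁻¹ • ∑ i ∈ Finset.range (n + 1), m i := ⟨_, fun _ => rfl⟩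
  have ap : ∀ n s, A n s = ((n + 1 : ℕ) : ℝ≥0∞)⁻¹ * ∑ i ∈ Finset.range (n + 1), m i s :=
    fun n s => by rw [hA, Measure.smul_apply, Measure.finsetSum_apply, smul_eq_mul]
  have a1 : ∀ n, A n univ = c := fun n => by
    simp only [ap, hm, Finset.sum_const, Finset.card_range, nsmul_eq_mul]
    exact ENNReal.inv_mul_cancel_left (n0 n) (ENNReal.natCast_ne_top _)
  have a2 : ∀ n, A n Zᶜ = 0 := fun n => by simp [ap, hs]
  let M : ℕ → FiniteMeasure (ℂ × ℂ) := fun n => ⟨A n, ⟨by rw [a1]; exact hc.lt_top⟩⟩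
  have a3 : ∀ n, (M n).mass = c.toNNReal := fun n => congrArg ENNReal.toNNReal (a1 n)
  obtain ⟨ρ, hρ, hl⟩ := (isCompact_setOfPred_finiteMeasure_le_of_isCompact c.toNNReal
    hZ).ultrafilter_le_nhds ((hyperfilter ℕ).map M) (le_principal_iff.2 (mem_map.2
      (univ_mem' fun n => ⟨(a3 n).le, congrArg ENNReal.toNNReal (a2 n)⟩)))
  replace hl : Tendsto M (hyperfilter ℕ) (𝓝 ρ) := hl
  have le : (hyperfilter ℕ : Filter ℕ) ≤ atTop := Nat.cofinite_eq_atTop ▸ hyperfilter_le_cofinite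
  have b1 : (ρ : Measure (ℂ × ℂ)) univ = c := by
    have h1 := hl.mass
    simp only [a3] at h1
    rw [← FiniteMeasure.ennreal_mass, ← tendsto_nhds_unique tendsto_const_nhds h1,
      ENNReal.coe_toNNReal hc]
  refine ⟨ρ, b1, (FiniteMeasure.null_iff_toMeasure_null ρ _).1 hρ.2, ⟨hΦ.measurable,
    ext_of_forall_integral_eq_of_IsFiniteMeasure fun f => ?_⟩, fun U hU a ha => ?_⟩
  · rw [integral_map hΦ.aemeasurable f.continuous.aestronglyMeasurable]
    obtain ⟨g, hg⟩ : ∃ g : BoundedContinuousFunction (ℂ × ℂ) ℝ, g = f.compContinuous ⟨Φ, hΦ⟩ :=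
      ⟨_, rfl⟩
    have g0 : ∀ μ : Measure (ℂ × ℂ), ∫ x, f x ∂(μ.map Φ) = ∫ x, g x ∂μ := fun μ => by
      rw [integral_map hΦ.aemeasurable f.continuous.aestronglyMeasurable, hg]; rfl
    have bd : ∀ (k : BoundedContinuousFunction (ℂ × ℂ) ℝ) i, |∫ x, k x ∂(m i)| ≤ c.toReal * ‖k‖ :=
      fun k i => hm i ▸ k.norm_integral_le_mul_norm (m i)
    have it : ∀ (k : BoundedContinuousFunction (ℂ × ℂ) ℝ) n, ∫ x, k x ∂(A n) =
        ((n + 1 : ℕ) : ℝ)⁻¹ * ∑ i ∈ Finset.range (n + 1), ∫ x, k x ∂(m i) := fun k n => by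
      rw [hA, integral_smul_measure, integral_finsetSum_measure fun i _ => k.integrable _,
        ENNReal.toReal_inv, ENNReal.toReal_natCast, smul_eq_mul]
    have df : ∀ n, |∑ i ∈ Finset.range (n + 1), ∫ x, g x ∂(m i) -
        ∑ i ∈ Finset.range (n + 1), ∫ x, f x ∂(m i)| ≤ 2 * (c.toReal * (‖f‖ + ‖g‖)) := fun n => by
      have p1 := mul_nonneg c.toReal_nonneg (norm_nonneg f)
      have p2 := mul_nonneg c.toReal_nonneg (norm_nonneg g)
      rcases h with h | h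
      · rw [Finset.sum_range_succ', Finset.sum_range_succ fun i => ∫ x, f x ∂(m i)]
        simp only [← g0, h]
        rw [g0, abs_le]
        constructor <;> linarith [abs_le.1 (bd g 0), abs_le.1 (bd f n)]
      · rw [Finset.sum_range_succ, Finset.sum_range_succ' fun i => ∫ x, f x ∂(m i)]
        simp only [h, g0]
        rw [abs_le]
        constructor <;> linarith [abs_le.1 (bd g n), abs_le.1 (bd f 0)]
    have t1 := (FiniteMeasure.tendsto_iff_forall_integral_tendsto.1 hl g).sub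
      (FiniteMeasure.tendsto_iff_forall_integral_tendsto.1 hl f)
    have t2 : Tendsto (fun n => ∫ x, g x ∂(A n) - ∫ x, f x ∂(A n)) atTop (𝓝 0) := by
      have t3 := ((tendsto_inv_atTop_nhds_zero_nat (𝕜 := ℝ)).comp
        (tendsto_add_atTop_nat 1)).mul_const (2 * (c.toReal * (‖f‖ + ‖g‖)))
      rw [zero_mul] at t3
      refine squeeze_zero_norm (fun n => ?_) t3
      rw [it, it, ← mul_sub, norm_mul, Real.norm_of_nonneg (by positivity)]
      exact mul_le_mul_of_nonneg_left (df n) (by positivity)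
    have t4 := sub_eq_zero.1 (tendsto_nhds_unique t1 (t2.mono_left le))
    rw [← t4, hg]; rfl
  · have h1 := FiniteMeasure.limsup_measure_closed_le_of_tendsto hl hU.isClosed_compl
    have h2 : c - a ≤ (hyperfilter ℕ : Filter ℕ).limsup fun n => A n Uᶜ := by
      refine le_limsup_of_frequently_le (Eventually.frequently ?_)
      filter_upwards [le ((tendsto_add_atTop_nat 1).eventually ha)] with n hn
      have h3 : A n U ≤ a := by
        rw [ap]
        exact (mul_le_mul_right hn _).trans_eq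
          (ENNReal.inv_mul_cancel_left (n0 n) (ENNReal.natCast_ne_top _))
      rw [tsub_le_iff_left, ← a1 n, ← measure_add_measure_compl hU.measurableSet]
      exact add_le_add_left h3 _
    have h4 := tsub_le_iff_left.1 (h2.trans h1)
    rw [← b1, ← measure_add_measure_compl hU.measurableSet] at h4
    exact ENNReal.le_of_add_le_add_right (measure_ne_top _ _) h4

/-- a measure dominated on open sets is dominated -/
theorem le_of_open {μ ν : Measure ℂ} [IsFiniteMeasure ν]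
    (h : ∀ U, IsOpen U → μ U ≤ ν U) : μ ≤ ν := by
  refine Measure.le_iff'.2 fun s => ?_
  rw [s.measure_eq_iInf_isOpen ν]
  exact le_iInf₂ fun U hU => le_iInf fun hO => (measure_mono hU).trans (h U hO)

end Pool.Agent.Lib.MP_3fe454_an.PD
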