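import Pool.Agent.Lib.MP_3fe454_an.PD.Theta

/-!
Rectangles along a hyperbolic orbit segment.
-/

set_option autoImplicit false

open Set Metric Filter Topology MeasureTheory Function
open scoped ComplexConjugate ENNReal

namespace Pool.Agent.Lib.MP_3fe454_an.PD

namespace Dis

variable (F : Dis)

theorem k1_ev {κ q : ℝ} (hκ : 0 < κ) (hq : 0 < q) (c : ℝ) :
    ∀ᶠ n : ℕ in atTop, c * Real.exp (-κ * n) ≤ q := by
  have h1 : Tendsto (fun n : ℕ => c * Real.exp (-κ * n)) atTop (𝓝 (c * 0)) := by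
    refine Tendsto.const_mul c (Real.tendsto_exp_atBot.comp ?_)
    exact tendsto_natCast_atTop_atTop.const_mul_atTop_of_neg (by linarith)
  rw [mul_zero] at h1
  exact h1.eventually (ge_mem_nhds hq)

theorem k1_δ_le : F.δ0 ≤ 1 / 4 := min_le_left _ _

theorem k1_δ_le' : F.δ0 ≤ F.β / 8192 := min_le_right _ _

theorem k1_ε_le : F.ε0 ≤ F.β / 8192 := by
  have h1 := F.α_le
  have h2 := F.β_pos
  unfold ε0
  nlinarith

theorem k1_θ_pow (t : ℕ) : F.θ0 ^ t = Real.exp (-(F.β / 2) * t) := by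
  rw [θ0, ← Real.exp_nat_mul]
  congr 1
  ring

theorem k1_Th {o : ℤ → ℂ × ℂ} (h : F.IsOrb o) {x0 : ℝ} (hx : F.Θmin ≤ x0) (t : ℕ) :
    F.Θmin ≤ F.Th o x0 t := by
  cases t with
  | zero => exact hx
  | succ t => exact F.Th_ge h (by linarith [F.one_le_Θmin]) t

theorem k1_small {ρ s a c T T0 : ℝ} (hρ : 0 ≤ ρ) (hs : 0 ≤ s) (h1 : ρ ≤ s * Real.exp (-a))
    (hT : 1 ≤ T) (h2 : T ≤ T0 * Real.exp c) (h3 : c ≤ F.α * a)
    (h4 : F.H * s ^ F.α * (2 * T0) ≤ F.δ0 * F.m) : F.H * ρ ^ F.α * (1 + T) ≤ F.δ0 * F.m := by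
  have e1 : ρ ^ F.α ≤ s ^ F.α * Real.exp (-a * F.α) := by
    rw [Real.exp_mul, ← Real.mul_rpow hs (Real.exp_pos _).le]
    exact Real.rpow_le_rpow hρ h1 F.α_pos.le
  have hT0 : 0 ≤ T0 := by
    by_contra hn
    have := mul_neg_of_neg_of_pos (not_le.1 hn) (Real.exp_pos c)
    linarith
  have e2 : Real.exp (-a * F.α) * Real.exp c ≤ 1 := by
    rw [← Real.exp_add, Real.exp_le_one_iff]
    linarith
  have hsα : 0 ≤ s ^ F.α := Real.rpow_nonneg hs _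
  have hH := F.H_pos
  calc F.H * ρ ^ F.α * (1 + T)
      ≤ F.H * (s ^ F.α * Real.exp (-a * F.α)) * (2 * (T0 * Real.exp c)) := by
        refine mul_le_mul (mul_le_mul_of_nonneg_left e1 hH.le) (by linarith) (by linarith) ?_
        positivity
    _ = F.H * s ^ F.α * (2 * T0) * (Real.exp (-a * F.α) * Real.exp c) := by ring
    _ ≤ F.H * s ^ F.α * (2 * T0) * 1 := mul_le_mul_of_nonneg_left e2 (by positivity)
    _ ≤ F.δ0 * F.m := by linarith

theorem k1_step {o : ℤ → ℂ × ℂ} (h : F.IsOrb o) {x0 : ℝ} (hx : F.Θmin ≤ x0) (t : ℕ)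
    {dl bs : ℝ} (hdl : 0 ≤ dl) (hbs : 0 ≤ bs) :
    (F.ca o t * F.Th o x0 t + F.M + F.δ0 * F.m) * max (dl / F.Th o x0 t) bs ≤
      F.Th o x0 (t + 1) * max ((1 + 2 * F.δ0) * F.ca o t * dl / F.Th o x0 (t + 1))
        ((1 - F.δ0) * |F.cc o t| * bs) ∧
    max ((1 + 2 * F.δ0) * F.ca o t * dl / F.Th o x0 (t + 1)) ((1 - F.δ0) * |F.cc o t| * bs) ≤
      (1 - F.δ0) * |F.cc o t| * max (dl / F.Th o x0 t) bs := by
  have h1 := F.one_le_Θmin
  have hT := F.k1_Th h hx t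
  have hT' := F.k1_Th h hx (t + 1)
  have hδ := F.δ0_pos
  have hδ' := F.k1_δ_le
  have hm := F.m_pos
  have hm1 := F.m_le
  have hM := F.one_le_M
  have ha := (F.ca_bd h t).1
  have hc := (F.cc_bd h t).1
  have hk : 0 < (1 - F.δ0) * |F.cc o t| := mul_pos (by linarith) (by linarith)
  have eT : F.Th o x0 (t + 1) * ((1 - F.δ0) * |F.cc o t|) =
      (1 + 2 * F.δ0) * F.ca o t * F.Th o x0 t + (F.M * F.Θmin + 2 * F.M) := by
    rw [Th, div_mul_cancel₀ _ hk.ne']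
  have eΘ : F.δ0 * F.m * F.Θmin = F.M := by
    rw [Θmin, mul_div_cancel₀ _ (mul_pos hδ hm).ne']
  generalize F.Th o x0 (t + 1) = T' at *
  generalize F.Th o x0 t = T at *
  generalize (1 - F.δ0) * |F.cc o t| = k at *
  generalize F.ca o t = a at *
  have hT0 : 0 < T := by linarith
  have hT0' : 0 < T' := by linarith
  have hx0 : 0 ≤ dl / T := div_nonneg hdl hT0.le
  have ex : dl = T * (dl / T) := by rw [mul_div_cancel₀ _ hT0.ne']
  have hMΘ : 0 ≤ F.M * F.Θmin := by positivity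
  have haT : F.m * F.Θmin ≤ a * T := mul_le_mul ha hT (by linarith) (by linarith)
  have haT1 : F.m ≤ a * T := by nlinarith
  constructor
  · rcases le_total (dl / T) bs with hc1 | hc1
    · rw [max_eq_right hc1]
      refine le_trans ?_ (mul_le_mul_of_nonneg_left (le_max_right _ _) hT0'.le)
      rw [← mul_assoc, eT]
      refine mul_le_mul_of_nonneg_right ?_ hbs
      nlinarith
    · rw [max_eq_left hc1]
      refine le_trans ?_ (mul_le_mul_of_nonneg_left (le_max_left _ _) hT0'.le)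
      rw [mul_div_cancel₀ _ hT0'.ne']
      generalize dl / T = x at *
      rw [ex, ← mul_assoc]
      refine mul_le_mul_of_nonneg_right ?_ hx0
      have g1 : F.δ0 * (F.m * F.Θmin) ≤ F.δ0 * (a * T) := mul_le_mul_of_nonneg_left haT hδ.le
      have g2 : F.δ0 * F.m ≤ F.δ0 * (a * T) := mul_le_mul_of_nonneg_left haT1 hδ.le
      nlinarith
  · refine max_le ?_ (mul_le_mul_of_nonneg_left (le_max_right _ _) hk.le)
    refine le_trans ?_ (mul_le_mul_of_nonneg_left (le_max_left _ _) hk.le)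
    rw [div_le_iff₀ hT0']
    generalize dl / T = x at *
    have e3 : k * x * T' = T' * k * x := by ring
    rw [e3, eT, ex, ← mul_assoc]
    refine mul_le_mul_of_nonneg_right ?_ hx0
    linarith

theorem k1_chart {o : ℤ → ℂ × ℂ} (h : F.IsOrb o) (t : ℤ) {T B : ℝ} (hT : 0 ≤ T) (hB : 0 ≤ B)
    (h1 : T * B + B ≤ 1 - F.r0) (h2 : F.H * (T * B + B) ^ F.α * (1 + T) ≤ F.δ0 * F.m) {d : ℂ}
    (hr : |d.re| ≤ T * B) (hi : |d.im| ≤ B) :
    |(co (o (t + 1)).1 (o (t + 1)).2 (F.f ((o t).1 + d * (o t).2))).re| ≤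
        (F.ca o t * T + F.M + F.δ0 * F.m) * B ∧
      |(co (o (t + 1)).1 (o (t + 1)).2 (F.f ((o t).1 + d * (o t).2))).im - F.cc o t * d.im| ≤
        F.δ0 * |F.cc o t| * B := by
  obtain ⟨g1, g2, g3, -⟩ := h t
  have hd : ‖d‖ ≤ T * B + B := (Complex.norm_le_abs_re_add_abs_im d).trans (add_le_add hr hi)
  have hn : ‖(o t).1 + d * (o t).2 - (o t).1‖ = ‖d‖ := by
    rw [add_sub_cancel_left, norm_mul, g2, mul_one]
  have hw : (o t).1 + d * (o t).2 ∈ Disc := by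
    rw [mem_closedBall_zero_iff]
    refine (norm_add_le _ _).trans ?_
    rw [norm_mul, g2, mul_one]
    linarith [F.Λ_norm g1]
  have hρ : 0 ≤ T * B + B := by positivity
  obtain ⟨c1, c2⟩ := F.chart h t (ρ := T * B + B) hw (F.Λ_sub_Disc g1) (hn.le.trans hd)
    (by rw [sub_self, norm_zero]; exact hρ)
  have hco : co (o t).1 (o t).2 ((o t).1 + d * (o t).2) = d := by
    rw [co, add_sub_cancel_left, mul_assoc, Complex.mul_conj, Complex.normSq_eq_norm_sq, g2]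
    simp
  rw [hco, hn, ← g3] at c1 c2
  have hE : 0 ≤ F.H * (T * B + B) ^ F.α := mul_nonneg F.H_pos.le (Real.rpow_nonneg hρ _)
  generalize F.H * (T * B + B) ^ F.α = E at *
  have e1 : E * ‖d‖ ≤ F.δ0 * F.m * B :=
    calc E * ‖d‖ ≤ E * (T * B + B) := mul_le_mul_of_nonneg_left hd hE
      _ = E * (1 + T) * B := by ring
      _ ≤ F.δ0 * F.m * B := mul_le_mul_of_nonneg_right h2 hB
  have ha : 0 ≤ F.ca o t := norm_nonneg _
  constructor
  · have e2 : |F.ca o t * d.re + F.cb o t * d.im| ≤ F.ca o t * (T * B) + F.M * B := by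
      refine (abs_add_le _ _).trans (add_le_add ?_ ?_)
      · rw [abs_mul, abs_of_nonneg ha]
        exact mul_le_mul_of_nonneg_left hr ha
      · rw [abs_mul]
        exact mul_le_mul (F.cb_bd h t) hi (abs_nonneg _) (by linarith [F.one_le_M])
    have e3 := abs_sub_abs_le_abs_sub
      (co (o (t + 1)).1 (o (t + 1)).2 (F.f ((o t).1 + d * (o t).2))).re
      (F.ca o t * d.re + F.cb o t * d.im)
    nlinarith
  · refine c2.trans (e1.trans (mul_le_mul_of_nonneg_right ?_ hB))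
    exact mul_le_mul_of_nonneg_left (F.cc_bd h t).1 F.δ0_pos.le

theorem k1_radius {T0 : ℝ} (hT0 : 0 < T0) :
    ∃ s, 0 < s ∧ s ≤ 1 - F.r0 ∧ F.H * s ^ F.α * (2 * T0) ≤ F.δ0 * F.m := by
  have hH := F.H_pos
  have hq : 0 < F.δ0 * F.m / (F.H * (2 * T0)) :=
    div_pos (mul_pos F.δ0_pos F.m_pos) (by positivity)
  have hr : 0 < 1 - F.r0 := by linarith [F.r0_lt]
  have hp : 0 < (F.δ0 * F.m / (F.H * (2 * T0))) ^ F.α⁻¹ := Real.rpow_pos_of_pos hq _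
  refine ⟨min ((F.δ0 * F.m / (F.H * (2 * T0))) ^ F.α⁻¹) (1 - F.r0), lt_min hp hr, min_le_right _ _,
    ?_⟩
  have e1 := Real.rpow_le_rpow (lt_min hp hr).le
    (min_le_left ((F.δ0 * F.m / (F.H * (2 * T0))) ^ F.α⁻¹) (1 - F.r0)) F.α_pos.le
  rw [Real.rpow_inv_rpow hq.le F.α_pos.ne', le_div_iff₀ (by positivity)] at e1
  linarith

theorem k1_size {ls lc C A0 x0 a0 b0 : ℝ} (ha : F.AdmP ls lc) (hA : F.ThBd ls lc C A0)
    (hx : F.Θmin ≤ x0) (ha0 : 0 ≤ a0) (hb0 : 0 ≤ b0) {o : ℤ → ℂ × ℂ} {n t : ℕ}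
    (h : F.Good F.ε0 ls lc C o) (hs : F.Good F.ε0 ls lc C fun i => o (i + n)) (ht : t ≤ n) {B : ℝ}
    (hB : B = max (a0 * (∏ i ∈ Finset.range t, ((1 + 2 * F.δ0) * F.ca o i)) / F.Th o x0 t)
      (b0 / ∏ i ∈ Finset.Ico t n, ((1 - F.δ0) * |F.cc o i|))) :
    F.Th o x0 t * B + B ≤ 2 * a0 * Real.exp C * Real.exp (-(F.β / 2 * t)) +
      2 * (A0 * (1 + x0)) * Real.exp (2 * C) * b0 *
        Real.exp (-((lc - 8 * F.ε0 - 2 * F.δ0) * ((n : ℝ) - t))) := by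
  have h1 := F.one_le_Θmin
  have hT := F.k1_Th h.1 hx t
  have p1 := F.prod_a ha h t
  have p2 := F.prod_c_back n hs ht
  have p3 := ((hA.2 o h x0 (by linarith)).2 n hs).1 t ht
  rw [F.k1_θ_pow, neg_mul] at p1
  have hP : 0 ≤ ∏ i ∈ Finset.range t, ((1 + 2 * F.δ0) * F.ca o i) :=
    Finset.prod_nonneg fun i _ => mul_nonneg (by linarith [F.δ0_pos]) (norm_nonneg _)
  generalize ∏ i ∈ Finset.range t, ((1 + 2 * F.δ0) * F.ca o i) = P at *
  generalize ∏ i ∈ Finset.Ico t n, ((1 - F.δ0) * |F.cc o i|) = Q at *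
  generalize F.Th o x0 t = T at *
  have hT0 : 0 < T := by linarith
  have hE : 0 < Real.exp (-(2 * C)) * Real.exp ((lc - 2 * F.ε0 - 2 * F.δ0) * ((n : ℝ) - t)) := by
    positivity
  have hQ : 0 < Q := hE.trans_le p2
  have hB0 : 0 ≤ B := hB ▸ le_max_of_le_right (div_nonneg hb0 hQ.le)
  have e1 : T * B ≤ a0 * P + T * (b0 / Q) := by
    rw [hB, mul_max_of_nonneg _ _ hT0.le, mul_div_cancel₀ _ hT0.ne']
    exact max_le_add_of_nonneg (mul_nonneg ha0 hP) (mul_nonneg hT0.le (div_nonneg hb0 hQ.le))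
  have e2 : a0 * P ≤ a0 * (Real.exp C * Real.exp (-(F.β / 2 * t))) :=
    mul_le_mul_of_nonneg_left p1 ha0
  have e3 : b0 / Q ≤ b0 / (Real.exp (-(2 * C)) *
      Real.exp ((lc - 2 * F.ε0 - 2 * F.δ0) * ((n : ℝ) - t))) :=
    div_le_div_of_nonneg_left hb0 hE p2
  have e4 : T * (b0 / Q) ≤ A0 * (1 + x0) * Real.exp (6 * F.ε0 * ((n : ℝ) - t)) *
      (b0 / (Real.exp (-(2 * C)) * Real.exp ((lc - 2 * F.ε0 - 2 * F.δ0) * ((n : ℝ) - t)))) :=
    mul_le_mul p3 e3 (div_nonneg hb0 hQ.le) (hT0.le.trans p3)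
  have e5 : Real.exp (6 * F.ε0 * ((n : ℝ) - t)) /
      (Real.exp (-(2 * C)) * Real.exp ((lc - 2 * F.ε0 - 2 * F.δ0) * ((n : ℝ) - t))) =
      Real.exp (2 * C) * Real.exp (-((lc - 8 * F.ε0 - 2 * F.δ0) * ((n : ℝ) - t))) := by
    rw [← Real.exp_add, ← Real.exp_add, ← Real.exp_sub]
    congr 1
    ring
  have e6 : A0 * (1 + x0) * Real.exp (6 * F.ε0 * ((n : ℝ) - t)) *
      (b0 / (Real.exp (-(2 * C)) * Real.exp ((lc - 2 * F.ε0 - 2 * F.δ0) * ((n : ℝ) - t)))) =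
      A0 * (1 + x0) * b0 * (Real.exp (6 * F.ε0 * ((n : ℝ) - t)) /
      (Real.exp (-(2 * C)) * Real.exp ((lc - 2 * F.ε0 - 2 * F.δ0) * ((n : ℝ) - t)))) := by
    ring
  rw [e6, e5] at e4
  have e7 : B ≤ T * B := le_mul_of_one_le_left hB0 (by linarith)
  linarith

theorem segment_boxes {ls lc : ℝ} (ha : F.AdmP ls lc) (hl : F.β / 256 ≤ lc) (C : ℝ) :
    ∃ Θ b0 Cc : ℝ, 1 ≤ Θ ∧ 0 < b0 ∧ ∀ t1 : ℕ, ∃ N1 : ℕ, t1 < N1 ∧ ∀ n ≥ N1, ∀ o,
      F.Good F.ε0 ls lc C o → F.Good F.ε0 ls lc C (fun i => o (i + (n : ℕ))) →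
      ∃ A B : ℕ → ℝ, (∀ t, 0 ≤ A t) ∧ (∀ t, 0 ≤ B t) ∧ A 0 = 2 * Θ * b0 ∧ B 0 = b0 / 4 ∧
        A n ≤ Θ * b0 ∧ B n = b0 ∧ A t1 + B t1 ≤ Cc * F.θ0 ^ t1 ∧
        ∀ t < n, ∀ d : ℂ, |d.re| ≤ A t → |d.im| ≤ B t →
          |(co (o ((t : ℤ) + 1)).1 (o ((t : ℤ) + 1)).2
              (F.f ((o t).1 + d * (o t).2))).re| ≤ A (t + 1) ∧
          |(co (o ((t : ℤ) + 1)).1 (o ((t : ℤ) + 1)).2
              (F.f ((o t).1 + d * (o t).2))).im - F.cc o t * d.im| + B (t + 1) ≤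
            |F.cc o t| * B t := by
  obtain ⟨A0, hA⟩ := F.exists_ThBd ha C
  have hA1 := hA.1
  have hm := F.one_le_Θmin
  obtain ⟨Θ, hΘ1, hΘ2⟩ : ∃ Θ, 2 * A0 ≤ Θ ∧ F.Θmin ≤ Θ :=
    ⟨max (2 * A0) F.Θmin, le_max_left _ _, le_max_right _ _⟩
  have hΘ : 0 < Θ := by linarith
  have hx : F.Θmin ≤ 8 * Θ := by linarith
  have hT0 : 0 < A0 * (1 + 8 * Θ) := by positivity
  obtain ⟨s, hs0, hs1, hs2⟩ := F.k1_radius hT0
  have hK : 0 < 4 * Θ * Real.exp C + 2 * (A0 * (1 + 8 * Θ)) * Real.exp (2 * C) := by positivity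
  obtain ⟨b0, hb0, hb1⟩ : ∃ b0, 0 < b0 ∧
      (4 * Θ * Real.exp C + 2 * (A0 * (1 + 8 * Θ)) * Real.exp (2 * C)) * b0 = s :=
    ⟨_, div_pos hs0 hK, mul_div_cancel₀ _ hK.ne'⟩
  have hβ := F.β_pos
  have hε := F.ε0_pos
  have hε' := F.k1_ε_le
  have hδ := F.δ0_pos
  have hδ' := F.k1_δ_le'
  have hδ4 := F.k1_δ_le
  have hκ : 0 < lc - 8 * F.ε0 - 2 * F.δ0 := by linarith
  have hκ1 : 0 < lc - 2 * F.ε0 - 2 * F.δ0 := by linarith
  refine ⟨Θ, b0, s, by linarith, hb0, fun t1 => ?_⟩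
  obtain ⟨N, hN⟩ := eventually_atTop.1 ((k1_ev hκ1 one_pos (4 * Real.exp (2 * C))).and
    ((k1_ev (half_pos hβ) one_pos (2 * Θ * Real.exp C)).and
      ((k1_ev (half_pos hβ) one_pos (8 * Θ)).and
        (k1_ev hκ (Real.exp_pos (-(F.β / 2 * t1)))
          (Real.exp ((lc - 8 * F.ε0 - 2 * F.δ0) * t1))))))
  refine ⟨max N (t1 + 1), lt_max_of_lt_right (Nat.lt_succ_self _), fun n hn o h hs => ?_⟩
  obtain ⟨n1, n2, n3, n4⟩ := hN n (le_of_max_le_left hn)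
  have ht1 : t1 ≤ n := (Nat.le_succ _).trans (le_of_max_le_right hn)
  obtain ⟨B, hB⟩ : ∃ B : ℕ → ℝ, ∀ t, B t = max (2 * Θ * b0 *
      (∏ i ∈ Finset.range t, ((1 + 2 * F.δ0) * F.ca o i)) / F.Th o (8 * Θ) t)
      (b0 / ∏ i ∈ Finset.Ico t n, ((1 - F.δ0) * |F.cc o i|)) := ⟨_, fun _ => rfl⟩
  have hk : ∀ i : ℕ, 0 < (1 - F.δ0) * |F.cc o i| := fun i =>
    mul_pos (by linarith) (F.m_pos.trans_le (F.cc_bd h.1 i).1)
  have hQ : ∀ t, 0 < ∏ i ∈ Finset.Ico t n, ((1 - F.δ0) * |F.cc o i|) := fun t =>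
    Finset.prod_pos fun i _ => hk i
  have hP : ∀ t, 0 ≤ ∏ i ∈ Finset.range t, ((1 + 2 * F.δ0) * F.ca o i) := fun t =>
    Finset.prod_nonneg fun i _ => mul_nonneg (by linarith) (norm_nonneg _)
  have hT : ∀ t, 1 ≤ F.Th o (8 * Θ) t := fun t => hm.trans (F.k1_Th h.1 hx t)
  have hB0 : ∀ t, 0 ≤ B t := fun t => hB t ▸ le_max_of_le_right (div_nonneg hb0.le (hQ t).le)
  have ha0 : 0 ≤ 2 * Θ * b0 := by positivity
  have hsz : ∀ t ≤ n, ∀ u, Real.exp (-(F.β / 2 * t)) ≤ u →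
      Real.exp (-((lc - 8 * F.ε0 - 2 * F.δ0) * ((n : ℝ) - t))) ≤ u →
      F.Th o (8 * Θ) t * B t + B t ≤ s * u := fun t ht u u1 u2 => by
    have e1 := F.k1_size ha hA hx ha0 hb0.le h hs ht (hB t)
    have e2 := mul_le_mul_of_nonneg_left u1
      (by positivity : 0 ≤ 2 * (2 * Θ * b0) * Real.exp C)
    have e3 := mul_le_mul_of_nonneg_left u2
      (by positivity : 0 ≤ 2 * (A0 * (1 + 8 * Θ)) * Real.exp (2 * C) * b0)
    rw [← hb1]
    linarith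
  have hB00 : B 0 = b0 / 4 := by
    have e1 : 2 * Θ * b0 * (∏ i ∈ Finset.range 0, ((1 + 2 * F.δ0) * F.ca o i)) /
        F.Th o (8 * Θ) 0 = b0 / 4 := by
      rw [Finset.prod_range_zero, Th]
      field_simp
      ring
    rw [hB, e1]
    refine max_eq_left (div_le_div_of_nonneg_left hb0.le (by norm_num) ?_)
    rw [← Finset.range_eq_Ico]
    refine le_trans ?_ (F.prod_c_low h n)
    have e2 : Real.exp (2 * C) * Real.exp (-(lc - 2 * F.ε0 - 2 * F.δ0) * n) *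
        (Real.exp (-(2 * C)) * Real.exp ((lc - 2 * F.ε0 - 2 * F.δ0) * n)) = 1 := by
      rw [← Real.exp_add, ← Real.exp_add, ← Real.exp_add, Real.exp_eq_one_iff]
      ring
    have e3 := mul_le_mul_of_nonneg_right n1
      (by positivity : 0 ≤ Real.exp (-(2 * C)) * Real.exp ((lc - 2 * F.ε0 - 2 * F.δ0) * n))
    linarith
  have hBn : B n = b0 := by
    rw [hB, Finset.Ico_self, Finset.prod_empty, div_one]
    refine max_eq_right ((div_le_self (mul_nonneg ha0 (hP n)) (hT n)).trans ?_)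
    have e1 := F.prod_a ha h n
    rw [F.k1_θ_pow] at e1
    have e2 := mul_le_mul_of_nonneg_left e1 ha0
    have e3 := mul_le_mul_of_nonneg_left n2 hb0.le
    linarith
  refine ⟨fun t => F.Th o (8 * Θ) t * B t, B,
    fun t => mul_nonneg (by linarith [hT t]) (hB0 t), hB0, ?_, hB00, ?_, hBn, ?_,
    fun t ht d hr hi => ?_⟩
  · show F.Th o (8 * Θ) 0 * B 0 = _
    rw [hB00, Th]
    ring
  · show F.Th o (8 * Θ) n * B n ≤ _
    rw [hBn]
    refine mul_le_mul_of_nonneg_right ?_ hb0.le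
    have e1 := ((hA.2 o h (8 * Θ) (by linarith)).2 n hs).2
    rw [neg_div] at e1
    have e2 := mul_le_mul_of_nonneg_left n3 (by linarith : 0 ≤ A0)
    linarith
  · rw [F.k1_θ_pow, neg_mul]
    refine hsz t1 ht1 _ le_rfl (le_trans (le_of_eq ?_) n4)
    rw [← Real.exp_add]
    congr 1
    ring
  · have hnt : (0 : ℝ) ≤ (n : ℝ) - t := sub_nonneg.2 (Nat.cast_le.2 ht.le)
    have ht0 : (0 : ℝ) ≤ t := Nat.cast_nonneg t
    have hρ : 0 ≤ F.Th o (8 * Θ) t * B t + B t :=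
      add_nonneg (mul_nonneg (by linarith [hT t]) (hB0 t)) (hB0 t)
    have c1 : F.Th o (8 * Θ) t * B t + B t ≤ 1 - F.r0 := by
      have e1 := hsz t ht.le 1 (Real.exp_le_one_iff.2 (neg_nonpos.2 (by positivity)))
        (Real.exp_le_one_iff.2 (neg_nonpos.2 (mul_nonneg hκ.le hnt)))
      linarith
    have hα := F.α_pos
    have c2 : F.H * (F.Th o (8 * Θ) t * B t + B t) ^ F.α * (1 + F.Th o (8 * Θ) t) ≤
        F.δ0 * F.m := by
      rcases le_total (Real.exp (-(F.β / 2 * t)))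
        (Real.exp (-((lc - 8 * F.ε0 - 2 * F.δ0) * ((n : ℝ) - t)))) with hc | hc
      · refine F.k1_small hρ hs0.le (hsz t ht.le _ hc le_rfl) (hT t)
          (((hA.2 o h (8 * Θ) (by linarith)).2 n hs).1 t ht.le) ?_ hs2
        rw [← mul_assoc]
        refine mul_le_mul_of_nonneg_right ?_ hnt
        have e1 : F.α * (22 * F.β / 8192) ≤ F.α * (lc - 8 * F.ε0 - 2 * F.δ0) :=
          mul_le_mul_of_nonneg_left (by linarith) hα.le
        have e2 : F.ε0 = F.α * F.β / 8192 := rfl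
        linarith
      · refine F.k1_small hρ hs0.le (hsz t ht.le _ le_rfl hc) (hT t)
          ((hA.2 o h (8 * Θ) (by linarith)).1 t) ?_ hs2
        rw [← mul_assoc]
        refine mul_le_mul_of_nonneg_right ?_ ht0
        have e2 : F.ε0 = F.α * F.β / 8192 := rfl
        linarith
    obtain ⟨g1, g2⟩ := F.k1_chart h.1 t (by linarith [hT t]) (hB0 t) c1 c2 hr hi
    obtain ⟨s1, s2⟩ := F.k1_step h.1 hx t (mul_nonneg ha0 (hP t)) (div_nonneg hb0.le (hQ t).le)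
    have e1 : B (t + 1) = max ((1 + 2 * F.δ0) * F.ca o t * (2 * Θ * b0 *
        ∏ i ∈ Finset.range t, ((1 + 2 * F.δ0) * F.ca o i)) / F.Th o (8 * Θ) (t + 1))
        ((1 - F.δ0) * |F.cc o t| * (b0 / ∏ i ∈ Finset.Ico t n, ((1 - F.δ0) * |F.cc o i|))) := by
      rw [hB, Finset.prod_range_succ, Finset.prod_eq_prod_Ico_succ_bot ht]
      congr 1
      · ring
      · rw [← mul_div_assoc, mul_div_mul_left _ _ (hk t).ne']
    rw [← e1, ← hB] at s1 s2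
    exact ⟨g1.trans s1, by linarith⟩


end Dis

end Pool.Agent.Lib.MP_3fe454_an.PD
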