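import Pool.Agent.Lib.MP_3fe454_an.PD.Katok1
import Pool.Agent.Lib.MP_3fe454_an.PD.Shadow
import Pool.Agent.Lib.MP_3fe454_an.PD.Khat

/-!
Closing lemma for concatenated segments.
-/

set_option autoImplicit false

open Set Metric Filter Topology MeasureTheory Function
open scoped ComplexConjugate ENNReal

namespace Pool.Agent.Lib.MP_3fe454_an.PD

namespace Katok2

theorem eq_of_co {z e w d : ℂ} (he : ‖e‖ = 1) (h : co z e w = d) : w = z + d * e := by
  have h1 : conj e * e = 1 := by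
    rw [mul_comm, Complex.mul_conj, Complex.normSq_eq_norm_sq, he]
    simp
  rw [← h, co, mul_assoc, h1]
  ring

/-- the change of frame at a return -/
theorem frame {Θ b0 s : ℝ} (hΘ : 1 ≤ Θ) (hb : 0 < b0) (hs : |s| = 1) {z e z' e' d : ℂ}
    (he : ‖e‖ = 1) (he' : ‖e'‖ = 1) (hz : ‖z - z'‖ ≤ b0 / 4)
    (hee : ‖e' - (s : ℂ) * e‖ ≤ 1 / (4 * (Θ + 1))) (h1 : |d.re| ≤ Θ * b0) (h2 : |d.im| ≤ b0) :
    |(co z' e' (z + d * e)).re| ≤ 2 * Θ * b0 ∧
      |(co z' e' (z + d * e)).im - s * d.im| + b0 / 4 ≤ |s| * b0 := by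
  have h3 : e * conj e = 1 := by
    rw [Complex.mul_conj, Complex.normSq_eq_norm_sq, he]
    simp
  set r : ℂ := (z - z') * conj e' + d * e * conj (e' - (s : ℂ) * e) with hr
  have h4 : co z' e' (z + d * e) = (s : ℂ) * d + r := by
    rw [hr, co]
    simp only [map_sub, map_mul, Complex.conj_ofReal]
    linear_combination ((s : ℂ) * d) * h3
  have hd : ‖d‖ ≤ (Θ + 1) * b0 := by
    have := Complex.norm_le_abs_re_add_abs_im d
    linarith
  have hrn : ‖r‖ ≤ b0 / 2 := by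
    have a1 : ‖(z - z') * conj e'‖ ≤ b0 / 4 := by
      rw [norm_mul, Complex.norm_conj, he', mul_one]
      exact hz
    have a2 : ‖d * e * conj (e' - (s : ℂ) * e)‖ ≤ b0 / 4 := by
      rw [norm_mul, norm_mul, Complex.norm_conj, he, mul_one]
      calc ‖d‖ * ‖e' - (s : ℂ) * e‖ ≤ ((Θ + 1) * b0) * (1 / (4 * (Θ + 1))) :=
            mul_le_mul hd hee (norm_nonneg _) (by positivity)
        _ = b0 / 4 := by field_simp
    calc ‖r‖ ≤ _ := norm_add_le _ _
      _ ≤ b0 / 4 + b0 / 4 := add_le_add a1 a2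
      _ = b0 / 2 := by ring
  have hre : |r.re| ≤ b0 / 2 := (Complex.abs_re_le_norm r).trans hrn
  have him : |r.im| ≤ b0 / 2 := (Complex.abs_im_le_norm r).trans hrn
  rw [h4]
  constructor
  · have : ((s : ℂ) * d + r).re = s * d.re + r.re := by simp
    rw [this]
    have a3 : |s * d.re| ≤ Θ * b0 := by rw [abs_mul, hs, one_mul]; exact h1
    have a4 := abs_add_le (s * d.re) r.re
    nlinarith
  · have : ((s : ℂ) * d + r).im - s * d.im = r.im := by simp
    rw [this, hs]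
    linarith

theorem div_mod_of_lt {n i k : ℕ} (hk : k ≤ n) :
    (i * (n + 1) + k) / (n + 1) = i ∧ (i * (n + 1) + k) % (n + 1) = k := by
  constructor
  · rw [mul_comm, Nat.mul_add_div (Nat.succ_pos n), Nat.div_eq_of_lt (by omega), add_zero]
  · rw [mul_comm, Nat.mul_add_mod, Nat.mod_eq_of_lt (by omega)]

/-- shadowing for a doubly indexed family of maps -/
theorem shadow2 (n j : ℕ) (hj : 1 ≤ j) (Φ : ℕ → ℕ → ℂ → ℂ) (hΦ : ∀ i k, Continuous (Φ i k))
    (A B c : ℕ → ℕ → ℝ) (hA : ∀ i k, 0 ≤ A i k) (hB : ∀ i k, 0 ≤ B i k)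
    (hc : ∀ i k, c i k ≠ 0) (hAN : A j 0 = A 0 0) (hBN : B j 0 = B 0 0)
    (h : ∀ i, ∀ k < n, ∀ d : ℂ, |d.re| ≤ A i k → |d.im| ≤ B i k →
      |(Φ i k d).re| ≤ A i (k + 1) ∧
        |(Φ i k d).im - c i k * d.im| + B i (k + 1) ≤ |c i k| * B i k)
    (h' : ∀ i, ∀ d : ℂ, |d.re| ≤ A i n → |d.im| ≤ B i n →
      |(Φ i n d).re| ≤ A (i + 1) 0 ∧
        |(Φ i n d).im - c i n * d.im| + B (i + 1) 0 ≤ |c i n| * B i n) :
    ∃ d : ℕ → ℕ → ℂ, d j 0 = d 0 0 ∧
      (∀ i < j, ∀ k ≤ n, |(d i k).re| ≤ A i k ∧ |(d i k).im| ≤ B i k) ∧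
      (∀ i < j, ∀ k < n, Φ i k (d i k) = d i (k + 1)) ∧
      ∀ i < j, Φ i n (d i n) = d (i + 1) 0 := by
  have hdm : ∀ t : ℕ, t = t / (n + 1) * (n + 1) + t % (n + 1) := fun t =>
    (Nat.div_add_mod' t (n + 1)).symm
  obtain ⟨d, hd0, hd⟩ := shadow (j * (n + 1)) (Nat.mul_pos hj (Nat.succ_pos n))
    (fun t => Φ (t / (n + 1)) (t % (n + 1))) (fun t => hΦ _ _)
    (fun t => A (t / (n + 1)) (t % (n + 1))) (fun t => B (t / (n + 1)) (t % (n + 1)))
    (fun t => c (t / (n + 1)) (t % (n + 1))) (fun t => hA _ _) (fun t => hB _ _)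
    (fun t _ => hc _ _) (by simpa using hAN) (by simpa using hBN) (by
      intro t _ d h1 h2
      have hk : t % (n + 1) ≤ n := Nat.lt_succ_iff.mp (Nat.mod_lt _ (Nat.succ_pos n))
      have ht := hdm t
      rcases hk.lt_or_eq with hk' | hk'
      · have e1 := div_mod_of_lt (n := n) (i := t / (n + 1)) (k := t % (n + 1) + 1) hk'
        rw [← add_assoc, ← ht] at e1
        simp only [e1.1, e1.2]
        exact h _ _ hk' d h1 h2
      · have e1 := div_mod_of_lt (n := n) (i := t / (n + 1) + 1) (k := 0) (Nat.zero_le n)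
        have e2 : (t / (n + 1) + 1) * (n + 1) + 0 = t + 1 := by
          rw [add_mul]
          omega
        rw [e2] at e1
        simp only [e1.1, e1.2]
        simp only [hk'] at h1 h2 ⊢
        exact h' _ d h1 h2)
  have hlt : ∀ i < j, ∀ k ≤ n, i * (n + 1) + k < j * (n + 1) := by
    intro i hi k hk
    have : (i + 1) * (n + 1) ≤ j * (n + 1) := Nat.mul_le_mul_right _ hi
    rw [add_mul] at this
    omega
  refine ⟨fun i k => d (i * (n + 1) + k), by simpa using hd0, ?_, ?_, ?_⟩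
  · intro i hi k hk
    have e1 := div_mod_of_lt (n := n) (i := i) hk
    have := hd _ (hlt i hi k hk)
    simp only [e1.1, e1.2] at this
    exact ⟨this.1, this.2.1⟩
  · intro i hi k hk
    have e1 := div_mod_of_lt (n := n) (i := i) hk.le
    have := hd _ (hlt i hi k hk.le)
    simp only [e1.1, e1.2] at this
    exact this.2.2
  · intro i hi
    have e1 := div_mod_of_lt (n := n) (i := i) (le_refl n)
    have := hd _ (hlt i hi n le_rfl)
    simp only [e1.1, e1.2] at this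
    have e2 : (i + 1) * (n + 1) + 0 = i * (n + 1) + n + 1 := by
      rw [add_mul]
      omega
    show Φ i n (d (i * (n + 1) + n)) = d ((i + 1) * (n + 1) + 0)
    rw [e2]
    exact this.2.2

end Katok2

namespace Dis

variable (F : Dis)


theorem closing {ls lc : ℝ} (ha : F.AdmP ls lc) (hl : F.β / 256 ≤ lc) (C : ℝ) :
    ∃ ζ Cc : ℝ, 0 < ζ ∧ ∀ t1 : ℕ, ∃ N1 : ℕ, 1 ≤ N1 ∧ ∀ n ≥ N1, ∀ j : ℕ, 1 ≤ j → ∀ x : ℕ → ℂ,
      (∀ i, x i ∈ Prod.fst '' F.Khat ls lc C ∧ F.f^[n] (x i) ∈ Prod.fst '' F.Khat ls lc C ∧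
        ‖F.f^[n] (x i) - x (i + 1)‖ ≤ ζ) → x j = x 0 →
      ∃ p, F.f^[n * j] p = p ∧
        ∀ i < j, ‖F.f^[n * i + t1] p - F.f^[t1] (x i)‖ ≤ Cc * F.θ0 ^ t1 := by
  obtain ⟨Θ, b0, Cc, hΘ, hb0, hseg⟩ := F.segment_boxes ha hl C
  have hκ : 0 < 1 / (4 * (Θ + 1)) := by positivity
  obtain ⟨ζ, hζ, hdir⟩ := dir_unif (F.Khat_compact ls lc C)
    (fun z e e' h h' => F.Khat_uniq ha h h') hκ
  refine ⟨min ζ (b0 / 4), Cc, lt_min hζ (by positivity), fun t1 => ?_⟩
  obtain ⟨N1, hN1, hbox⟩ := hseg t1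
  refine ⟨N1, by omega, fun n hn j hj x hx hxj => ?_⟩
  have hO : ∀ z : ℂ, ∃ o : ℤ → ℂ × ℂ, z ∈ Prod.fst '' F.Khat ls lc C →
      F.Good F.ε0 ls lc C o ∧ (o 0).1 = z := by
    intro z
    by_cases hz : z ∈ Prod.fst '' F.Khat ls lc C
    · obtain ⟨p, ⟨o, ho, ho0⟩, hp⟩ := hz
      exact ⟨o, fun _ => ⟨ho, by rw [ho0, hp]⟩⟩
    · exact ⟨fun _ => 0, fun h => absurd h hz⟩
  choose O hO using hO
  obtain ⟨o, ho⟩ : ∃ o : ℕ → ℤ → ℂ × ℂ, ∀ i, o i = O (x i) := ⟨_, fun _ => rfl⟩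
  have hg : ∀ i, F.Good F.ε0 ls lc C (o i) := fun i => by
    rw [ho]
    exact (hO _ (hx i).1).1
  have h0 : ∀ i, (o i 0).1 = x i := fun i => by
    rw [ho]
    exact (hO _ (hx i).1).2
  have hoj : o j = o 0 := by rw [ho, ho, hxj]
  have hit : ∀ i (k : ℕ), (o i k).1 = F.f^[k] (x i) := fun i k => by
    have := F.orb_iter (hg i).1 0 k
    rwa [zero_add, h0] at this
  have hun : ∀ i t, ‖(o i t).2‖ = 1 := fun i t => ((hg i).1 t).2.1
  have hr : ∀ i, F.Good F.ε0 ls lc C (fun t => o i (t + (n : ℕ))) := fun i => by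
    refine F.good_return ha (hg i) n ?_
    obtain ⟨p, hp, hp1⟩ := (hx i).2.1
    refine ⟨p.2, ?_⟩
    rw [h0, ← hp1]
    exact hp
  choose A B hA hB hA0 hB0 hAn hBn hAB hstep using fun i => hbox n hn (o i) (hg i) (hr i)
  have hs : ∀ i, ∃ s : ℝ, |s| = 1 ∧ ‖(o (i + 1) 0).2 - (s : ℂ) * (o i n).2‖ ≤
      1 / (4 * (Θ + 1)) := by
    intro i
    have k1 : ((o i n).1, (o i n).2) ∈ F.Khat ls lc C := ⟨_, hr i, by simp⟩
    have k2 : ((o (i + 1) 0).1, (o (i + 1) 0).2) ∈ F.Khat ls lc C := ⟨_, hg (i + 1), rfl⟩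
    have k3 : ‖(o i n).1 - (o (i + 1) 0).1‖ ≤ ζ := by
      rw [hit, h0]
      exact (hx i).2.2.trans (min_le_left _ _)
    rcases hdir _ _ _ _ k1 k2 k3 with h | h
    · exact ⟨1, by simp, by simpa using h⟩
    · exact ⟨-1, by simp, by simpa using h⟩
  choose s hs1 hs2 using hs
  obtain ⟨d, hd0, hd1, hd2, hd3⟩ := Katok2.shadow2 n j hj
    (fun i k d => if k < n then
        co (o i ((k : ℤ) + 1)).1 (o i ((k : ℤ) + 1)).2 (F.f ((o i k).1 + d * (o i k).2))
      else co (o (i + 1) 0).1 (o (i + 1) 0).2 ((o i n).1 + d * (o i n).2))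
    (by
      intro i k
      by_cases hk : k < n
      · simp only [hk, if_true]
        exact (continuous_co _ _).comp (F.cf.comp (by fun_prop))
      · simp only [hk, if_false]
        exact (continuous_co _ _).comp (by fun_prop))
    A B (fun i k => if k < n then F.cc (o i) k else s i) hA hB
    (by
      intro i k
      by_cases hk : k < n
      · simp only [hk, if_true]
        have h1 := (F.cc_bd (hg i).1 k).1
        have h2 := F.m_pos
        intro h3
        rw [h3, abs_zero] at h1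
        linarith
      · simp only [hk, if_false]
        intro h3
        have h1 := hs1 i
        rw [h3, abs_zero] at h1
        exact zero_ne_one h1)
    (by rw [hA0, hA0]) (by rw [hB0, hB0])
    (by
      intro i k hk d h1 h2
      simp only [hk, if_true]
      exact hstep i k hk d h1 h2)
    (by
      intro i d h1 h2
      simp only [lt_irrefl, if_false]
      rw [hA0, hB0, hBn]
      rw [hBn] at h2
      refine Katok2.frame hΘ hb0 (hs1 i) (hun _ _) (hun _ _) ?_ (hs2 i) (h1.trans (hAn i)) h2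
      rw [hit, h0]
      exact (hx i).2.2.trans (min_le_right _ _))
  obtain ⟨w, hw⟩ : ∃ w : ℕ → ℕ → ℂ, ∀ i k, w i k = (o i k).1 + d i k * (o i k).2 :=
    ⟨_, fun _ _ => rfl⟩
  have hw1 : ∀ i < j, ∀ k < n, F.f (w i k) = w i (k + 1) := by
    intro i hi k hk
    have := hd2 i hi k hk
    simp only [hk, if_true] at this
    rw [hw, hw, Nat.cast_succ]
    exact Katok2.eq_of_co (hun _ _) this
  have hw2 : ∀ i < j, w i n = w (i + 1) 0 := by
    intro i hi
    have := hd3 i hi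
    simp only [lt_irrefl, if_false] at this
    rw [hw, hw, Nat.cast_zero]
    exact Katok2.eq_of_co (hun _ _) this
  have hw3 : ∀ i < j, ∀ k ≤ n, F.f^[k] (w i 0) = w i k := by
    intro i hi k
    induction k with
    | zero => intro _; rfl
    | succ k ih =>
      intro hk
      rw [Function.iterate_succ_apply', ih (by omega), hw1 i hi k (by omega)]
  have hw4 : ∀ i ≤ j, F.f^[n * i] (w 0 0) = w i 0 := by
    intro i
    induction i with
    | zero => intro _; rfl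
    | succ i ih =>
      intro hi
      rw [Nat.mul_succ, add_comm, Function.iterate_add_apply, ih (by omega),
        hw3 i (by omega) n le_rfl, hw2 i (by omega)]
  refine ⟨w 0 0, ?_, ?_⟩
  · rw [hw4 j le_rfl, hw, hw, hoj, hd0]
  · intro i hi
    have ht1 : t1 ≤ n := by omega
    rw [add_comm, Function.iterate_add_apply, hw4 i hi.le, hw3 i hi t1 ht1, hw, hit,
      add_sub_cancel_left, norm_mul, hun, mul_one]
    have h1 := hd1 i hi t1 ht1
    have h2 := Complex.norm_le_abs_re_add_abs_im (d i t1)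
    linarith [hAB i, h1.1, h1.2]


end Dis

end Pool.Agent.Lib.MP_3fe454_an.PD
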