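import Pool.Agent.Lib.MP_3fe454_an.PD.Basic2

/-!
The local stable sets as Lipschitz graphs.
-/

set_option autoImplicit false

open Set Metric Filter Topology MeasureTheory Function
open scoped ComplexConjugate ENNReal

namespace Pool.Agent.Lib.MP_3fe454_an.PD

theorem leaf1_mul_conj {e : ℂ} (he : ‖e‖ = 1) : e * conj e = 1 := by
  rw [Complex.mul_conj, Complex.normSq_eq_norm_sq, he]
  simp

theorem leaf1_norm_le (a b : ℝ) : ‖(a : ℂ) + (b : ℂ) * Complex.I‖ ≤ |a| + |b| := by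
  refine (norm_add_le _ _).trans ?_
  simp

theorem leaf1_pt_sub (z e : ℂ) (v u v' u' : ℝ) :
    pt z e v u - pt z e v' u' = (((v - v' : ℝ) : ℂ) + ((u - u' : ℝ) : ℂ) * Complex.I) * e := by
  unfold pt
  push_cast
  ring

theorem leaf1_pt_neg (z e : ℂ) (v u : ℝ) : pt z (-e) (-v) (-u) = pt z e v u := by
  unfold pt
  push_cast
  ring

theorem leaf1_re (a b : ℝ) : ((a : ℂ) + (b : ℂ) * Complex.I).re = a := by simp

theorem leaf1_im (a b : ℝ) : ((a : ℂ) + (b : ℂ) * Complex.I).im = b := by simp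

/-- change of frame for the coordinates -/
theorem leaf1_frame {x e z0 e0 : ℂ} (he : ‖e‖ = 1) (v u : ℝ) :
    ‖co x e (pt z0 e0 v u) - ((v : ℂ) + (u : ℂ) * Complex.I)‖ ≤
      ‖x - z0‖ + (|v| + |u|) * ‖e - e0‖ := by
  have h1 := leaf1_mul_conj he
  have h2 : co x e (pt z0 e0 v u) - ((v : ℂ) + (u : ℂ) * Complex.I) =
      -((x - z0) * conj e) - ((v : ℂ) + (u : ℂ) * Complex.I) * (e - e0) * conj e := by
    unfold co pt
    linear_combination ((v : ℂ) + (u : ℂ) * Complex.I) * h1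
  rw [h2]
  refine (norm_sub_le _ _).trans ?_
  rw [norm_neg, norm_mul, norm_mul, norm_mul, Complex.norm_conj, he, mul_one, mul_one]
  have h3 := leaf1_norm_le v u
  have h4 := norm_nonneg (e - e0)
  have h5 := mul_le_mul_of_nonneg_right h3 h4
  linarith

theorem leaf1_co_pt_pt (z0 e e0 : ℂ) (v u v' u' : ℝ) :
    co (pt z0 e0 v' u') e (pt z0 e0 v u) = co 0 e (pt 0 e0 (v - v') (u - u')) := by
  unfold co pt
  push_cast
  ring

namespace Blk

variable {F : Dis} (B : Blk F)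

theorem leaf1_η_le_r : 200 * B.η ≤ B.r := by
  have h1 := B.scale
  have h2 := B.one_le_C1
  have h3 := B.η_pos
  nlinarith

theorem leaf1_r_pos : 0 < B.r := by
  have h1 := B.leaf1_η_le_r
  have h3 := B.η_pos
  linarith

theorem P_compact : IsCompact B.P := B.cpt.image continuous_fst

theorem P_sub_Λ : B.P ⊆ F.Λ := by
  rintro _ ⟨p, hp, rfl⟩
  exact B.lam p hp

theorem self_mem_S (x : ℂ) : x ∈ B.S x := by
  intro t
  rw [sub_self, norm_zero]
  exact mul_nonneg B.leaf1_r_pos.le (pow_nonneg B.θ_pos.le t)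

theorem leaf1_tendsto : Tendsto (fun t : ℕ => B.r * B.θ ^ t) atTop (𝓝 0) := by
  have h := (tendsto_pow_atTop_nhds_zero_of_lt_one B.θ_pos.le B.θ_lt).const_mul B.r
  rwa [mul_zero] at h

theorem S_asy {x w : ℂ} (h : w ∈ B.S x) : F.Asy w x :=
  squeeze_zero (fun _ => norm_nonneg _) h B.leaf1_tendsto

theorem leaf1_near {x w : ℂ} (hx : x ∈ F.Λ) (h : ‖w - x‖ ≤ B.r) : ‖w‖ < 1 := by
  have h1 := F.Λ_norm hx
  have h2 := B.r_le
  have h3 := F.r0_lt
  have h4 : ‖w‖ ≤ ‖w - x‖ + ‖x‖ := by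
    have := norm_add_le (w - x) x
    rwa [sub_add_cancel] at this
  linarith

theorem S_norm {x w : ℂ} (hx : x ∈ F.Λ) (h : w ∈ B.S x) : ‖w‖ < 1 := by
  have h0 := h 0
  simp only [Function.iterate_zero, id_eq, pow_zero, mul_one] at h0
  exact B.leaf1_near hx h0

theorem near_norm {x w : ℂ} (hx : x ∈ F.Λ) (h : ‖w - x‖ ≤ B.r) : ‖w‖ < 1 :=
  B.leaf1_near hx h

theorem isClosed_S : IsClosed {p : ℂ × ℂ | p.2 ∈ B.S p.1} := by
  have h : {p : ℂ × ℂ | p.2 ∈ B.S p.1} =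
      ⋂ t : ℕ, {p : ℂ × ℂ | ‖F.f^[t] p.2 - F.f^[t] p.1‖ ≤ B.r * B.θ ^ t} := by
    ext p
    simp only [Set.mem_ofPred_eq, mem_iInter]
    rfl
  rw [h]
  refine isClosed_iInter fun t => isClosed_le ?_ continuous_const
  have hc := F.cf.iterate t
  exact ((hc.comp continuous_snd).sub (hc.comp continuous_fst)).norm

theorem adm_self {x e : ℂ} (h : (x, e) ∈ B.K) : B.Adm x e x e := by
  refine ⟨h, B.unit _ h, ?_, ?_⟩
  · rw [sub_self, norm_zero]; norm_num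
  · rw [sub_self, norm_zero]; exact B.η_pos.le

theorem sadm_self {x e : ℂ} (h : (x, e) ∈ B.K) : B.SAdm x e x e := by
  refine ⟨h, B.unit _ h, ?_, ?_⟩
  · rw [sub_self, norm_zero]; norm_num
  · rw [sub_self, norm_zero]; exact B.η_pos

theorem SAdm.adm {x e z0 e0 : ℂ} (h : B.SAdm x e z0 e0) : B.Adm x e z0 e0 :=
  ⟨h.1, h.2.1, h.2.2.1.le, h.2.2.2.le⟩

theorem Adm.neg {x e z0 e0 : ℂ} (h : B.Adm x e z0 e0) : B.Adm x (-e) z0 (-e0) := by
  refine ⟨B.neg _ _ h.1, ?_, ?_, h.2.2.2⟩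
  · rw [norm_neg]; exact h.2.1
  · have h1 : -e - -e0 = -(e - e0) := by ring
    rw [h1, norm_neg]; exact h.2.2.1

theorem leaf1_clamp_abs (v : ℝ) : |B.clamp v| ≤ 8 * B.η := by
  have h := B.η_pos
  unfold clamp
  rw [abs_le]
  refine ⟨le_max_left _ _, max_le (by linarith) (min_le_right _ _)⟩

theorem leaf1_clamp_eq {v : ℝ} (hv : |v| ≤ 8 * B.η) : B.clamp v = v := by
  unfold clamp
  rw [abs_le] at hv
  rw [min_eq_left hv.2, max_eq_right hv.1]

theorem leaf1_clamp_lip (v v' : ℝ) : |B.clamp v - B.clamp v'| ≤ |v - v'| := by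
  unfold clamp
  refine (abs_max_sub_max_le_max _ _ _ _).trans (max_le ?_ ?_)
  · rw [sub_self, abs_zero]; exact abs_nonneg _
  · refine (abs_min_sub_min_le_max _ _ _ _).trans (max_le le_rfl ?_)
    rw [sub_self, abs_zero]; exact abs_nonneg _

theorem leaf1_clamp_neg (v : ℝ) : B.clamp (-v) = -B.clamp v := by
  have h := B.η_pos
  unfold clamp
  rcases le_total v (8 * B.η) with h1 | h1 <;> rcases le_total (-(8 * B.η)) v with h2 | h2
  · rw [min_eq_left h1, max_eq_right h2, min_eq_left (by linarith), max_eq_right (by linarith)]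
  · rw [min_eq_left h1, max_eq_left h2, min_eq_right (by linarith), max_eq_right (by linarith),
      neg_neg]
  · rw [min_eq_right h1, max_eq_right (show -(8 * B.η) ≤ 8 * B.η by linarith),
      min_eq_left (by linarith), max_eq_left (by linarith)]
  · linarith

/-- the cone property in an admissible frame -/
theorem leaf1_cone {x e z0 e0 : ℂ} (h : B.Adm x e z0 e0) {v u v' u' : ℝ}
    (hw : pt z0 e0 v u ∈ B.S x) (hw' : pt z0 e0 v' u' ∈ B.S x) :
    |u - u'| ≤ 1 / 2 * |v - v'| := by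
  have hc := B.cone x e h.1 _ hw _ hw'
  rw [leaf1_co_pt_pt] at hc
  have hf := leaf1_frame (x := 0) (z0 := 0) (e0 := e0) (B.unit _ h.1) (v - v') (u - u')
  rw [sub_self, norm_zero, zero_add] at hf
  set c := co 0 e (pt 0 e0 (v - v') (u - u')) with hcdef
  set a := v - v'
  set b := u - u'
  have h8 := h.2.2.1
  have hab : 0 ≤ |a| + |b| := add_nonneg (abs_nonneg _) (abs_nonneg _)
  have hf' : ‖c - ((a : ℂ) + (b : ℂ) * Complex.I)‖ ≤ (|a| + |b|) * (1 / 8) :=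
    hf.trans (mul_le_mul_of_nonneg_left h8 hab)
  have hre := (Complex.abs_re_le_norm _).trans hf'
  have him := (Complex.abs_im_le_norm _).trans hf'
  rw [Complex.sub_re, leaf1_re] at hre
  rw [Complex.sub_im, leaf1_im] at him
  have hs : B.σ * |c.re| ≤ 1 / 8 * |c.re| := mul_le_mul_of_nonneg_right B.σ_le (abs_nonneg _)
  have h1 : |c.re| ≤ |a| + |c.re - a| := by
    have := abs_add_le a (c.re - a)
    rwa [add_sub_cancel] at this
  have h2 : |b| ≤ |c.im| + |c.im - b| := by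
    have := abs_sub c.im (c.im - b)
    rwa [sub_sub_cancel] at this
  have h3 := abs_nonneg a
  linarith

/-- the vertical segments meet the local stable set -/
theorem leaf1_exists {x e z0 e0 : ℂ} (h : B.Adm x e z0 e0) {v : ℝ} (hv : |v| ≤ 8 * B.η) :
    ∃ u, pt z0 e0 v u ∈ B.S x := by
  have hη := B.η_pos
  have he : ‖e‖ = 1 := B.unit _ h.1
  have hcont : Continuous fun u : ℝ => pt z0 e0 v u := by
    unfold pt
    fun_prop
  have hP : IsPreconnected ((fun u : ℝ => pt z0 e0 v u) '' Icc (-(16 * B.η)) (16 * B.η)) :=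
    isPreconnected_Icc.image _ hcont.continuousOn
  have hball : (fun u : ℝ => pt z0 e0 v u) '' Icc (-(16 * B.η)) (16 * B.η) ⊆
      closedBall x (40 * B.η) := by
    rintro _ ⟨u, hu, rfl⟩
    have hu' : |u| ≤ 16 * B.η := abs_le.2 hu
    rw [mem_closedBall, dist_eq_norm]
    have h1 : pt z0 e0 v u - x = ((v : ℂ) + (u : ℂ) * Complex.I) * e0 - (x - z0) := by
      unfold pt; ring
    show ‖pt z0 e0 v u - x‖ ≤ 40 * B.η
    rw [h1]
    refine (norm_sub_le _ _).trans ?_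
    rw [norm_mul, h.2.1, mul_one]
    have h2 := leaf1_norm_le v u
    have h3 := h.2.2.2
    linarith
  have key : ∀ u : ℝ, |u| ≤ 16 * B.η →
      |(co x e (pt z0 e0 v u)).re| ≤ 12 * B.η ∧ |(co x e (pt z0 e0 v u)).im - u| ≤ 4 * B.η := by
    intro u hu
    have hf := leaf1_frame (x := x) (z0 := z0) (e0 := e0) he v u
    have hab : 0 ≤ |v| + |u| := add_nonneg (abs_nonneg _) (abs_nonneg _)
    have h8 := mul_le_mul_of_nonneg_left h.2.2.1 hab
    have h3 := h.2.2.2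
    have hf' : ‖co x e (pt z0 e0 v u) - ((v : ℂ) + (u : ℂ) * Complex.I)‖ ≤ 4 * B.η := by
      linarith
    have hre := (Complex.abs_re_le_norm _).trans hf'
    have him := (Complex.abs_im_le_norm _).trans hf'
    rw [Complex.sub_re, leaf1_re] at hre
    rw [Complex.sub_im, leaf1_im] at him
    refine ⟨?_, him⟩
    have := abs_add_le v ((co x e (pt z0 e0 v u)).re - v)
    rw [add_sub_cancel] at this
    linarith
  have habs1 : |16 * B.η| ≤ 16 * B.η := by rw [abs_of_pos (by linarith)]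
  have habs2 : |-(16 * B.η)| ≤ 16 * B.η := by rw [abs_neg]; exact habs1
  obtain ⟨k1, k2⟩ := key _ habs1
  obtain ⟨k3, k4⟩ := key _ habs2
  have hσ1 : B.σ * |(co x e (pt z0 e0 v (16 * B.η))).re| ≤ 1 / 8 * (12 * B.η) :=
    mul_le_mul B.σ_le k1 (abs_nonneg _) (by norm_num)
  have hσ2 : B.σ * |(co x e (pt z0 e0 v (-(16 * B.η)))).re| ≤ 1 / 8 * (12 * B.η) :=
    mul_le_mul B.σ_le k3 (abs_nonneg _) (by norm_num)
  rw [abs_le] at k2 k4
  obtain ⟨w, ⟨u, -, rfl⟩, hw⟩ := B.shoot x e h.1 _ hP hball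
    (pt z0 e0 v (16 * B.η)) ⟨16 * B.η, ⟨by linarith, le_rfl⟩, rfl⟩
    (pt z0 e0 v (-(16 * B.η))) ⟨-(16 * B.η), ⟨le_rfl, by linarith⟩, rfl⟩
    (by linarith [k2.1]) (by linarith [k4.2])
  exact ⟨u, hw⟩

theorem leaf1_psi_eq {x e z0 e0 : ℂ} (h : B.Adm x e z0 e0) {v u : ℝ}
    (hu : pt z0 e0 (B.clamp v) u ∈ B.S x) : B.psi x z0 e0 v = u := by
  have hs : {u : ℝ | pt z0 e0 (B.clamp v) u ∈ B.S x} = {u} := by
    ext u'
    simp only [Set.mem_ofPred_eq, mem_singleton_iff]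
    constructor
    · intro hu'
      have h1 := B.leaf1_cone h hu' hu
      rw [sub_self, abs_zero, mul_zero] at h1
      exact sub_eq_zero.1 (abs_nonpos_iff.1 h1)
    · rintro rfl
      exact hu
  unfold psi
  rw [hs, csSup_singleton]

theorem leaf1_psi_mem {x e z0 e0 : ℂ} (h : B.Adm x e z0 e0) (v : ℝ) :
    pt z0 e0 (B.clamp v) (B.psi x z0 e0 v) ∈ B.S x := by
  obtain ⟨u, hu⟩ := B.leaf1_exists h (B.leaf1_clamp_abs v)
  rw [B.leaf1_psi_eq h hu]
  exact hu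

theorem lf_mem {x e z0 e0 : ℂ} (h : B.Adm x e z0 e0) {v : ℝ} (hv : |v| ≤ 8 * B.η) :
    B.lf x z0 e0 v ∈ B.S x := by
  have h1 := B.leaf1_psi_mem h v
  rw [B.leaf1_clamp_eq hv] at h1
  exact h1

theorem ht_zero {x e z0 e0 w : ℂ} (h : B.Adm x e z0 e0) (hw : w ∈ B.S x)
    (hv : |(co z0 e0 w).re| ≤ 8 * B.η) : B.ht x z0 e0 w = 0 := by
  unfold ht
  rw [B.leaf1_psi_eq h (u := (co z0 e0 w).im), sub_self]
  rw [B.leaf1_clamp_eq hv, pt_co h.2.1]
  exact hw

theorem eq_lf {x z0 e0 w : ℂ} (he : ‖e0‖ = 1) (h : B.ht x z0 e0 w = 0) :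
    w = B.lf x z0 e0 (co z0 e0 w).re := by
  unfold ht at h
  unfold lf
  rw [← sub_eq_zero.1 h, pt_co he]

theorem psi_lip {x e z0 e0 : ℂ} (h : B.Adm x e z0 e0) (v v' : ℝ) :
    |B.psi x z0 e0 v - B.psi x z0 e0 v'| ≤ 1 / 2 * |v - v'| := by
  have h1 := B.leaf1_cone h (B.leaf1_psi_mem h v) (B.leaf1_psi_mem h v')
  have h2 := B.leaf1_clamp_lip v v'
  linarith

theorem psi_lip_self {x e : ℂ} (h : (x, e) ∈ B.K) (v v' : ℝ) :
    |B.psi x x e v - B.psi x x e v'| ≤ B.σ * |v - v'| := by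
  have ha := B.adm_self h
  have hc := B.cone x e h _ (B.leaf1_psi_mem ha v) _ (B.leaf1_psi_mem ha v')
  rw [leaf1_co_pt_pt, co_pt (B.unit _ h), leaf1_re, leaf1_im] at hc
  exact hc.trans (mul_le_mul_of_nonneg_left (B.leaf1_clamp_lip v v') B.σ_pos.le)

theorem continuous_psi {x e z0 e0 : ℂ} (h : B.Adm x e z0 e0) : Continuous (B.psi x z0 e0) := by
  refine (LipschitzWith.of_dist_le_mul (K := 1) fun v v' => ?_).continuous
  rw [Real.dist_eq, Real.dist_eq, NNReal.coe_one, one_mul]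
  have h1 := B.psi_lip h v v'
  have h2 := abs_nonneg (v - v')
  linarith

theorem continuous_lf {x e z0 e0 : ℂ} (h : B.Adm x e z0 e0) : Continuous (B.lf x z0 e0) := by
  have hc := B.continuous_psi h
  unfold lf pt
  fun_prop

theorem continuous_ht {x e z0 e0 : ℂ} (h : B.Adm x e z0 e0) : Continuous (B.ht x z0 e0) := by
  have hc := B.continuous_psi h
  have hco := continuous_co z0 e0
  exact (Complex.continuous_im.comp hco).sub (hc.comp (Complex.continuous_re.comp hco))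

theorem co_lf {x z0 e0 : ℂ} (he : ‖e0‖ = 1) (v : ℝ) :
    (co z0 e0 (B.lf x z0 e0 v)).re = v ∧ B.ht x z0 e0 (B.lf x z0 e0 v) = 0 := by
  have h1 : co z0 e0 (B.lf x z0 e0 v) = (v : ℂ) + (B.psi x z0 e0 v : ℂ) * Complex.I :=
    co_pt he _ _
  refine ⟨by rw [h1, leaf1_re], ?_⟩
  unfold ht
  rw [h1, leaf1_re, leaf1_im, sub_self]

theorem leaf1_re_self {x e z0 e0 : ℂ} (h : B.Adm x e z0 e0) : |(co z0 e0 x).re| ≤ 8 * B.η := by
  have h1 := Complex.abs_re_le_norm (co z0 e0 x)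
  rw [norm_co h.2.1] at h1
  have h2 := h.2.2.2
  have h3 := B.η_pos
  linarith

theorem leaf1_ht_self {x e z0 e0 : ℂ} (h : B.Adm x e z0 e0) : B.ht x z0 e0 x = 0 :=
  B.ht_zero h (B.self_mem_S x) (B.leaf1_re_self h)

theorem lf_near {x e z0 e0 : ℂ} (h : B.Adm x e z0 e0) (v : ℝ) :
    ‖B.lf x z0 e0 v - x‖ ≤ 3 / 2 * |v - (co z0 e0 x).re| := by
  have hx := B.eq_lf h.2.1 (B.leaf1_ht_self h)
  set v0 := (co z0 e0 x).re
  have h1 : B.lf x z0 e0 v - x = B.lf x z0 e0 v - B.lf x z0 e0 v0 := by rw [← hx]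
  rw [h1]
  unfold lf
  rw [leaf1_pt_sub, norm_mul, h.2.1, mul_one]
  have h2 := leaf1_norm_le (v - v0) (B.psi x z0 e0 v - B.psi x z0 e0 v0)
  have h3 := B.psi_lip h v v0
  linarith

theorem sub_lf {x z0 e0 : ℂ} (he : ‖e0‖ = 1) (w : ℂ) :
    w - B.lf x z0 e0 (co z0 e0 w).re = (B.ht x z0 e0 w : ℂ) * Complex.I * e0 := by
  have h1 : w - B.lf x z0 e0 (co z0 e0 w).re =
      pt z0 e0 (co z0 e0 w).re (co z0 e0 w).im - B.lf x z0 e0 (co z0 e0 w).re := by
    rw [pt_co he]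
  rw [h1]
  unfold lf ht
  rw [leaf1_pt_sub, sub_self, Complex.ofReal_zero, zero_add]

theorem abs_ht_le {x e z0 e0 : ℂ} (h : B.Adm x e z0 e0) (w : ℂ) :
    |B.ht x z0 e0 w| ≤ 3 / 2 * ‖w - x‖ := by
  have h0 := B.leaf1_ht_self h
  have hs := co_sub z0 e0 w x
  have hn := norm_co (z := x) h.2.1 w
  have hre := Complex.abs_re_le_norm (co x e0 w)
  have him := Complex.abs_im_le_norm (co x e0 w)
  rw [hn, ← hs, Complex.sub_re] at hre
  rw [hn, ← hs, Complex.sub_im] at him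
  have h3 := B.psi_lip h (co z0 e0 w).re (co z0 e0 x).re
  have h4 : B.ht x z0 e0 w = ((co z0 e0 w).im - (co z0 e0 x).im) -
      (B.psi x z0 e0 (co z0 e0 w).re - B.psi x z0 e0 (co z0 e0 x).re) := by
    unfold ht at h0 ⊢
    linarith
  rw [h4]
  refine (abs_sub _ _).trans ?_
  linarith

theorem leaf1_psi_neg {x e z0 e0 : ℂ} (h : B.Adm x e z0 e0) (v : ℝ) :
    B.psi x z0 (-e0) (-v) = -B.psi x z0 e0 v := by
  refine B.leaf1_psi_eq (Adm.neg B h) ?_
  rw [B.leaf1_clamp_neg, leaf1_pt_neg]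
  exact B.leaf1_psi_mem h v

theorem ht_neg {x e z0 e0 : ℂ} (h : B.Adm x e z0 e0) (w : ℂ) :
    B.ht x z0 (-e0) w = -B.ht x z0 e0 w := by
  unfold ht
  rw [co_neg, Complex.neg_re, Complex.neg_im, B.leaf1_psi_neg h]
  ring

theorem lf_neg {x e z0 e0 : ℂ} (h : B.Adm x e z0 e0) (v : ℝ) :
    B.lf x z0 (-e0) v = B.lf x z0 e0 (-v) := by
  have h1 := B.leaf1_psi_neg h (-v)
  rw [neg_neg] at h1
  unfold lf
  rw [h1, ← leaf1_pt_neg z0 e0 (-v), neg_neg]

theorem arc_StC {x e z0 e0 : ℂ} (h : B.Adm x e z0 e0) {a b : ℝ} (ha : -(8 * B.η) ≤ a)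
    (hb : b ≤ 8 * B.η) : F.StC (B.lf x z0 e0 '' Icc a b) := by
  have hc := B.continuous_lf h
  have hS : B.lf x z0 e0 '' Icc a b ⊆ B.S x := by
    rintro _ ⟨v, hv, rfl⟩
    exact B.lf_mem h (abs_le.2 ⟨ha.trans hv.1, hv.2.trans hb⟩)
  have hx : x ∈ F.Λ := B.lam _ h.1
  refine ⟨isCompact_Icc.image hc, isPreconnected_Icc.image _ hc.continuousOn, ?_, ?_⟩
  · intro w hw
    exact mem_closedBall_zero_iff.2 (B.S_norm hx (hS hw)).le
  · intro ε hε
    obtain ⟨N, hN⟩ := eventually_atTop.1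
      (B.leaf1_tendsto.eventually (gt_mem_nhds (half_pos hε)))
    refine ⟨N, fun n hn w hw w' hw' => ?_⟩
    have h1 := hS hw n
    have h2 := hS hw' n
    have h3 := hN n hn
    have h4 : F.f^[n] w - F.f^[n] w' =
        (F.f^[n] w - F.f^[n] x) - (F.f^[n] w' - F.f^[n] x) := by ring
    rw [h4]
    refine (norm_sub_le _ _).trans ?_
    linarith

theorem lf_mem_Gam {x e z0 e0 : ℂ} (h : B.Adm x e z0 e0) {v : ℝ} (hv : |v| ≤ 8 * B.η) :
    B.lf x z0 e0 v ∈ F.Gam x := by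
  refine ⟨_, B.arc_StC h le_rfl le_rfl, ?_, ⟨v, abs_le.1 hv, rfl⟩⟩
  exact ⟨(co z0 e0 x).re, abs_le.1 (B.leaf1_re_self h),
    (B.eq_lf h.2.1 (B.leaf1_ht_self h)).symm⟩


end Blk

end Pool.Agent.Lib.MP_3fe454_an.PD
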