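import Pool.Agent.Lib.MP_3fe454_an.PD.Leaf1

/-!
Comparison of leaves, change of frame, continuity.
-/

set_option autoImplicit false

open Set Metric Filter Topology MeasureTheory Function
open scoped ComplexConjugate ENNReal

namespace Pool.Agent.Lib.MP_3fe454_an.PD

private theorem leaf2_co {X : Type} [TopologicalSpace X] {f g h : X → ℂ} (hf : Continuous f)
    (hg : Continuous g) (hh : Continuous h) : Continuous fun x => co (f x) (g x) (h x) :=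
  (hh.sub hf).mul (Complex.continuous_conj.comp hg)

private theorem leaf2_re {z e : ℂ} (he : ‖e‖ = 1) (w : ℂ) : |(co z e w).re| ≤ ‖w - z‖ :=
  (Complex.abs_re_le_norm _).trans (norm_co he w).le

/-- two close unit vectors -/
private theorem leaf2_om {e e' : ℂ} (he : ‖e'‖ = 1) {κ : ℝ} (h : ‖e - e'‖ ≤ κ) :
    1 - κ ≤ (e * conj e').re ∧ |(e * conj e').im| ≤ κ := by
  have h1 : e * conj e' - 1 = (e - e') * conj e' := by
    rw [sub_mul, Complex.mul_conj, Complex.normSq_eq_norm_sq, he]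
    simp
  have h2 : ‖e * conj e' - 1‖ ≤ κ := by
    rw [h1, norm_mul, Complex.norm_conj, he, mul_one]
    exact h
  have h3 := (Complex.abs_re_le_norm _).trans h2
  have h4 := (Complex.abs_im_le_norm _).trans h2
  rw [Complex.sub_re, Complex.one_re] at h3
  rw [Complex.sub_im, Complex.one_im, sub_zero] at h4
  exact ⟨by linarith [(abs_le.1 h3).1], h4⟩

private theorem leaf2_vert {y w e0 : ℂ} {t : ℝ} (h : w - y = (t : ℂ) * Complex.I * e0) (e : ℂ) :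
    (co y e w).re = -(t * (e0 * conj e).im) ∧ (co y e w).im = t * (e0 * conj e).re := by
  rw [co, h, mul_assoc, mul_assoc]
  generalize e0 * conj e = ω
  constructor <;> simp

namespace Blk

variable {F : Dis} (B : Blk F)

private theorem leaf2_abs (v : ℝ) : |B.clamp v| ≤ 8 * B.η := by
  have := B.η_pos
  exact abs_le.2 ⟨le_max_left _ _, max_le (by linarith) (min_le_right _ _)⟩

private theorem leaf2_psi (x z0 e0 : ℂ) (v : ℝ) :
    B.psi x z0 e0 (B.clamp v) = B.psi x z0 e0 v := by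
  have h := abs_le.1 (B.leaf2_abs v)
  have h1 : B.clamp (B.clamp v) = B.clamp v := by
    rw [clamp, min_eq_left h.2, max_eq_right h.1]
  rw [psi, psi, h1]

private theorem leaf2_near {x e z0 e0 : ℂ} (h : B.Adm x e z0 e0) {v c : ℝ} (hv : |v| ≤ c) :
    ‖B.lf x z0 e0 v - x‖ ≤ 3 / 2 * (c + B.η) := by
  have h1 := B.lf_near h v
  have h2 := (leaf2_re (z := z0) h.2.1 x).trans h.2.2.2
  have h3 := abs_sub v (co z0 e0 x).re
  linarith

private theorem leaf2_im {x z0 e0 : ℂ} (he : ‖e0‖ = 1) (v : ℝ) :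
    (co z0 e0 (B.lf x z0 e0 v)).im = B.psi x z0 e0 v := by
  have h := B.co_lf (x := x) (z0 := z0) he v
  have h1 := h.2
  rw [ht, h.1] at h1
  linarith

theorem psi_eq {x e x' e' z0 e0 : ℂ} (h : B.Adm x e z0 e0) (h' : B.Adm x' e' z0 e0) {v0 : ℝ}
    (hv : B.psi x z0 e0 v0 = B.psi x' z0 e0 v0) :
    F.Asy x' x ∧ ∀ v, B.psi x z0 e0 v = B.psi x' z0 e0 v := by
  have hy : B.lf x z0 e0 (B.clamp v0) = B.lf x' z0 e0 (B.clamp v0) := by
    rw [lf, lf, B.leaf2_psi, B.leaf2_psi, hv]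
  have y1 := B.lf_mem h (B.leaf2_abs v0)
  have y2 := B.lf_mem h' (B.leaf2_abs v0)
  have n1 := B.leaf2_near h (B.leaf2_abs v0)
  have n2 := B.leaf2_near h' (B.leaf2_abs v0)
  rw [← hy] at y2 n2
  refine ⟨F.Asy_trans (F.Asy_symm (B.S_asy y2)) (B.S_asy y1), fun v => ?_⟩
  have w2 := B.lf_mem h' (B.leaf2_abs v)
  have n3 := B.leaf2_near h' (B.leaf2_abs v)
  have w1 : B.lf x' z0 e0 (B.clamp v) ∈ B.S x := by
    intro t
    have c1 := B.contr _ _ h'.1 _ w2 _ y2 t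
    have c2 := B.contr _ _ h.1 _ y1 _ (B.self_mem_S x) t
    have c3 := norm_sub_le_norm_sub_add_norm_sub (F.f^[t] (B.lf x' z0 e0 (B.clamp v)))
      (F.f^[t] (B.lf x z0 e0 (B.clamp v0))) (F.f^[t] x)
    have c4 := norm_sub_le_norm_sub_add_norm_sub (B.lf x' z0 e0 (B.clamp v)) x'
      (B.lf x z0 e0 (B.clamp v0))
    rw [norm_sub_rev x'] at c4
    have c5 : 0 < B.θ ^ t := pow_pos B.θ_pos t
    have c6 := B.one_le_C1
    have c7 := B.η_pos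
    have c8 : B.C1 * (‖B.lf x' z0 e0 (B.clamp v) - B.lf x z0 e0 (B.clamp v0)‖ +
        ‖B.lf x z0 e0 (B.clamp v0) - x‖) ≤ B.C1 * (200 * B.η) :=
      mul_le_mul_of_nonneg_left (by linarith) (by linarith)
    have c9 := mul_le_mul_of_nonneg_right (c8.trans (by linarith [B.scale] : _ ≤ B.r)) c5.le
    linarith
  have e1 := (B.co_lf (x := x') (z0 := z0) h.2.1 (B.clamp v)).1
  have h1 := B.ht_zero h w1 (by rw [e1]; exact B.leaf2_abs v)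
  rw [ht, e1, B.leaf2_im h.2.1, B.leaf2_psi, B.leaf2_psi] at h1
  linarith

theorem psi_lt {x e x' e' z0 e0 : ℂ} (h : B.Adm x e z0 e0) (h' : B.Adm x' e' z0 e0) {v0 : ℝ}
    (hv : B.psi x z0 e0 v0 < B.psi x' z0 e0 v0) (v : ℝ) :
    B.psi x z0 e0 v < B.psi x' z0 e0 v := by
  by_contra hc
  obtain ⟨u, hu⟩ := intermediate_value_univ₂ (B.continuous_psi h) (B.continuous_psi h') hv.le
    (not_lt.1 hc)
  exact hv.ne ((B.psi_eq h h' hu).2 v0)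

theorem psi_unif {κ : ℝ} (hκ : 0 < κ) :
    ∃ ζ > 0, ∀ x e x' e' z0 e0 : ℂ, B.Adm x e z0 e0 → B.Adm x' e' z0 e0 → ‖x - x'‖ ≤ ζ →
      ∀ v, |B.psi x z0 e0 v - B.psi x' z0 e0 v| ≤ κ := by
  have hA : IsCompact (B.K ×ˢ B.K ×ˢ (closedBall (0 : ℂ) (1 + B.η) ×ˢ sphere (0 : ℂ) 1) ×ˢ
      (closedBall (0 : ℂ) 1 ×ˢ closedBall (0 : ℂ) 1)) :=
    B.cpt.prod (B.cpt.prod (((isCompact_closedBall _ _).prod (isCompact_sphere _ _)).prod
      ((isCompact_closedBall _ _).prod (isCompact_closedBall _ _))))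
  have c1 : Continuous fun a : (ℂ × ℂ) × (ℂ × ℂ) × (ℂ × ℂ) × ℂ × ℂ =>
      co a.2.2.1.1 a.2.2.1.2 a.2.2.2.1 := leaf2_co (by fun_prop) (by fun_prop) (by fun_prop)
  have c2 : Continuous fun a : (ℂ × ℂ) × (ℂ × ℂ) × (ℂ × ℂ) × ℂ × ℂ =>
      co a.2.2.1.1 a.2.2.1.2 a.2.2.2.2 := leaf2_co (by fun_prop) (by fun_prop) (by fun_prop)
  have hC : IsClosed {a : (ℂ × ℂ) × (ℂ × ℂ) × (ℂ × ℂ) × ℂ × ℂ |
      ‖a.1.2 - a.2.2.1.2‖ ≤ 1 / 8 ∧ ‖a.1.1 - a.2.2.1.1‖ ≤ B.η ∧ a.2.2.2.1 ∈ B.S a.1.1 ∧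
      a.2.2.2.2 ∈ B.S a.2.1.1 ∧ |(co a.2.2.1.1 a.2.2.1.2 a.2.2.2.1).re| ≤ 8 * B.η ∧
      (co a.2.2.1.1 a.2.2.1.2 a.2.2.2.2).re = (co a.2.2.1.1 a.2.2.1.2 a.2.2.2.1).re ∧
      κ ≤ |(co a.2.2.1.1 a.2.2.1.2 a.2.2.2.1).im - (co a.2.2.1.1 a.2.2.1.2 a.2.2.2.2).im|} :=
    (isClosed_le (by fun_prop) continuous_const).and
      ((isClosed_le (by fun_prop) continuous_const).and
      ((B.isClosed_S.preimage (f := fun a : (ℂ × ℂ) × (ℂ × ℂ) × (ℂ × ℂ) × ℂ × ℂ =>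
        (a.1.1, a.2.2.2.1)) (by fun_prop)).and
      ((B.isClosed_S.preimage (f := fun a : (ℂ × ℂ) × (ℂ × ℂ) × (ℂ × ℂ) × ℂ × ℂ =>
        (a.2.1.1, a.2.2.2.2)) (by fun_prop)).and
      ((isClosed_le (Complex.continuous_re.comp c1).abs continuous_const).and
      ((isClosed_eq (Complex.continuous_re.comp c2) (Complex.continuous_re.comp c1)).and
      (isClosed_le continuous_const
        ((Complex.continuous_im.comp c1).sub (Complex.continuous_im.comp c2)).abs))))))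
  obtain ⟨ζ, hζ, hz⟩ := (hA.inter_right hC).exists_forall_le'
    (f := fun a => ‖a.1.1 - a.2.1.1‖) (a := 0) (by fun_prop) (by
      rintro ⟨⟨x, e⟩, ⟨x', e'⟩, ⟨z0, e0⟩, w, w'⟩ ⟨⟨a1, -, ⟨-, a2⟩, -⟩, b1, b2, b3, b4, b5, b6, b7⟩
      refine norm_pos_iff.2 (sub_ne_zero.2 fun hx => ?_)
      dsimp only at *
      subst hx
      have h : B.Adm x e z0 e0 := ⟨a1, mem_sphere_zero_iff_norm.1 a2, b1, b2⟩
      have h1 := B.ht_zero h b3 b5
      have h2 := B.ht_zero h b4 (b6 ▸ b5)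
      rw [ht, b6] at h2
      rw [ht] at h1
      rw [show (co z0 e0 w).im - (co z0 e0 w').im = 0 by linarith, abs_zero] at b7
      linarith)
  refine ⟨ζ / 2, half_pos hζ, fun x e x' e' z0 e0 h h' hx v => ?_⟩
  by_contra hc
  have hΛ := B.lam _ h.1
  have w1 := B.lf_mem h (B.leaf2_abs v)
  have w2 := B.lf_mem h' (B.leaf2_abs v)
  have e1 := (B.co_lf (x := x) (z0 := z0) h.2.1 (B.clamp v)).1
  have e2 := (B.co_lf (x := x') (z0 := z0) h.2.1 (B.clamp v)).1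
  have h1 := hz ((x, e), (x', e'), (z0, e0), B.lf x z0 e0 (B.clamp v), B.lf x' z0 e0 (B.clamp v))
    ⟨⟨h.1, h'.1, ⟨?_, mem_sphere_zero_iff_norm.2 h.2.1⟩,
      mem_closedBall_zero_iff.2 (B.S_norm hΛ w1).le,
      mem_closedBall_zero_iff.2 (B.S_norm (B.lam _ h'.1) w2).le⟩, h.2.2.1, h.2.2.2, w1, w2,
      e1.symm ▸ B.leaf2_abs v, e2.trans e1.symm, ?_⟩
  · dsimp only at h1
    linarith
  · have h2 := mem_closedBall_zero_iff.1 (F.Λ_sub_Disc hΛ)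
    have h3 := norm_le_insert x z0
    have h4 := h.2.2.2
    exact mem_closedBall_zero_iff.2 (by linarith)
  · dsimp only
    rw [B.leaf2_im h.2.1, B.leaf2_im h.2.1, B.leaf2_psi, B.leaf2_psi]
    exact (not_le.1 hc).le

theorem ht_frame {x e z0 e0 z1 e1 w : ℂ} (h0 : B.Adm x e z0 e0) (h1 : B.Adm x e z1 e1)
    (hw : ‖w - x‖ ≤ B.η) (h : 0 < B.ht x z0 e0 w) : 0 < B.ht x z1 e1 w := by
  have hη := B.η_pos
  have a1 : |(co z0 e0 w).re| ≤ 2 * B.η := by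
    have b1 := leaf2_re (z := z0) h0.2.1 w
    have b2 := norm_sub_le_norm_sub_add_norm_sub w x z0
    have b3 := h0.2.2.2
    linarith
  have y1 := B.lf_mem h0 (v := (co z0 e0 w).re) (by linarith)
  have n1 := B.leaf2_near h0 a1
  have s1 := B.sub_lf (x := x) (z0 := z0) h0.2.1 w
  generalize B.lf x z0 e0 (co z0 e0 w).re = y at y1 n1 s1
  have a2 : |(co z1 e1 y).re| ≤ 8 * B.η := by
    have b1 := leaf2_re (z := z1) h1.2.1 y
    have b2 := norm_sub_le_norm_sub_add_norm_sub y x z1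
    have b3 := h1.2.2.2
    linarith
  have z1' := B.ht_zero h1 y1 a2
  have a3 : ‖e0 - e1‖ ≤ 1 / 4 := by
    have b1 := norm_sub_le_norm_sub_add_norm_sub e0 e e1
    rw [norm_sub_rev e0 e] at b1
    linarith [h0.2.2.1, h1.2.2.1]
  obtain ⟨o1, o2⟩ := leaf2_om h1.2.1 a3
  obtain ⟨v1, v2⟩ := leaf2_vert s1 e1
  rw [← co_sub z1, Complex.sub_re] at v1
  rw [← co_sub z1, Complex.sub_im] at v2
  have l1 := B.psi_lip h1 (co z1 e1 w).re (co z1 e1 y).re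
  rw [v1, abs_neg, abs_mul, abs_of_pos h] at l1
  have l2 := (abs_le.1 l1).2
  have l3 := mul_le_mul_of_nonneg_left o1 h.le
  have l4 := mul_le_mul_of_nonneg_left o2 h.le
  rw [ht] at z1'
  rw [ht]
  linarith

theorem up_of_ht {x e z0 e0 w : ℂ} (h : B.Adm x e z0 e0) (hv : |(co z0 e0 w).re| ≤ 4 * B.η)
    {κ : ℝ} (h1 : 0 < B.ht x z0 e0 w) (h2 : B.ht x z0 e0 w ≤ κ) : B.Up x e κ w := by
  have hη := B.η_pos
  have y1 := B.lf_mem h (v := (co z0 e0 w).re) (by linarith)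
  have n1 := B.leaf2_near h hv
  have s1 := B.sub_lf (x := x) (z0 := z0) h.2.1 w
  obtain ⟨o1, o2⟩ := leaf2_om (e := e0) (B.unit _ h.1) ((norm_sub_rev _ _).trans_le h.2.2.1)
  obtain ⟨v1, v2⟩ := leaf2_vert s1 e
  have l3 := mul_le_mul_of_nonneg_left o1 h1.le
  have l4 := mul_le_mul_of_nonneg_left o2 h1.le
  refine ⟨_, y1, by linarith, ?_, by rw [v2]; linarith, ?_⟩
  · rw [v1, v2, abs_neg, abs_mul, abs_of_pos h1]
    linarith
  · rw [s1, norm_mul, norm_mul, Complex.norm_I, h.2.1, Complex.norm_real, Real.norm_eq_abs,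
      abs_of_pos h1]
    linarith

theorem down_of_ht {x e z0 e0 w : ℂ} (h : B.Adm x e z0 e0) (hv : |(co z0 e0 w).re| ≤ 4 * B.η)
    {κ : ℝ} (h1 : B.ht x z0 e0 w < 0) (h2 : -κ ≤ B.ht x z0 e0 w) : B.Up x (-e) κ w := by
  refine B.up_of_ht h.neg ?_ ?_ ?_
  · rwa [co_neg, Complex.neg_re, abs_neg]
  · rw [B.ht_neg h]
    linarith
  · rw [B.ht_neg h]
    linarith

private theorem leaf2_dir {κ : ℝ} (hκ : 0 < κ) : ∃ ζ > 0, ∀ x e, (x, e) ∈ B.K → ∀ x' ∈ B.P,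
    ‖x' - x‖ ≤ ζ → ∃ e', (x', e') ∈ B.K ∧ ‖e' - e‖ ≤ κ := by
  obtain ⟨ζ, hζ, h⟩ := dir_unif B.cpt B.uniq hκ
  refine ⟨ζ, hζ, ?_⟩
  rintro x e hx _ ⟨⟨x', e'⟩, hx', rfl⟩ hd
  rcases h x e x' e' hx hx' ((norm_sub_rev _ _).trans_le hd) with h1 | h1
  · exact ⟨e', hx', h1⟩
  · refine ⟨-e', B.neg _ _ hx', ?_⟩
    rwa [← norm_neg, neg_sub, sub_neg_eq_add, add_comm]

theorem sadm_near {x e z0 e0 : ℂ} (h : B.SAdm x e z0 e0) :
    ∃ ζ > 0, ∀ x' ∈ B.P, ‖x' - x‖ < ζ → ∃ e', B.SAdm x' e' z0 e0 := by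
  obtain ⟨ζ, hζ, h1⟩ := B.leaf2_dir (half_pos (sub_pos.2 h.2.2.1))
  refine ⟨min ζ (B.η - ‖x - z0‖), lt_min hζ (sub_pos.2 h.2.2.2), fun x' hx' hd => ?_⟩
  obtain ⟨e', h2, h3⟩ := h1 x e h.1 x' hx' (hd.le.trans (min_le_left _ _))
  have h4 := hd.trans_le (min_le_right _ _)
  have h5 := norm_sub_le_norm_sub_add_norm_sub e' e e0
  have h6 := norm_sub_le_norm_sub_add_norm_sub x' x z0
  exact ⟨e', h2, h.2.1, by linarith [h.2.2.1], by linarith⟩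

theorem sadm_unif : ∃ ζ > 0, ∀ x e, (x, e) ∈ B.K → ∀ x' ∈ B.P, ‖x' - x‖ ≤ ζ →
    ∃ e', B.SAdm x' e' x e := by
  have hη := B.η_pos
  obtain ⟨ζ, hζ, h1⟩ := B.leaf2_dir (κ := 1 / 16) (by norm_num)
  refine ⟨min ζ (B.η / 2), lt_min hζ (half_pos hη), fun x e hx x' hx' hd => ?_⟩
  obtain ⟨e', h2, h3⟩ := h1 x e hx x' hx' (hd.trans (min_le_left _ _))
  have h4 := hd.trans (min_le_right _ _)
  exact ⟨e', h2, B.unit _ hx, by linarith, by linarith⟩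

/-- the points of the block admissible for a frame, with margins -/
def Box (z0 e0 : ℂ) (ρ : ℝ) : Set ℂ :=
  {x | ∃ e, (x, e) ∈ B.K ∧ ‖e - e0‖ ≤ 1 / 16 ∧ ‖x - z0‖ ≤ ρ}

theorem isClosed_Box (z0 e0 : ℂ) (ρ : ℝ) : IsClosed (B.Box z0 e0 ρ) := by
  have hC : IsClosed {p : ℂ × ℂ | ‖p.2 - e0‖ ≤ 1 / 16 ∧ ‖p.1 - z0‖ ≤ ρ} :=
    (isClosed_le (by fun_prop) continuous_const).and (isClosed_le (by fun_prop) continuous_const)
  have h := ((B.cpt.inter_right hC).image continuous_fst).isClosed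
  have e1 : B.Box z0 e0 ρ =
      Prod.fst '' (B.K ∩ {p : ℂ × ℂ | ‖p.2 - e0‖ ≤ 1 / 16 ∧ ‖p.1 - z0‖ ≤ ρ}) := by
    ext x
    constructor
    · rintro ⟨e, h1, h2⟩
      exact ⟨(x, e), ⟨h1, h2⟩, rfl⟩
    · rintro ⟨p, ⟨h1, h2⟩, rfl⟩
      exact ⟨p.2, h1, h2⟩
  rwa [e1]

theorem Box_sadm {z0 e0 : ℂ} (he : ‖e0‖ = 1) {ρ : ℝ} (hρ : ρ < B.η) {x : ℂ}
    (hx : x ∈ B.Box z0 e0 ρ) : ∃ e, B.SAdm x e z0 e0 := by
  obtain ⟨e, h1, h2, h3⟩ := hx
  exact ⟨e, h1, he, by linarith, by linarith⟩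

theorem continuousOn_lf {z0 e0 : ℂ} (he : ‖e0‖ = 1) {ρ : ℝ} (hρ : ρ < B.η) :
    ContinuousOn (fun p : ℂ × ℝ => B.lf p.1 z0 e0 p.2) (B.Box z0 e0 ρ ×ˢ univ) := by
  have h : ContinuousOn (fun p : ℂ × ℝ => B.psi p.1 z0 e0 p.2) (B.Box z0 e0 ρ ×ˢ univ) := by
    refine Metric.continuousOn_iff.2 fun b hb ε hε => ?_
    obtain ⟨ζ, hζ, h1⟩ := B.psi_unif (half_pos hε)
    refine ⟨min ζ ε, lt_min hζ hε, fun a ha hd => ?_⟩
    obtain ⟨e, h2⟩ := B.Box_sadm he hρ ha.1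
    obtain ⟨e', h3⟩ := B.Box_sadm he hρ hb.1
    rw [Prod.dist_eq, max_lt_iff, lt_min_iff, lt_min_iff, dist_eq_norm, Real.dist_eq] at hd
    have h4 := h1 _ _ _ _ _ _ h2.adm h3.adm hd.1.1.le a.2
    have h5 := B.psi_lip h3.adm a.2 b.2
    have h6 := abs_sub_le (B.psi a.1 z0 e0 a.2) (B.psi b.1 z0 e0 a.2) (B.psi b.1 z0 e0 b.2)
    rw [Real.dist_eq]
    linarith [hd.2.2]
  exact continuousOn_const.add
    (((Complex.continuous_ofReal.comp continuous_snd).continuousOn.add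
      ((Complex.continuous_ofReal.comp_continuousOn h).mul continuousOn_const)).mul
      continuousOn_const)

/-- points of a box whose upper half leaf lies in Z -/
def HZ (Z : Set ℂ) (z0 e0 : ℂ) : Set ℂ :=
  {x | x ∈ B.Box z0 e0 (B.η / 2) ∧ ∀ v ∈ Icc (co z0 e0 x).re (2 * B.η), B.lf x z0 e0 v ∈ Z}

theorem isClosed_HZ {Z : Set ℂ} (hZ : IsClosed Z) {z0 e0 : ℂ} (he : ‖e0‖ = 1) :
    IsClosed (B.HZ Z z0 e0) := by
  have hη := B.η_pos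
  have e1 : B.HZ Z z0 e0 = ⋂ v ∈ Iic (2 * B.η), B.Box z0 e0 (B.η / 2) ∩
      (fun x => B.lf x z0 e0 (max v (co z0 e0 x).re)) ⁻¹' Z := by
    ext x
    simp only [mem_iInter, mem_inter_iff, mem_preimage, mem_Iic]
    constructor
    · rintro ⟨h1, h2⟩ v hv
      refine ⟨h1, h2 _ ⟨le_max_right _ _, max_le hv ?_⟩⟩
      obtain ⟨e, -, -, h3⟩ := h1
      have h4 := (abs_le.1 ((leaf2_re (z := z0) he x).trans h3)).2
      linarith
    · intro h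
      refine ⟨(h _ le_rfl).1, fun v hv => ?_⟩
      have h1 := (h v hv.2).2
      rwa [max_eq_left hv.1] at h1
  rw [e1]
  refine isClosed_biInter fun v _ => ContinuousOn.preimage_isClosed_of_isClosed ?_
    (B.isClosed_Box _ _ _) hZ
  exact (B.continuousOn_lf he (half_lt_self hη)).comp
    (f := fun x => (x, max v (co z0 e0 x).re))
    (continuous_id.prodMk (continuous_const.max
      (Complex.continuous_re.comp (continuous_co z0 e0)))).continuousOn fun x hx => ⟨hx, trivial⟩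

theorem Box_neg (z0 e0 : ℂ) (ρ : ℝ) : B.Box z0 (-e0) ρ = B.Box z0 e0 ρ := by
  ext x
  constructor
  · rintro ⟨e, h1, h2, h3⟩
    refine ⟨-e, B.neg _ _ h1, ?_, h3⟩
    rwa [← norm_neg, neg_sub', neg_neg]
  · rintro ⟨e, h1, h2, h3⟩
    refine ⟨-e, B.neg _ _ h1, ?_, h3⟩
    rwa [← neg_sub', norm_neg]

theorem SAdm.neg {x e z0 e0 : ℂ} (h : B.SAdm x e z0 e0) : B.SAdm x (-e) z0 (-e0) := by
  refine ⟨B.neg _ _ h.1, by rw [norm_neg, h.2.1], ?_, h.2.2.2⟩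
  rw [← neg_sub', norm_neg]
  exact h.2.2.1

theorem Box_cover : ∃ T : Set (ℂ × ℂ), T.Countable ∧ (∀ p ∈ T, ‖p.2‖ = 1) ∧
    ∀ x e, (x, e) ∈ B.K → ∀ κ > 0, ∃ p ∈ T, ‖e - p.2‖ ≤ 1 / 16 ∧ ‖x - p.1‖ < κ := by
  obtain ⟨D, hD1, hD2⟩ := TopologicalSpace.exists_countable_dense ℂ
  obtain ⟨t, ht1, ht2, ht3⟩ := finite_cover_balls_of_compact (isCompact_sphere (0 : ℂ) 1)
    (e := 1 / 16) (by norm_num)
  refine ⟨D ×ˢ t, hD1.prod ht2.countable, fun p hp => mem_sphere_zero_iff_norm.1 (ht1 hp.2),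
    fun x e hx κ hκ => ?_⟩
  obtain ⟨z, hz1, hz2⟩ := hD2.exists_dist_lt x hκ
  obtain ⟨e', he1, he2⟩ := mem_iUnion₂.1 (ht3 (mem_sphere_zero_iff_norm.2 (B.unit _ hx)))
  exact ⟨(z, e'), ⟨hz1, he1⟩, (mem_ball_iff_norm.1 he2).le, by rwa [← dist_eq_norm]⟩

end Blk

end Pool.Agent.Lib.MP_3fe454_an.PD
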