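import Pool.Agent.Lib.MP_3fe454_an.PD.KB
import Pool.Agent.Lib.MP_3fe454_an.PD.Meas1
import Pool.Agent.Lib.MP_3fe454_an.PD.Meas2

/-!
Almost every point carries a regular orbit.
-/

set_option autoImplicit false

open Set Metric Filter Topology MeasureTheory Function
open scoped ComplexConjugate ENNReal

namespace Pool.Agent.Lib.MP_3fe454_an.PD

namespace Dis

variable (F : Dis)

/-- the projectivized derivative -/
private noncomputable def liftT (p : ℂ × ℂ) : ℂ × ℂ :=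
  (F.f p.1, (max ‖F.D p.1 p.2‖ F.m)⁻¹ • F.D p.1 p.2)

/-- unit vectors over the attractor -/
private def liftY : Set (ℂ × ℂ) := F.Λ ×ˢ sphere (0 : ℂ) 1

private theorem cont_D : Continuous fun p : ℂ × ℂ => F.D p.1 p.2 :=
  (F.cD.comp continuous_fst).clm_apply continuous_snd

private theorem liftT_cont : Continuous F.liftT := by
  refine (F.cf.comp continuous_fst).prodMk ?_
  refine Continuous.smul (Continuous.inv₀ (F.cont_D.norm.max continuous_const) ?_) F.cont_D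
  intro p
  exact (lt_of_lt_of_le F.m_pos (le_max_right _ _)).ne'

private theorem liftY_compact : IsCompact F.liftY :=
  F.Λ_compact.prod (isCompact_sphere 0 1)

private theorem liftY_meas : MeasurableSet F.liftY :=
  F.liftY_compact.isClosed.measurableSet

private theorem mem_liftY {p : ℂ × ℂ} : p ∈ F.liftY ↔ p.1 ∈ F.Λ ∧ ‖p.2‖ = 1 := by
  simp [liftY]

private theorem m_le_D {p : ℂ × ℂ} (hp : p ∈ F.liftY) : F.m ≤ ‖F.D p.1 p.2‖ := by
  obtain ⟨h1, h2⟩ := F.mem_liftY.1 hp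
  have := F.low p.1 (F.Λ_sub_Disc h1) p.2
  rwa [h2, mul_one] at this

private theorem D_pos {p : ℂ × ℂ} (hp : p ∈ F.liftY) : 0 < ‖F.D p.1 p.2‖ :=
  lt_of_lt_of_le F.m_pos (F.m_le_D hp)

private theorem liftT_snd {p : ℂ × ℂ} (hp : p ∈ F.liftY) :
    (F.liftT p).2 = ‖F.D p.1 p.2‖⁻¹ • F.D p.1 p.2 := by
  simp only [liftT]
  rw [max_eq_left (F.m_le_D hp)]

private theorem liftT_maps {p : ℂ × ℂ} (hp : p ∈ F.liftY) : F.liftT p ∈ F.liftY := by
  refine F.mem_liftY.2 ⟨F.f_mem_Λ (F.mem_liftY.1 hp).1, ?_⟩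
  rw [F.liftT_snd hp, norm_smul, norm_inv, norm_norm, inv_mul_cancel₀ (F.D_pos hp).ne']

private theorem liftT_dir {p : ℂ × ℂ} (hp : p ∈ F.liftY) :
    F.D p.1 p.2 = ((‖F.D p.1 p.2‖ : ℝ) : ℂ) * (F.liftT p).2 := by
  rw [F.liftT_snd hp, ← Complex.real_smul, smul_smul, mul_inv_cancel₀ (F.D_pos hp).ne', one_smul]

private theorem D_inj {z : ℂ} (hz : z ∈ F.Λ) : Injective (F.D z) := by
  intro v w hvw
  have h1 := F.low z (F.Λ_sub_Disc hz) (v - w)
  rw [map_sub, hvw, sub_self, norm_zero] at h1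
  have h2 : ‖v - w‖ ≤ 0 := by
    by_contra hc
    have := mul_pos F.m_pos (not_le.1 hc)
    linarith
  exact sub_eq_zero.1 (norm_le_zero_iff.1 h2)

private theorem liftT_inj : InjOn F.liftT F.liftY := by
  rintro ⟨z, e⟩ hp ⟨z', e'⟩ hq hpq
  obtain ⟨h1, h2⟩ := F.mem_liftY.1 hp
  obtain ⟨h3, h4⟩ := F.mem_liftY.1 hq
  have hz : z = z' := by
    have h5 : F.f z = F.f z' := congrArg Prod.fst hpq
    have h6 := F.gf z (F.Λ_sub_Disc h1)
    rw [h5, F.gf z' (F.Λ_sub_Disc h3)] at h6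
    exact h6.symm
  subst hz
  have h5 : (F.liftT (z, e)).2 = (F.liftT (z, e')).2 := congrArg Prod.snd hpq
  rw [F.liftT_snd hp, F.liftT_snd hq, ← map_smul, ← map_smul] at h5
  have h6 := F.D_inj h1 h5
  have h7 := congrArg norm h6
  simp only [norm_smul, norm_inv, norm_norm] at h7
  simp only at h2 h4
  rw [h2, h4, mul_one, mul_one] at h7
  simp only at h6
  rw [h7] at h6
  have h8 : (‖F.D z e'‖⁻¹ : ℝ) ≠ 0 := inv_ne_zero (F.D_pos hq).ne'
  rw [smul_right_injective ℂ h8 h6]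

private theorem liftT_surj {q : ℂ × ℂ} (hq : q ∈ F.liftY) : ∃ p ∈ F.liftY, F.liftT p = q := by
  obtain ⟨w, e'⟩ := q
  obtain ⟨h1, h2⟩ := F.mem_liftY.1 hq
  simp only at h1 h2
  have hz := F.g_mem_Λ h1
  have hs : Surjective (F.D (F.g w)) :=
    (LinearMap.injective_iff_surjective (f := (F.D (F.g w) : ℂ →ₗ[ℝ] ℂ))).1 (F.D_inj hz)
  obtain ⟨v, hv⟩ := hs e'
  have hv0 : v ≠ 0 := by
    rintro rfl
    rw [map_zero] at hv
    rw [← hv, norm_zero] at h2
    exact zero_ne_one h2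
  have hn : 0 < ‖v‖ := norm_pos_iff.2 hv0
  have hp : (F.g w, ‖v‖⁻¹ • v) ∈ F.liftY := by
    refine F.mem_liftY.2 ⟨hz, ?_⟩
    simp only
    rw [norm_smul, norm_inv, norm_norm, inv_mul_cancel₀ hn.ne']
  refine ⟨_, hp, Prod.ext (F.f_g h1) ?_⟩
  rw [F.liftT_snd hp]
  simp only
  rw [map_smul, hv, norm_smul, norm_inv, norm_norm, h2, mul_one, inv_inv, smul_smul,
    mul_inv_cancel₀ hn.ne', one_smul]

private theorem exists_liftS : ∃ S : ℂ × ℂ → ℂ × ℂ, Measurable S ∧
    (∀ p ∈ F.liftY, S (F.liftT p) = p) ∧ ∀ p ∈ F.liftY, S p ∈ F.liftY ∧ F.liftT (S p) = p := by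
  have he := ContinuousOn.measurableEmbedding F.liftY_meas F.liftT_cont.continuousOn F.liftT_inj
  obtain ⟨S, hS, hS'⟩ := he.exists_measurable_extend (g := (Subtype.val : F.liftY → ℂ × ℂ))
    measurable_subtype_coe (fun p => ⟨p⟩)
  have h1 : ∀ p ∈ F.liftY, S (F.liftT p) = p := fun p hp => congrFun hS' ⟨p, hp⟩
  refine ⟨S, hS, h1, fun q hq => ?_⟩
  obtain ⟨p, hp, rfl⟩ := F.liftT_surj hq
  rw [h1 p hp]
  exact ⟨hp, rfl⟩

private theorem iter_liftT_fst (n : ℕ) (p : ℂ × ℂ) : (F.liftT^[n] p).1 = F.f^[n] p.1 := by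
  induction n with
  | zero => rfl
  | succ n ih => rw [iterate_succ_apply', iterate_succ_apply', ← ih]; rfl

private theorem iter_liftT_mem (n : ℕ) {p : ℂ × ℂ} (hp : p ∈ F.liftY) :
    F.liftT^[n] p ∈ F.liftY := by
  induction n with
  | zero => exact hp
  | succ n ih => rw [iterate_succ_apply']; exact F.liftT_maps ih

private theorem exists_inv (ν : Measure ℂ) [IsProbabilityMeasure ν]
    (h : MeasurePreserving F.f ν ν) :
    ∃ ρ : Measure (ℂ × ℂ), IsProbabilityMeasure ρ ∧ ρ.map Prod.fst = ν ∧ ρ F.liftYᶜ = 0 ∧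
      MeasurePreserving F.liftT ρ ρ := by
  have hTm : Measurable F.liftT := F.liftT_cont.measurable
  have hk : ∀ i : ℕ, Measurable fun z : ℂ => F.liftT^[i] (z, 1) := fun i =>
    (hTm.iterate i).comp (measurable_id.prodMk measurable_const)
  obtain ⟨ρ, h1, h2, h3, h4⟩ := kb F.liftT F.liftT_cont F.liftY F.liftY_compact
    (fun i => ν.map fun z : ℂ => F.liftT^[i] (z, 1)) 1 ENNReal.one_ne_top
    (fun i => by
      rw [Measure.map_apply (hk i) MeasurableSet.univ, preimage_univ, measure_univ])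
    (fun i => by
      rw [Measure.map_apply (hk i) F.liftY_meas.compl]
      have h5 : ∀ᵐ z ∂ν, F.liftT^[i] (z, 1) ∈ F.liftY := by
        filter_upwards [F.ae_Λ ν h] with z hz
        exact F.iter_liftT_mem i (F.mem_liftY.2 ⟨hz, norm_one⟩)
      exact ae_iff.1 h5)
    (Or.inr fun i => by
      rw [Measure.map_map hTm (hk i)]
      congr 1
      funext z
      rw [iterate_succ_apply']
      rfl)
  have : IsProbabilityMeasure ρ := ⟨h1⟩
  have : IsProbabilityMeasure (ρ.map Prod.fst) :=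
    Measure.isProbabilityMeasure_map measurable_fst.aemeasurable
  refine ⟨ρ, inferInstance, ?_, h2, h3⟩
  refine Measure.eq_of_le_of_isProbabilityMeasure (le_of_open fun U hU => ?_)
  rw [Measure.map_apply measurable_fst hU.measurableSet]
  refine h4 _ (hU.preimage continuous_fst) _ (Eventually.of_forall fun n => ?_)
  have h5 : ∀ i : ℕ, (ν.map fun z : ℂ => F.liftT^[i] (z, 1)) (Prod.fst ⁻¹' U) = ν U := by
    intro i
    rw [Measure.map_apply (hk i) (measurable_fst hU.measurableSet),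
      ← (h.iterate i).measure_preimage hU.measurableSet.nullMeasurableSet]
    congr 1
    ext z
    simp only [mem_preimage, F.iter_liftT_fst]
  simp only [h5, Finset.sum_const, Finset.card_range, nsmul_eq_mul, le_refl]

private theorem meas_la : Measurable F.la :=
  Real.measurable_log.comp F.cont_D.norm.measurable

private theorem cont_det : Continuous fun p : ℂ × ℂ => |(F.D p.1).det| :=
  (ContinuousLinearMap.continuous_det.comp (F.cD.comp continuous_fst)).abs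

private theorem meas_ld : Measurable F.ld :=
  Real.measurable_log.comp F.cont_det.measurable

private theorem contOn_la : ContinuousOn F.la F.liftY :=
  F.cont_D.norm.continuousOn.log fun _ hp => (F.D_pos hp).ne'

private theorem contOn_ld : ContinuousOn F.ld F.liftY := by
  refine F.cont_det.continuousOn.log fun p hp => ?_
  have h1 := F.det_ge p.1 (F.Λ_sub_Disc (F.mem_liftY.1 hp).1)
  have h2 : 0 < F.m * F.M := mul_pos F.m_pos (lt_of_lt_of_le one_pos F.one_le_M)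
  exact (lt_of_lt_of_le h2 h1).ne'

/-- two sided averages of a function which is continuous on the unit vectors -/
private theorem ae_avg (ρ : Measure (ℂ × ℂ)) [IsProbabilityMeasure ρ] {S : ℂ × ℂ → ℂ × ℂ}
    (hT : MeasurePreserving F.liftT ρ ρ) (hS : MeasurePreserving S ρ ρ)
    (hST : ∀ᵐ y ∂ρ, S (F.liftT y) = y) {φ : ℂ × ℂ → ℝ} (hφ : Measurable φ)
    (hc : ContinuousOn φ F.liftY) :
    ∀ᵐ y ∂ρ, ∃ l : ℝ, ∀ o : ℤ → ℂ × ℂ, (∀ t, o t ∈ F.liftY) →
      (∀ i : ℕ, o i = F.liftT^[i] y) → (∀ i : ℕ, o (-((i : ℤ) + 1)) = S^[i + 1] y) →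
        ∀ ε > 0, ∃ C, Bd (fun t => φ (o t)) l ε C := by
  obtain ⟨C, hC⟩ := F.liftY_compact.exists_bound_of_continuousOn hc
  have hb : ∀ y, |F.liftY.indicator φ y| ≤ |C| := by
    intro y
    by_cases hy : y ∈ F.liftY
    · rw [indicator_of_mem hy]
      exact (hC y hy).trans (le_abs_self C)
    · rw [indicator_of_notMem hy, abs_zero]
      exact abs_nonneg C
  filter_upwards [two_sided ρ hT hS hST (hφ.indicator F.liftY_meas) |C| hb] with y hy
  obtain ⟨l, h1, h2⟩ := hy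
  refine ⟨l, fun o ho hf hg ε hε => Bd_of_tendsto ?_ ?_ hε⟩
  · refine h1.congr fun n => ?_
    congr 1
    refine Finset.sum_congr rfl fun i _ => ?_
    rw [← hf i, indicator_of_mem (ho _)]
  · refine h2.congr fun n => ?_
    congr 1
    refine Finset.sum_congr rfl fun i _ => ?_
    rw [← hg i, indicator_of_mem (ho _)]

private theorem exists_orb {S : ℂ × ℂ → ℂ × ℂ}
    (hS : ∀ p ∈ F.liftY, S p ∈ F.liftY ∧ F.liftT (S p) = p) {y : ℂ × ℂ} (hy : y ∈ F.liftY) :
    ∃ o : ℤ → ℂ × ℂ, (∀ t, o t ∈ F.liftY) ∧ (∀ i : ℕ, o i = F.liftT^[i] y) ∧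
      (∀ i : ℕ, o (-((i : ℤ) + 1)) = S^[i + 1] y) ∧ ∀ t, o (t + 1) = F.liftT (o t) := by
  have hm : ∀ n : ℕ, S^[n] y ∈ F.liftY := by
    intro n
    induction n with
    | zero => exact hy
    | succ n ih => rw [iterate_succ_apply']; exact (hS _ ih).1
  let o : ℤ → ℂ × ℂ := fun t => match t with
    | Int.ofNat n => F.liftT^[n] y
    | Int.negSucc n => S^[n + 1] y
  have h1 : ∀ i : ℕ, o i = F.liftT^[i] y := fun i => rfl
  have h2 : ∀ i : ℕ, o (Int.negSucc i) = S^[i + 1] y := fun i => rfl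
  refine ⟨o, ?_, h1, fun i => h2 i, ?_⟩
  · intro t
    cases t with
    | ofNat n => exact F.iter_liftT_mem n hy
    | negSucc n => exact hm (n + 1)
  · intro t
    cases t with
    | ofNat n =>
      have h3 : (Int.ofNat n : ℤ) + 1 = ((n + 1 : ℕ) : ℤ) := by simp
      rw [h3, h1, iterate_succ_apply']
    | negSucc n =>
      cases n with
      | zero =>
        have h3 : Int.negSucc 0 + 1 = ((0 : ℕ) : ℤ) := by decide
        rw [h3, h1, h2]
        exact (hS y hy).2.symm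
      | succ n =>
        have h3 : Int.negSucc (n + 1) + 1 = Int.negSucc n := by
          rw [Int.negSucc_eq, Int.negSucc_eq]
          push_cast
          ring
        rw [h3, h2, h2, iterate_succ_apply' S (n + 1)]
        exact (hS _ (hm (n + 1))).2.symm

theorem ae_reg (ν : Measure ℂ) [IsProbabilityMeasure ν] (h : MeasurePreserving F.f ν ν) :
    ∃ m : Measure (ℂ × ℂ), IsProbabilityMeasure m ∧ m.map Prod.fst = ν ∧
      ∀ᵐ p ∂m, ∃ (o : ℤ → ℂ × ℂ) (l Δ : ℝ), o 0 = p ∧ F.Reg l Δ o := by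
  obtain ⟨ρ, hρ, h1, h2, hT⟩ := F.exists_inv ν h
  obtain ⟨S, hSm, hS1, hS2⟩ := F.exists_liftS
  have hY : ∀ᵐ y ∂ρ, y ∈ F.liftY := ae_iff.2 h2
  have hST : ∀ᵐ y ∂ρ, S (F.liftT y) = y := hY.mono hS1
  have hS : MeasurePreserving S ρ ρ := by
    refine ⟨hSm, ?_⟩
    calc ρ.map S = (ρ.map F.liftT).map S := by rw [hT.map_eq]
      _ = ρ.map (S ∘ F.liftT) := Measure.map_map hSm hT.measurable
      _ = ρ.map id := Measure.map_congr hST
      _ = ρ := Measure.map_id
  refine ⟨ρ, hρ, h1, ?_⟩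
  filter_upwards [hY, F.ae_avg ρ hT hS hST F.meas_la F.contOn_la,
    F.ae_avg ρ hT hS hST F.meas_ld F.contOn_ld] with y hy ha hd
  obtain ⟨l, ha⟩ := ha
  obtain ⟨Δ, hd⟩ := hd
  obtain ⟨o, ho1, ho2, ho3, ho4⟩ := F.exists_orb hS2 hy
  refine ⟨o, l, Δ, ho2 0, fun ε hε => ?_⟩
  obtain ⟨C1, hC1⟩ := ha o ho1 ho2 ho3 ε hε
  obtain ⟨C2, hC2⟩ := hd o ho1 ho2 ho3 ε hε
  refine ⟨max C1 C2, fun t => ?_, fun i j hij => ?_, fun i j hij => ?_⟩
  · refine ⟨(F.mem_liftY.1 (ho1 t)).1, (F.mem_liftY.1 (ho1 t)).2, ?_, ?_⟩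
    · rw [ho4]; rfl
    · rw [ho4]; exact F.liftT_dir (ho1 t)
  · exact (hC1 i j hij).trans (by gcongr; exact le_max_left _ _)
  · rw [add_sub_cancel]
    exact (hC2 i j hij).trans (by gcongr; exact le_max_right _ _)


end Dis

end Pool.Agent.Lib.MP_3fe454_an.PD
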