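import Pool.Agent.Lib.MP_3fe454_an.PD.Defs

/-!
Normalization of the data.
-/

set_option autoImplicit false

open Set Metric Filter Topology MeasureTheory Function
open scoped ComplexConjugate ENNReal

namespace Pool.Agent.Lib.MP_3fe454_an.PD

theorem mk_retr : ∃ ρ : ℂ → ℂ, Continuous ρ ∧ (∀ z, ρ z ∈ Disc) ∧ ∀ z ∈ Disc, ρ z = z := by
  have h0 : ∀ z : ℂ, 0 < max 1 ‖z‖ := fun z => lt_max_of_lt_left one_pos
  refine ⟨fun z => (max 1 ‖z‖)⁻¹ • z, ((continuous_const.max continuous_norm).inv₀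
    fun z => (h0 z).ne').smul continuous_id, fun z => ?_, fun z hz => ?_⟩
  · rw [mem_closedBall_zero_iff, norm_smul, norm_inv, Real.norm_of_nonneg (h0 z).le,
      inv_mul_le_one₀ (h0 z)]
    exact le_max_right _ _
  · simp only [max_eq_left (mem_closedBall_zero_iff.1 hz), inv_one, one_smul]

theorem exists_dis (f : ℂ → ℂ) (f' : ℂ → ℂ →L[ℝ] ℂ) (H α : ℝ) (hα : 0 < α)
    (hd : ∀ z ∈ Disc, HasFDerivWithinAt f (f' z) Disc z)
    (hh : ∀ z ∈ Disc, ∀ w ∈ Disc, ‖f' z - f' w‖ ≤ H * ‖z - w‖ ^ α)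
    (hi : InjOn f Disc) (hm : MapsTo f Disc (ball 0 1))
    (hdet : ∀ z ∈ Disc, (f' z).det ≠ 0 ∧ |(f' z).det| < 1) :
    ∃ F : Dis, ∀ z ∈ Disc, F.f z = f z := by
  obtain ⟨ρ, ρ1, ρ2, ρ3⟩ := mk_retr
  have hK : IsCompact Disc := isCompact_closedBall 0 1
  have hne : Disc.Nonempty := ⟨0, mem_closedBall_self zero_le_one⟩
  have cf : ContinuousOn f Disc := fun z hz => (hd z hz).continuousWithinAt
  have cD : ContinuousOn f' Disc := fun z hz => by
    refine tendsto_iff_norm_sub_tendsto_zero.2 (squeeze_zero' (.of_forall fun _ => norm_nonneg _)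
      (eventually_mem_nhdsWithin.mono fun w hw => hh w hw z hz) ?_)
    have h1 : Continuous fun w : ℂ => H * ‖w - z‖ ^ α :=
      continuous_const.mul ((by fun_prop : Continuous fun w : ℂ => ‖w - z‖).rpow_const
        fun _ => Or.inr hα.le)
    simpa [Real.zero_rpow hα.ne'] using (h1.tendsto z).mono_left (nhdsWithin_le_nhds (s := Disc))
  have cdet : ContinuousOn (fun z => |(f' z).det|) Disc :=
    (ContinuousLinearMap.continuous_det.comp_continuousOn cD).abs
  obtain ⟨z0, hz0, m0⟩ := hK.exists_isMaxOn hne cf.norm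
  obtain ⟨z1, hz1, m1⟩ := hK.exists_isMaxOn hne cdet
  obtain ⟨z2, hz2, m2⟩ := hK.exists_isMinOn hne cdet
  obtain ⟨M, hM⟩ := hK.exists_bound_of_continuousOn cD
  obtain ⟨⟨z3, v3⟩, ⟨hz3, hv3⟩, m3⟩ := (hK.prod (isCompact_sphere (0 : ℂ) 1)).exists_isMinOn
    (hne.prod ⟨1, by simp⟩) (f := fun p : ℂ × ℂ => ‖f' p.1 p.2‖)
    ((cD.comp continuousOn_fst fun p hp => hp.1).clm_apply continuousOn_snd).norm
  have l0 : 0 < ‖f' z3 v3‖ := by
    refine norm_pos_iff.2 fun h0 => (hdet z3 hz3).1 ?_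
    refine LinearMap.det_eq_zero_iff_ker_ne_bot.2 ((Submodule.ne_bot_iff _).2 ⟨v3, h0, ?_⟩)
    rintro rfl
    simp at hv3
  have l1 : ∀ z ∈ Disc, ∀ v, ‖f' z3 v3‖ * ‖v‖ ≤ ‖f' z v‖ := by
    intro z hz v
    rcases eq_or_ne v 0 with rfl | hv
    · simp
    have v0 := norm_pos_iff.2 hv
    have h1 : ‖f' z3 v3‖ ≤ ‖f' z (‖v‖⁻¹ • v)‖ := m3 (a := (z, ‖v‖⁻¹ • v)) ⟨hz, by
      rw [mem_sphere_zero_iff_norm, norm_smul, norm_inv, norm_norm, inv_mul_cancel₀ v0.ne']⟩
    rwa [map_smul, norm_smul, norm_inv, norm_norm, le_inv_mul_iff₀ v0, mul_comm] at h1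
  have : CompactSpace Disc := isCompact_iff_compactSpace.1 hK
  have he : IsClosedEmbedding fun z : Disc => f z :=
    cf.domRestrict.isClosedEmbedding (injOn_iff_injective.1 hi)
  obtain ⟨g, hg⟩ := ContinuousMap.exists_extension he (⟨Subtype.val, continuous_subtype_val⟩ : C(Disc, ℂ))
  have M0 : 0 < max M 1 := lt_max_of_lt_right one_pos
  have d0 : 0 < |(f' z2).det| := abs_pos.2 (hdet z2 hz2).1
  refine ⟨{ f := f ∘ ρ
            g := g
            D := f' ∘ ρ
            b := |(f' z1).det|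
            H := (|H| + 1) * 2 ^ α
            α := min α 1
            r0 := max ‖f z0‖ (1 / 2)
            m := min 1 (min ‖f' z3 v3‖ (|(f' z2).det| / max M 1))
            M := max M 1
            cf := cf.comp_continuous ρ1 ρ2
            cg := g.continuous
            cD := cD.comp_continuous ρ1 ρ2
            r0_pos := lt_max_of_lt_right (by norm_num)
            r0_lt := max_lt (mem_ball_zero_iff.1 (hm hz0)) (by norm_num)
            maps := fun z => le_max_of_le_left (m0 (ρ2 z))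
            range := fun z => ⟨ρ z, ρ2 z, by simp only [comp_apply, ρ3 _ (ρ2 z)]⟩
            gf := fun z hz => ?_
            deriv := fun z hz => ?_
            H_pos := by positivity
            α_pos := lt_min hα one_pos
            α_le := min_le_right _ _
            hol := fun z hz w hw => ?_
            b_pos := abs_pos.2 (hdet z1 hz1).1
            b_lt := (hdet z1 hz1).2
            det_le := fun z _ => m1 (ρ2 z)
            m_pos := by positivity
            m_le := min_le_left _ _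
            one_le_M := le_max_right _ _
            low := fun z _ v => ?_
            up := fun z _ => le_max_of_le_left (hM _ (ρ2 z))
            det_ge := fun z _ => ?_ }, fun z hz => by simp only [comp_apply, ρ3 z hz]⟩
  · rw [comp_apply, ρ3 z hz]
    exact DFunLike.congr_fun hg ⟨z, hz⟩
  · rw [comp_apply, ρ3 z hz]
    exact (hd z hz).congr (fun w hw => by rw [comp_apply, ρ3 w hw]) (by rw [comp_apply, ρ3 z hz])
  · rw [comp_apply, comp_apply, ρ3 z hz, ρ3 w hw]
    refine (hh z hz w hw).trans ?_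
    have s0 := norm_nonneg (z - w)
    have s2 : ‖z - w‖ ≤ 2 := by
      linarith [norm_sub_le z w, mem_closedBall_zero_iff.1 hz, mem_closedBall_zero_iff.1 hw]
    have a0 : 0 ≤ min α 1 := le_min hα.le zero_le_one
    have a1 : 0 ≤ α - min α 1 := sub_nonneg.2 (min_le_left _ _)
    have e1 : ‖z - w‖ ^ α = ‖z - w‖ ^ (α - min α 1) * ‖z - w‖ ^ min α 1 := by
      rw [← Real.rpow_add_of_nonneg s0 a1 a0, sub_add_cancel]
    have e2 : ‖z - w‖ ^ (α - min α 1) ≤ 2 ^ α := (Real.rpow_le_rpow s0 s2 a1).trans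
      (Real.rpow_le_rpow_of_exponent_le one_le_two (by linarith))
    rw [e1, mul_assoc]
    exact mul_le_mul (by linarith [le_abs_self H]) (mul_le_mul_of_nonneg_right e2 (by positivity))
      (by positivity) (by positivity)
  · exact (mul_le_mul_of_nonneg_right ((min_le_right _ _).trans (min_le_left _ _))
      (norm_nonneg v)).trans (l1 _ (ρ2 z) v)
  · refine le_trans ?_ (m2 (ρ2 z))
    rw [← le_div_iff₀ M0]
    exact (min_le_right _ _).trans (min_le_right _ _)

theorem transfer (F : Dis) (f : ℂ → ℂ) (hf : ∀ z ∈ Disc, F.f z = f z) (μ : Measure ℂ)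
    (hμ : μ Discᶜ = 0) (hinv : ∀ A, MeasurableSet A → μ (Disc ∩ f ⁻¹' A) = μ A) :
    MeasurePreserving F.f μ μ ∧ μ (periodicPts F.f) ≤ μ (Disc ∩ periodicPts f) ∧
      ∀ p n, 1 ≤ n → minimalPeriod F.f p = n → p ∈ Disc ∧ minimalPeriod f p = n := by
  have h0 : ∀ z, F.f z ∈ Disc := fun z => mem_closedBall_zero_iff.2 ((F.maps z).trans F.r0_lt.le)
  have h1 : ∀ k : ℕ, ∀ z ∈ Disc, F.f^[k] z = f^[k] z := by
    intro k
    induction k with
    | zero => exact fun _ _ => rfl
    | succ k ih =>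
      intro z hz
      rw [iterate_succ_apply, iterate_succ_apply, ih _ (h0 z), hf z hz]
  have h2 : ∀ p ∈ periodicPts F.f, p ∈ Disc := by
    rintro p ⟨n, hn, hp⟩
    obtain ⟨k, rfl⟩ := Nat.exists_eq_succ_of_ne_zero hn.ne'
    rw [← hp.eq, iterate_succ_apply']
    exact h0 _
  have h3 : ∀ p ∈ Disc, ∀ n, IsPeriodicPt F.f n p ↔ IsPeriodicPt f n p := fun p hp n => by
    rw [IsPeriodicPt, IsPeriodicPt, IsFixedPt, IsFixedPt, h1 n p hp]
  refine ⟨⟨F.cf.measurable, Measure.ext fun A hA => ?_⟩, measure_mono fun p hp => ⟨h2 p hp, ?_⟩,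
    fun p n hn hp => ?_⟩
  · rw [Measure.map_apply F.cf.measurable hA, ← hinv A hA]
    refine measure_congr ?_
    filter_upwards [show ∀ᵐ z ∂μ, z ∈ Disc from hμ] with z hz
    refine propext ?_
    show F.f z ∈ A ↔ z ∈ Disc ∧ f z ∈ A
    rw [hf z hz, and_iff_right hz]
  · obtain ⟨n, hn, hp'⟩ := hp
    exact ⟨n, hn, (h3 p (h2 p ⟨n, hn, hp'⟩) n).1 hp'⟩
  · have h4 := h2 p (minimalPeriod_pos_iff_mem_periodicPts.1 (by omega))
    exact ⟨h4, (minimalPeriod_eq_minimalPeriod_iff.2 (h3 p h4)).symm.trans hp⟩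

end Pool.Agent.Lib.MP_3fe454_an.PD
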