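import Pool.Agent.Lib.MP_3fe454_an.PD.Inst1
import Pool.Agent.Lib.MP_3fe454_an.PD.Inst2
import Pool.Agent.Lib.MP_3fe454_an.PD.MkDis

/-!
Assembly.
-/

set_option autoImplicit false

open Set Metric Filter Topology MeasureTheory Function
open scoped ComplexConjugate ENNReal

namespace Pool.Agent.Lib.MP_3fe454_an.PD

theorem Dis.cascade (F : Dis) (μ : Measure ℂ) [IsProbabilityMeasure μ]
    (h : MeasurePreserving F.f μ μ) (hp : μ (periodicPts F.f) < 1) : Cascade F.f := by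
  by_cases hno : HS F.f
  · exact hno.cascade
  obtain ⟨μ', hμ', he, h0⟩ := F.ergodic_comp μ h hp
  obtain ⟨X1, L, R, hd⟩ := F.chordData hno μ' he h0
  exact F.cascade_of_data hno μ' he.toMeasurePreserving hd

theorem main (f : ℂ → ℂ) (f' : ℂ → ℂ →L[ℝ] ℂ) (H α : ℝ) (hα : 0 < α)
    (hd : ∀ z ∈ closedBall (0 : ℂ) 1, HasFDerivWithinAt f (f' z) (closedBall 0 1) z)
    (hh : ∀ z ∈ closedBall (0 : ℂ) 1, ∀ w ∈ closedBall (0 : ℂ) 1,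
      ‖f' z - f' w‖ ≤ H * ‖z - w‖ ^ α)
    (hi : InjOn f (closedBall 0 1)) (hm : MapsTo f (closedBall 0 1) (ball 0 1))
    (hdet : ∀ z ∈ closedBall (0 : ℂ) 1, (f' z).det ≠ 0 ∧ |(f' z).det| < 1)
    (μ : Measure ℂ) [IsProbabilityMeasure μ] (hμ : μ (closedBall 0 1)ᶜ = 0)
    (hinv : ∀ A, MeasurableSet A → μ (closedBall 0 1 ∩ f ⁻¹' A) = μ A)
    (hap : μ (closedBall 0 1 ∩ periodicPts f) < 1) :
    ∃ m : ℕ, 1 ≤ m ∧ ∀ k : ℕ, ∃ p ∈ closedBall (0 : ℂ) 1, minimalPeriod f p = m * 2 ^ k := by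
  obtain ⟨F, hF⟩ := exists_dis f f' H α hα hd hh hi hm hdet
  obtain ⟨h1, h2, h3⟩ := transfer F f hF μ hμ hinv
  obtain ⟨m, hm1, hk⟩ := F.cascade μ h1 (h2.trans_lt hap)
  refine ⟨m, hm1, fun k => ?_⟩
  obtain ⟨p, hp⟩ := hk k
  have := h3 p _ (Nat.mul_pos hm1 (Nat.two_pow_pos k)) hp
  exact ⟨p, this.1, this.2⟩

end Pool.Agent.Lib.MP_3fe454_an.PD
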