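import Pool.Agent.Lib.MP_3fe454_an.PD.Defs

/-!
The winding jump and the area argument.
-/

set_option autoImplicit false

open Set Metric Filter Topology MeasureTheory Function
open scoped ComplexConjugate ENNReal

namespace Pool.Agent.Lib.MP_3fe454_an.PD

theorem exists_log {h : ℂ → ℂ} (hh : ContinuousOn h Disc) (h0 : ∀ w ∈ Disc, h w ≠ 0) :
    ∃ l : ℂ → ℂ, ContinuousOn l Disc ∧ ∀ w ∈ Disc, Complex.exp (l w) = h w := by
  classical
  have hc : Convex ℝ Disc := convex_closedBall _ _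
  have hz : (0 : ℂ) ∈ Disc := mem_closedBall_self zero_le_one
  have : ContractibleSpace Disc := hc.contractibleSpace ⟨0, hz⟩
  have : LocallyPathConnectedSpace Disc := hc.locallyPathConnectedSpace
  have hcont : Continuous (fun w : Disc => h w) := hh.domRestrict
  obtain ⟨f, ⟨-, hf⟩, -⟩ := Complex.isCoveringMapOn_exp.existsUnique_continuousMap_lifts
    (A := Disc) ⟨fun w : Disc => h w, hcont⟩ (a₀ := ⟨0, hz⟩) (e₀ := Complex.log (h 0))
    (Complex.exp_log (h0 0 hz)) (fun x => h0 x x.2)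
  refine ⟨fun z => if hz : z ∈ Disc then f ⟨z, hz⟩ else 0, ?_, ?_⟩
  · rw [continuousOn_iff_continuous_domRestrict]
    have : Disc.domRestrict (fun z => if hz : z ∈ Disc then f ⟨z, hz⟩ else 0) = f := by
      funext z
      exact dif_pos z.2
    rw [this]
    exact f.continuous
  · intro w hw
    have := congrFun hf ⟨w, hw⟩
    simp only [dif_pos hw]
    exact this

/-- a continuous logarithm of W - a exists on Z -/
def SLHasLog (Z : Set ℂ) (W : ℂ → ℂ) (a : ℂ) : Prop :=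
  ∃ l : ℂ → ℂ, ContinuousOn l Z ∧ ∀ w ∈ Z, Complex.exp (l w) = W w - a

theorem sl_const {S : Set ℂ} (hS : IsPreconnected S) {u : ℂ → ℂ} (hu : ContinuousOn u S)
    (h1 : ∀ w ∈ S, Complex.exp (u w) = 1) {a b : ℂ} (ha : a ∈ S) (hb : b ∈ S) : u a = u b := by
  refine Complex.isCoveringMap_exp.constOn_of_comp hS hu ?_ ha hb
  intro x hx y hy
  apply Subtype.ext
  simp only [h1 x hx, h1 y hy]

theorem sl_local {Z : Set ℂ} (hZ : IsCompact Z) {W : ℂ → ℂ} (hW : ContinuousOn W Z) {a : ℂ}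
    (ha : a ∉ W '' Z) : ∀ᶠ b in 𝓝 a, (SLHasLog Z W a ↔ SLHasLog Z W b) := by
  have hcl : IsClosed (W '' Z) := (hZ.image_of_continuousOn hW).isClosed
  obtain ⟨δ, hδ, hb⟩ := Metric.isOpen_iff.1 hcl.isOpen_compl a ha
  filter_upwards [ball_mem_nhds a hδ] with b hba
  have hfar : ∀ w ∈ Z, δ ≤ ‖W w - a‖ := by
    intro w hw
    by_contra hlt
    push Not at hlt
    exact hb (mem_ball_iff_norm.2 hlt) ⟨w, hw, rfl⟩
  have hne : ∀ w ∈ Z, W w - a ≠ 0 := by
    intro w hw h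
    have := hfar w hw
    rw [h, norm_zero] at this
    linarith
  have hsl : ∀ w ∈ Z, 1 + (a - b) / (W w - a) ∈ Complex.slitPlane := by
    intro w hw
    apply Complex.mem_slitPlane_of_norm_lt_one
    rw [norm_div, div_lt_one (lt_of_lt_of_le hδ (hfar w hw))]
    have : ‖a - b‖ < δ := by
      rw [norm_sub_rev]
      exact mem_ball_iff_norm.1 hba
    linarith [hfar w hw]
  have hc : ContinuousOn (fun w => Complex.log (1 + (a - b) / (W w - a))) Z := by
    apply ContinuousOn.clog _ hsl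
    exact continuousOn_const.add (continuousOn_const.div (hW.sub continuousOn_const) hne)
  have he : ∀ w ∈ Z, Complex.exp (Complex.log (1 + (a - b) / (W w - a))) =
      1 + (a - b) / (W w - a) := fun w hw =>
    Complex.exp_log (Complex.slitPlane_ne_zero (hsl w hw))
  constructor
  · rintro ⟨l, hl, hle⟩
    refine ⟨fun w => l w + Complex.log (1 + (a - b) / (W w - a)), hl.add hc, fun w hw => ?_⟩
    rw [Complex.exp_add, hle w hw, he w hw]
    have := hne w hw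
    field_simp
    ring
  · rintro ⟨l, hl, hle⟩
    refine ⟨fun w => l w - Complex.log (1 + (a - b) / (W w - a)), hl.sub hc, fun w hw => ?_⟩
    have h1 := Complex.slitPlane_ne_zero (hsl w hw)
    rw [Complex.exp_sub, hle w hw, he w hw, div_eq_iff h1]
    have := hne w hw
    field_simp
    ring

theorem sl_conn {Z : Set ℂ} (hZ : IsCompact Z) {W : ℂ → ℂ} (hW : ContinuousOn W Z) {S : Set ℂ}
    (hS : IsPreconnected S) (hd : ∀ a ∈ S, a ∉ W '' Z) {a b : ℂ} (ha : a ∈ S) (hb : b ∈ S) :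
    SLHasLog Z W a ↔ SLHasLog Z W b := by
  refine hS.induction₂' (fun x y => (SLHasLog Z W x ↔ SLHasLog Z W y)) ?_ ?_ ha hb
  · intro x hx
    filter_upwards [nhdsWithin_le_nhds (sl_local hZ hW (hd x hx))] with y hy
    exact ⟨hy, hy.symm⟩
  · intro x y z _ _ _ h1 h2
    exact h1.trans h2

theorem sl_jump {W : ℂ → ℂ} {P σ : Set ℂ} (hW : ContinuousOn W (P ∪ σ)) {h : ℝ} (hh : 0 < h)
    (hP' : IsPreconnected P) (hσ' : IsPreconnected σ) {q₁ q₂ : ℂ} (hq₁ : q₁ ∈ P ∩ σ)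
    (hq₂ : q₂ ∈ P ∩ σ) (h₁ : 0 < (W q₁).im) (h₂ : (W q₂).im < 0)
    (hs : ∀ w ∈ σ, |(W w).re| < h / 2 ∧ |(W w).im| < h / 2)
    (hav : ∀ w ∈ P, |(W w).re| ≤ h → (W w).im ≠ 0)
    (hA : SLHasLog (P ∪ σ) W (-(h : ℂ))) (hB : SLHasLog (P ∪ σ) W (h : ℂ)) : False := by
  obtain ⟨lA, hlA, heA⟩ := hA
  obtain ⟨lB, hlB, heB⟩ := hB
  have hne : ∀ w ∈ P ∪ σ, W w - (h : ℂ) ≠ 0 := fun w hw => heB w hw ▸ Complex.exp_ne_zero _
  set F : ℂ → ℂ := fun w => (W w + h) / (W w - h) with hF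
  have hFc : ContinuousOn F (P ∪ σ) :=
    (hW.add continuousOn_const).div (hW.sub continuousOn_const) hne
  have hexp : ∀ w ∈ P ∪ σ, Complex.exp (lA w - lB w) = F w := by
    intro w hw
    rw [Complex.exp_sub, heA w hw, heB w hw]
    simp [hF]
  have hns : ∀ w ∈ P ∪ σ, 0 < Complex.normSq (W w - h) := fun w hw =>
    Complex.normSq_pos.2 (hne w hw)
  have hre : ∀ w, (F w).re =
      ((W w).re ^ 2 + (W w).im ^ 2 - h ^ 2) / Complex.normSq (W w - h) := by
    intro w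
    simp only [hF, Complex.div_re, Complex.add_re, Complex.sub_re, Complex.add_im, Complex.sub_im,
      Complex.ofReal_re, Complex.ofReal_im]
    ring
  have him : ∀ w, (F w).im = -(2 * h * (W w).im) / Complex.normSq (W w - h) := by
    intro w
    simp only [hF, Complex.div_im, Complex.add_re, Complex.sub_re, Complex.add_im, Complex.sub_im,
      Complex.ofReal_re, Complex.ofReal_im]
    ring
  have hslP : ∀ w ∈ P, F w ∈ Complex.slitPlane := by
    intro w hw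
    have hn := hns w (Or.inl hw)
    rw [Complex.mem_slitPlane_iff]
    by_cases hy : (W w).im = 0
    · left
      rw [hre]
      apply div_pos _ hn
      have : h < |(W w).re| := by
        by_contra hle
        exact hav w hw (not_lt.1 hle) hy
      have h2 : h ^ 2 < |(W w).re| ^ 2 := by nlinarith
      rw [sq_abs] at h2
      nlinarith [sq_nonneg (W w).im]
    · right
      rw [him]
      refine div_ne_zero ?_ hn.ne'
      exact neg_ne_zero.2 (mul_ne_zero (by positivity) hy)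
  have hslσ : ∀ w ∈ σ, -F w ∈ Complex.slitPlane := by
    intro w hw
    have hn := hns w (Or.inr hw)
    rw [Complex.mem_slitPlane_iff]
    left
    rw [Complex.neg_re, hre, neg_pos]
    apply div_neg_of_neg_of_pos _ hn
    obtain ⟨h1, h2⟩ := hs w hw
    have h3 : |(W w).re| ^ 2 < (h / 2) ^ 2 := by nlinarith [abs_nonneg (W w).re]
    have h4 : |(W w).im| ^ 2 < (h / 2) ^ 2 := by nlinarith [abs_nonneg (W w).im]
    rw [sq_abs] at h3 h4
    nlinarith
  have e1 : lA q₁ - lB q₁ - Complex.log (F q₁) = lA q₂ - lB q₂ - Complex.log (F q₂) := by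
    refine sl_const (u := fun w => lA w - lB w - Complex.log (F w)) hP' ?_ ?_ hq₁.1 hq₂.1
    · exact ((hlA.mono subset_union_left).sub (hlB.mono subset_union_left)).sub
        ((hFc.mono subset_union_left).clog hslP)
    · intro w hw
      have h0 := Complex.slitPlane_ne_zero (hslP w hw)
      rw [Complex.exp_sub, hexp w (Or.inl hw), Complex.exp_log h0, div_self h0]
  have e2 : lA q₁ - lB q₁ - Complex.log (-F q₁) + Real.pi * Complex.I =
      lA q₂ - lB q₂ - Complex.log (-F q₂) + Real.pi * Complex.I := by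
    refine sl_const (u := fun w => lA w - lB w - Complex.log (-F w) + Real.pi * Complex.I)
      hσ' ?_ ?_ hq₁.2 hq₂.2
    · exact (((hlA.mono subset_union_right).sub (hlB.mono subset_union_right)).sub
        ((hFc.mono subset_union_right).neg.clog hslσ)).add continuousOn_const
    · intro w hw
      have h0 := Complex.slitPlane_ne_zero (hslσ w hw)
      have h0' : F w ≠ 0 := neg_ne_zero.1 h0
      rw [Complex.exp_add, Complex.exp_pi_mul_I, Complex.exp_sub, hexp w (Or.inr hw),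
        Complex.exp_log h0]
      field_simp
  have e3 : Complex.log (-F q₁) - Complex.log (F q₁) =
      Complex.log (-F q₂) - Complex.log (F q₂) := by
    linear_combination e1 - e2
  have e4 := congrArg Complex.im e3
  simp only [Complex.sub_im, Complex.log_im] at e4
  have i1 : (F q₁).im < 0 := by
    rw [him]
    apply div_neg_of_neg_of_pos _ (hns q₁ (Or.inl hq₁.1))
    have : 0 < 2 * h * (W q₁).im := by positivity
    linarith
  have i2 : 0 < (F q₂).im := by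
    rw [him]
    apply div_pos _ (hns q₂ (Or.inl hq₂.1))
    nlinarith
  rw [Complex.arg_neg_eq_arg_add_pi_of_im_neg i1,
    Complex.arg_neg_eq_arg_sub_pi_of_im_pos i2] at e4
  linarith [Real.pi_pos]

theorem sl_area {K : Set ℂ} (hK : MeasurableSet K) {φ : ℝ → ℝ} {a d κ : ℝ} (hd : 0 ≤ d)
    (hvol : volume K < ENNReal.ofReal (d * κ)) :
    ∃ v ∈ Icc a (a + d), (∃ t ∈ Ioc 0 κ, (⟨v, φ v + t⟩ : ℂ) ∉ K) ∧
      ∃ t ∈ Ico (-κ) 0, (⟨v, φ v + t⟩ : ℂ) ∉ K := by
  by_contra hcon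
  push Not at hcon
  set s : Set (ℝ × ℝ) := Complex.measurableEquivRealProd.symm ⁻¹' K with hs
  have hsm : MeasurableSet s := Complex.measurableEquivRealProd.symm.measurable hK
  have hv : volume s = volume K :=
    (Complex.volume_preserving_equiv_real_prod.symm _).measure_preimage hK.nullMeasurableSet
  have hmem : ∀ x y : ℝ, (x, y) ∈ s ↔ (⟨x, y⟩ : ℂ) ∈ K := by
    intro x y
    rw [hs, mem_preimage, Complex.measurableEquivRealProd_symm_apply]
  have hslice : ∀ v ∈ Icc a (a + d), ENNReal.ofReal κ ≤ volume (Prod.mk v ⁻¹' s) := by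
    intro v hv
    by_cases h1 : ∃ t ∈ Ioc 0 κ, (⟨v, φ v + t⟩ : ℂ) ∉ K
    · have h2 := hcon v hv h1
      have : Ico (φ v - κ) (φ v) ⊆ Prod.mk v ⁻¹' s := by
        intro y hy
        rw [mem_preimage, hmem]
        have := h2 (y - φ v) ⟨by linarith [hy.1], by linarith [hy.2]⟩
        rwa [add_sub_cancel] at this
      refine le_trans (le_of_eq ?_) (measure_mono this)
      rw [Real.volume_Ico]
      congr 1
      ring
    · push Not at h1
      have : Ioc (φ v) (φ v + κ) ⊆ Prod.mk v ⁻¹' s := by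
        intro y hy
        rw [mem_preimage, hmem]
        have := h1 (y - φ v) ⟨by linarith [hy.1], by linarith [hy.2]⟩
        rwa [add_sub_cancel] at this
      refine le_trans (le_of_eq ?_) (measure_mono this)
      rw [Real.volume_Ioc]
      congr 1
      ring
  have hlow : ENNReal.ofReal (d * κ) ≤ volume s := by
    rw [Measure.volume_eq_prod, Measure.prod_apply hsm]
    calc ENNReal.ofReal (d * κ) = ∫⁻ _ in Icc a (a + d), ENNReal.ofReal κ := by
          rw [setLIntegral_const, Real.volume_Icc, add_sub_cancel_left, ENNReal.ofReal_mul hd,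
            mul_comm]
      _ ≤ ∫⁻ v in Icc a (a + d), volume (Prod.mk v ⁻¹' s) :=
          setLIntegral_mono' measurableSet_Icc hslice
      _ ≤ ∫⁻ v, volume (Prod.mk v ⁻¹' s) := setLIntegral_le_lintegral _ _
  rw [hv] at hlow
  exact absurd hvol (not_lt.2 hlow)

theorem sl_vert (v c d : ℝ) : IsPreconnected ((fun t : ℝ => (⟨v, t⟩ : ℂ)) '' Icc c d) := by
  apply isPreconnected_Icc.image
  have : (fun t : ℝ => (⟨v, t⟩ : ℂ)) = fun t : ℝ => (v : ℂ) + (t : ℂ) * Complex.I := by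
    funext t
    apply Complex.ext <;> simp
  rw [this]
  fun_prop

theorem sl_abs {Ψ : ℂ → ℂ} (hΨ : ContinuousOn Ψ Disc) {φ : ℝ → ℝ} (hφ : Continuous φ)
    {η κ : ℝ} (hη : 0 < η) (hκ : 0 < κ) {P σ : Set ℂ} (hP : IsCompact P)
    (hP' : IsPreconnected P) (hPD : P ⊆ Disc) (hσ : IsCompact σ) (hσ' : IsPreconnected σ)
    (hσD : σ ⊆ Disc) {q₁ q₂ : ℂ} (hq₁ : q₁ ∈ P ∩ σ) (hq₂ : q₂ ∈ P ∩ σ)
    (h₁ : φ (Ψ q₁).re < (Ψ q₁).im) (h₂ : (Ψ q₂).im < φ (Ψ q₂).re)
    (hs : ∀ w ∈ σ, |(Ψ w).re| < η / 4 ∧ |(Ψ w).im - φ (Ψ w).re| < η / 4)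
    (hav : ∀ w ∈ P, |(Ψ w).re| ≤ η → (Ψ w).im ≠ φ (Ψ w).re)
    (hvol : volume (Ψ '' Disc) < ENNReal.ofReal (η / 2 * κ)) :
    ∃ p₁ ∈ P, ∃ p₂ ∈ P, (Ψ p₁).re = (Ψ p₂).re ∧ η / 2 ≤ |(Ψ p₁).re| ∧ |(Ψ p₁).re| ≤ η ∧
      0 < (Ψ p₁).im - φ (Ψ p₁).re ∧ (Ψ p₁).im - φ (Ψ p₁).re ≤ κ ∧
      (Ψ p₂).im - φ (Ψ p₂).re < 0 ∧ -κ ≤ (Ψ p₂).im - φ (Ψ p₂).re := by
  set W : ℂ → ℂ := fun w => (⟨(Ψ w).re, (Ψ w).im - φ (Ψ w).re⟩ : ℂ) with hWdef
  have hWre : ∀ w, (W w).re = (Ψ w).re := fun w => rfl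
  have hWim : ∀ w, (W w).im = (Ψ w).im - φ (Ψ w).re := fun w => rfl
  have hWD : ContinuousOn W Disc := by
    have : W = fun w => ((Ψ w).re : ℂ) + (((Ψ w).im - φ (Ψ w).re : ℝ) : ℂ) * Complex.I := by
      funext w
      apply Complex.ext <;> simp [hWre, hWim]
    rw [this]
    have h1 : ContinuousOn (fun w => (Ψ w).re) Disc := Complex.continuous_re.comp_continuousOn hΨ
    have h2 : ContinuousOn (fun w => (Ψ w).im) Disc := Complex.continuous_im.comp_continuousOn hΨ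
    have h3 : ContinuousOn (fun w => φ (Ψ w).re) Disc := hφ.comp_continuousOn h1
    exact (Complex.continuous_ofReal.comp_continuousOn h1).add
      ((Complex.continuous_ofReal.comp_continuousOn (h2.sub h3)).mul continuousOn_const)
  have hZD : P ∪ σ ⊆ Disc := union_subset hPD hσD
  have hZ : IsCompact (P ∪ σ) := hP.union hσ
  have hWZ : ContinuousOn W (P ∪ σ) := hWD.mono hZD
  have hout : ∀ a, a ∉ W '' Disc → SLHasLog (P ∪ σ) W a := by
    intro a ha
    obtain ⟨l, hl, hle⟩ := exists_log (h := fun w => W w - a) (hWD.sub continuousOn_const)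
      (fun w hw h0 => ha ⟨w, hw, sub_eq_zero.1 h0⟩)
    exact ⟨l, hl.mono hZD, fun w hw => hle w (hZD hw)⟩
  -- points of the image with large real part come from P and are off the axis
  have hhit : ∀ v t : ℝ, η / 2 ≤ |v| → |v| ≤ η → (⟨v, t⟩ : ℂ) ∈ W '' (P ∪ σ) →
      ∃ p ∈ P, (Ψ p).re = v ∧ (Ψ p).im - φ (Ψ p).re = t ∧ t ≠ 0 := by
    rintro v t h1 h2 ⟨w, hw, he⟩
    have e1 : (Ψ w).re = v := congrArg Complex.re he
    have e2 : (Ψ w).im - φ (Ψ w).re = t := congrArg Complex.im he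
    rcases hw with hw | hw
    · refine ⟨w, hw, e1, e2, ?_⟩
      rw [← e2]
      exact sub_ne_zero.2 (hav w hw (e1 ▸ h2))
    · have := (hs w hw).1
      rw [e1] at this
      linarith
  have hhor : ∀ c d : ℝ, (∀ v ∈ Icc c d, η / 2 ≤ |v| ∧ |v| ≤ η) → ∀ v ∈ Icc c d, ∀ v' ∈ Icc c d,
      (SLHasLog (P ∪ σ) W (v : ℂ) ↔ SLHasLog (P ∪ σ) W (v' : ℂ)) := by
    intro c d hcd v hv v' hv'
    refine sl_conn hZ hWZ (S := (fun x : ℝ => (x : ℂ)) '' Icc c d)
      (isPreconnected_Icc.image _ Complex.continuous_ofReal.continuousOn) ?_ ⟨v, hv, rfl⟩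
      ⟨v', hv', rfl⟩
    rintro _ ⟨x, hx, rfl⟩ hm
    obtain ⟨_, _, _, _, h0⟩ := hhit x 0 (hcd x hx).1 (hcd x hx).2 hm
    exact h0 rfl
  have hnot : ¬ (SLHasLog (P ∪ σ) W (-((η / 2 : ℝ) : ℂ)) ∧
      SLHasLog (P ∪ σ) W ((η / 2 : ℝ) : ℂ)) := by
    rintro ⟨hA, hB⟩
    refine sl_jump hWZ (h := η / 2) (by positivity) hP' hσ' hq₁ hq₂ ?_ ?_ ?_ ?_ hA hB
    · rw [hWim]; linarith
    · rw [hWim]; linarith
    · intro w hw
      rw [hWre, hWim]
      have := hs w hw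
      constructor <;> linarith [this.1, this.2]
    · intro w hw hle
      rw [hWre] at hle
      rw [hWim]
      exact sub_ne_zero.2 (hav w hw (by linarith))
  have hrange : ∃ a : ℝ, (∀ v ∈ Icc a (a + η / 2), η / 2 ≤ |v| ∧ |v| ≤ η) ∧
      ∀ v ∈ Icc a (a + η / 2), ¬ SLHasLog (P ∪ σ) W (v : ℂ) := by
    by_cases hB : SLHasLog (P ∪ σ) W ((η / 2 : ℝ) : ℂ)
    · have hr : ∀ v ∈ Icc (-η) (-η + η / 2), η / 2 ≤ |v| ∧ |v| ≤ η := by
        intro v hv
        rw [abs_of_neg (by linarith [hv.2])]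
        constructor <;> linarith [hv.1, hv.2]
      refine ⟨-η, hr, fun v hv hl => hnot ⟨?_, hB⟩⟩
      have := (hhor _ _ hr v hv (-(η / 2)) ⟨by linarith, by linarith⟩).1 hl
      rwa [Complex.ofReal_neg] at this
    · have hr : ∀ v ∈ Icc (η / 2) (η / 2 + η / 2), η / 2 ≤ |v| ∧ |v| ≤ η := by
        intro v hv
        rw [abs_of_pos (by linarith [hv.1])]
        constructor <;> linarith [hv.1, hv.2]
      refine ⟨η / 2, hr, fun v hv hl => hB ?_⟩
      exact (hhor _ _ hr v hv (η / 2) ⟨le_rfl, by linarith⟩).1 hl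
  obtain ⟨a, har, hal⟩ := hrange
  have hKm : MeasurableSet (Ψ '' Disc) :=
    ((isCompact_closedBall (0 : ℂ) 1).image_of_continuousOn hΨ).measurableSet
  obtain ⟨v, hv, ⟨t₁, ht₁, hn₁⟩, ⟨t₂, ht₂, hn₂⟩⟩ :=
    sl_area (φ := φ) (a := a) hKm (by positivity : 0 ≤ η / 2) hvol
  have hoff : ∀ t : ℝ, (⟨v, φ v + t⟩ : ℂ) ∉ Ψ '' Disc → SLHasLog (P ∪ σ) W (⟨v, t⟩ : ℂ) := by
    intro t hn
    apply hout
    rintro ⟨w, hw, he⟩
    have e1 : (Ψ w).re = v := congrArg Complex.re he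
    have e2 : (Ψ w).im - φ (Ψ w).re = t := congrArg Complex.im he
    refine hn ⟨w, hw, Complex.ext e1 ?_⟩
    rw [e1] at e2
    show (Ψ w).im = φ v + t
    linarith
  have hseg : ∀ c d : ℝ, ∀ t ∈ Icc c d, (0 : ℝ) ∈ Icc c d → SLHasLog (P ∪ σ) W (⟨v, t⟩ : ℂ) →
      ∃ p ∈ P, (Ψ p).re = v ∧ (Ψ p).im - φ (Ψ p).re ∈ Icc c d ∧ (Ψ p).im - φ (Ψ p).re ≠ 0 := by
    intro c d t ht h0 hl
    by_contra hcon
    apply hal v hv
    refine (sl_conn hZ hWZ (sl_vert v c d) ?_ ⟨t, ht, rfl⟩ ⟨0, h0, rfl⟩).1 hl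
    rintro _ ⟨x, hx, rfl⟩ hm
    obtain ⟨p, hp, e1, e2, e3⟩ := hhit v x (har v hv).1 (har v hv).2 hm
    exact hcon ⟨p, hp, e1, e2 ▸ hx, e2 ▸ e3⟩
  obtain ⟨p₁, hp₁, a1, a2, a3⟩ := hseg 0 κ t₁ ⟨ht₁.1.le, ht₁.2⟩ ⟨le_rfl, hκ.le⟩ (hoff t₁ hn₁)
  obtain ⟨p₂, hp₂, b1, b2, b3⟩ :=
    hseg (-κ) 0 t₂ ⟨ht₂.1, ht₂.2.le⟩ ⟨by linarith, le_rfl⟩ (hoff t₂ hn₂)
  refine ⟨p₁, hp₁, p₂, hp₂, a1.trans b1.symm, ?_, ?_, lt_of_le_of_ne a2.1 a3.symm, a2.2,
    lt_of_le_of_ne b2.2 b3, b2.1⟩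
  · rw [a1]; exact (har v hv).1
  · rw [a1]; exact (har v hv).2

end Pool.Agent.Lib.MP_3fe454_an.PD
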