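import Pool.Agent.Lib.MP_3fe454_an.PD.Leaf2
import Pool.Agent.Lib.MP_3fe454_an.PD.SLabs

/-!
The step lemma.
-/

set_option autoImplicit false

open Set Metric Filter Topology MeasureTheory Function
open scoped ComplexConjugate ENNReal

namespace Pool.Agent.Lib.MP_3fe454_an.PD

namespace Blk

variable {F : Dis} (B : Blk F)


theorem step_re_le {z e : ℂ} (he : ‖e‖ = 1) (w : ℂ) : |(co z e w).re| ≤ ‖w - z‖ :=
  (Complex.abs_re_le_norm _).trans_eq (norm_co he w)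

theorem step_ht {z e y : ℂ} (h : (z, e) ∈ B.K) (hy : y ∈ B.S z)
    (hv : |(co z e y).re| ≤ 8 * B.η) (w : ℂ) :
    |B.ht z z e w - (co y e w).im| ≤ B.σ * |(co y e w).re| := by
  have h0 := B.ht_zero (B.adm_self h) hy hv
  have h1 := B.psi_lip_self h (co z e y).re (co z e w).re
  rw [← co_sub z e w y, Complex.sub_im, Complex.sub_re, abs_sub_comm (co z e w).re]
  unfold ht at h0 ⊢
  rw [show (co z e w).im - B.psi z z e (co z e w).re - ((co z e w).im - (co z e y).im) =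
    B.psi z z e (co z e y).re - B.psi z z e (co z e w).re by linarith]
  exact h1

theorem step_iter_mem {x e y : ℂ} (h : (x, e) ∈ B.K) (hy : y ∈ B.S x) (hn : ‖y - x‖ ≤ 12 * B.η)
    (s : ℕ) : F.f^[s] y ∈ B.S (F.f^[s] x) := by
  intro t
  rw [← iterate_add_apply, ← iterate_add_apply]
  refine (B.contr x e h y hy x (B.self_mem_S x) (t + s)).trans ?_
  have h1 : B.θ ^ (t + s) ≤ B.θ ^ t :=
    pow_le_pow_of_le_one B.θ_pos.le B.θ_lt.le (Nat.le_add_right t s)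
  have h2 : B.C1 * ‖y - x‖ ≤ B.r := by
    have := B.scale
    have := B.one_le_C1
    have := B.η_pos
    nlinarith
  exact mul_le_mul h2 h1 (pow_pos B.θ_pos _).le ((mul_nonneg (zero_le_one.trans B.one_le_C1)
    (norm_nonneg _)).trans h2)

theorem step_near {x e y : ℂ} (h : (x, e) ∈ B.K) (hy : y ∈ B.S x) (hn : ‖y - x‖ ≤ 12 * B.η)
    {s : ℕ} (hs : B.C1 * B.θ ^ s ≤ 1 / 384) : ‖F.f^[s] y - F.f^[s] x‖ ≤ B.η / 32 := by
  refine (B.contr x e h y hy x (B.self_mem_S x) s).trans ?_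
  have h1 : 0 ≤ B.C1 * B.θ ^ s := mul_nonneg (zero_le_one.trans B.one_le_C1) (pow_pos B.θ_pos _).le
  have h2 := mul_le_mul hn hs h1 (by linarith [B.η_pos])
  linarith

theorem step_seg {x e y q : ℂ} (h : (x, e) ∈ B.K) (hy : y ∈ B.S x) (hn : ‖y - x‖ ≤ 8 * B.η)
    (hc : |(co y e q).re| ≤ |(co y e q).im|) {s : ℕ} (hq : B.C2 * B.G ^ s * ‖q - y‖ ≤ B.η / 32)
    (hs : B.C1 * B.θ ^ s ≤ 1 / 384) {w : ℂ} (hw : w ∈ segment ℝ y q) :
    ‖F.f^[s] w - F.f^[s] x‖ ≤ B.η / 16 := by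
  have hη := B.η_pos
  rw [segment_eq_image'] at hw
  obtain ⟨t, ⟨t0, t1⟩, rfl⟩ := hw
  have e1 : co y e (y + t • (q - y)) = t • co y e q := by
    simp only [co, add_sub_cancel_left, smul_mul_assoc]
  have e2 : B.C2 * B.G ^ s * ‖y + t • (q - y) - y‖ ≤ B.η / 32 := by
    refine le_trans (mul_le_mul_of_nonneg_left ?_ (mul_nonneg (zero_le_one.trans B.one_le_C2)
      (pow_nonneg (zero_le_one.trans B.one_le_G) _))) hq
    rw [add_sub_cancel_left, norm_smul, Real.norm_of_nonneg t0]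
    exact mul_le_of_le_one_left (norm_nonneg _) t1
  have e3 : B.η / 32 ≤ B.r := by
    have := B.scale
    have := B.one_le_C1
    nlinarith
  have h1 := B.tube x e h y hy (by linarith) (y + t • (q - y)) (by
    rw [e1, Complex.smul_re, Complex.smul_im, smul_eq_mul, smul_eq_mul, abs_mul, abs_mul]
    exact mul_le_mul_of_nonneg_left hc (abs_nonneg _)) s (e2.trans e3) s le_rfl
  have h2 := B.step_near h hy (by linarith) hs
  have h3 := norm_sub_le_norm_sub_add_norm_sub (F.f^[s] (y + t • (q - y))) (F.f^[s] y)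
    (F.f^[s] x)
  linarith

theorem step : ∃ (s0 : ℕ) (ξ c0 : ℝ), 0 < ξ ∧ ξ ≤ B.r ∧ 0 < c0 ∧ ∀ x e, (x, e) ∈ B.K →
    ∀ s ≥ s0, F.f^[s] x ∈ B.P → ∀ P : Set ℂ, IsCompact P → IsPreconnected P → P ⊆ Disc →
      ∀ (κ : ℝ) (q₁ q₂ : ℂ), q₁ ∈ P → q₂ ∈ P → B.Up x e κ q₁ → B.Up x (-e) κ q₂ →
        B.C2 * B.G ^ s * κ ≤ ξ → (∀ w ∈ P, F.f^[s] w ∉ B.S (F.f^[s] x)) →
        ∃ e', (F.f^[s] x, e') ∈ B.K ∧ ‖F.f^[s] q₁ - F.f^[s] x‖ ≤ B.η / 8 ∧
          ∃ p₁ ∈ P, ∃ p₂ ∈ P,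
            B.η / 2 ≤ |(co (F.f^[s] x) e' (F.f^[s] p₁)).re| ∧
            |(co (F.f^[s] x) e' (F.f^[s] p₁)).re| ≤ B.η ∧
            |(co (F.f^[s] x) e' (F.f^[s] p₂)).re| ≤ B.η ∧
            0 < B.ht (F.f^[s] x) (F.f^[s] x) e' (F.f^[s] p₁) ∧
            B.ht (F.f^[s] x) (F.f^[s] x) e' (F.f^[s] p₁) ≤ c0 * F.b ^ s ∧
            B.ht (F.f^[s] x) (F.f^[s] x) e' (F.f^[s] p₂) < 0 ∧
            -(c0 * F.b ^ s) ≤ B.ht (F.f^[s] x) (F.f^[s] x) e' (F.f^[s] p₂) := by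
  have hη := B.η_pos
  have hr : B.η / 32 ≤ B.r := by
    have := B.scale
    have := B.one_le_C1
    nlinarith
  obtain ⟨s0, hs0⟩ := eventually_atTop.1 (((tendsto_pow_atTop_nhds_zero_of_lt_one B.θ_pos.le
    B.θ_lt).const_mul B.C1).eventually (ge_mem_nhds (show B.C1 * 0 < 1 / 384 by norm_num)))
  refine ⟨s0, B.η / 32, 8 * Real.pi / B.η, by positivity, hr, by positivity, ?_⟩
  intro x e hK s hs hP P P1 P2 P3 κ q₁ q₂ hq₁ hq₂ ⟨y₁, a1, a2, a3, a4, a5⟩ ⟨y₂, b1, b2, b3, b4, b5⟩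
    hκ hav
  have hθ := hs0 s hs
  have he : ‖e‖ = 1 := B.unit _ hK
  have hx : x ∈ F.Λ := B.lam _ hK
  have hA := B.adm_self hK
  obtain ⟨e', hK', hside⟩ := B.side x e hK s (by
    obtain ⟨⟨z, e'⟩, h1, h2⟩ := hP
    exact ⟨e', by rw [← h2]; exact h1⟩)
  have he' : ‖e'‖ = 1 := B.unit _ hK'
  have hA' := B.adm_self hK'
  have hCG : 0 ≤ B.C2 * B.G ^ s :=
    mul_nonneg (zero_le_one.trans B.one_le_C2) (pow_nonneg (zero_le_one.trans B.one_le_G) _)
  have a6 : B.C2 * B.G ^ s * ‖q₁ - y₁‖ ≤ B.η / 32 := (mul_le_mul_of_nonneg_left a5 hCG).trans hκ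
  have b6 : B.C2 * B.G ^ s * ‖q₂ - y₂‖ ≤ B.η / 32 := (mul_le_mul_of_nonneg_left b5 hCG).trans hκ
  rw [co_neg, Complex.neg_im] at b4
  rw [co_neg, Complex.neg_im, Complex.neg_re, abs_neg] at b3
  have a7 : |(co y₁ e q₁).re| ≤ |(co y₁ e q₁).im| := a3.trans (le_abs_self _)
  have b7 : |(co y₂ e q₂).re| ≤ |(co y₂ e q₂).im| := b3.trans (neg_le_abs _)
  have a8 : |(co x e y₁).re| ≤ 8 * B.η := (step_re_le he _).trans a2
  have b8 : |(co x e y₂).re| ≤ 8 * B.η := (step_re_le he _).trans b2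
  have a9 := B.eq_lf he (B.ht_zero hA a1 a8)
  have b9 := B.eq_lf he (B.ht_zero hA b1 b8)
  have hv : ∀ v ∈ uIcc (co x e y₁).re (co x e y₂).re, |v| ≤ 8 * B.η := fun v hv => by
    rw [abs_le] at a8 b8 ⊢
    exact uIcc_subset_Icc a8 b8 hv
  have hl : ∀ v ∈ uIcc (co x e y₁).re (co x e y₂).re, ‖B.lf x x e v - x‖ ≤ 12 * B.η :=
    fun v h => by
      have h1 := B.lf_near hA v
      rw [show (co x e x).re = 0 by simp [co], sub_zero] at h1
      linarith [hv v h]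
  have hD : ∀ y ∈ B.S x, y ∈ Disc := fun y hy =>
    mem_closedBall_zero_iff.2 (B.S_norm hx hy).le
  have hq : ∀ {y q : ℂ}, y ∈ B.S x → ‖y - x‖ ≤ 8 * B.η → |(co y e q).re| ≤ |(co y e q).im| →
      B.C2 * B.G ^ s * ‖q - y‖ ≤ B.η / 32 → (co y e q).im ≠ 0 →
      0 < (co y e q).im * B.ht (F.f^[s] x) (F.f^[s] x) e' (F.f^[s] q) := by
    intro y q c1 c2 c3 c4 c5
    obtain ⟨d1, d2⟩ := hside y c1 (by linarith) q (by
      rintro rfl
      exact c5 (by simp [co])) c3 (c4.trans hr)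
    have d3 := B.step_ht hK' (B.step_iter_mem hK c1 (by linarith) s) ((step_re_le he' _).trans
      ((B.step_near hK c1 (by linarith) hθ).trans (by linarith))) (F.f^[s] q)
    generalize B.ht (F.f^[s] x) (F.f^[s] x) e' (F.f^[s] q) = h at d3 ⊢
    generalize (co (F.f^[s] y) e' (F.f^[s] q)).im = u at d1 d2 d3
    have d4 : |h - u| ≤ |u| / 2 := by linarith
    rcases pos_and_pos_or_neg_and_neg_of_mul_pos d2 with ⟨d5, d6⟩ | ⟨d5, d6⟩
    · rw [abs_of_pos d6, abs_le] at d4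
      exact mul_pos d5 (by linarith)
    · rw [abs_of_neg d6, abs_le] at d4
      exact mul_pos_of_neg_of_neg d5 (by linarith)
  have hσ : ∀ w ∈ segment ℝ y₁ q₁ ∪ B.lf x x e '' uIcc (co x e y₁).re (co x e y₂).re ∪
      segment ℝ y₂ q₂, ‖F.f^[s] w - F.f^[s] x‖ ≤ B.η / 16 := by
    rintro w ((hw | ⟨v, hw, rfl⟩) | hw)
    · exact B.step_seg hK a1 a2 a7 a6 hθ hw
    · exact (B.step_near hK (B.lf_mem hA (hv v hw)) (hl v hw) hθ).trans (by linarith)
    · exact B.step_seg hK b1 b2 b7 b6 hθ hw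
  have hseg : ∀ y q : ℂ, IsCompact (segment ℝ y q) := fun y q => by
    rw [segment_eq_image']
    exact isCompact_Icc.image (by fun_prop)
  have hb : 0 < F.b ^ s := pow_pos F.b_pos s
  obtain ⟨p₁, c1, p₂, c2, c3, c4, c5, c6, c7, c8, c9⟩ := sl_abs
    (Ψ := fun w => co (F.f^[s] x) e' (F.f^[s] w)) (φ := B.psi (F.f^[s] x) (F.f^[s] x) e')
    (σ := segment ℝ y₁ q₁ ∪ B.lf x x e '' uIcc (co x e y₁).re (co x e y₂).re ∪ segment ℝ y₂ q₂)
    (κ := 8 * Real.pi / B.η * F.b ^ s) (q₁ := q₁) (q₂ := q₂)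
    ((continuous_co _ _).comp (F.cf.iterate s)).continuousOn (B.continuous_psi hA') hη
    (by positivity) P1 P2 P3
    (((hseg _ _).union (isCompact_uIcc.image (B.continuous_lf hA))).union (hseg _ _))
    (((convex_segment y₁ q₁).isPreconnected.union y₁ (left_mem_segment _ _ _)
      ((mem_image _ _ _).2 ⟨_, left_mem_uIcc, a9.symm⟩) (isPreconnected_uIcc.image _
        (B.continuous_lf hA).continuousOn)).union y₂ (Or.inr ⟨_, right_mem_uIcc, b9.symm⟩)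
          (left_mem_segment _ _ _) (convex_segment y₂ q₂).isPreconnected)
    (union_subset (union_subset ((convex_closedBall _ _).segment_subset (hD _ a1) (P3 hq₁))
      (image_subset_iff.2 fun v h => hD _ (B.lf_mem hA (hv v h))))
      ((convex_closedBall _ _).segment_subset (hD _ b1) (P3 hq₂)))
    ⟨hq₁, Or.inl (Or.inl (right_mem_segment _ _ _))⟩ ⟨hq₂, Or.inr (right_mem_segment _ _ _)⟩
    (sub_pos.1 ((mul_pos_iff_of_pos_left a4).1 (hq a1 a2 a7 a6 a4.ne')))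
    (sub_neg.1 (neg_of_mul_pos_right (hq b1 b2 b7 b6 (neg_pos.1 b4).ne) (neg_pos.1 b4).le))
    (fun w hw => ⟨((step_re_le he' _).trans (hσ w hw)).trans_lt (by linarith),
      (B.abs_ht_le hA' _).trans_lt (by linarith [hσ w hw])⟩)
    (fun w hw h1 h2 => hav w hw (by
      rw [B.eq_lf (x := F.f^[s] x) (z0 := F.f^[s] x) (w := F.f^[s] w) he' (sub_eq_zero.2 h2)]
      exact B.lf_mem hA' (h1.trans (by linarith))))
    (by
      rw [show (fun w => co (F.f^[s] x) e' (F.f^[s] w)) '' Disc = co (F.f^[s] x) e' '' F.Ω s from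
        (image_image _ _ _).symm, volume_co_image he']
      refine (F.volume_Ω s).trans_lt ((ENNReal.ofReal_lt_ofReal_iff (by positivity)).2 ?_)
      have : B.η / 2 * (8 * Real.pi / B.η * F.b ^ s) = 4 * (Real.pi * F.b ^ s) := by
        field_simp
        ring
      rw [this]
      linarith [mul_pos Real.pi_pos hb])
  exact ⟨e', hK', (hσ q₁ (Or.inl (Or.inl (right_mem_segment _ _ _)))).trans (by linarith),
    p₁, c1, p₂, c2, c4, c5, c3 ▸ c5, c6, c7, c8, c9⟩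

theorem small_prod (c : ℝ) {ξ : ℝ} (hξ : 0 < ξ) :
    ∃ N : ℕ, ∀ s ≥ N, ∀ t : ℕ, t ≤ 64 * s → c * B.G ^ t * F.b ^ s ≤ ξ := by
  have hG : 0 ≤ B.G := zero_le_one.trans B.one_le_G
  have h0 : 0 ≤ B.G ^ 64 * F.b := mul_nonneg (pow_nonneg hG _) F.b_pos.le
  have h1 : B.G ^ 64 * F.b < 1 := by
    refine (pow_lt_one_iff_of_nonneg h0 two_ne_zero).1 ?_
    rw [show (B.G ^ 64 * F.b) ^ 2 = B.G ^ 128 * F.b * F.b by ring]
    exact (mul_le_of_le_one_left F.b_pos.le B.neutral).trans_lt F.b_lt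
  obtain ⟨N, hN⟩ := eventually_atTop.1 (((tendsto_pow_atTop_nhds_zero_of_lt_one h0
    h1).const_mul |c|).eventually (ge_mem_nhds (show |c| * 0 < ξ by simpa using hξ)))
  refine ⟨N, fun s hs t ht => le_trans ?_ (hN s hs)⟩
  rw [mul_pow, ← pow_mul, ← mul_assoc]
  exact mul_le_mul_of_nonneg_right (mul_le_mul (le_abs_self c) (pow_le_pow_right₀ B.one_le_G ht)
    (pow_nonneg hG _) (abs_nonneg _)) (pow_pos F.b_pos s).le


end Blk

end Pool.Agent.Lib.MP_3fe454_an.PD
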