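import Pool.Agent.Lib.MP_3fe454_an.PD.Chart

/-!
Bounds for products along good orbits and for the cone sequences.
-/

set_option autoImplicit false

open Set Metric Filter Topology MeasureTheory Function
open scoped ComplexConjugate ENNReal

namespace Pool.Agent.Lib.MP_3fe454_an.PD

private theorem bd_shift_nat {u : ℤ → ℝ} {l ε C : ℝ} (s : ℕ) (h : Bd (fun t => u (t + s)) l ε C)
    {a b : ℕ} (hab : a ≤ b) :
    |∑ i ∈ Finset.Ico a b, u i - l * ((b : ℝ) - a)| ≤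
      ε * (|(a : ℝ) - s| + |(b : ℝ) - s|) + C := by
  have h1 := h ((a : ℤ) - s) ((b : ℤ) - s) (by omega)
  have h2 : ∑ t ∈ Finset.Ico ((a : ℤ) - s) ((b : ℤ) - s), (u (t + s) - l) =
      ∑ i ∈ Finset.Ico a b, (u i - l) := by
    symm
    refine Finset.sum_nbij' (fun i : ℕ => (i : ℤ) - s) (fun t : ℤ => (t + s).toNat) ?_ ?_ ?_ ?_ ?_
    · intro i hi
      simp only [Finset.mem_Ico] at hi ⊢
      omega
    · intro t ht
      simp only [Finset.mem_Ico] at ht ⊢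
      omega
    · intro i _
      simp
    · intro t ht
      simp only [Finset.mem_Ico] at ht
      omega
    · intro i _
      simp
  simp only at h1
  rw [h2, Finset.sum_sub_distrib, Finset.sum_const, Nat.card_Ico, nsmul_eq_mul,
    Nat.cast_sub hab] at h1
  push_cast at h1
  rwa [mul_comm l]

private theorem bd_nat {u : ℤ → ℝ} {l ε C : ℝ} (h : Bd u l ε C) {a b : ℕ} (hab : a ≤ b) :
    |∑ i ∈ Finset.Ico a b, u i - l * ((b : ℝ) - a)| ≤ ε * ((a : ℝ) + b) + C := by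
  have h0 : Bd (fun t => u (t + ((0 : ℕ) : ℤ))) l ε C := by simpa using h
  have h1 := bd_shift_nat 0 h0 hab
  simpa using h1

private theorem exp_neg_two_le {δ : ℝ} (h0 : 0 ≤ δ) (h1 : δ ≤ 1 / 2) : Real.exp (-(2 * δ)) ≤ 1 - δ := by
  have h2 : 2 * δ + 1 ≤ Real.exp (2 * δ) := Real.add_one_le_exp _
  rw [Real.exp_neg, inv_le_comm₀ (Real.exp_pos _) (by linarith)]
  refine le_trans ?_ h2
  rw [inv_le_iff_one_le_mul₀ (by linarith)]
  nlinarith

private theorem geom_exp_le {c : ℝ} (hc : 0 < c) (t : ℕ) :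
    ∑ i ∈ Finset.range t, Real.exp (-c * ((t : ℝ) - ((i + 1 : ℕ) : ℝ))) ≤
      1 / (1 - Real.exp (-c)) := by
  have hθ : Real.exp (-c) < 1 := Real.exp_lt_one_iff.2 (by linarith)
  have hθ0 : 0 < Real.exp (-c) := Real.exp_pos _
  induction t with
  | zero =>
    simp only [Finset.range_zero, Finset.sum_empty]
    exact div_nonneg zero_le_one (by linarith)
  | succ t ih =>
    rw [Finset.sum_range_succ]
    have h1 : ∑ i ∈ Finset.range t, Real.exp (-c * (((t + 1 : ℕ) : ℝ) - ((i + 1 : ℕ) : ℝ))) =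
        Real.exp (-c) *
          ∑ i ∈ Finset.range t, Real.exp (-c * ((t : ℝ) - ((i + 1 : ℕ) : ℝ))) := by
      rw [Finset.mul_sum]
      refine Finset.sum_congr rfl fun i _ => ?_
      rw [← Real.exp_add]
      congr 1
      push_cast
      ring
    rw [h1, sub_self, mul_zero, Real.exp_zero]
    have h2 : Real.exp (-c) * (1 / (1 - Real.exp (-c))) + 1 = 1 / (1 - Real.exp (-c)) := by
      have : (1 - Real.exp (-c)) ≠ 0 := by linarith
      field_simp
      ring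
    have h3 := mul_le_mul_of_nonneg_left ih hθ0.le
    linarith

namespace Dis

variable (F : Dis)

private theorem δ0_le_q : F.δ0 ≤ 1 / 4 := min_le_left _ _

private theorem δ0_le_β : F.δ0 ≤ F.β / 8192 := min_le_right _ _

private theorem ε0_le_β : F.ε0 ≤ F.β / 8192 := by
  have h1 := F.α_le
  have h2 := F.β_pos
  unfold ε0
  nlinarith

private theorem ε0_div_α : F.ε0 / F.α = F.β / 8192 := by
  have h1 := F.α_pos
  unfold ε0
  field_simp

private theorem ca_eq_exp {o : ℤ → ℂ × ℂ} (h : F.IsOrb o) (t : ℤ) :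
    F.ca o t = Real.exp (F.la (o t)) := by
  obtain ⟨h1, -, h3⟩ := F.ca_bd h t
  rw [← h3, Real.exp_log (lt_of_lt_of_le F.m_pos h1)]

private theorem cc_eq_exp {o : ℤ → ℂ × ℂ} (h : F.IsOrb o) (t : ℤ) :
    |F.cc o t| = Real.exp (F.ld (o t) - F.la (o t)) := by
  obtain ⟨h1, -, h3⟩ := F.cc_bd h t
  rw [← h3, Real.exp_log (lt_of_lt_of_le F.m_pos h1)]

private theorem fac_a {o : ℤ → ℂ × ℂ} (h : F.IsOrb o) (t : ℤ) :
    (1 + 2 * F.δ0) * F.ca o t ≤ Real.exp (2 * F.δ0 + F.la (o t)) := by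
  rw [F.ca_eq_exp h, Real.exp_add]
  refine mul_le_mul_of_nonneg_right ?_ (Real.exp_pos _).le
  linarith [Real.add_one_le_exp (2 * F.δ0)]

private theorem fac_c_low {o : ℤ → ℂ × ℂ} (h : F.IsOrb o) (t : ℤ) :
    Real.exp (-(2 * F.δ0) + (F.ld (o t) - F.la (o t))) ≤ (1 - F.δ0) * |F.cc o t| := by
  rw [F.cc_eq_exp h, Real.exp_add]
  refine mul_le_mul_of_nonneg_right ?_ (Real.exp_pos _).le
  exact exp_neg_two_le F.δ0_pos.le (by linarith [F.δ0_le_q])

private theorem fac_c_up {o : ℤ → ℂ × ℂ} (h : F.IsOrb o) (t : ℤ) :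
    (1 + F.δ0) * |F.cc o t| ≤ Real.exp (F.δ0 + (F.ld (o t) - F.la (o t))) := by
  rw [F.cc_eq_exp h, Real.exp_add]
  refine mul_le_mul_of_nonneg_right ?_ (Real.exp_pos _).le
  linarith [Real.add_one_le_exp F.δ0]

theorem prod_a {ls lc C : ℝ} (ha : F.AdmP ls lc) {o : ℤ → ℂ × ℂ} (h : F.Good F.ε0 ls lc C o)
    (t : ℕ) :
    ∏ i ∈ Finset.range t, ((1 + 2 * F.δ0) * F.ca o i) ≤ Real.exp C * F.θ0 ^ t := by
  have hδ := F.δ0_pos
  have h1 : ∏ i ∈ Finset.range t, ((1 + 2 * F.δ0) * F.ca o i) ≤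
      ∏ i ∈ Finset.range t, Real.exp (2 * F.δ0 + F.la (o i)) := by
    refine Finset.prod_le_prod (fun i _ => ?_) fun i _ => F.fac_a h.1 i
    exact mul_nonneg (by linarith) (norm_nonneg _)
  refine h1.trans ?_
  rw [← Real.exp_sum, θ0, ← Real.exp_nat_mul, ← Real.exp_add, Real.exp_le_exp,
    Finset.sum_add_distrib, Finset.sum_const, Finset.card_range, nsmul_eq_mul]
  have h2 := bd_nat h.2.1 (Nat.zero_le t)
  rw [← Finset.range_eq_Ico] at h2
  have h3 := (abs_le.1 h2).2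
  have h4 := F.δ0_le_β
  have h5 := F.ε0_le_β
  have h6 := ha.1
  have h7 := F.β_pos
  have ht : (0 : ℝ) ≤ t := Nat.cast_nonneg t
  have h8 : (2 * F.δ0 + ls + F.ε0) * t ≤ (-F.β / 2) * t :=
    mul_le_mul_of_nonneg_right (by linarith) ht
  simp only [Nat.cast_zero, sub_zero, zero_add] at h3
  nlinarith

private theorem prod_c_Ico_low {o : ℤ → ℂ × ℂ} (h : F.IsOrb o) (a b : ℕ) (hab : a ≤ b) :
    Real.exp (-(2 * F.δ0) * ((b : ℝ) - a) +
        (∑ i ∈ Finset.Ico a b, F.ld (o i) - ∑ i ∈ Finset.Ico a b, F.la (o i))) ≤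
      ∏ i ∈ Finset.Ico a b, ((1 - F.δ0) * |F.cc o i|) := by
  have h1 : ∏ i ∈ Finset.Ico a b, Real.exp (-(2 * F.δ0) + (F.ld (o i) - F.la (o i))) ≤
      ∏ i ∈ Finset.Ico a b, ((1 - F.δ0) * |F.cc o i|) :=
    Finset.prod_le_prod (fun i _ => (Real.exp_pos _).le) fun i _ => F.fac_c_low h i
  refine le_trans (le_of_eq ?_) h1
  rw [← Real.exp_sum, Finset.sum_add_distrib, Finset.sum_sub_distrib, Finset.sum_const,
    Nat.card_Ico, nsmul_eq_mul, Nat.cast_sub hab, mul_comm]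

theorem prod_c_low {ls lc C : ℝ} {o : ℤ → ℂ × ℂ} (h : F.Good F.ε0 ls lc C o) (t : ℕ) :
    Real.exp (-(2 * C)) * Real.exp ((lc - 2 * F.ε0 - 2 * F.δ0) * t) ≤
      ∏ i ∈ Finset.range t, ((1 - F.δ0) * |F.cc o i|) := by
  rw [Finset.range_eq_Ico]
  refine le_trans ?_ (F.prod_c_Ico_low h.1 0 t (Nat.zero_le t))
  rw [← Real.exp_add, Real.exp_le_exp]
  have h2 := (abs_le.1 (bd_nat h.2.1 (Nat.zero_le t))).2
  have h3 := (abs_le.1 (bd_nat h.2.2 (Nat.zero_le t))).1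
  simp only [Nat.cast_zero, sub_zero, zero_add] at h2 h3 ⊢
  nlinarith

theorem prod_c_up {ls lc C : ℝ} {o : ℤ → ℂ × ℂ} (h : F.Good F.ε0 ls lc C o) (t : ℕ) :
    ∏ i ∈ Finset.range t, ((1 + F.δ0) * |F.cc o i|) ≤
      Real.exp (2 * C) * Real.exp ((lc + 2 * F.ε0 + F.δ0) * t) := by
  have hδ := F.δ0_pos
  have h1 : ∏ i ∈ Finset.range t, ((1 + F.δ0) * |F.cc o i|) ≤
      ∏ i ∈ Finset.range t, Real.exp (F.δ0 + (F.ld (o i) - F.la (o i))) := by
    refine Finset.prod_le_prod (fun i _ => ?_) fun i _ => F.fac_c_up h.1 i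
    exact mul_nonneg (by linarith) (abs_nonneg _)
  refine h1.trans ?_
  rw [← Real.exp_sum, ← Real.exp_add, Real.exp_le_exp, Finset.sum_add_distrib,
    Finset.sum_sub_distrib, Finset.sum_const, Finset.card_range, nsmul_eq_mul,
    Finset.range_eq_Ico]
  have h2 := (abs_le.1 (bd_nat h.2.1 (Nat.zero_le t))).1
  have h3 := (abs_le.1 (bd_nat h.2.2 (Nat.zero_le t))).2
  simp only [Nat.cast_zero, sub_zero, zero_add] at h2 h3 ⊢
  nlinarith

private theorem isOrb_of_shift_ca {o : ℤ → ℂ × ℂ} (s : ℕ) (h : F.IsOrb fun i => o (i + s)) :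
    F.IsOrb o := by
  intro t
  have h1 := h (t - s)
  have e1 : t - s + s = t := by ring
  have e2 : t - s + 1 + s = t + 1 := by ring
  simpa only [e1, e2] using h1

theorem prod_c_back {ls lc C : ℝ} {o : ℤ → ℂ × ℂ} (s : ℕ)
    (h : F.Good F.ε0 ls lc C fun i => o (i + s)) {t : ℕ} (ht : t ≤ s) :
    Real.exp (-(2 * C)) * Real.exp ((lc - 2 * F.ε0 - 2 * F.δ0) * ((s : ℝ) - t)) ≤
      ∏ i ∈ Finset.Ico t s, ((1 - F.δ0) * |F.cc o i|) := by
  refine le_trans ?_ (F.prod_c_Ico_low (F.isOrb_of_shift_ca s h.1) t s ht)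
  rw [← Real.exp_add, Real.exp_le_exp]
  have h2 := (abs_le.1 (bd_shift_nat (u := fun i => F.la (o i)) s h.2.1 ht)).2
  have h3 := (abs_le.1 (bd_shift_nat (u := fun i => F.ld (o i)) s h.2.2 ht)).1
  have hts : (t : ℝ) ≤ s := by exact_mod_cast ht
  have e1 : |(t : ℝ) - s| = s - t := by rw [abs_sub_comm, abs_of_nonneg (by linarith)]
  rw [e1, sub_self, abs_zero, add_zero] at h2 h3
  nlinarith

/-- logarithmic bound of the cone ratio -/
private noncomputable def wt (o : ℤ → ℂ × ℂ) (t : ℕ) : ℝ :=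
  ∑ i ∈ Finset.range t, (4 * F.δ0 + (2 * F.la (o i) - F.ld (o i)))

/-- bound of the additive term -/
private noncomputable def Bq : ℝ := (F.M * F.Θmin + 2 * F.M) / ((1 - F.δ0) * F.m)

private theorem Bq_nonneg : 0 ≤ F.Bq := by
  have h1 := F.one_le_M
  have h2 := F.one_le_Θmin
  have h3 := F.δ0_le_q
  have h4 := F.m_pos
  unfold Bq
  refine div_nonneg (by nlinarith) (mul_nonneg (by linarith) h4.le)

private theorem Th_step {o : ℤ → ℂ × ℂ} (h : F.IsOrb o) {x0 : ℝ} (hx : 0 ≤ x0) (t : ℕ) :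
    F.Th o x0 (t + 1) ≤
      Real.exp (4 * F.δ0 + (2 * F.la (o t) - F.ld (o t))) * F.Th o x0 t + F.Bq := by
  have h1 := F.fac_a h t
  have h2 := F.fac_c_low h t
  have h3 := F.Th_nonneg h hx t
  have h4 := (F.cc_bd h t).1
  have h5 := F.δ0_le_q
  have h6 := F.m_pos
  have h7 := F.one_le_M
  have h8 := F.one_le_Θmin
  have hd : 0 < (1 - F.δ0) * |F.cc o t| := mul_pos (by linarith) (by linarith)
  rw [Th, add_div]
  refine add_le_add ?_ ?_
  · rw [div_le_iff₀ hd]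
    have h9 : Real.exp (2 * F.δ0 + F.la (o t)) =
        Real.exp (4 * F.δ0 + (2 * F.la (o t) - F.ld (o t))) *
          Real.exp (-(2 * F.δ0) + (F.ld (o t) - F.la (o t))) := by
      rw [← Real.exp_add]
      congr 1
      ring
    have h10 : (1 + 2 * F.δ0) * F.ca o t ≤
        Real.exp (4 * F.δ0 + (2 * F.la (o t) - F.ld (o t))) * ((1 - F.δ0) * |F.cc o t|) := by
      refine h1.trans ?_
      rw [h9]
      exact mul_le_mul_of_nonneg_left h2 (Real.exp_pos _).le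
    have h11 := mul_le_mul_of_nonneg_right h10 h3
    linarith
  · unfold Bq
    refine div_le_div_of_nonneg_left (by nlinarith) (mul_pos (by linarith) h6) ?_
    exact mul_le_mul_of_nonneg_left h4 (by linarith)

private theorem Th_sum {o : ℤ → ℂ × ℂ} (h : F.IsOrb o) {x0 : ℝ} (hx : 0 ≤ x0) (t : ℕ) :
    F.Th o x0 t ≤ x0 * Real.exp (F.wt o t) +
      F.Bq * ∑ i ∈ Finset.range t, Real.exp (F.wt o t - F.wt o (i + 1)) := by
  induction t with
  | zero => simp [Th, wt]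
  | succ t ih =>
    have h1 := F.Th_step h hx t
    set w := 4 * F.δ0 + (2 * F.la (o t) - F.ld (o t)) with hw
    have e1 : F.wt o (t + 1) = F.wt o t + w := by
      rw [wt, Finset.sum_range_succ]
      rfl
    have e2 : ∑ i ∈ Finset.range t, Real.exp (F.wt o (t + 1) - F.wt o (i + 1)) =
        Real.exp w * ∑ i ∈ Finset.range t, Real.exp (F.wt o t - F.wt o (i + 1)) := by
      rw [Finset.mul_sum]
      refine Finset.sum_congr rfl fun i _ => ?_
      rw [← Real.exp_add, e1]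
      congr 1
      ring
    rw [Finset.sum_range_succ, e2, sub_self, Real.exp_zero, e1, Real.exp_add]
    have h2 := mul_le_mul_of_nonneg_left ih (Real.exp_pos w).le
    nlinarith

private theorem Th_gen {o : ℤ → ℂ × ℂ} (h : F.IsOrb o) {x0 : ℝ} (hx : 0 ≤ x0) (t : ℕ) {Z : ℝ}
    (hZ : ∀ a ≤ t, F.wt o t - F.wt o a ≤ -(F.β / 2) * ((t : ℝ) - a) + Z) :
    F.Th o x0 t ≤ Real.exp Z *
      (x0 * Real.exp (-F.β / 2 * t) + F.Bq * (1 / (1 - Real.exp (-(F.β / 2))))) := by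
  have h1 := F.Th_sum h hx t
  have h2 : Real.exp (F.wt o t) ≤ Real.exp Z * Real.exp (-F.β / 2 * t) := by
    rw [← Real.exp_add, Real.exp_le_exp]
    have h3 := hZ 0 (Nat.zero_le t)
    simp only [wt, Finset.range_zero, Finset.sum_empty, Nat.cast_zero, sub_zero] at h3 ⊢
    linarith
  have h3 : ∑ i ∈ Finset.range t, Real.exp (F.wt o t - F.wt o (i + 1)) ≤
      Real.exp Z * (1 / (1 - Real.exp (-(F.β / 2)))) := by
    refine le_trans ?_ (mul_le_mul_of_nonneg_left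
      (geom_exp_le (half_pos F.β_pos) t) (Real.exp_pos Z).le)
    rw [Finset.mul_sum]
    refine Finset.sum_le_sum fun i hi => ?_
    rw [← Real.exp_add, Real.exp_le_exp]
    have h4 := hZ (i + 1) (Finset.mem_range.1 hi)
    linarith
  have h4 := mul_le_mul_of_nonneg_left h2 hx
  have h5 := mul_le_mul_of_nonneg_left h3 F.Bq_nonneg
  nlinarith

private theorem wt_sub {o : ℤ → ℂ × ℂ} {a t : ℕ} (hat : a ≤ t) :
    F.wt o t - F.wt o a = 4 * F.δ0 * ((t : ℝ) - a) +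
      (2 * ∑ i ∈ Finset.Ico a t, F.la (o i) - ∑ i ∈ Finset.Ico a t, F.ld (o i)) := by
  rw [wt, wt, ← Finset.sum_Ico_eq_sub _ hat, Finset.sum_add_distrib, Finset.sum_sub_distrib,
    Finset.sum_const, Nat.card_Ico, nsmul_eq_mul, Nat.cast_sub hat, ← Finset.mul_sum, mul_comm]

theorem exists_ThBd {ls lc : ℝ} (ha : F.AdmP ls lc) (C : ℝ) : ∃ A, F.ThBd ls lc C A := by
  have hβ := F.β_pos
  have hε := F.ε0_pos
  have hδ := F.δ0_le_β
  have hεβ := F.ε0_le_β
  have hls := ha.1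
  have hlc := ha.2
  set G := F.Bq * (1 / (1 - Real.exp (-(F.β / 2)))) with hG
  have hG0 : 0 ≤ G := by
    have : Real.exp (-(F.β / 2)) < 1 := Real.exp_lt_one_iff.2 (by linarith)
    exact mul_nonneg F.Bq_nonneg (div_nonneg zero_le_one (by linarith))
  set A := max 1 (Real.exp (3 * C) * (1 + G)) with hA
  have hA1 : Real.exp (3 * C) * (1 + G) ≤ A := le_max_right _ _
  have hE := Real.exp_pos (3 * C)
  have key : ∀ y : ℝ, 0 ≤ y → Real.exp (3 * C) * (y + G) ≤ A * (1 + y) := by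
    intro y hy
    have h1 := mul_le_mul_of_nonneg_right hA1 (show 0 ≤ 1 + y by linarith)
    have h2 : y + G ≤ (1 + G) * (1 + y) := by nlinarith
    have h3 := mul_le_mul_of_nonneg_left h2 hE.le
    nlinarith
  have key2 : ∀ (x0 Y : ℝ) (t : ℕ), 0 ≤ x0 →
      Real.exp (Y + 3 * C) * (x0 * Real.exp (-F.β / 2 * t) + G) ≤
        A * (1 + x0) * Real.exp Y := by
    intro x0 Y t hx
    have h1 : Real.exp (-F.β / 2 * t) ≤ 1 := by
      rw [Real.exp_le_one_iff]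
      have ht : (0 : ℝ) ≤ t := Nat.cast_nonneg t
      nlinarith
    have h2 : x0 * Real.exp (-F.β / 2 * t) + G ≤ x0 + G := by nlinarith
    have h3 := mul_le_mul_of_nonneg_left h2 (Real.exp_pos (Y + 3 * C)).le
    have h4 := mul_le_mul_of_nonneg_right (key x0 hx) (Real.exp_pos Y).le
    rw [Real.exp_add] at h3 ⊢
    nlinarith
  refine ⟨A, le_max_left _ _, fun o ho x0 hx => ⟨fun t => ?_, fun s hs => ?_⟩⟩
  · refine le_trans (F.Th_gen ho.1 hx t (Z := 6 * F.ε0 * t + 3 * C) fun a hat => ?_)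
      (key2 x0 _ t hx)
    rw [F.wt_sub hat]
    have h2 := (abs_le.1 (bd_nat ho.2.1 hat)).2
    have h3 := (abs_le.1 (bd_nat ho.2.2 hat)).1
    have hat' : (0 : ℝ) ≤ (t : ℝ) - a := by
      have : (a : ℝ) ≤ t := by exact_mod_cast hat
      linarith
    have h4 : (4 * F.δ0 + ls - lc) * ((t : ℝ) - a) ≤ -(F.β / 2) * ((t : ℝ) - a) :=
      mul_le_mul_of_nonneg_right (by linarith) hat'
    have h5 := mul_nonneg hε.le hat'
    nlinarith
  · have hZ : ∀ t ≤ s, ∀ a ≤ t, F.wt o t - F.wt o a ≤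
        -(F.β / 2) * ((t : ℝ) - a) + (6 * F.ε0 * ((s : ℝ) - t) + 3 * C) := by
      intro t ht a hat
      rw [F.wt_sub hat]
      have h2 := (abs_le.1 (bd_shift_nat (u := fun i => F.la (o i)) s hs.2.1 hat)).2
      have h3 := (abs_le.1 (bd_shift_nat (u := fun i => F.ld (o i)) s hs.2.2 hat)).1
      have hat1 : (a : ℝ) ≤ t := by exact_mod_cast hat
      have hts : (t : ℝ) ≤ s := by exact_mod_cast ht
      have e1 : |(a : ℝ) - s| = s - a := by rw [abs_sub_comm, abs_of_nonneg (by linarith)]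
      have e2 : |(t : ℝ) - s| = s - t := by rw [abs_sub_comm, abs_of_nonneg (by linarith)]
      rw [e1, e2] at h2 h3
      have h4 : (4 * F.δ0 + ls - lc + 3 * F.ε0) * ((t : ℝ) - a) ≤
          -(F.β / 2) * ((t : ℝ) - a) :=
        mul_le_mul_of_nonneg_right (by linarith) (by linarith)
      nlinarith
    refine ⟨fun t ht => le_trans (F.Th_gen ho.1 hx t (hZ t ht)) (key2 x0 _ t hx), ?_⟩
    have h1 := F.Th_gen ho.1 hx s (hZ s le_rfl)
    rw [sub_self, mul_zero, zero_add] at h1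
    exact h1.trans (key _ (mul_nonneg hx (Real.exp_pos _).le))

theorem exists_Small {ls lc C A : ℝ} (hA : F.ThBd ls lc C A) {σ : ℝ} (hσ : 0 < σ)
    (hσ' : F.Θmin ≤ 1 / σ) : ∃ r, F.Small ls lc C σ r := by
  have hα := F.α_pos
  have hH := F.H_pos
  have hA1 := hA.1
  have hσ1 : 0 ≤ 1 / σ := by positivity
  set N := 1 + A * (1 + 1 / σ) with hN
  have hN0 : 0 < N := by positivity
  set q := F.δ0 * F.m / (F.H * N) with hq
  have hq0 : 0 < q := div_pos (mul_pos F.δ0_pos F.m_pos) (mul_pos hH hN0)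
  set r := min ((1 - F.r0) / 2) (q ^ (1 / F.α) / 2) with hr
  have hr0 : 0 < r := lt_min (by linarith [F.r0_lt]) (half_pos (Real.rpow_pos_of_pos hq0 _))
  refine ⟨r, hσ, hσ', hr0, min_le_left _ _, fun o ho t => ?_⟩
  have h1 : (2 * r) ^ F.α ≤ q := by
    have h2 : 2 * r ≤ q ^ (1 / F.α) := by
      have := min_le_right ((1 - F.r0) / 2) (q ^ (1 / F.α) / 2)
      linarith
    refine (Real.rpow_le_rpow (by linarith) h2 hα.le).trans (le_of_eq ?_)
    rw [← Real.rpow_mul hq0.le, one_div_mul_cancel hα.ne', Real.rpow_one]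
  have h2 : (F.θ1 ^ t) ^ F.α = Real.exp (-(6 * F.ε0 * t)) := by
    rw [θ1, ← Real.exp_nat_mul, ← Real.exp_mul]
    congr 1
    field_simp
  have h3 : (2 * r * F.θ1 ^ t) ^ F.α = (2 * r) ^ F.α * Real.exp (-(6 * F.ε0 * t)) := by
    rw [← h2]
    exact Real.mul_rpow (by linarith) (pow_nonneg (Real.exp_pos _).le _)
  have h4 := (hA.2 o ho (1 / σ) hσ1).1 t
  have h5 : 1 ≤ Real.exp (6 * F.ε0 * t) := by
    rw [Real.one_le_exp_iff]
    have := F.ε0_pos
    positivity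
  have h6 : 1 + F.Th o (1 / σ) t ≤ N * Real.exp (6 * F.ε0 * t) := by
    rw [hN]
    nlinarith
  have h7 : Real.exp (-(6 * F.ε0 * t)) * (1 + F.Th o (1 / σ) t) ≤ N := by
    have h8 := mul_le_mul_of_nonneg_left h6 (Real.exp_pos (-(6 * F.ε0 * t))).le
    have h9 : Real.exp (-(6 * F.ε0 * t)) * (N * Real.exp (6 * F.ε0 * t)) = N := by
      rw [mul_comm N, ← mul_assoc, ← Real.exp_add, neg_add_cancel, Real.exp_zero, one_mul]
    linarith
  have h8 : 0 ≤ Real.exp (-(6 * F.ε0 * t)) * (1 + F.Th o (1 / σ) t) :=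
    mul_nonneg (Real.exp_pos _).le (by linarith [F.Th_nonneg ho.1 hσ1 t])
  have h9 : (2 * r) ^ F.α * (Real.exp (-(6 * F.ε0 * t)) * (1 + F.Th o (1 / σ) t)) ≤ q * N :=
    mul_le_mul h1 h7 h8 hq0.le
  have h10 : F.H * (q * N) = F.δ0 * F.m := by
    rw [hq]
    field_simp
  rw [h3, ← h10]
  have h11 := mul_le_mul_of_nonneg_left h9 hH.le
  linarith [mul_assoc F.H ((2 * r) ^ F.α * Real.exp (-(6 * F.ε0 * t))) (1 + F.Th o (1 / σ) t),
    mul_assoc ((2 * r) ^ F.α) (Real.exp (-(6 * F.ε0 * t))) (1 + F.Th o (1 / σ) t)]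

theorem θ0_le_θ1 : F.θ0 ≤ F.θ1 := by
  rw [θ0, θ1, Real.exp_le_exp, mul_div_assoc, F.ε0_div_α]
  linarith [F.β_pos]

theorem θ1_le_one : F.θ1 ≤ 1 := by
  rw [θ1, Real.exp_le_one_iff, mul_div_assoc, F.ε0_div_α]
  linarith [F.β_pos]

theorem θ0_pos : 0 < F.θ0 := Real.exp_pos _

theorem θ0_lt_one : F.θ0 < 1 := by
  rw [θ0, Real.exp_lt_one_iff]
  linarith [F.β_pos]

theorem G0_neutral {lc : ℝ} (h : lc ≤ F.β / 256) : F.G0 lc ^ 128 * F.b ≤ 1 := by
  have hb : F.b = Real.exp (-F.β) := by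
    rw [β, neg_neg, Real.exp_log F.b_pos]
  rw [G0, hb, ← Real.exp_nat_mul, ← Real.exp_add, Real.exp_le_one_iff, mul_div_assoc,
    F.ε0_div_α]
  have h1 := F.δ0_le_β
  have h2 := F.ε0_le_β
  have h3 := F.β_pos
  push_cast
  linarith

theorem one_le_G0 {lc : ℝ} (h : 0 ≤ lc) : 1 ≤ F.G0 lc := by
  rw [G0, Real.one_le_exp_iff, mul_div_assoc, F.ε0_div_α]
  linarith [F.β_pos, F.ε0_pos, F.δ0_pos]


end Dis

end Pool.Agent.Lib.MP_3fe454_an.PD
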